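import Pool.Agent.Helper7.JT.Base

/-!
Project JT, shared lemmas (helper90): entire functions on a finite dimensional complex space are
smooth; identity theorem; the zero set has empty interior.
-/

set_option autoImplicit false

namespace Pool.Agent.Helper7.JT

open MeasureTheory Module Filter Topology Asymptotics Metric

section

variable {V : Type} [NormedAddCommGroup V] [NormedSpace ℂ V]

/-- derivative along a line -/
theorem hasDerivAt_line {f : V → ℂ} (hf : Differentiable ℂ f) (z v : V) (s : ℂ) :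
    HasDerivAt (fun s : ℂ => f (z + s • v)) (fderiv ℂ f (z + s • v) v) s := by
  have h1 : HasDerivAt (fun s : ℂ => z + s • v) v s := by
    simpa using ((hasDerivAt_id s).smul_const v).const_add z
  exact (hf (z + s • v)).hasFDerivAt.comp_hasDerivAt s h1

theorem differentiable_line {f : V → ℂ} (hf : Differentiable ℂ f) (z v : V) :
    Differentiable ℂ (fun s : ℂ => f (z + s • v)) :=
  fun s => (hasDerivAt_line hf z v s).differentiableAt

theorem deriv_line {f : V → ℂ} (hf : Differentiable ℂ f) (z v : V) (s : ℂ) :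
    deriv (fun s : ℂ => f (z + s • v)) s = fderiv ℂ f (z + s • v) v :=
  (hasDerivAt_line hf z v s).deriv

/-- Cauchy estimate for a directional derivative. -/
theorem norm_fderiv_apply_le {f : V → ℂ} (hf : Differentiable ℂ f) (z v : V) (M : ℝ)
    (hM : ∀ s : ℂ, ‖s‖ = 1 → ‖f (z + s • v)‖ ≤ M) : ‖fderiv ℂ f z v‖ ≤ M := by
  have h1 := deriv_line hf z v 0
  rw [zero_smul, add_zero] at h1
  rw [← h1]
  have h2 := Complex.norm_deriv_le_of_forall_mem_sphere_norm_le (c := 0) (R := 1) (C := M)
    (f := fun s : ℂ => f (z + s • v)) one_pos (differentiable_line hf z v).diffContOnCl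
    (fun s hs => hM s (by simpa using hs))
  simpa using h2

theorem norm_fderiv_le {f : V → ℂ} (hf : Differentiable ℂ f) (z : V) (M : ℝ)
    (hM : ∀ u : V, ‖u‖ ≤ 1 → ‖f (z + u)‖ ≤ M) : ‖fderiv ℂ f z‖ ≤ M := by
  have hM0 : 0 ≤ M := (norm_nonneg _).trans (hM 0 (by simp))
  refine ContinuousLinearMap.opNorm_le_of_unit_norm (𝕜 := ℂ) hM0 fun v hv => ?_
  exact norm_fderiv_apply_le hf z v M fun s hs => hM _ (by rw [norm_smul, hs, hv, one_mul])

/-- Cauchy formula for a directional derivative. -/
theorem fderiv_apply_eq_integral {f : V → ℂ} (hf : Differentiable ℂ f) (z v : V) :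
    fderiv ℂ f z v = (2 * Real.pi * Complex.I : ℂ)⁻¹ * ∫ φ : ℝ in 0..2 * Real.pi,
      (deriv (circleMap 0 1) φ * (1 / (circleMap 0 1 φ) ^ 2)) * f (z + circleMap 0 1 φ • v) := by
  have h1 := deriv_line hf z v 0
  rw [zero_smul, add_zero] at h1
  have h2 := (differentiable_line hf z v).differentiableOn (s := closedBall (0 : ℂ) 1)
    |>.deriv_eq_smul_circleIntegral one_pos
  rw [h1] at h2
  have h3 : (2 * Real.pi * Complex.I : ℂ) ≠ 0 := Complex.two_pi_I_ne_zero
  rw [eq_inv_mul_iff_mul_eq₀ h3]
  rw [smul_eq_mul] at h2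
  rw [← h2, circleIntegral]
  refine intervalIntegral.integral_congr fun φ _ => ?_
  simp only [smul_eq_mul, sub_zero]
  ring

variable [FiniteDimensional ℂ V]

/-- The directional derivative of an entire function is entire. -/
theorem differentiable_fderiv_apply {f : V → ℂ} (hf : Differentiable ℂ f) (v : V) :
    Differentiable ℂ (fun z => fderiv ℂ f z v) := by
  borelize V
  have hprop : ProperSpace V := FiniteDimensional.proper ℂ V
  intro z₀
  have he : (fun z => fderiv ℂ f z v) = fun z => (2 * Real.pi * Complex.I : ℂ)⁻¹ *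
      ∫ φ : ℝ in 0..2 * Real.pi, (deriv (circleMap 0 1) φ * (1 / (circleMap 0 1 φ) ^ 2)) *
        f (z + circleMap 0 1 φ • v) := by
    funext z
    exact fderiv_apply_eq_integral hf z v
  rw [he]
  refine DifferentiableAt.const_mul ?_ _
  -- bound
  obtain ⟨M, hM⟩ := (isCompact_closedBall z₀ (‖v‖ + 2)).exists_bound_of_continuousOn
    hf.continuous.continuousOn
  have hc : ∀ φ : ℝ, ‖deriv (circleMap 0 1) φ * (1 / (circleMap 0 1 φ) ^ 2)‖ = 1 := by
    intro φ
    simp [deriv_circleMap, circleMap, Complex.norm_exp]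
  have hcont : Continuous fun φ : ℝ => deriv (circleMap 0 1) φ * (1 / (circleMap 0 1 φ) ^ 2) := by
    simp only [deriv_circleMap]
    refine ((continuous_circleMap 0 1).mul continuous_const).mul
      (continuous_const.div ((continuous_circleMap 0 1).pow 2) fun φ => ?_)
    simp [circleMap]
  have hF : ∀ z : V, Continuous fun φ : ℝ =>
      (deriv (circleMap 0 1) φ * (1 / (circleMap 0 1 φ) ^ 2)) * f (z + circleMap 0 1 φ • v) :=
    fun z => hcont.mul (hf.continuous.comp
      (continuous_const.add ((continuous_circleMap 0 1).smul continuous_const)))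
  simp only [intervalIntegral.integral_of_le Real.two_pi_pos.le]
  refine (hasFDerivAt_integral_of_dominated_of_fderiv_le (𝕜 := ℂ)
    (μ := volume.restrict (Set.Ioc 0 (2 * Real.pi)))
    (F := fun z φ => (deriv (circleMap 0 1) φ * (1 / (circleMap 0 1 φ) ^ 2)) *
      f (z + circleMap 0 1 φ • v))
    (F' := fun z φ => (deriv (circleMap 0 1) φ * (1 / (circleMap 0 1 φ) ^ 2)) •
      fderiv ℂ f (z + circleMap 0 1 φ • v)) (bound := fun _ => M) (x₀ := z₀)
    (s := ball z₀ 1) (ball_mem_nhds z₀ one_pos) ?_ ?_ ?_ ?_ ?_ ?_).differentiableAt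
  · exact Eventually.of_forall fun z => (hF z).aestronglyMeasurable
  · exact ((hF z₀).integrableOn_Icc (a := 0) (b := 2 * Real.pi)).mono_set Set.Ioc_subset_Icc_self
  · refine AEStronglyMeasurable.smul hcont.aestronglyMeasurable ?_
    refine Measurable.aestronglyMeasurable ?_
    exact (measurable_fderiv ℂ f).comp
      (continuous_const.add ((continuous_circleMap 0 1).smul continuous_const)).measurable
  · refine Eventually.of_forall fun φ z hz => ?_
    rw [norm_smul, hc, one_mul]
    refine norm_fderiv_le hf _ M fun u hu => hM _ ?_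
    rw [mem_closedBall, dist_eq_norm]
    have h1 : ‖circleMap 0 1 φ • v‖ = ‖v‖ := by
      rw [norm_smul]
      simp [circleMap, Complex.norm_exp]
    rw [mem_ball, dist_eq_norm] at hz
    calc ‖z + circleMap 0 1 φ • v + u - z₀‖ = ‖(z - z₀) + circleMap 0 1 φ • v + u‖ := by
          congr 1
          abel
      _ ≤ ‖z - z₀‖ + ‖circleMap 0 1 φ • v‖ + ‖u‖ := norm_add₃_le
      _ ≤ ‖v‖ + 2 := by rw [h1]; linarith
  · exact integrable_const _
  · refine Eventually.of_forall fun φ z _ => ?_
    have h1 : HasFDerivAt (fun z => f (z + circleMap 0 1 φ • v))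
        (fderiv ℂ f (z + circleMap 0 1 φ • v)) z :=
      (hasFDerivAt_comp_add_right (circleMap 0 1 φ • v)).2
        (hf (z + circleMap 0 1 φ • v)).hasFDerivAt
    exact h1.const_mul _

/-- Entire functions are smooth. -/
theorem contDiff_of_entire (n : ℕ) : ∀ {f : V → ℂ}, Differentiable ℂ f → ContDiff ℂ n f := by
  induction n with
  | zero =>
    intro f hf
    exact contDiff_zero.2 hf.continuous
  | succ n ih =>
    intro f hf
    rw [Nat.cast_add, Nat.cast_one]
    refine contDiff_succ_iff_fderiv_apply.2 ⟨hf, fun h => ?_, fun y =>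
      ih (differentiable_fderiv_apply hf y)⟩
    exact absurd h (by simp)

theorem contDiff_infty_of_entire {f : V → ℂ} (hf : Differentiable ℂ f) :
    ContDiff ℂ ((⊤ : ℕ∞) : WithTop ℕ∞) f :=
  contDiff_infty.2 fun n => contDiff_of_entire n hf

/-- The derivative of an entire function is entire. -/
theorem differentiable_fderiv {f : V → ℂ} (hf : Differentiable ℂ f) :
    Differentiable ℂ (fderiv ℂ f) := by
  have h : ContDiff ℂ ((2 : ℕ) : WithTop ℕ∞) f := contDiff_of_entire 2 hf
  have h2 : ContDiff ℂ 1 (fderiv ℂ f) := h.fderiv_right (m := 1) (by norm_num)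
  exact h2.differentiable (by norm_num)

end

section

variable {V : Type} [NormedAddCommGroup V] [NormedSpace ℂ V]

/-- Identity theorem for an entire function of one variable. -/
theorem eq_zero_of_eventually {h : ℂ → ℂ} (hh : Differentiable ℂ h) {s₀ : ℂ}
    (h0 : ∀ᶠ s in 𝓝 s₀, h s = 0) (s : ℂ) : h s = 0 := by
  have h1 : AnalyticOnNhd ℂ h Set.univ := fun x _ => hh.analyticAt x
  have h2 : AnalyticOnNhd ℂ (fun _ : ℂ => (0 : ℂ)) Set.univ := fun x _ => analyticAt_const
  have h3 := h1.eq_of_eventuallyEq h2 (z₀ := s₀) h0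
  exact congrFun h3 s

/-- Identity theorem on a complex vector space. -/
theorem eq_zero_of_eventually_zero {f : V → ℂ} (hf : Differentiable ℂ f) {z₀ : V}
    (h0 : ∀ᶠ z in 𝓝 z₀, f z = 0) (z : V) : f z = 0 := by
  have h1 := differentiable_line hf z₀ (z - z₀)
  have h2 : ∀ᶠ s : ℂ in 𝓝 0, f (z₀ + s • (z - z₀)) = 0 := by
    have h3 : Tendsto (fun s : ℂ => z₀ + s • (z - z₀)) (𝓝 0) (𝓝 z₀) := by
      have : Continuous fun s : ℂ => z₀ + s • (z - z₀) := by fun_prop
      simpa using this.tendsto 0
    exact h3.eventually h0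
  have h3 := eq_zero_of_eventually h1 h2 1
  simpa using h3

/-- The zero set of a nonzero entire function has empty interior. -/
theorem dense_ne_zero {f : V → ℂ} (hf : Differentiable ℂ f) (h : ∃ z, f z ≠ 0) :
    Dense {z | f z ≠ 0} := by
  intro y
  rw [mem_closure_iff_frequently]
  intro hcon
  obtain ⟨z, hz⟩ := h
  refine hz (eq_zero_of_eventually_zero hf (z₀ := y) ?_ z)
  simpa using hcon

/-- Two continuous functions which agree where `f ≠ 0` are equal. -/
theorem eq_of_eq_of_ne_zero {f : V → ℂ} (hf : Differentiable ℂ f) (h : ∃ z, f z ≠ 0)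
    {g g' : V → ℂ} (hg : Continuous g) (hg' : Continuous g') (he : ∀ z, f z ≠ 0 → g z = g' z) :
    g = g' :=
  Continuous.ext_on (dense_ne_zero hf h) hg hg' fun z hz => he z hz

end

end Pool.Agent.Helper7.JT
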