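import Pool.Agent.Helper7.JT.Base

/-! Module Char: characters of the lattice come from `V`. -/

set_option autoImplicit false

namespace Pool.Agent.Helper7.JT

open Module

section

variable {V : Type} [NormedAddCommGroup V] [InnerProductSpace ℂ V]

theorem coe_smul_Char (c : ℝ) (x : V) : c • x = (c : ℂ) • x := (Complex.coe_smul c x).symm

/-- `E` as a real linear map to the dual. -/
noncomputable def EfDual_Char (V : Type) [NormedAddCommGroup V] [InnerProductSpace ℂ V] :
    V →ₗ[ℝ] V →ₗ[ℝ] ℝ :=
  LinearMap.mk₂ ℝ (fun x l => Ef x l) (fun x y z => Ef_add_left x y z)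
    (fun c x y => by rw [coe_smul_Char, Ef_smul_left]; rfl)
    (fun x y z => Ef_add_right x y z)
    (fun c x y => by rw [coe_smul_Char, Ef_smul_right]; rfl)

theorem EfDual_apply_Char (x l : V) : EfDual_Char V x l = Ef x l := rfl

theorem EfDual_inj_Char : Function.Injective (EfDual_Char V) := by
  rw [← LinearMap.ker_eq_bot, LinearMap.ker_eq_bot']
  intro x hx
  have h1 : Ef x (Complex.I • x) = 0 := by
    rw [← EfDual_apply_Char, hx]
    rfl
  have h2 : Ef x (Complex.I • x) = -‖x‖ ^ 2 := by
    unfold Ef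
    rw [Hm_smul_right, Hm_self]
    simp [← Complex.ofReal_pow]
  rw [h2] at h1
  have h3 : ‖x‖ = 0 := by
    have : ‖x‖ ^ 2 = 0 := by linarith
    exact pow_eq_zero_iff (two_ne_zero) |>.1 this
  exact norm_eq_zero.1 h3

theorem Ef_surj_Char [FiniteDimensional ℂ V] (φ : V →ₗ[ℝ] ℝ) : ∃ x : V, ∀ l, Ef x l = φ l := by
  haveI : FiniteDimensional ℝ V := FiniteDimensional.complexToReal V
  have h1 : finrank ℝ V = finrank ℝ (V →ₗ[ℝ] ℝ) := (Subspace.dual_finrank_eq (K := ℝ) (V := V)).symm
  obtain ⟨x, hx⟩ := (LinearMap.injective_iff_surjective_of_finrank_eq_finrank h1).1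
    (EfDual_inj_Char (V := V)) φ
  exact ⟨x, fun l => by rw [← hx]; rfl⟩

end

theorem hChar : StChar := by
  intro V _ _ _ L _ _ ψ hψ1 hψm
  haveI : FiniteDimensional ℝ V := FiniteDimensional.complexToReal V
  haveI := ZLattice.module_free ℝ L
  haveI := ZLattice.module_finite ℝ L
  let b := Module.Free.chooseBasis ℤ L
  let B := b.ofZLatticeBasis ℝ L
  have hθ : ∀ i, ∃ θ : ℝ, Complex.exp (θ * Complex.I) = ψ (b i : V) := fun i =>
    (Complex.norm_eq_one_iff _).1 (hψ1 _ (b i).2)
  choose θ hθ using hθ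
  obtain ⟨x, hx⟩ := Ef_surj_Char (B.constr ℝ fun i => θ i / (2 * Real.pi))
  refine ⟨x, ?_⟩
  have hψ0 : ψ 0 = 1 := by
    have h1 := hψm 0 L.zero_mem 0 L.zero_mem
    rw [add_zero] at h1
    have h2 : ψ 0 ≠ 0 := by
      intro h
      have := hψ1 0 L.zero_mem
      rw [h, norm_zero] at this
      exact zero_ne_one this
    exact (mul_left_cancel₀ h2 (by rw [mul_one]; exact h1)).symm
  have hχadd : ∀ l m : V, Complex.exp (((2 * Real.pi * Ef x (l + m) : ℝ) : ℂ) * Complex.I) =
      Complex.exp (((2 * Real.pi * Ef x l : ℝ) : ℂ) * Complex.I) *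
        Complex.exp (((2 * Real.pi * Ef x m : ℝ) : ℂ) * Complex.I) := by
    intro l m
    rw [← Complex.exp_add, Ef_add_right]
    congr 1
    push_cast
    ring
  let S : AddSubgroup L :=
    { carrier := {l | ψ (l : V) = Complex.exp (((2 * Real.pi * Ef x (l : V) : ℝ) : ℂ) * Complex.I)}
      add_mem' := by
        intro l m hl hm
        show ψ ((l : V) + m) = _
        have hl' : ψ (l : V) = _ := hl
        have hm' : ψ (m : V) = _ := hm
        rw [hψm _ l.2 _ m.2, hl', hm']
        exact (hχadd _ _).symm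
      zero_mem' := by
        show ψ ((0 : L) : V) = _
        rw [ZeroMemClass.coe_zero, hψ0]
        simp
      neg_mem' := by
        intro l hl
        have hl' : ψ (l : V) = _ := hl
        show ψ ((-l : L) : V) =
          Complex.exp (((2 * Real.pi * Ef x ((-l : L) : V) : ℝ) : ℂ) * Complex.I)
        have h1 := hψm _ l.2 _ (-l).2
        have h2 := hχadd (l : V) ((-l : L) : V)
        have h3 : (l : V) + ((-l : L) : V) = 0 := by simp
        rw [h3, hψ0] at h1
        rw [h3] at h2
        have h4 : Complex.exp (((2 * Real.pi * Ef x (0 : V) : ℝ) : ℂ) * Complex.I) = 1 := by simp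
        rw [h4, ← hl', h1] at h2
        have h5 : ψ (l : V) ≠ 0 := by
          intro h
          have := hψ1 _ l.2
          rw [h, norm_zero] at this
          exact zero_ne_one this
        exact mul_left_cancel₀ h5 h2 }
  have hS : ∀ l : L, l ∈ AddSubgroup.toIntSubmodule S := by
    intro l
    have h1 : Submodule.span ℤ (Set.range b) ≤ AddSubgroup.toIntSubmodule S := by
      rw [Submodule.span_le]
      rintro _ ⟨i, rfl⟩
      show ψ ((b i : L) : V) =
        Complex.exp (((2 * Real.pi * Ef x ((b i : L) : V) : ℝ) : ℂ) * Complex.I)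
      have h2 : ((b i : L) : V) = B i := (b.ofZLatticeBasis_apply ℝ L i).symm
      rw [hx, h2, Basis.constr_basis, ← h2, ← hθ i]
      congr 2
      rw [mul_div_cancel₀ _ (by positivity)]
    rw [b.span_eq] at h1
    exact h1 Submodule.mem_top
  intro l hl
  exact hS ⟨l, hl⟩

end Pool.Agent.Helper7.JT
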