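import Pool.Agent.Helper7.JT.Base

/-!
Covolume of a unimodular lattice.
-/

namespace Pool.Agent.Helper7.JT

open MeasureTheory Module Matrix

private theorem gram_Cov {ι V : Type} [Fintype ι] [DecidableEq ι] [NormedAddCommGroup V]
    [InnerProductSpace ℝ V] (o : OrthonormalBasis ι ℝ V) (f : V →ₗ[ℝ] V) (b : ι → V) :
    (Matrix.of fun i j => inner ℝ (b i) (f (b j))) =
      (o.toBasis.toMatrix b)ᵀ * (LinearMap.toMatrix o.toBasis o.toBasis f * o.toBasis.toMatrix b) := by
  ext i j
  rw [Matrix.of_apply, ← o.sum_inner_mul_inner (b i) (f (b j)), Matrix.mul_apply]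
  refine Finset.sum_congr rfl fun k _ => ?_
  have h1 : (o.toBasis.toMatrix b)ᵀ i k = inner ℝ (b i) (o k) := by
    rw [Matrix.transpose_apply, Basis.toMatrix_apply, OrthonormalBasis.coe_toBasis_repr_apply,
      OrthonormalBasis.repr_apply_apply, real_inner_comm]
  have h2 : (LinearMap.toMatrix o.toBasis o.toBasis f * o.toBasis.toMatrix b) k j =
      inner ℝ (o k) (f (b j)) := by
    have h3 := congrFun (LinearMap.toMatrix_mulVec_repr o.toBasis o.toBasis f (b j)) k
    rw [OrthonormalBasis.coe_toBasis_repr_apply, OrthonormalBasis.repr_apply_apply] at h3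
    rw [← h3]
    rfl
  rw [h1, h2]

private theorem vol_Cov (V : Type) [NormedAddCommGroup V] [InnerProductSpace ℂ V]
    [FiniteDimensional ℂ V] [MeasurableSpace V] [BorelSpace V] :
    let _ : InnerProductSpace ℝ V := InnerProductSpace.complexToReal
    ∀ (ι : Type) [Fintype ι] (o : OrthonormalBasis ι ℝ V),
      (vol V).real (ZSpan.fundamentalDomain o.toBasis) = 1 ∧ (vol V).IsAddHaarMeasure := by
  intro _ ι _ o
  have h0 : vol V = (volume : Measure V) := rfl
  have h1 : (volume : Measure V).IsAddHaarMeasure := inferInstance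
  refine ⟨?_, by rw [h0]; exact h1⟩
  rw [h0, measureReal_congr (ZSpan.fundamentalDomain_ae_parallelepiped o.toBasis volume),
    OrthonormalBasis.coe_toBasis, measureReal_def, o.volume_parallelepiped]
  rfl

private theorem Ef_Cov {V : Type} [NormedAddCommGroup V] [InnerProductSpace ℂ V] :
    let _ : InnerProductSpace ℝ V := InnerProductSpace.complexToReal
    ∀ x y : V, Ef x y = inner ℝ x (Complex.I • y) := by
  intro _ x y
  have h : (inner ℝ x (Complex.I • y) : ℝ) = RCLike.re (inner ℂ x (Complex.I • y)) := rfl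
  rw [h, inner_smul_right, Ef, Hm, ← inner_conj_symm y x, Complex.conj_im]
  simp

theorem hCov : StCov := by
  intro V _ _ _ _ _ L _ _ t ht hP
  let iR : InnerProductSpace ℝ V := InnerProductSpace.complexToReal
  classical
  let b := Module.Free.chooseBasis ℤ L
  let b' := b.ofZLatticeBasis ℝ L
  have hcard : Fintype.card (Module.Free.ChooseBasisIndex ℤ L) = finrank ℝ V :=
    (finrank_eq_card_basis b').symm
  let o : OrthonormalBasis (Module.Free.ChooseBasisIndex ℤ L) ℝ V :=
    (stdOrthonormalBasis ℝ V).reindex (Fintype.equivOfCardEq (by simp [hcard]))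
  set c : ℝ := ZLattice.covolume L (vol V) with hc
  obtain ⟨hvol, hHaar⟩ := vol_Cov V _ o
  let bV : Module.Free.ChooseBasisIndex ℤ L → V := fun i => (b i : V)
  have hcov : c = |(o.toBasis.toMatrix bV).det| := by
    rw [hc, ZLattice.covolume_eq_det_mul_measureReal L (vol V) b o.toBasis, hvol, mul_one]
    rfl
  -- the matrix of `E`
  let Jl : V →ₗ[ℝ] V :=
    { toFun := fun x => Complex.I • x
      map_add' := smul_add _
      map_smul' := fun r x => smul_comm _ _ _ }
  have hJ2 : Jl ∘ₗ Jl = -LinearMap.id := by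
    ext x
    change Complex.I • Complex.I • x = -x
    rw [smul_smul, Complex.I_mul_I, neg_one_smul]
  set J := LinearMap.toMatrix o.toBasis o.toBasis Jl with hJ
  have hn : Fintype.card (Module.Free.ChooseBasisIndex ℤ L) = 2 * finrank ℂ V := by
    rw [hcard, finrank_real_of_complex]
  have hJdet : J.det ^ 2 = 1 := by
    have h1 : J * J = -1 := by
      rw [hJ, ← LinearMap.toMatrix_comp, hJ2, map_neg, LinearMap.toMatrix_id]
    rw [pow_two, ← Matrix.det_mul, h1, Matrix.det_neg, Matrix.det_one, mul_one, hn, pow_mul]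
    simp
  set B := o.toBasis.toMatrix bV with hB
  have hM : (Matrix.of fun i j => Ef (bV i) (bV j)) = Bᵀ * (J * B) := by
    rw [hB, hJ, ← gram_Cov o Jl bV]
    ext i j
    exact Ef_Cov _ _
  -- the integral matrix
  choose N hN using fun i j => hP.1 (bV i) (b i).2 (bV j) (b j).2
  have hNM : (Matrix.of N).map (Int.cast : ℤ → ℝ) = t • (Matrix.of fun i j => Ef (bV i) (bV j)) := by
    ext i j
    simp only [Matrix.map_apply, Matrix.of_apply, Matrix.smul_apply, smul_eq_mul]
    exact (hN i j).symm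
  choose mv hmv hmE using fun k => hP.2 ((b.coord k).toAddMonoidHom)
  let C : Matrix _ _ ℤ := Matrix.of fun j k => b.repr ⟨mv k, hmv k⟩ j
  have hNC : Matrix.of N * C = 1 := by
    ext i k
    have h1 : (((Matrix.of N * C) i k : ℤ) : ℝ) = (((1 : Matrix _ _ ℤ) i k : ℤ) : ℝ) := by
      rw [Matrix.mul_apply, Int.cast_sum]
      have h2 : (⟨mv k, hmv k⟩ : L) = ∑ j, C j k • b j := (b.sum_repr _).symm
      have h3 : mv k = ∑ j, ((C j k : ℤ) : ℝ) • bV j := by
        have := congrArg (fun u : L => (u : V)) h2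
        simp only [Submodule.coe_sum, Submodule.coe_smul] at this
        rw [this]
        refine Finset.sum_congr rfl fun j _ => ?_
        rw [Int.cast_smul_eq_zsmul]
      have h4 := hmE k (b i)
      have h5 : (((b.coord k).toAddMonoidHom (b i) : ℤ) : ℝ) =
          (((1 : Matrix _ _ ℤ) i k : ℤ) : ℝ) := by
        rw [LinearMap.toAddMonoidHom_coe, Basis.coord_apply, Basis.repr_self, Matrix.one_apply,
          Finsupp.single_apply]
      rw [← h5, h4, h3]
      have h6 : ∀ x : V, ∀ s : Finset (Module.Free.ChooseBasisIndex ℤ L),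
          Ef x (∑ j ∈ s, ((C j k : ℤ) : ℝ) • bV j) = ∑ j ∈ s, ((C j k : ℤ) : ℝ) * Ef x (bV j) := by
        intro x s
        rw [Ef_Cov, Finset.smul_sum, inner_sum]
        refine Finset.sum_congr rfl fun j _ => ?_
        rw [smul_comm, inner_smul_right, ← Ef_Cov]
      rw [h6, Finset.mul_sum]
      refine Finset.sum_congr rfl fun j _ => ?_
      rw [Int.cast_mul, Matrix.of_apply, ← hN]
      ring
    exact_mod_cast h1
  have hdetN : ((Matrix.of N).det : ℤ) ^ 2 = 1 := by
    have h1 : (Matrix.of N).det * C.det = 1 := by rw [← Matrix.det_mul, hNC, Matrix.det_one]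
    have h2 := Int.isUnit_iff.1 (IsUnit.of_mul_eq_one _ h1)
    rcases h2 with h2 | h2 <;> rw [h2] <;> norm_num
  have hdet : ((Matrix.of N).det : ℝ) =
      t ^ (2 * finrank ℂ V) * (B.det * (J.det * B.det)) := by
    have h1 : ((Matrix.of N).det : ℝ) = ((Matrix.of N).map (Int.cast : ℤ → ℝ)).det := by
      have := RingHom.map_det (Int.castRingHom ℝ) (Matrix.of N)
      exact this
    rw [h1, hNM, hM, Matrix.det_smul, hn, Matrix.det_mul, Matrix.det_mul, Matrix.det_transpose]
  have hsq : (t ^ finrank ℂ V * c) ^ 4 = 1 := by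
    have h1 : (((Matrix.of N).det : ℤ) : ℝ) ^ 2 = 1 := by exact_mod_cast hdetN
    rw [hdet] at h1
    have h2 : c ^ 4 = B.det ^ 4 := by
      rw [hcov, show |B.det| ^ 4 = (|B.det| ^ 2) ^ 2 by ring, sq_abs]
      ring
    calc (t ^ finrank ℂ V * c) ^ 4 = (t ^ finrank ℂ V) ^ 4 * c ^ 4 := by ring
      _ = (t ^ finrank ℂ V) ^ 4 * B.det ^ 4 * 1 := by rw [h2]; ring
      _ = (t ^ finrank ℂ V) ^ 4 * B.det ^ 4 * J.det ^ 2 := by rw [hJdet]
      _ = (t ^ (2 * finrank ℂ V) * (B.det * (J.det * B.det))) ^ 2 := by rw [pow_mul' t 2]; ring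
      _ = 1 := h1
  have hpos : 0 ≤ t ^ finrank ℂ V * c := by
    rw [hcov]
    positivity
  exact (pow_eq_one_iff_of_nonneg hpos (by norm_num)).1 hsq

end Pool.Agent.Helper7.JT
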