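import Pool.Agent.Helper7.JT.Base

/-! Project JT, module Dim: the dimension bound for the space of sections. -/

set_option linter.unusedSectionVars false

namespace Pool.Agent.Helper7.JT

open MeasureTheory Module Filter Topology Asymptotics

section

variable (V : Type) [NormedAddCommGroup V] [InnerProductSpace ℂ V] [FiniteDimensional ℂ V]
  [MeasurableSpace V] [BorelSpace V]

theorem haar_Dim : (vol V).IsAddHaarMeasure := by
  unfold vol
  let _ := InnerProductSpace.complexToReal (G := V)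
  exact inferInstanceAs ((volume : Measure V).IsAddHaarMeasure)

variable {V}

theorem integrable_gauss_Dim {c : ℝ} (hc : 0 < c) :
    Integrable (fun w : V => Real.exp (-(c * ‖w‖ ^ 2))) (vol V) := by
  let _ := InnerProductSpace.complexToReal (G := V)
  have h := GaussianFourier.integrable_cexp_neg_mul_sq_norm_add (V := V) (b := (c : ℂ))
    (by simpa using hc) 0 0
  have h2 : Integrable (fun w : V => Real.exp (-(c * ‖w‖ ^ 2))) (volume : Measure V) := by
    refine h.norm.congr (Eventually.of_forall fun w => ?_)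
    simp only [zero_mul, add_zero]
    rw [Complex.norm_exp]
    congr 1
    rw [neg_mul, Complex.neg_re]
    congr 1
    norm_cast
  exact h2

variable (L : Submodule ℤ V) [DiscreteTopology L] [IsZLattice ℝ L]

theorem unfold_Dim {D : Set V} (hD : IsAddFundamentalDomain L D (vol V)) {G : V → ℂ}
    (hG : Integrable G (vol V)) :
    ∫ w, G w ∂(vol V) = ∫ w in D, ∑' l : L, G (w - l) ∂(vol V) := by
  have := haar_Dim V
  have : MeasurableVAdd L V := (inferInstance : MeasurableVAdd L.toAddSubgroup V)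
  have : VAddInvariantMeasure L V (vol V) :=
    (inferInstance : VAddInvariantMeasure L.toAddSubgroup V (vol V))
  have : Countable L := inferInstance
  rw [hD.integral_eq_tsum' G hG]
  have h1 : ∀ l : L, ∀ w : V, G (-l +ᵥ w) = G (w - l) := by
    intro l w
    congr 1
    show ((-l : L) : V) + w = w - l
    push_cast
    abel
  simp_rw [h1]
  rw [integral_tsum]
  · intro l
    have h2 : AEStronglyMeasurable (fun w => G (w - l)) (vol V) :=
      hG.1.comp_quasiMeasurePreserving
        (measurePreserving_sub_right (vol V) (l : V)).quasiMeasurePreserving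
    exact h2.restrict
  · have h3 := hD.lintegral_eq_tsum' (fun w => ‖G w‖ₑ)
    simp_rw [h1] at h3
    rw [← h3]
    exact hG.2.ne

end

section

variable {V : Type} [NormedAddCommGroup V] [InnerProductSpace ℂ V] [FiniteDimensional ℂ V]

/-- The function `exp (pi t H(., w))`. -/
noncomputable def Fw_Dim (t : ℝ) (w : V) : V → ℂ := fun u =>
  Complex.exp (((Real.pi * t : ℝ) : ℂ) * Hm u w)

theorem loc_Fw_Dim {t : ℝ} (ht : 0 < t) (w : V) : Loc t (Fw_Dim t w) := by
  constructor
  · have h1 : Differentiable ℂ (fun z : V => Hm z w) := by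
      have : (fun z : V => Hm z w) = fun z => (innerSL ℂ w) z := by
        funext z
        simp [Hm]
      rw [this]
      exact (innerSL ℂ w).differentiable
    exact (h1.const_mul _).cexp
  · refine ⟨Real.exp (Real.pi * t * ‖w‖ ^ 2), Real.pi * t / 4, by positivity, fun z => ?_⟩
    rw [Fw_Dim, Complex.norm_exp, ← Real.exp_add, Complex.re_ofReal_mul]
    apply Real.exp_le_exp.2
    have h1 := (abs_le.1 (re_Hm_le z w)).2
    have h2 : 0 < Real.pi * t := by positivity
    nlinarith [sq_nonneg (‖z‖ - 2 * ‖w‖), mul_le_mul_of_nonneg_left h1 h2.le,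
      mul_nonneg h2.le (sq_nonneg (‖z‖ - 2 * ‖w‖))]

/-- The kernel. -/
noncomputable def PK_Dim (L : Submodule ℤ V) (t : ℝ) (χ : V → ℂ) (z w : V) : ℂ :=
  ∑' l : L, (starRingEnd ℂ) (χ l) * Tr t (l : V) (Fw_Dim t w) z

variable (L : Submodule ℤ V)

theorem PK_sec_Dim [DiscreteTopology L] [IsZLattice ℝ L] (hPois : StPois) {t : ℝ} (ht : 0 < t)
    {χ : V → ℂ} (hI : IntT L t) (hχ : IsSemichar L t χ) (w : V) :
    IsSec L t χ (fun z => PK_Dim L t χ z w) := by
  obtain ⟨S, hS, h1, -⟩ := hPois V L t χ (Fw_Dim t w) ht hI hχ (loc_Fw_Dim ht w)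
  have : (fun z => PK_Dim L t χ z w) = S := by
    funext z
    exact (h1 z).tsum_eq
  rw [this]
  exact hS

theorem PK_conj_Dim {t : ℝ} {χ : V → ℂ} (hχ : IsSemichar L t χ) (z w : V) :
    (starRingEnd ℂ) (PK_Dim L t χ w z) = PK_Dim L t χ z w := by
  rw [PK_Dim, PK_Dim, Complex.conj_tsum, ← (Equiv.neg L).tsum_eq]
  refine tsum_congr fun l => ?_
  simp only [Equiv.neg_apply]
  have hn : ((-l : L) : V) = -(l : V) := by push_cast; rfl
  rw [hn, hχ.neg l.2, map_mul, Complex.conj_conj, Tr_apply, Tr_apply, Fw_Dim,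
    Fw_Dim, map_mul, ← Complex.exp_conj, ← Complex.exp_conj, ← Complex.exp_add, ← Complex.exp_add]
  congr 2
  simp only [map_sub, map_add, map_neg, map_mul, Complex.conj_ofReal, Hm_conj, Hm_neg_right, Hm_neg_left,
    Hm_add_left, norm_neg]
  ring

theorem PK_diag_Dim {t : ℝ} {χ : V → ℂ} (z : V) :
    PK_Dim L t χ z z * ((Real.exp (-(Real.pi * t * ‖z‖ ^ 2)) : ℝ) : ℂ) =
      ∑' l : L, (starRingEnd ℂ) (χ l) * ((Real.exp (-(Real.pi * t / 2 * ‖(l : V)‖ ^ 2)) : ℝ) : ℂ) *
        Complex.exp (((2 * Real.pi * t * Ef z (-(l : V)) : ℝ) : ℂ) * Complex.I) := by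
  rw [PK_Dim, ← tsum_mul_right]
  refine tsum_congr fun l => ?_
  rw [mul_assoc ((starRingEnd ℂ) (χ l)), mul_assoc ((starRingEnd ℂ) (χ l))]
  congr 1
  rw [Tr_apply, Fw_Dim, ← Complex.exp_add, Complex.ofReal_exp, Complex.ofReal_exp,
    ← Complex.exp_add, ← Complex.exp_add]
  congr 1
  have h := Hm_sub_swap z (l : V)
  rw [Hm_add_left, Hm_self, Ef_neg_right]
  have h2 : Hm (l : V) z = Hm z l - ((2 * Ef z l : ℝ) : ℂ) * Complex.I := by
    rw [← h]; ring
  rw [h2]
  push_cast
  ring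

theorem PK_term_Dim {t : ℝ} {χ f : V → ℂ} (hχ : IsSemichar L t χ) (hf : IsSec L t χ f) (z w : V)
    (l : L) :
    f (w - l) * Complex.exp (((Real.pi * t : ℝ) : ℂ) * Hm z (w - l)) *
        ((Real.exp (-(Real.pi * t * ‖w - l‖ ^ 2)) : ℝ) : ℂ) =
      f w * ((starRingEnd ℂ) (χ l) * Tr t (l : V) (Fw_Dim t w) z) *
        ((Real.exp (-(Real.pi * t * ‖w‖ ^ 2)) : ℝ) : ℂ) := by
  have h1 : f (w - l) = (starRingEnd ℂ) (χ l) * fac t w (-(l : V)) * f w := by
    rw [sub_eq_add_neg, hf.2 (-(l : V)) (L.neg_mem l.2) w, hχ.neg l.2]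
  obtain ⟨r, hr⟩ : ∃ r : ℝ, (Hm w (l : V)).re = r := ⟨_, rfl⟩
  have h2 : Hm w (l : V) = (r : ℂ) + ((Ef w (l : V) : ℝ) : ℂ) * Complex.I := by
    rw [Ef, ← hr]
    exact (Complex.re_add_im _).symm
  have h3 : Hm (l : V) w = (r : ℂ) - ((Ef w (l : V) : ℝ) : ℂ) * Complex.I := by
    rw [← Hm_conj w (l : V)]
    conv_lhs => rw [h2]
    simp
    ring
  rw [h1, fac, Tr_apply, Fw_Dim, Complex.ofReal_exp, Complex.ofReal_exp]
  have e1 : ∀ a b c d e : ℂ, a * Complex.exp b * c * Complex.exp d * Complex.exp e =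
      c * a * Complex.exp (b + d + e) := by
    intro a b c d e
    rw [Complex.exp_add, Complex.exp_add]
    ring
  have e2 : ∀ a c b d e : ℂ, c * (a * (Complex.exp b * Complex.exp d)) * Complex.exp e =
      c * a * Complex.exp (b + d + e) := by
    intro a b c d e
    rw [Complex.exp_add, Complex.exp_add]
    ring
  rw [e1, e2]
  congr 2
  rw [norm_sub_sq', norm_neg, Hm_neg_right, Hm_sub_right, Hm_add_left, hr, h3, h2]
  push_cast
  ring

end

theorem exists_orthonormal_Dim {S E : Type*} [AddCommGroup S] [Module ℂ S] [NormedAddCommGroup E]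
    [InnerProductSpace ℂ E] (Φ : S →ₗ[ℂ] E) (hΦ : Function.Injective Φ) {m : ℕ} (f : Fin m → S)
    (hf : LinearIndependent ℂ f) : ∃ g : Fin m → S, Orthonormal ℂ (fun i => Φ (g i)) := by
  have h1 : LinearIndependent ℂ (Φ ∘ f) := hf.map' Φ (LinearMap.ker_eq_bot.2 hΦ)
  have h2 := InnerProductSpace.gramSchmidtNormed_orthonormal h1
  have h3 : ∀ i, ∃ g : S, Φ g = InnerProductSpace.gramSchmidtNormed ℂ (Φ ∘ f) i := by
    intro i
    have h4 : InnerProductSpace.gramSchmidtNormed ℂ (Φ ∘ f) i ∈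
        Submodule.span ℂ (Set.range (Φ ∘ f)) := by
      rw [← InnerProductSpace.span_gramSchmidt, ← InnerProductSpace.span_gramSchmidtNormed_range]
      exact Submodule.subset_span ⟨i, rfl⟩
    have h5 : Submodule.span ℂ (Set.range (Φ ∘ f)) ≤ LinearMap.range Φ := by
      rw [Submodule.span_le]
      rintro _ ⟨j, rfl⟩
      exact ⟨f j, rfl⟩
    exact h5 h4
  choose g hg using h3
  refine ⟨g, ?_⟩
  have : (fun i => Φ (g i)) = InnerProductSpace.gramSchmidtNormed ℂ (Φ ∘ f) := funext hg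
  rw [this]
  exact h2

section

variable {V : Type} [NormedAddCommGroup V] [InnerProductSpace ℂ V] [FiniteDimensional ℂ V]

/-- The sections as a subspace. -/
def Sec_Dim (L : Submodule ℤ V) (t : ℝ) (χ : V → ℂ) : Submodule ℂ (V → ℂ) where
  carrier := {f | IsSec L t χ f}
  add_mem' := by
    rintro f g ⟨hf1, hf2⟩ ⟨hg1, hg2⟩
    refine ⟨hf1.add hg1, fun l hl z => ?_⟩
    rw [Pi.add_apply, Pi.add_apply, hf2 l hl, hg2 l hl]
    ring
  zero_mem' := by
    refine ⟨differentiable_const 0, fun l hl z => ?_⟩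
    simp
  smul_mem' := by
    rintro c f ⟨hf1, hf2⟩
    refine ⟨hf1.const_smul c, fun l hl z => ?_⟩
    rw [Pi.smul_apply, Pi.smul_apply, hf2 l hl, smul_eq_mul, smul_eq_mul]
    ring

variable [MeasurableSpace V] [BorelSpace V]

/-- The embedding in `L^2`. -/
noncomputable def Emb_Dim (L : Submodule ℤ V) (t : ℝ) (χ : V → ℂ) (μ : Measure V)
    (hm : ∀ f : Sec_Dim L t χ,
      MemLp (fun w => f.1 w * ((Real.exp (-(Real.pi * t / 2 * ‖w‖ ^ 2)) : ℝ) : ℂ)) 2 μ) :
    Sec_Dim L t χ →ₗ[ℂ] Lp ℂ 2 μ where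
  toFun f := (hm f).toLp
  map_add' := by
    intro f g
    rw [← MemLp.toLp_add]
    congr 1
    funext w
    simp [add_mul]
  map_smul' := by
    intro c f
    rw [RingHom.id_apply, ← MemLp.toLp_const_smul]
    congr 1
    funext w
    simp [mul_assoc]

theorem inner_Emb_Dim (L : Submodule ℤ V) (t : ℝ) (χ : V → ℂ) (μ : Measure V)
    (hm : ∀ f : Sec_Dim L t χ,
      MemLp (fun w => f.1 w * ((Real.exp (-(Real.pi * t / 2 * ‖w‖ ^ 2)) : ℝ) : ℂ)) 2 μ)
    (f g : Sec_Dim L t χ) :
    inner ℂ (Emb_Dim L t χ μ hm f) (Emb_Dim L t χ μ hm g) =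
      ∫ w, (starRingEnd ℂ) (f.1 w) * g.1 w * ((Real.exp (-(Real.pi * t * ‖w‖ ^ 2)) : ℝ) : ℂ) ∂μ := by
  rw [L2.inner_def]
  refine integral_congr_ae ?_
  have h1 : (Emb_Dim L t χ μ hm f : V → ℂ) =ᵐ[μ]
    (fun w => f.1 w * ((Real.exp (-(Real.pi * t / 2 * ‖w‖ ^ 2)) : ℝ) : ℂ)) := (hm f).coeFn_toLp
  have h2 : (Emb_Dim L t χ μ hm g : V → ℂ) =ᵐ[μ]
    (fun w => g.1 w * ((Real.exp (-(Real.pi * t / 2 * ‖w‖ ^ 2)) : ℝ) : ℂ)) := (hm g).coeFn_toLp
  filter_upwards [h1, h2] with w hw1 hw2
  rw [hw1, hw2, RCLike.inner_apply, map_mul, Complex.conj_ofReal]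
  have h3 : (((Real.exp (-(Real.pi * t * ‖w‖ ^ 2)) : ℝ) : ℂ)) =
      ((Real.exp (-(Real.pi * t / 2 * ‖w‖ ^ 2)) : ℝ) : ℂ) *
      ((Real.exp (-(Real.pi * t / 2 * ‖w‖ ^ 2)) : ℝ) : ℂ) := by
    rw [← Complex.ofReal_mul, ← Real.exp_add]
    congr 2
    ring
  rw [h3]
  ring

end


section

variable {V : Type} [NormedAddCommGroup V] [InnerProductSpace ℂ V] [FiniteDimensional ℂ V]
  [MeasurableSpace V] [BorelSpace V]

theorem continuous_Hm_right_Dim (z : V) : Continuous (fun w : V => Hm z w) := by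
  unfold Hm
  exact continuous_id.inner continuous_const

theorem continuous_Ef_left_Dim (l : V) : Continuous (fun z : V => Ef z l) := by
  unfold Ef Hm
  exact Complex.continuous_im.comp (continuous_const.inner continuous_id)

theorem repro_D_Dim (hRepro : StRepro) (L : Submodule ℤ V) [DiscreteTopology L] [IsZLattice ℝ L]
    {t : ℝ} (ht : 0 < t) {χ f : V → ℂ} (hχ : IsSemichar L t χ) (hf : IsSec L t χ f) {D : Set V}
    (hD : IsAddFundamentalDomain L D (vol V)) {C : ℝ}
    (hC : ∀ z, ‖f z‖ ≤ C * Real.exp (Real.pi * t / 2 * ‖z‖ ^ 2)) (z : V) :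
    f z = (t : ℂ) ^ (finrank ℂ V) * ∫ w in D, f w * PK_Dim L t χ z w *
      ((Real.exp (-(Real.pi * t * ‖w‖ ^ 2)) : ℝ) : ℂ) ∂(vol V) := by
  have hG : Integrable (fun w : V => f w * Complex.exp (((Real.pi * t : ℝ) : ℂ) * Hm z w) *
      ((Real.exp (-(Real.pi * t * ‖w‖ ^ 2)) : ℝ) : ℂ)) (vol V) := by
    have h0 : 0 < Real.pi * t / 4 := by positivity
    have h1 := (integrable_gauss_Dim (V := V) h0).const_mul (C * Real.exp (Real.pi * t * ‖z‖ ^ 2))
    refine h1.mono' ?_ (Eventually.of_forall fun w => ?_)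
    · refine Continuous.aestronglyMeasurable ?_
      refine (hf.1.continuous.mul ?_).mul ?_
      · exact (continuous_const.mul (continuous_Hm_right_Dim z)).cexp
      · refine Complex.continuous_ofReal.comp (Real.continuous_exp.comp ?_)
        exact (continuous_const.mul (continuous_norm.pow 2)).neg
    · rw [norm_mul, norm_mul, Complex.norm_exp, Complex.norm_real, Real.norm_of_nonneg
        (Real.exp_pos _).le, Complex.re_ofReal_mul]
      have h2 := hC w
      have h3 : 0 ≤ C * Real.exp (Real.pi * t / 2 * ‖w‖ ^ 2) := (norm_nonneg _).trans h2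
      have h4 := (abs_le.1 (re_Hm_le z w)).2
      have h5 : 0 < Real.pi * t := by positivity
      calc ‖f w‖ * Real.exp (Real.pi * t * (Hm z w).re) * Real.exp (-(Real.pi * t * ‖w‖ ^ 2))
          ≤ C * Real.exp (Real.pi * t / 2 * ‖w‖ ^ 2) *
            Real.exp (Real.pi * t * ‖z‖ ^ 2 + Real.pi * t / 4 * ‖w‖ ^ 2) *
            Real.exp (-(Real.pi * t * ‖w‖ ^ 2)) := by
            gcongr
            nlinarith [mul_le_mul_of_nonneg_left h4 h5.le,
              mul_nonneg h5.le (sq_nonneg (2 * ‖z‖ - ‖w‖))]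
        _ = C * Real.exp (Real.pi * t * ‖z‖ ^ 2) * Real.exp (-(Real.pi * t / 4 * ‖w‖ ^ 2)) := by
            have e1 : ∀ a b c d : ℝ, a * Real.exp b * Real.exp c * Real.exp d =
                a * Real.exp (b + c + d) := by
              intro a b c d
              rw [Real.exp_add, Real.exp_add]
              ring
            have e2 : ∀ a b c : ℝ, a * Real.exp b * Real.exp c = a * Real.exp (b + c) := by
              intro a b c
              rw [Real.exp_add]
              ring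
            rw [e1, e2]
            congr 2
            ring
  rw [hRepro V t f ht hf.1 ⟨C, hC⟩ z, unfold_Dim L hD hG]
  congr 1
  refine integral_congr_ae (Eventually.of_forall fun w => ?_)
  simp only
  rw [PK_Dim, ← tsum_mul_left, ← tsum_mul_right]
  exact tsum_congr fun l => PK_term_Dim L hχ hf z w l

theorem summable_gauss_Dim (L : Submodule ℤ V) [DiscreteTopology L] {c : ℝ} (hc : 0 < c) :
    Summable (fun l : L => Real.exp (-(c * ‖(l : V)‖ ^ 2))) := by
  refine Summable.of_nonneg_of_le (fun _ => (Real.exp_pos _).le) (fun l => ?_)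
    ((summable_exp_norm L (one_pos)).mul_left (Real.exp (1 / (4 * c))))
  rw [← Real.exp_add]
  apply Real.exp_le_exp.2
  have h : 0 ≤ c * (‖(l : V)‖ - 1 / (2 * c)) ^ 2 := by positivity
  have h2 : c * (‖(l : V)‖ - 1 / (2 * c)) ^ 2 = c * ‖(l : V)‖ ^ 2 - ‖(l : V)‖ + 1 / (4 * c) := by
    field_simp
    ring
  linarith


/-- The restriction of the kernel to the diagonal. -/
theorem diag_Dim (L : Submodule ℤ V) [DiscreteTopology L] [IsZLattice ℝ L] (hOrth : StOrth)
    {t : ℝ} (ht : 0 < t) {χ : V → ℂ} (hI : IntT L t) (hχ : IsSemichar L t χ) {D : Set V}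
    (hD : IsAddFundamentalDomain L D (vol V)) (hb : Bornology.IsBounded D) :
    IntegrableOn (fun z => PK_Dim L t χ z z * ((Real.exp (-(Real.pi * t * ‖z‖ ^ 2)) : ℝ) : ℂ)) D
      (vol V) ∧
    ∫ z in D, PK_Dim L t χ z z * ((Real.exp (-(Real.pi * t * ‖z‖ ^ 2)) : ℝ) : ℂ) ∂(vol V) =
      (((vol V).real D : ℝ) : ℂ) := by
  have hH := haar_Dim V
  have hfin : (vol V) D ≠ ⊤ := hb.measure_lt_top.ne
  have hFM : IsFiniteMeasure ((vol V).restrict D) := ⟨by
    rw [Measure.restrict_apply_univ]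
    exact hb.measure_lt_top⟩
  set a : L → ℂ := fun l =>
    (starRingEnd ℂ) (χ l) * ((Real.exp (-(Real.pi * t / 2 * ‖(l : V)‖ ^ 2)) : ℝ) : ℂ) with ha
  set e : L → V → ℂ := fun l z =>
    Complex.exp (((2 * Real.pi * t * Ef z (-(l : V)) : ℝ) : ℂ) * Complex.I) with he
  have hdiag : (fun z => PK_Dim L t χ z z * ((Real.exp (-(Real.pi * t * ‖z‖ ^ 2)) : ℝ) : ℂ)) =
      fun z => ∑' l : L, a l * e l z := by
    funext z
    exact PK_diag_Dim L z
  have hna : ∀ l : L, ‖a l‖ = Real.exp (-(Real.pi * t / 2 * ‖(l : V)‖ ^ 2)) := by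
    intro l
    rw [ha]
    simp only
    rw [norm_mul, RCLike.norm_conj, hχ.1 l l.2, one_mul, Complex.norm_real,
      Real.norm_of_nonneg (Real.exp_pos _).le]
  have hne : ∀ l z, ‖e l z‖ = 1 := fun l z => Complex.norm_exp_ofReal_mul_I _
  have hsum : Summable (fun l : L => ‖a l‖) := by
    have h0 : 0 < Real.pi * t / 2 := by positivity
    exact (summable_gauss_Dim L h0).congr fun l => (hna l).symm
  have hec : ∀ l, Continuous (e l) := by
    intro l
    have h1 : Continuous (fun z : V => (2 * Real.pi * t * Ef z (-(l : V)) : ℝ)) :=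
      continuous_const.mul (continuous_Ef_left_Dim _)
    exact ((Complex.continuous_ofReal.comp h1).mul continuous_const).cexp
  have hterm : ∀ l, Continuous (fun z => a l * e l z) := fun l => continuous_const.mul (hec l)
  have hcont : Continuous (fun z => ∑' l : L, a l * e l z) := by
    refine continuous_tsum hterm hsum fun l z => ?_
    rw [norm_mul, hne, mul_one]
  rw [hdiag]
  constructor
  · refine Integrable.of_bound (C := ∑' l : L, ‖a l‖) hcont.aestronglyMeasurable
      (Eventually.of_forall fun z => ?_)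
    refine (norm_tsum_le_tsum_norm ?_).trans_eq ?_
    · exact hsum.congr fun l => by rw [norm_mul (a l) (e l z), hne, mul_one]
    · exact tsum_congr fun l => by rw [norm_mul (a l) (e l z), hne, mul_one]
  · have hint : ∀ l : L, Integrable (fun z => a l * e l z) ((vol V).restrict D) := by
      intro l
      refine Integrable.of_bound (C := ‖a l‖) (hterm l).aestronglyMeasurable
        (Eventually.of_forall fun z => ?_)
      rw [norm_mul, hne, mul_one]
    have hcount : Countable L := inferInstance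
    have hswap := integral_tsum_of_summable_integral_norm hint (by
      have : ∀ l : L, ∫ z in D, ‖a l * e l z‖ ∂(vol V) = ‖a l‖ * (vol V).real D := by
        intro l
        simp_rw [norm_mul, hne, mul_one]
        rw [setIntegral_const, smul_eq_mul, mul_comm]
      simp_rw [this]
      exact hsum.mul_right _)
    rw [← hswap, tsum_eq_single (0 : L)]
    · have h1 : ∀ z : V, a 0 * e 0 z = 1 := by
        intro z
        simp [ha, he, hχ.zero]
      simp_rw [h1]
      rw [setIntegral_const, Complex.real_smul, mul_one]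
    · intro l hl
      have hl' : -(l : V) ≠ 0 := by
        intro h
        exact hl (Subtype.ext (neg_eq_zero.1 h))
      rw [integral_const_mul, hOrth V L t D ht hI hD hb (-(l : V)) (L.neg_mem l.2) hl', mul_zero]

end

theorem hDim (hGrowth : StGrowth) (hRepro : StRepro) (hOrth : StOrth) (hPois : StPois) :
    StDim := by
  intro V _ _ _ _ _ L _ _ t χ ht hI hχ m f hf hlin
  have hH := haar_Dim V
  set D : Set V := ZSpan.fundamentalDomain ((Module.Free.chooseBasis ℤ L).ofZLatticeBasis ℝ) with hDdef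
  have hD : IsAddFundamentalDomain L D (vol V) := ZLattice.isAddFundamentalDomain _ _
  have hb : Bornology.IsBounded D := ZSpan.fundamentalDomain_isBounded _
  have hFM : IsFiniteMeasure ((vol V).restrict D) := ⟨by
    rw [Measure.restrict_apply_univ]
    exact hb.measure_lt_top⟩
  rw [ZLattice.covolume_eq_measure_fundamentalDomain L (vol V) hD]
  have hgr : ∀ h : V → ℂ, IsSec L t χ h →
      ∃ C : ℝ, ∀ z, ‖h z‖ ≤ C * Real.exp (Real.pi * t / 2 * ‖z‖ ^ 2) :=
    fun h hh => hGrowth V L t χ h ht hχ hh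
  have hwc : ∀ c : ℝ, Continuous (fun w : V => ((Real.exp (-(c * ‖w‖ ^ 2)) : ℝ) : ℂ)) := by
    intro c
    refine Complex.continuous_ofReal.comp (Real.continuous_exp.comp ?_)
    exact (continuous_const.mul (continuous_norm.pow 2)).neg
  have hm : ∀ h : Sec_Dim L t χ,
      MemLp (fun w => h.1 w * ((Real.exp (-(Real.pi * t / 2 * ‖w‖ ^ 2)) : ℝ) : ℂ)) 2
        ((vol V).restrict D) := by
    rintro ⟨h, hh⟩
    obtain ⟨C, hC⟩ := hgr h hh
    refine MemLp.of_bound (hh.1.continuous.mul (hwc _)).aestronglyMeasurable C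
      (Eventually.of_forall fun w => ?_)
    rw [norm_mul, Complex.norm_real, Real.norm_of_nonneg (Real.exp_pos _).le, Real.exp_neg]
    have h1 := Real.exp_pos (Real.pi * t / 2 * ‖w‖ ^ 2)
    rw [← div_eq_mul_inv, div_le_iff₀ h1]
    exact hC w
  set Φ := Emb_Dim L t χ ((vol V).restrict D) hm with hΦdef
  -- the reproducing elements
  set k : V → Sec_Dim L t χ := fun z => (t : ℂ) ^ (finrank ℂ V) •
    ⟨fun w => PK_Dim L t χ w z, PK_sec_Dim L hPois ht hI hχ z⟩ with hk
  have hk1 : ∀ z w, (k z).1 w = (t : ℂ) ^ (finrank ℂ V) * PK_Dim L t χ w z := fun z w => rfl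
  have hrep : ∀ (z : V) (h : Sec_Dim L t χ), inner ℂ (Φ (k z)) (Φ h) = h.1 z := by
    intro z h
    obtain ⟨C, hC⟩ := hgr h.1 h.2
    rw [hΦdef, inner_Emb_Dim, repro_D_Dim hRepro L ht hχ h.2 hD hC z, ← integral_const_mul]
    refine integral_congr_ae (Eventually.of_forall fun w => ?_)
    simp only
    rw [hk1, map_mul, map_pow, Complex.conj_ofReal, PK_conj_Dim L hχ z w]
    ring
  have hinj : Function.Injective Φ := by
    rw [← LinearMap.ker_eq_bot, LinearMap.ker_eq_bot']
    intro h hh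
    apply Subtype.ext
    funext z
    rw [← hrep z h, hh, inner_zero_right]
    rfl
  obtain ⟨g, hg⟩ := exists_orthonormal_Dim Φ hinj (fun i => (⟨f i, hf i⟩ : Sec_Dim L t χ)) (by
    refine LinearIndependent.of_comp (Sec_Dim L t χ).subtype ?_
    exact hlin)
  -- pointwise Bessel inequality
  have hbes : ∀ z, ∑ i, ‖(g i).1 z‖ ^ 2 ≤ t ^ (finrank ℂ V) * (PK_Dim L t χ z z).re := by
    intro z
    have h1 := hg.sum_inner_products_le (x := Φ (k z)) (s := Finset.univ)
    have h2 : ‖Φ (k z)‖ ^ 2 = t ^ (finrank ℂ V) * (PK_Dim L t χ z z).re := by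
      rw [@norm_sq_eq_re_inner ℂ, hrep, hk1, ← Complex.ofReal_pow]
      exact Complex.re_ofReal_mul _ _
    rw [h2] at h1
    refine le_trans (le_of_eq ?_) h1
    refine Finset.sum_congr rfl fun i _ => ?_
    rw [norm_inner_symm, hrep]
  -- the norms
  have hnorm : ∀ i, ∫ w in D, ‖(g i).1 w‖ ^ 2 * Real.exp (-(Real.pi * t * ‖w‖ ^ 2)) ∂(vol V) = 1 := by
    intro i
    have h1 : inner ℂ (Φ (g i)) (Φ (g i)) = (1 : ℂ) := by
      rw [inner_self_eq_norm_sq_to_K, hg.1 i]
      simp
    rw [hΦdef, inner_Emb_Dim] at h1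
    have h2 : (fun w => (starRingEnd ℂ) ((g i).1 w) * (g i).1 w *
        ((Real.exp (-(Real.pi * t * ‖w‖ ^ 2)) : ℝ) : ℂ)) =
        fun w => ((‖(g i).1 w‖ ^ 2 * Real.exp (-(Real.pi * t * ‖w‖ ^ 2)) : ℝ) : ℂ) := by
      funext w
      rw [mul_comm ((starRingEnd ℂ) ((g i).1 w)), Complex.mul_conj, Complex.normSq_eq_norm_sq]
      push_cast
      rfl
    rw [h2, integral_complex_ofReal] at h1
    exact_mod_cast h1
  have hintg : ∀ i, Integrable (fun w => ‖(g i).1 w‖ ^ 2 * Real.exp (-(Real.pi * t * ‖w‖ ^ 2)))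
      ((vol V).restrict D) := by
    intro i
    by_contra hcon
    have := hnorm i
    rw [integral_undef hcon] at this
    exact zero_ne_one this
  obtain ⟨hK1, hK2⟩ := diag_Dim L hOrth ht hI hχ hD hb
  have hre : ∀ z : V, (PK_Dim L t χ z z * ((Real.exp (-(Real.pi * t * ‖z‖ ^ 2)) : ℝ) : ℂ)).re =
      (PK_Dim L t χ z z).re * Real.exp (-(Real.pi * t * ‖z‖ ^ 2)) := by
    intro z
    rw [mul_comm, Complex.re_ofReal_mul, mul_comm]
  have hK3 : Integrable (fun z => (PK_Dim L t χ z z).re * Real.exp (-(Real.pi * t * ‖z‖ ^ 2)))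
      ((vol V).restrict D) := by
    refine (hK1.re).congr (Eventually.of_forall fun z => ?_)
    exact hre z
  have hK4 : ∫ z in D, (PK_Dim L t χ z z).re * Real.exp (-(Real.pi * t * ‖z‖ ^ 2)) ∂(vol V) =
      (vol V).real D := by
    have h1 := integral_re hK1
    rw [hK2] at h1
    have h2 : RCLike.re (((vol V).real D : ℝ) : ℂ) = (vol V).real D := Complex.ofReal_re _
    rw [h2] at h1
    rw [← h1]
    refine integral_congr_ae (Eventually.of_forall fun z => ?_)
    exact (hre z).symm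
  calc (m : ℝ) = ∑ i : Fin m, ∫ w in D, ‖(g i).1 w‖ ^ 2 * Real.exp (-(Real.pi * t * ‖w‖ ^ 2))
        ∂(vol V) := by
        simp [hnorm]
    _ = ∫ w in D, ∑ i : Fin m, ‖(g i).1 w‖ ^ 2 * Real.exp (-(Real.pi * t * ‖w‖ ^ 2)) ∂(vol V) :=
        (integral_finsetSum _ fun i _ => hintg i).symm
    _ ≤ ∫ w in D, t ^ (finrank ℂ V) * ((PK_Dim L t χ w w).re *
        Real.exp (-(Real.pi * t * ‖w‖ ^ 2))) ∂(vol V) := by
        refine integral_mono (integrable_finsetSum _ fun i _ => hintg i) (hK3.const_mul _) ?_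
        intro w
        simp only
        rw [← Finset.sum_mul, ← mul_assoc]
        exact mul_le_mul_of_nonneg_right (hbes w) (Real.exp_pos _).le
    _ = t ^ (finrank ℂ V) * (vol V).real D := by
        rw [integral_const_mul, hK4]

end Pool.Agent.Helper7.JT
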