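import Pool.Agent.Helper7.JT.Base

namespace Pool.Agent.Helper7.JT

open MeasureTheory Module Filter Topology Asymptotics

theorem hDisc : StDisc := by
  intro V _ _ _ L χ θ hχ hθ hne f y hf hy
  by_contra hcon
  push Not at hcon
  obtain ⟨b, hb⟩ : ∃ b, f b = 1 := by
    obtain ⟨c, hc⟩ : ∃ c, f c ≠ 0 := by
      by_contra h
      push Not at h
      exact hf (by ext c; simpa using h c)
    exact ⟨(f c)⁻¹ • c, by simp [hc]⟩
  obtain ⟨z₀, hz₀⟩ := hne
  apply hz₀
  set w : V := z₀ - y - (f (z₀ - y)) • b with hwdef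
  have hw : f w = 0 := by
    rw [hwdef, map_sub, map_smul, hb, smul_eq_mul, mul_one, sub_self]
  have hg : Differentiable ℂ (fun s : ℂ => θ (y + w + s • b)) := by
    refine hθ.1.comp ?_
    exact (differentiable_const _).add (differentiable_id.smul_const b)
  have hzero : ∃ᶠ s in 𝓝[≠] (0 : ℂ), (fun s : ℂ => θ (y + w + s • b)) s = 0 := by
    rw [Filter.frequently_iff]
    intro U hU
    rw [mem_nhdsWithin] at hU
    obtain ⟨O, hO, h0, hOU⟩ := hU
    obtain ⟨r, hr, hrO⟩ := Metric.isOpen_iff.1 hO 0 h0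
    obtain ⟨l, hl, hl0, hlr⟩ := hcon r hr
    refine ⟨f l, hOU ⟨hrO (by simpa using hlr), by simpa using hl0⟩, ?_⟩
    have h1 := hθ.2 l hl (y + (w + f l • b - l))
    have h2 : θ (y + (w + f l • b - l)) = 0 := by
      apply hy
      rw [map_sub, map_add, hw, map_smul, hb]
      simp
    rw [h2, mul_zero] at h1
    have h3 : y + (w + f l • b - l) + l = y + w + f l • b := by abel
    rw [h3] at h1
    exact h1
  have h1 : (fun s : ℂ => θ (y + w + s • b)) = fun _ => 0 := by
    have hA : AnalyticOnNhd ℂ (fun s : ℂ => θ (y + w + s • b)) Set.univ :=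
      fun x _ => hg.analyticAt x
    have := hA.eqOn_zero_of_preconnected_of_frequently_eq_zero isPreconnected_univ
      (Set.mem_univ 0) hzero
    funext s
    exact this (Set.mem_univ s)
  have h2 := congrFun h1 (f (z₀ - y))
  beta_reduce at h2
  have h3 : y + w + f (z₀ - y) • b = z₀ := by
    rw [hwdef]
    abel
  rw [h3] at h2
  exact h2

end Pool.Agent.Helper7.JT
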