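import Pool.Agent.Helper7.JT.Smooth

namespace Pool.Agent.Helper7.JT

open MeasureTheory Module Filter Topology Asymptotics

/-- Division in one variable. -/
private theorem quot_Div {f g : ℂ → ℂ} (hf : Differentiable ℂ f) (hg : Differentiable ℂ g)
    (hne : ∃ s, g s ≠ 0) (hb : ∀ c, ∃ C : ℝ, ∀ᶠ s in 𝓝 c, ‖f s‖ ≤ C * ‖g s‖) :
    ∃ H : ℂ → ℂ, Differentiable ℂ H ∧ ∀ s, g s ≠ 0 → H s = f s / g s := by
  classical
  set q : ℂ → ℂ := fun s => f s / g s with hq
  refine ⟨fun s => if g s = 0 then limUnder (𝓝[≠] s) q else q s, ?_, fun s hs => if_neg hs⟩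
  intro c
  have h1 : ∀ᶠ s in 𝓝[≠] c, g s ≠ 0 := by
    rcases (hg.analyticAt c).eventually_eq_zero_or_eventually_ne_zero with h | h
    · exfalso
      obtain ⟨s, hs⟩ := hne
      exact hs (eq_zero_of_eventually hg h s)
    · exact h
  obtain ⟨C, hC⟩ := hb c
  have h2 : ∀ᶠ s in 𝓝 c, (s ≠ c → g s ≠ 0) ∧ ‖f s‖ ≤ C * ‖g s‖ := by
    rw [eventually_nhdsWithin_iff] at h1
    filter_upwards [h1, hC] with s hs hs'
    exact ⟨hs, hs'⟩
  obtain ⟨ε, hε, hball⟩ := Metric.eventually_nhds_iff_ball.1 h2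
  by_cases hgc : g c = 0
  · have hd : DifferentiableOn ℂ q (Metric.ball c ε \ {c}) := by
      intro s hs
      exact ((hf s).div (hg s) ((hball s hs.1).1 hs.2)).differentiableWithinAt
    have hbd : BddAbove (norm ∘ q '' (Metric.ball c ε \ {c})) := by
      refine ⟨C, ?_⟩
      rintro _ ⟨s, hs, rfl⟩
      have h3 : g s ≠ 0 := (hball s hs.1).1 hs.2
      have h4 := (hball s hs.1).2
      rw [Function.comp_apply, hq]
      beta_reduce
      rw [norm_div, div_le_iff₀ (norm_pos_iff.2 h3)]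
      exact h4
    have h3 := Complex.differentiableOn_update_limUnder_of_bddAbove (Metric.ball_mem_nhds c hε)
      hd hbd
    refine (h3.differentiableAt (Metric.ball_mem_nhds c hε)).congr_of_eventuallyEq ?_
    filter_upwards [Metric.ball_mem_nhds c hε] with s hs
    by_cases hsc : s = c
    · subst hsc
      rw [Function.update_self, if_pos hgc]
    · rw [Function.update_of_ne hsc, if_neg ((hball s hs).1 hsc)]
  · have h3 : ∀ᶠ s in 𝓝 c, g s ≠ 0 := hg.continuous.continuousAt.eventually_ne hgc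
    refine ((hf c).div (hg c) hgc).congr_of_eventuallyEq ?_
    filter_upwards [h3] with s hs
    rw [if_neg hs]
    rfl

/-- The local quotient. -/
private theorem local_Div {V : Type} [NormedAddCommGroup V] [InnerProductSpace ℂ V]
    [FiniteDimensional ℂ V] {θ K : V → ℂ} (hθ : Differentiable ℂ θ) (hK : Differentiable ℂ K)
    (hne : ∃ z, θ z ≠ 0) (hb : ∀ y, ∃ C : ℝ, ∀ᶠ z in 𝓝 y, ‖K z‖ ≤ C * ‖θ z‖) (y : V) :
    ∃ (G : V → ℂ) (ε : ℝ), 0 < ε ∧ DifferentiableOn ℂ G (Metric.ball y ε) ∧
      ∀ z ∈ Metric.ball y ε, θ z ≠ 0 → G z = K z / θ z := by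
  have hprop : ProperSpace V := FiniteDimensional.proper ℂ V
  obtain ⟨z₁, hz₁⟩ := hne
  set w₀ : V := z₁ - y with hw₀
  have hline : ∀ z, Differentiable ℂ (fun s : ℂ => θ (z + s • w₀)) :=
    fun z => differentiable_line hθ z w₀
  -- the radius
  obtain ⟨r, hr, hrne⟩ : ∃ r : ℝ, 0 < r ∧ ∀ s : ℂ, ‖s‖ = r → θ (y + s • w₀) ≠ 0 := by
    have h1 : ∀ᶠ s in 𝓝[≠] (0 : ℂ), θ (y + s • w₀) ≠ 0 := by
      rcases ((hline y).analyticAt 0).eventually_eq_zero_or_eventually_ne_zero with h | h
      · exfalso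
        have := eq_zero_of_eventually (hline y) h 1
        rw [one_smul, hw₀, add_sub_cancel] at this
        exact hz₁ this
      · exact h
    rw [eventually_nhdsWithin_iff] at h1
    obtain ⟨δ, hδ, hball⟩ := Metric.eventually_nhds_iff_ball.1 h1
    refine ⟨δ / 2, by positivity, fun s hs => hball s ?_ ?_⟩
    · rw [mem_ball_zero_iff, hs]
      linarith
    · intro h
      rw [Set.mem_singleton_iff] at h
      rw [h, norm_zero] at hs
      linarith
  -- the neighbourhood
  have h2 : ∀ᶠ z in 𝓝 y, ∀ s ∈ Metric.sphere (0 : ℂ) r, θ (z + s • w₀) ≠ 0 := by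
    refine (isCompact_sphere (0 : ℂ) r).eventually_forall_of_forall_eventually fun s hs => ?_
    have hc : Continuous (fun p : V × ℂ => θ (p.1 + p.2 • w₀)) :=
      hθ.continuous.comp (continuous_fst.add (continuous_snd.smul continuous_const))
    refine hc.continuousAt.eventually_ne ?_
    exact hrne s (by simpa using hs)
  obtain ⟨δ, hδ, hball⟩ := Metric.eventually_nhds_iff_ball.1 h2
  set ε : ℝ := δ / 2 with hεdef
  have hε : 0 < ε := by positivity
  have hcl : ∀ z ∈ Metric.closedBall y ε, ∀ s ∈ Metric.sphere (0 : ℂ) r,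
      θ (z + s • w₀) ≠ 0 := fun z hz => hball z (Metric.closedBall_subset_ball (by
        rw [hεdef]
        linarith) hz)
  -- the quotient
  set Q : V → ℂ := fun z => K z / θ z with hQ
  set O : Set V := {z | θ z ≠ 0} with hO
  have hOop : IsOpen O := isOpen_ne_fun hθ.continuous continuous_const
  have hQd : ContDiffOn ℂ 1 Q O := by
    have h3 : ContDiff ℂ ((1 : ℕ) : WithTop ℕ∞) K := contDiff_of_entire 1 hK
    have h4 : ContDiff ℂ ((1 : ℕ) : WithTop ℕ∞) θ := contDiff_of_entire 1 hθ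
    exact ContDiffOn.div (by exact_mod_cast h3.contDiffOn) (by exact_mod_cast h4.contDiffOn)
      (fun z hz => hz)
  have hQf : ContinuousOn (fderiv ℂ Q) O := hQd.continuousOn_fderiv_of_isOpen hOop le_rfl
  have hQc : ContinuousOn Q O := hQd.continuousOn
  have hQat : ∀ z ∈ O, DifferentiableAt ℂ Q z := fun z hz =>
    (hQd.differentiableOn one_ne_zero).differentiableAt (hOop.mem_nhds hz)
  have hcirc : ∀ φ : ℝ, circleMap 0 r φ ∈ Metric.sphere (0 : ℂ) r := fun φ =>
    circleMap_mem_sphere 0 hr.le φ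
  -- bound of the derivative
  obtain ⟨B, hB⟩ : ∃ B : ℝ, ∀ z ∈ Metric.closedBall y ε, ∀ s ∈ Metric.sphere (0 : ℂ) r,
      ‖fderiv ℂ Q (z + s • w₀)‖ ≤ B := by
    have hcomp : IsCompact (Metric.closedBall y ε ×ˢ Metric.sphere (0 : ℂ) r) :=
      (isCompact_closedBall y ε).prod (isCompact_sphere 0 r)
    have hc : ContinuousOn (fun p : V × ℂ => fderiv ℂ Q (p.1 + p.2 • w₀))
        (Metric.closedBall y ε ×ˢ Metric.sphere (0 : ℂ) r) := by
      refine hQf.comp (Continuous.continuousOn
        (continuous_fst.add (continuous_snd.smul continuous_const))) ?_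
      rintro ⟨z, s⟩ ⟨hz, hs⟩
      exact hcl z hz s hs
    obtain ⟨B, hB⟩ := hcomp.exists_bound_of_continuousOn hc
    exact ⟨B, fun z hz s hs => hB (z, s) ⟨hz, hs⟩⟩
  have hmap : ∀ z, Continuous (fun φ : ℝ => z + circleMap 0 r φ • w₀) := fun z =>
    continuous_const.add ((continuous_circleMap 0 r).smul continuous_const)
  refine ⟨fun z => (2 * Real.pi * Complex.I : ℂ)⁻¹ •
    ∫ φ : ℝ in 0..2 * Real.pi, Complex.I • Q (z + circleMap 0 r φ • w₀), ε, hε, ?_, ?_⟩
  · intro z₂ hz₂
    refine DifferentiableAt.differentiableWithinAt ?_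
    have hz2cl : z₂ ∈ Metric.closedBall y ε := Metric.ball_subset_closedBall hz₂
    have h3 := intervalIntegral.hasFDerivAt_integral_of_dominated_of_fderiv_le (𝕜 := ℂ)
      (μ := volume) (a := 0) (b := 2 * Real.pi)
      (F := fun z φ => Complex.I • Q (z + circleMap 0 r φ • w₀))
      (F' := fun z φ => Complex.I • fderiv ℂ Q (z + circleMap 0 r φ • w₀))
      (bound := fun _ => B) (x₀ := z₂) (s := Metric.ball y ε)
      (Metric.isOpen_ball.mem_nhds hz₂) ?_ ?_ ?_ ?_ ?_ ?_
    · exact h3.differentiableAt.const_smul (2 * Real.pi * Complex.I : ℂ)⁻¹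
    · filter_upwards [Metric.isOpen_ball.mem_nhds hz₂] with z hz
      refine Continuous.aestronglyMeasurable ?_
      exact (hQc.comp_continuous (hmap z) (fun φ => hcl z (Metric.ball_subset_closedBall hz) _
        (hcirc φ))).const_smul Complex.I
    · refine Continuous.intervalIntegrable ?_ _ _
      exact (hQc.comp_continuous (hmap z₂) (fun φ => hcl z₂ hz2cl _ (hcirc φ))).const_smul Complex.I
    · refine Continuous.aestronglyMeasurable ?_
      exact (hQf.comp_continuous (hmap z₂) (fun φ => hcl z₂ hz2cl _ (hcirc φ))).const_smul Complex.I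
    · refine Eventually.of_forall fun φ _ z hz => ?_
      rw [norm_smul, Complex.norm_I, one_mul]
      exact hB z (Metric.ball_subset_closedBall hz) _ (hcirc φ)
    · exact intervalIntegrable_const
    · refine Eventually.of_forall fun φ _ z hz => ?_
      have h4 : HasFDerivAt (fun z => Q (z + circleMap 0 r φ • w₀))
          (fderiv ℂ Q (z + circleMap 0 r φ • w₀)) z :=
        (hasFDerivAt_comp_add_right (circleMap 0 r φ • w₀)).2
          (hQat _ (hcl z (Metric.ball_subset_closedBall hz) _ (hcirc φ))).hasFDerivAt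
      exact h4.const_smul Complex.I
  · intro z hz hθz
    have hzcl : z ∈ Metric.closedBall y ε := Metric.ball_subset_closedBall hz
    obtain ⟨H, hH, hHq⟩ := quot_Div (f := fun s : ℂ => K (z + s • w₀))
      (g := fun s : ℂ => θ (z + s • w₀)) (differentiable_line hK z w₀) (hline z)
      ⟨0, by simpa using hθz⟩ (fun c => by
        obtain ⟨C, hC⟩ := hb (z + c • w₀)
        refine ⟨C, ?_⟩
        have h3 : Tendsto (fun s : ℂ => z + s • w₀) (𝓝 c) (𝓝 (z + c • w₀)) := by
          have : Continuous fun s : ℂ => z + s • w₀ := by fun_prop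
          exact this.tendsto c
        exact h3.eventually hC)
    have h3 := hH.diffContOnCl.two_pi_i_inv_smul_circleIntegral_sub_inv_smul
      (Metric.mem_ball_self (x := (0 : ℂ)) hr)
    rw [hHq 0 (by simpa using hθz)] at h3
    simp only [zero_smul, add_zero] at h3
    rw [← h3, circleIntegral]
    beta_reduce
    congr 1
    refine intervalIntegral.integral_congr fun φ _ => ?_
    rw [hHq _ (hcl z hzcl _ (hcirc φ)), deriv_circleMap, sub_zero]
    have h4 : circleMap 0 r φ ≠ 0 := circleMap_ne_center hr.ne'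
    simp only [smul_eq_mul]
    rw [hQ]
    field_simp

theorem hDiv : StDiv := by
  intro V _ _ _ θ K hθ hK hne hb
  choose G ε hε hG hGq using local_Div hθ hK hne hb
  have hprop : ProperSpace V := FiniteDimensional.proper ℂ V
  have hdense : Dense {z | θ z ≠ 0} := dense_ne_zero hθ hne
  -- the value at y
  have hval : ∀ y, ∀ z ∈ Metric.ball y (ε y), G z z = G y z := by
    intro y z hz
    have hN : (𝓝[{z | θ z ≠ 0}] z).NeBot := mem_closure_iff_nhdsWithin_neBot.1 (hdense z)
    have h1 : Tendsto (G z) (𝓝[{z | θ z ≠ 0}] z) (𝓝 (G z z)) :=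
      ((hG z).continuousOn.continuousAt (Metric.ball_mem_nhds z (hε z))).tendsto.mono_left
        nhdsWithin_le_nhds
    have h2 : Tendsto (G y) (𝓝[{z | θ z ≠ 0}] z) (𝓝 (G y z)) :=
      ((hG y).continuousOn.continuousAt (Metric.isOpen_ball.mem_nhds hz)).tendsto.mono_left
        nhdsWithin_le_nhds
    refine tendsto_nhds_unique (h1.congr' ?_) h2
    have h3 : ∀ᶠ z' in 𝓝[{z | θ z ≠ 0}] z, z' ∈ Metric.ball z (ε z) :=
      nhdsWithin_le_nhds (Metric.ball_mem_nhds z (hε z))
    have h4 : ∀ᶠ z' in 𝓝[{z | θ z ≠ 0}] z, z' ∈ Metric.ball y (ε y) :=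
      nhdsWithin_le_nhds (Metric.isOpen_ball.mem_nhds hz)
    filter_upwards [h3, h4, self_mem_nhdsWithin] with z' k1 k2 k3
    rw [hGq z z' k1 k3, hGq y z' k2 k3]
  have hψ : Differentiable ℂ (fun z => G z z) := by
    intro y
    refine ((hG y).differentiableAt (Metric.ball_mem_nhds y (hε y))).congr_of_eventuallyEq ?_
    filter_upwards [Metric.ball_mem_nhds y (hε y)] with z hz
    exact hval y z hz
  refine ⟨fun z => G z z, hψ, ?_⟩
  intro z
  have h1 : K = fun z => G z z * θ z := by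
    refine eq_of_eq_of_ne_zero hθ hne hK.continuous (hψ.mul hθ).continuous fun z hz => ?_
    rw [hGq z z (Metric.mem_ball_self (hε z)) hz, div_mul_cancel₀ _ hz]
  exact congrFun h1 z

end Pool.Agent.Helper7.JT
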