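import Pool.Agent.Helper7.JT.Base

/-!
# JT module Down (helper68): failure of IT(0) below weight 3 for product type
-/

namespace Pool.Agent.Helper7.JT

open MeasureTheory Module Filter Topology Asymptotics

section Down

variable {V : Type} [NormedAddCommGroup V] [InnerProductSpace ℂ V]

theorem Hm_coe_Down (V₁ : Submodule ℂ V) (x y : V₁) : Hm x y = Hm (x : V) (y : V) := rfl

theorem Ef_coe_Down (V₁ : Submodule ℂ V) (x y : V₁) : Ef x y = Ef (x : V) (y : V) := rfl

theorem fac_coe_Down (V₁ : Submodule ℂ V) (t : ℝ) (x y : V₁) :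
    fac t x y = fac t (x : V) (y : V) := rfl

/-- The lattice in the line. -/
def LL_Down (L : Submodule ℤ V) (V₁ : Submodule ℂ V) : Submodule ℤ V₁ :=
  L.comap (V₁.subtype.restrictScalars ℤ)

theorem mem_LL_Down (L : Submodule ℤ V) (V₁ : Submodule ℂ V) (w : V₁) :
    w ∈ LL_Down L V₁ ↔ (w : V) ∈ L := Iff.rfl

theorem discrete_Down (L : Submodule ℤ V) [DiscreteTopology L] (V₁ : Submodule ℂ V) :
    DiscreteTopology (LL_Down L V₁) := by
  let f : LL_Down L V₁ → L := fun w => ⟨(w.1 : V), w.2⟩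
  have hf : Continuous f := by
    refine Continuous.subtype_mk ?_ _
    exact continuous_subtype_val.comp continuous_subtype_val
  refine DiscreteTopology.of_continuous_injective hf ?_
  intro x y h
  have h1 := congrArg (fun z : L => (z : V)) h
  exact Subtype.ext (Subtype.ext h1)

theorem span_Down (L : Submodule ℤ V) [DiscreteTopology L] [IsZLattice ℝ L]
    (V₁ V₂ : Submodule ℂ V) (hc : IsCompl V₁ V₂)
    (hd : ∀ l ∈ L, ∃ l₁ ∈ L, ∃ l₂ ∈ L, l₁ ∈ V₁ ∧ l₂ ∈ V₂ ∧ l = l₁ + l₂) :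
    Submodule.span ℝ (LL_Down L V₁ : Set V₁) = ⊤ := by
  rw [eq_top_iff]
  rintro w -
  have h1 : (w : V) ∈ Submodule.span ℝ (L : Set V) := by
    rw [IsZLattice.span_top]
    trivial
  let p : V →ₗ[ℝ] V₁ := (Submodule.projectionOnto V₁ V₂ hc).restrictScalars ℝ
  have h2 : p (w : V) = w := Submodule.projectionOnto_apply_left hc w
  have h3 : p (w : V) ∈ (Submodule.span ℝ (L : Set V)).map p := Submodule.mem_map_of_mem h1
  rw [Submodule.map_span, h2] at h3
  refine Submodule.span_mono ?_ h3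
  rintro _ ⟨l, hl, rfl⟩
  obtain ⟨l₁, hl₁, l₂, hl₂, h₁, h₂, rfl⟩ := hd l hl
  have h4 : p (l₁ + l₂) = ⟨l₁, h₁⟩ := by
    rw [map_add]
    have h5 : p l₁ = ⟨l₁, h₁⟩ := Submodule.projectionOnto_apply_left hc ⟨l₁, h₁⟩
    have h6 : p l₂ = 0 := Submodule.projectionOnto_apply_right hc ⟨l₂, h₂⟩
    rw [h5, h6, add_zero]
  rw [h4]
  exact hl₁

theorem IntT_Down {L : Submodule ℤ V} (h : IntT L 1) (n : ℕ) : IntT L (n : ℝ) := by
  intro l hl m hm
  obtain ⟨k, hk⟩ := h l hl m hm
  rw [one_mul] at hk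
  refine ⟨n * k, ?_⟩
  rw [hk]
  push_cast
  ring

theorem principal_Down (L : Submodule ℤ V) (V₁ : Submodule ℂ V)
    (h : PrincipalT (L ⊓ V₁.restrictScalars ℤ) 1) : PrincipalT (LL_Down L V₁) 1 := by
  obtain ⟨h1, h2⟩ := h
  refine ⟨?_, ?_⟩
  · intro l hl m hm
    exact h1 l ⟨hl, l.2⟩ m ⟨hm, m.2⟩
  · intro φ
    let e : (L ⊓ V₁.restrictScalars ℤ : Submodule ℤ V) →+ LL_Down L V₁ :=
      { toFun := fun x => ⟨⟨(x : V), x.2.2⟩, x.2.1⟩
        map_zero' := rfl
        map_add' := fun _ _ => rfl }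
    obtain ⟨m, ⟨hmL, hmV⟩, hm⟩ := h2 (φ.comp e)
    refine ⟨⟨m, hmV⟩, hmL, fun l => ?_⟩
    exact hm ⟨((l : V₁) : V), l.2, (l : V₁).2⟩

theorem semichar_Down {L : Submodule ℤ V} (V₁ : Submodule ℂ V) {t : ℝ} {χ : V → ℂ}
    (h : IsSemichar L t χ) : IsSemichar (LL_Down L V₁) t (fun w : V₁ => χ w) :=
  ⟨fun l hl => h.1 l hl, fun l hl m hm => h.2 l hl m hm⟩

theorem isSec_Down {L : Submodule ℤ V} (V₁ : Submodule ℂ V) {t : ℝ} {χ f : V → ℂ}
    (h : IsSec L t χ f) : IsSec (LL_Down L V₁) t (fun w : V₁ => χ w) (fun w : V₁ => f w) := by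
  refine ⟨?_, fun l hl z => h.2 l hl z⟩
  exact h.1.comp V₁.subtypeL.differentiable

/-- A function which is continuous at `0` and `O(s)` on the punctured neighbourhood is `0` at `0`. -/
theorem zero_Down (q : ℂ → ℂ) (hq : Continuous q) (C : ℝ) (n : ℕ)
    (h : ∀ᶠ s : ℂ in 𝓝 0, ‖s ^ n * q s‖ ≤ C * ‖s‖ ^ (n + 1)) : q 0 = 0 := by
  have h1 : Tendsto q (𝓝[≠] 0) (𝓝 (q 0)) := (hq.tendsto 0).mono_left nhdsWithin_le_nhds
  have h2 : Tendsto q (𝓝[≠] 0) (𝓝 0) := by
    have h3 : Tendsto (fun s : ℂ => C * ‖s‖) (𝓝[≠] 0) (𝓝 0) := by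
      have h4 : Tendsto (fun s : ℂ => C * ‖s‖) (𝓝 0) (𝓝 (C * ‖(0 : ℂ)‖)) :=
        (continuous_const.mul continuous_norm).tendsto 0
      rw [norm_zero, mul_zero] at h4
      exact h4.mono_left nhdsWithin_le_nhds
    refine squeeze_zero_norm' ?_ h3
    filter_upwards [h.filter_mono nhdsWithin_le_nhds, self_mem_nhdsWithin] with s hs hs0
    have hs1 : 0 < ‖s‖ := norm_pos_iff.2 hs0
    rw [norm_mul, norm_pow, pow_succ] at hs
    have h5 : ‖s‖ ^ n * ‖q s‖ ≤ ‖s‖ ^ n * (C * ‖s‖) := by linarith [hs]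
    exact le_of_mul_le_mul_left h5 (pow_pos hs1 n)
  exact tendsto_nhds_unique h1 h2

/-- A quadratic polynomial which is `O(|s|^3)` vanishes. -/
theorem poly_Down (α : Fin 3 → ℂ) (h : (fun s : ℂ => ∑ k : Fin 3, α k * s ^ (k : ℕ)) =O[𝓝 0]
    fun s => ‖s‖ ^ 3) : α = 0 := by
  obtain ⟨C, hC⟩ := h.bound
  have hsm : ∀ᶠ s : ℂ in 𝓝 0, ‖s‖ ≤ 1 := by
    have h1 : Metric.closedBall (0 : ℂ) 1 ∈ 𝓝 (0 : ℂ) := Metric.closedBall_mem_nhds _ one_pos
    filter_upwards [h1] with s hs
    simpa using hs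
  have hC' : ∀ᶠ s : ℂ in 𝓝 0, ‖α 0 + α 1 * s + α 2 * s ^ 2‖ ≤ |C| * ‖s‖ ^ 3 := by
    filter_upwards [hC] with s hs
    rw [Fin.sum_univ_three] at hs
    simp only [Fin.val_zero, pow_zero, mul_one, Fin.val_one, pow_one, Fin.val_two, norm_pow,
      norm_norm] at hs
    refine hs.trans ?_
    exact mul_le_mul_of_nonneg_right (le_abs_self C) (by positivity)
  have h0 : α 0 = 0 := by
    have := zero_Down (fun s => α 0 + α 1 * s + α 2 * s ^ 2) (by fun_prop) |C| 0 (by
      filter_upwards [hC', hsm] with s hs hs1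
      rw [pow_zero, one_mul, zero_add, pow_one]
      refine hs.trans ?_
      refine mul_le_mul_of_nonneg_left ?_ (abs_nonneg C)
      exact pow_le_of_le_one (norm_nonneg _) hs1 (by norm_num))
    simpa using this
  have h1 : α 1 = 0 := by
    have := zero_Down (fun s => α 1 + α 2 * s) (by fun_prop) |C| 1 (by
      filter_upwards [hC', hsm] with s hs hs1
      rw [h0] at hs
      have h2 : s ^ 1 * (α 1 + α 2 * s) = 0 + α 1 * s + α 2 * s ^ 2 := by ring
      rw [h2]
      refine hs.trans ?_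
      refine mul_le_mul_of_nonneg_left ?_ (abs_nonneg C)
      exact pow_le_pow_of_le_one (norm_nonneg _) hs1 (by norm_num))
    simpa using this
  have h2 : α 2 = 0 := by
    have := zero_Down (fun s => α 2) (by fun_prop) |C| 2 (by
      filter_upwards [hC', hsm] with s hs hs1
      rw [h0, h1] at hs
      have h2 : s ^ 2 * α 2 = 0 + 0 * s + α 2 * s ^ 2 := by ring
      rw [h2]
      exact hs)
    simpa using this
  funext k
  fin_cases k
  · exact h0
  · exact h1
  · exact h2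

/-- Representatives of the `b`-torsion points. -/
theorem reps_Down (W : Type) [NormedAddCommGroup W] [InnerProductSpace ℂ W]
    [FiniteDimensional ℂ W] (hW : finrank ℂ W = 1) (L : Submodule ℤ W) [DiscreteTopology L]
    [IsZLattice ℝ L] (b : ℕ) (hb : 0 < b) :
    ∃ e : Fin (b ^ 2) → W, (∀ c, b • e c ∈ L) ∧ ∀ c c', e c - e c' ∈ L → c = c' := by
  classical
  let β := Module.Free.chooseBasis ℤ L
  let B := β.ofZLatticeBasis ℝ L
  have hcard : Fintype.card (Module.Free.ChooseBasisIndex ℤ L) = 2 := by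
    rw [← finrank_eq_card_chooseBasisIndex, ZLattice.rank ℝ L, finrank_real_of_complex, hW]
  let E : (Module.Free.ChooseBasisIndex ℤ L → Fin b) → W :=
    fun c => ∑ i, (((c i : ℕ) : ℝ) / b) • B i
  have hcard2 : Fintype.card (Module.Free.ChooseBasisIndex ℤ L → Fin b) = b ^ 2 := by
    rw [Fintype.card_fun, Fintype.card_fin, hcard]
  let eq := Fintype.equivFinOfCardEq hcard2
  have hbR : (b : ℝ) ≠ 0 := by exact_mod_cast hb.ne'
  refine ⟨fun c => E (eq.symm c), ?_, ?_⟩
  · intro c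
    have h1 : b • E (eq.symm c) = ∑ i, ((eq.symm c i : ℕ)) • B i := by
      rw [Finset.smul_sum]
      refine Finset.sum_congr rfl fun i _ => ?_
      rw [← Nat.cast_smul_eq_nsmul ℝ, ← Nat.cast_smul_eq_nsmul ℝ, smul_smul,
        mul_div_cancel₀ _ hbR]
    simp only
    rw [h1]
    refine Submodule.sum_mem _ fun i _ => ?_
    rw [Basis.ofZLatticeBasis_apply]
    exact L.smul_of_tower_mem _ (β i).2
  · intro c c' h
    have h1 : ∀ i, B.repr (E (eq.symm c) - E (eq.symm c')) i =
        ((eq.symm c i : ℕ) : ℝ) / b - ((eq.symm c' i : ℕ) : ℝ) / b := by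
      intro i
      rw [map_sub, Finsupp.sub_apply]
      simp only [E]
      rw [B.repr_sum_self, B.repr_sum_self]
    have h2 : ∀ i, ∃ n : ℤ, B.repr (E (eq.symm c) - E (eq.symm c')) i = n := by
      intro i
      refine ⟨β.repr ⟨_, h⟩ i, ?_⟩
      exact Basis.ofZLatticeBasis_repr_apply ℝ L β ⟨_, h⟩ i
    have h3 : eq.symm c = eq.symm c' := by
      funext i
      obtain ⟨n, hn⟩ := h2 i
      rw [h1 i] at hn
      have h4 : ((eq.symm c i : ℕ) : ℝ) - ((eq.symm c' i : ℕ) : ℝ) = n * b := by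
        field_simp at hn
        linarith
      have h5 : (((eq.symm c i : ℕ) : ℤ)) - ((eq.symm c' i : ℕ) : ℤ) = n * b := by
        exact_mod_cast h4
      have h6 := (eq.symm c i).2
      have h7 := (eq.symm c' i).2
      have h8 : n = 0 := by
        by_contra hn0
        have hbZ : (0 : ℤ) < b := by exact_mod_cast hb
        rcases lt_or_gt_of_ne hn0 with h9 | h9
        · have : n * b ≤ -1 * b := mul_le_mul_of_nonneg_right (by omega) hbZ.le
          omega
        · have : 1 * b ≤ n * b := mul_le_mul_of_nonneg_right (by omega) hbZ.le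
          omega
      rw [h8, zero_mul] at h5
      apply Fin.ext
      omega
    exact eq.symm.injective h3

/-- Values on the line through `e`. -/
theorem line_Down {f g : V → ℂ} {e v : V} (hv : ‖v‖ = 1) (h : SameJet 2 f g e) :
    (fun s : ℂ => f (e + s • v) - g (e + s • v)) =O[𝓝 0] fun s => ‖s‖ ^ 3 := by
  have h1 : Tendsto (fun s : ℂ => e + s • v) (𝓝 0) (𝓝 e) := by
    have h2 : Continuous (fun s : ℂ => e + s • v) := by fun_prop
    have h3 := h2.tendsto 0
    simpa using h3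
  have h2 := h.comp_tendsto h1
  refine h2.congr (fun s => rfl) (fun s => ?_)
  simp [Function.comp, norm_smul, hv]

theorem Hm_line_Down {e v : V} (hv : ‖v‖ = 1) (s : ℂ) : Hm (e + s • v - e) v = s := by
  rw [add_sub_cancel_left, Hm_smul_left, Hm_self, hv]
  simp

theorem diff_Hm_Down (e v : V) : Differentiable ℂ (fun z : V => Hm (z - e) v) := by
  have h1 : (fun z : V => Hm (z - e) v) = fun z => (innerSL ℂ v) (z - e) := by
    funext z
    rfl
  rw [h1]
  exact (innerSL ℂ v).differentiable.comp (differentiable_id.sub_const e)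

end Down

open Classical in
theorem hDown (hD : StDim) (hC : StCov) (hS : StSemi) : StDown := by
  intro V _ _ _ L _ _ hL hPT a b hb hab hIT
  obtain ⟨V₁, V₂, hV₁, hcompl, -, hdec, hP₁⟩ := hPT
  -- the unit vector
  obtain ⟨v, hvV, hv⟩ : ∃ v ∈ V₁, ‖v‖ = 1 := by
    have h1 : V₁ ≠ ⊥ := by
      intro h
      rw [h, finrank_bot] at hV₁
      exact zero_ne_one hV₁
    obtain ⟨x, hx, hx0⟩ := Submodule.exists_mem_ne_zero_of_ne_bot h1
    refine ⟨((‖x‖⁻¹ : ℝ) : ℂ) • x, V₁.smul_mem _ hx, ?_⟩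
    rw [norm_smul, Complex.norm_real, norm_inv, norm_norm,
      inv_mul_cancel₀ (norm_ne_zero_iff.2 hx0)]
  have hbR : (0 : ℝ) < b := by exact_mod_cast hb
  rcases Nat.eq_zero_or_pos a with ha | ha
  · -- weight zero
    subst ha
    have hχ : IsSemichar L ((0 * b : ℕ) : ℝ) (fun _ => 1) := by
      refine ⟨fun l _ => norm_one, fun l _ m _ => ?_⟩
      simp
    obtain ⟨f, hf, hj, -⟩ := hIT _ hχ 0 (by simp) (fun z => Hm (z - 0) v) (diff_Hm_Down 0 v)
    have hper : ∀ z w, w ∈ L → f (z + w) = f z := by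
      intro z w hw
      rw [hf.2 w hw z, fac]
      simp
    have hcomp := IsZLattice.isCompact_range_of_periodic L f hf.1.continuous hper
    have hconst : ∀ z, f z = f 0 := fun z =>
      hf.1.apply_eq_apply_of_bounded hcomp.isBounded z 0
    have h1 := line_Down hv hj
    have h2 := poly_Down ![f 0, -1, 0] (by
      refine h1.congr (fun s => ?_) fun s => rfl
      rw [hconst, Hm_line_Down hv, Fin.sum_univ_three]
      simp
      ring)
    have h3 := congrFun h2 1
    simp at h3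
  · -- positive weight
    have htpos : (0 : ℝ) < ((a * b : ℕ) : ℝ) := by
      exact_mod_cast Nat.mul_pos ha hb
    have hint : IntT L ((a * b : ℕ) : ℝ) := IntT_Down hL.1 _
    obtain ⟨χ, hχ⟩ := hS V L _ hint
    have : DiscreteTopology (LL_Down L V₁) := discrete_Down L V₁
    have : IsZLattice ℝ (LL_Down L V₁) := ⟨span_Down L V₁ V₂ hcompl hdec⟩
    have hP : PrincipalT (LL_Down L V₁) 1 := principal_Down L V₁ hP₁
    let : MeasurableSpace V₁ := borel V₁
    have : BorelSpace V₁ := ⟨rfl⟩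
    have hcov := hC V₁ (LL_Down L V₁) 1 one_pos hP
    rw [one_pow, one_mul] at hcov
    obtain ⟨e, he1, he2⟩ := reps_Down V₁ hV₁ (LL_Down L V₁) b hb
    have hfam : ∀ p : Fin (b ^ 2) × Fin 3, ∃ f : V → ℂ, IsSec L ((a * b : ℕ) : ℝ) χ f ∧
        ∀ c : Fin (b ^ 2), (fun s : ℂ => f ((e c : V) + s • v) -
          if p.1 = c then s ^ (p.2 : ℕ) else 0) =O[𝓝 0] fun s => ‖s‖ ^ 3 := by
      rintro ⟨c, k⟩
      obtain ⟨f, hf, hj1, hj2⟩ := hIT χ hχ (e c : V) (he1 c)
        (fun z => Hm (z - (e c : V)) v ^ (k : ℕ)) ((diff_Hm_Down (e c : V) v).pow _)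
      refine ⟨f, hf, fun c' => ?_⟩
      by_cases hcc : c = c'
      · subst hcc
        refine (line_Down hv hj1).congr (fun s => ?_) fun s => rfl
        rw [Hm_line_Down hv, if_pos rfl]
      · have h1 : ((e c' : V₁) : V) - ((e c : V₁) : V) ∉ L := by
          intro h2
          exact hcc (he2 c' c h2).symm
        refine (line_Down hv (hj2 (e c' : V) (he1 c') h1)).congr (fun s => ?_) fun s => rfl
        rw [if_neg hcc]
        rfl
    choose f hf hfj using hfam
    have hlin : LinearIndependent ℂ (fun p : Fin (b ^ 2) × Fin 3 => fun w : V₁ => f p w) := by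
      rw [Fintype.linearIndependent_iff]
      intro α hα
      have h1 : ∀ c : Fin (b ^ 2), (fun k : Fin 3 => -α (c, k)) = 0 := by
        intro c
        refine poly_Down _ ?_
        have h2 : (fun s : ℂ => ∑ p : Fin (b ^ 2) × Fin 3, α p * (f p ((e c : V) + s • v) -
            if p.1 = c then s ^ (p.2 : ℕ) else 0)) =O[𝓝 0] fun s => ‖s‖ ^ 3 :=
          IsBigO.fun_sum fun p _ => (hfj p c).const_mul_left _
        refine h2.congr (fun s => ?_) fun s => rfl
        have h3 := congrFun hα (e c + s • ⟨v, hvV⟩)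
        rw [Finset.sum_apply] at h3
        simp only [Pi.smul_apply, smul_eq_mul, Pi.zero_apply, Submodule.coe_add,
          Submodule.coe_smul] at h3
        simp only [mul_sub]
        rw [Finset.sum_sub_distrib, h3, zero_sub, Fintype.sum_prod_type, Finset.sum_eq_single c]
        · rw [← Finset.sum_neg_distrib]
          refine Finset.sum_congr rfl fun k _ => ?_
          rw [if_pos rfl]
          ring
        · intro c' _ hc'
          refine Finset.sum_eq_zero fun k _ => ?_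
          rw [if_neg hc', mul_zero]
        · intro h
          exact absurd (Finset.mem_univ _) h
      rintro ⟨c, k⟩
      have h2 := congrFun (h1 c) k
      simpa using h2
    let eq := (Fintype.equivFin (Fin (b ^ 2) × Fin 3)).symm
    have hlin2 := hlin.comp eq eq.injective
    have hdim := hD V₁ (LL_Down L V₁) ((a * b : ℕ) : ℝ) (fun w : V₁ => χ w) htpos
      (IntT_Down hP.1 _) (semichar_Down V₁ hχ) _
      (fun i => fun w : V₁ => f (eq i) w) (fun i => isSec_Down V₁ (hf (eq i))) hlin2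
    rw [hcov, hV₁, Fintype.card_prod, Fintype.card_fin, Fintype.card_fin, pow_one, mul_one] at hdim
    push_cast at hdim
    rw [div_lt_iff₀ hbR] at hab
    nlinarith

end Pool.Agent.Helper7.JT
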