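import Pool.Agent.Helper7.JT.Base

namespace Pool.Agent.Helper7.JT

open MeasureTheory Module Filter Topology Asymptotics

section

variable {V : Type} [NormedAddCommGroup V] [InnerProductSpace ℂ V]

/-- The exponentials `z ↦ exp (pi t H(z,w))` are localised. -/
theorem loc_exp_Exist {t : ℝ} (ht : 0 < t) (w : V) :
    Loc t (fun z : V => Complex.exp (((Real.pi * t : ℝ) : ℂ) * Hm z w)) := by
  have hπ := Real.pi_pos
  refine ⟨?_, Real.exp (Real.pi * t * ‖w‖ ^ 2), Real.pi * t / 4, by positivity, fun z => ?_⟩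
  · have h1 : Differentiable ℂ (fun z : V => Hm z w) := by
      have : (fun z : V => Hm z w) = fun z => (innerSL ℂ w) z := by
        funext z
        simp [Hm]
      rw [this]
      exact (innerSL ℂ w).differentiable
    exact (h1.const_mul _).cexp
  · rw [Complex.norm_exp, Complex.re_ofReal_mul, ← Real.exp_add]
    apply Real.exp_le_exp.2
    have h1 : (Hm z w).re ≤ ‖z‖ * ‖w‖ := (le_abs_self _).trans (re_Hm_le z w)
    have h2 : Real.pi * t * (Hm z w).re ≤ Real.pi * t * (‖z‖ * ‖w‖) :=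
      mul_le_mul_of_nonneg_left h1 (by positivity)
    have h3 : ‖z‖ * ‖w‖ ≤ ‖w‖ ^ 2 + ‖z‖ ^ 2 / 4 := by
      nlinarith [sq_nonneg (‖w‖ - ‖z‖ / 2)]
    have h4 : Real.pi * t * (‖z‖ * ‖w‖) ≤ Real.pi * t * (‖w‖ ^ 2 + ‖z‖ ^ 2 / 4) :=
      mul_le_mul_of_nonneg_left h3 (by positivity)
    nlinarith

/-- The value at `w` of the translates of `z ↦ exp (pi t H(z,w))`. -/
theorem Tr_exp_self_Exist (t : ℝ) (l w : V) :
    Tr t l (fun z : V => Complex.exp (((Real.pi * t : ℝ) : ℂ) * Hm z w)) w =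
      ((Real.exp (Real.pi * t * ‖w‖ ^ 2) : ℝ) : ℂ) *
        (((Real.exp (-(Real.pi * t / 2 * ‖l‖ ^ 2)) : ℝ) : ℂ) *
          Complex.exp (((2 * Real.pi * t * Ef w (-l) : ℝ) : ℂ) * Complex.I)) := by
  rw [Tr_apply, ← Complex.exp_add, Complex.ofReal_exp, Complex.ofReal_exp, ← Complex.exp_add,
    ← Complex.exp_add]
  congr 1
  have h1 : Hm w l = Hm l w - ((2 * Ef l w : ℝ) : ℂ) * Complex.I := by
    rw [← Hm_sub_swap l w]; ring
  rw [Hm_add_left, Hm_self, h1, Ef_neg_right, Ef_swap w l]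
  push_cast
  ring

end

theorem hExist (hO : StOrth) (hP : StPois) : StExist := by
  intro V _ _ _ L _ _ t χ ht hI hχ
  by_contra hcon
  push Not at hcon
  let _ : MeasurableSpace V := borel V
  have : BorelSpace V := ⟨rfl⟩
  have hπ := Real.pi_pos
  have hfin : Module.Finite ℤ L := ZLattice.module_finite ℝ L
  have hfree : Module.Free ℤ L := ZLattice.module_free ℝ L
  have hHaar : (vol V).IsAddHaarMeasure := by
    unfold vol
    let _ : InnerProductSpace ℝ V := InnerProductSpace.complexToReal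
    infer_instance
  set D : Set V := ZSpan.fundamentalDomain ((Module.Free.chooseBasis ℤ L).ofZLatticeBasis ℝ)
    with hD
  have hfd : IsAddFundamentalDomain L D (vol V) := ZLattice.isAddFundamentalDomain _ _
  have hbd : Bornology.IsBounded D := ZSpan.fundamentalDomain_isBounded _
  have hmD : MeasurableSet D := ZSpan.fundamentalDomain_measurableSet _
  have hvol : vol V D ≠ 0 := ZSpan.measure_fundamentalDomain_ne_zero _
  have hvol2 : vol V D < ⊤ := hbd.measure_lt_top
  have : IsFiniteMeasure ((vol V).restrict D) := ⟨by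
    rw [Measure.restrict_apply_univ]; exact hvol2⟩
  -- the terms
  let F : L → V → ℂ := fun l w => (starRingEnd ℂ) (χ l) *
    (((Real.exp (-(Real.pi * t / 2 * ‖(l : V)‖ ^ 2)) : ℝ) : ℂ) *
      Complex.exp (((2 * Real.pi * t * Ef w (-(l : V)) : ℝ) : ℂ) * Complex.I))
  have hsum0 : ∀ w, HasSum (fun l : L => F l w) 0 := by
    intro w
    obtain ⟨S, hS, hS2, -⟩ := hP V L t χ _ ht hI hχ (loc_exp_Exist ht w)
    have h1 := hS2 w
    rw [hcon S hS w] at h1
    have h2 : ((Real.exp (Real.pi * t * ‖w‖ ^ 2) : ℝ) : ℂ) ≠ 0 := by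
      exact_mod_cast (Real.exp_pos _).ne'
    have h3 := h1.mul_left (((Real.exp (Real.pi * t * ‖w‖ ^ 2) : ℝ) : ℂ)⁻¹)
    rw [mul_zero] at h3
    have e : (fun l : L => F l w) = fun l : L => ((Real.exp (Real.pi * t * ‖w‖ ^ 2) : ℝ) : ℂ)⁻¹ *
        ((starRingEnd ℂ) (χ l) * Tr t (l : V)
          (fun z : V => Complex.exp (((Real.pi * t : ℝ) : ℂ) * Hm z w)) w) := by
      funext l
      rw [Tr_exp_self_Exist]
      show (starRingEnd ℂ) (χ l) *
        (((Real.exp (-(Real.pi * t / 2 * ‖(l : V)‖ ^ 2)) : ℝ) : ℂ) *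
          Complex.exp (((2 * Real.pi * t * Ef w (-(l : V)) : ℝ) : ℂ) * Complex.I)) = _
      rw [mul_left_comm ((starRingEnd ℂ) (χ l)) ((Real.exp (Real.pi * t * ‖w‖ ^ 2) : ℝ) : ℂ),
        inv_mul_cancel_left₀ h2]
    rw [e]
    exact h3
  have hnorm : ∀ l w, ‖F l w‖ = Real.exp (-(Real.pi * t / 2 * ‖(l : V)‖ ^ 2)) := by
    intro l w
    show ‖(starRingEnd ℂ) (χ l) * _‖ = _
    rw [norm_mul, norm_mul, RCLike.norm_conj, hχ.1 l l.2, one_mul, Complex.norm_exp_ofReal_mul_I,
      mul_one, Complex.norm_real, Real.norm_of_nonneg (Real.exp_pos _).le]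
  have hcont : ∀ l, Continuous (F l) := by
    intro l
    have hE : Continuous (fun w : V => Ef w (-(l : V))) := by
      unfold Ef Hm
      fun_prop
    show Continuous (fun w => (starRingEnd ℂ) (χ l) * (_ * Complex.exp (_ * Complex.I)))
    fun_prop
  have hsn : Summable (fun l : L => Real.exp (-(Real.pi * t / 2 * ‖(l : V)‖ ^ 2))) := by
    refine Summable.of_nonneg_of_le (fun _ => (Real.exp_pos _).le) (fun l => ?_)
      ((summable_exp_norm L (c := Real.pi * t) (by positivity)).mul_left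
        (Real.exp (Real.pi * t / 2)))
    rw [← Real.exp_add]
    apply Real.exp_le_exp.2
    have : 0 ≤ Real.pi * t / 2 * (‖(l : V)‖ - 1) ^ 2 := by positivity
    nlinarith
  have hint : ∀ l, Integrable (F l) ((vol V).restrict D) := by
    intro l
    refine Integrable.of_bound (hcont l).aestronglyMeasurable
      (Real.exp (-(Real.pi * t / 2 * ‖(l : V)‖ ^ 2))) ?_
    exact ae_of_all _ (fun w => (hnorm l w).le)
  have : Countable L := inferInstance
  have key := hasSum_integral_of_summable_integral_norm hint (by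
    have : (fun l : L => ∫ w, ‖F l w‖ ∂((vol V).restrict D)) =
        fun l : L => (Real.exp (-(Real.pi * t / 2 * ‖(l : V)‖ ^ 2))) *
          ((vol V).restrict D).real Set.univ := by
      funext l
      simp_rw [hnorm l]
      rw [integral_const, smul_eq_mul, mul_comm]
    rw [this]
    exact hsn.mul_right _)
  have h0 : (fun w => ∑' l : L, F l w) = fun _ => (0 : ℂ) := by
    funext w
    exact (hsum0 w).tsum_eq
  rw [h0, integral_zero] at key
  have hz : ∀ l : L, l ≠ 0 → ∫ w in D, F l w ∂(vol V) = 0 := by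
    intro l hl
    have h1 := hO V L t D ht hI hfd hbd (-(l : V)) (L.neg_mem l.2) (by
      rw [neg_ne_zero]; exact_mod_cast hl)
    show ∫ w in D, (starRingEnd ℂ) (χ l) *
      (((Real.exp (-(Real.pi * t / 2 * ‖(l : V)‖ ^ 2)) : ℝ) : ℂ) *
      Complex.exp (((2 * Real.pi * t * Ef w (-(l : V)) : ℝ) : ℂ) * Complex.I)) ∂(vol V) = 0
    rw [integral_const_mul, integral_const_mul, h1, mul_zero, mul_zero]
  have h2 := hasSum_single (f := fun l : L => ∫ w in D, F l w ∂(vol V)) 0 (fun l hl => hz l hl)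
  have h3 := h2.unique key
  have h4 : ∫ w in D, F 0 w ∂(vol V) = (((vol V).real D : ℝ) : ℂ) := by
    have : F 0 = fun _ => (1 : ℂ) := by
      funext w
      show (starRingEnd ℂ) (χ ((0 : L) : V)) * _ = 1
      simp [hχ.zero]
    rw [this, integral_const]
    simp
  rw [h4] at h3
  have h5 : (vol V).real D = 0 := by exact_mod_cast h3
  rw [measureReal_eq_zero_iff hvol2.ne] at h5
  exact hvol h5

end Pool.Agent.Helper7.JT
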