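import Pool.Agent.Helper7.JT.Base

namespace Pool.Agent.Helper7.JT

open MeasureTheory Module Filter Topology Asymptotics

section Flat

variable {V : Type} [NormedAddCommGroup V] [InnerProductSpace ℂ V] [FiniteDimensional ℂ V]

/-- The derivative of an entire function of several variables is continuous. -/
theorem continuous_fderiv_Flat {θ : V → ℂ} (hθ : Differentiable ℂ θ) :
    Continuous (fderiv ℂ θ) := by
  have : ProperSpace V := FiniteDimensional.proper ℂ V
  rw [Metric.continuous_iff]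
  intro z ε hε
  have hu : UniformContinuousOn θ (Metric.closedBall z 3) :=
    (isCompact_closedBall z 3).uniformContinuousOn_of_continuous hθ.continuous.continuousOn
  rw [Metric.uniformContinuousOn_iff] at hu
  obtain ⟨δ, hδ, h⟩ := hu (ε / 2) (by positivity)
  refine ⟨min δ 1, by positivity, fun y hy => ?_⟩
  have hy1 : dist y z < δ := lt_of_lt_of_le hy (min_le_left _ _)
  have hy2 : dist y z < 1 := lt_of_lt_of_le hy (min_le_right _ _)
  rw [dist_eq_norm]
  refine lt_of_le_of_lt ?_ (half_lt_self hε)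
  refine ContinuousLinearMap.opNorm_le_bound _ (by positivity) fun v => ?_
  rcases eq_or_ne v 0 with rfl | hv
  · simp
  have hv' : 0 < ‖v‖ := norm_pos_iff.mpr hv
  have hd : ∀ (p : V) (s : ℂ), HasDerivAt (fun s : ℂ => θ (p + s • v)) (fderiv ℂ θ (p + s • v) v) s := by
    intro p s
    have h1 : HasDerivAt (fun s : ℂ => p + s • v) v s := by
      simpa using ((hasDerivAt_id s).smul_const v).const_add p
    exact (hθ (p + s • v)).hasFDerivAt.comp_hasDerivAt s h1
  have key : ‖deriv (fun s : ℂ => θ (y + s • v) - θ (z + s • v)) 0‖ ≤ (ε / 2) / (‖v‖⁻¹) := by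
    apply Complex.norm_deriv_le_of_forall_mem_sphere_norm_le (by positivity)
    · exact Differentiable.diffContOnCl fun s => ((hd y s).sub (hd z s)).differentiableAt
    · intro s hs
      rw [mem_sphere_iff_norm, sub_zero] at hs
      have hsv : ‖s • v‖ = 1 := by
        rw [norm_smul, hs, inv_mul_cancel₀ hv'.ne']
      have h1 : y + s • v ∈ Metric.closedBall z 3 := by
        rw [mem_closedBall_iff_norm]
        calc ‖y + s • v - z‖ = ‖(y - z) + s • v‖ := by congr 1; abel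
          _ ≤ ‖y - z‖ + ‖s • v‖ := norm_add_le _ _
          _ ≤ 3 := by rw [hsv, ← dist_eq_norm]; linarith
      have h2 : z + s • v ∈ Metric.closedBall z 3 := by
        rw [mem_closedBall_iff_norm]
        calc ‖z + s • v - z‖ = ‖s • v‖ := by congr 1; abel
          _ ≤ 3 := by rw [hsv]; norm_num
      have h3 := h _ h1 _ h2 (by rw [dist_eq_norm] at *; simpa using hy1)
      rw [← dist_eq_norm]
      exact h3.le
  have e : deriv (fun s : ℂ => θ (y + s • v) - θ (z + s • v)) 0 =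
      (fderiv ℂ θ y - fderiv ℂ θ z) v := by
    have e1 : HasDerivAt (fun s : ℂ => θ (y + s • v) - θ (z + s • v))
        (fderiv ℂ θ (y + (0 : ℂ) • v) v - fderiv ℂ θ (z + (0 : ℂ) • v) v) 0 :=
      (hd y 0).sub (hd z 0)
    rw [e1.deriv]
    simp
  rw [← e]
  refine key.trans (le_of_eq ?_)
  rw [div_inv_eq_mul]

theorem contDiff_Flat {θ : V → ℂ} (hθ : Differentiable ℂ θ) : ContDiff ℂ 1 θ :=
  contDiff_one_iff_fderiv.2 ⟨hθ, continuous_fderiv_Flat hθ⟩

omit [FiniteDimensional ℂ V] in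
/-- Identity theorem. -/
theorem eq_zero_Flat {θ : V → ℂ} (hθ : Differentiable ℂ θ) {p : V} (v : V)
    (h : ∀ᶠ s : ℂ in 𝓝 0, θ (p + s • v) = 0) : θ (p + v) = 0 := by
  have hd : Differentiable ℂ fun s : ℂ => θ (p + s • v) := by
    intro s
    have h1 : HasDerivAt (fun s : ℂ => p + s • v) v s := by
      simpa using ((hasDerivAt_id s).smul_const v).const_add p
    exact ((hθ (p + s • v)).hasFDerivAt.comp_hasDerivAt s h1).differentiableAt
  have ha : AnalyticOnNhd ℂ (fun s : ℂ => θ (p + s • v)) Set.univ := fun s _ => hd.analyticAt s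
  have := ha.eqOn_zero_of_preconnected_of_eventuallyEq_zero isPreconnected_univ
    (Set.mem_univ (0 : ℂ)) h
  simpa using this (Set.mem_univ (1 : ℂ))

omit [FiniteDimensional ℂ V] in
theorem ker_Flat {f g : V →L[ℂ] ℂ} (hf : f ≠ 0) (hg : g ≠ 0)
    (h : ¬ ∀ w, f w = 0 ↔ g w = 0) : ∃ a b, f a = 1 ∧ g a = 0 ∧ f b = 0 ∧ g b = 1 := by
  have key : ∀ f g : V →L[ℂ] ℂ, f ≠ 0 → (∃ w, f w = 0 ∧ g w ≠ 0) →
      ∃ a b, f a = 1 ∧ g a = 0 ∧ f b = 0 ∧ g b = 1 := by
    intro f g hf hw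
    obtain ⟨w, hw1, hw2⟩ := hw
    obtain ⟨a, ha⟩ : ∃ a, f a ≠ 0 := by
      by_contra hc
      push Not at hc
      exact hf (ContinuousLinearMap.ext fun x => by simp [hc x])
    refine ⟨(f a)⁻¹ • (a - (g a) • ((g w)⁻¹ • w)), (g w)⁻¹ • w, ?_, ?_, ?_, ?_⟩
    · simp [hw1, ha]
    · simp [hw2]
    · simp [hw1]
    · simp [hw2]
  push Not at h
  obtain ⟨w, hw⟩ := h
  rcases hw with hw | hw
  · exact key f g hf ⟨w, hw⟩
  · obtain ⟨a, b, h1, h2, h3, h4⟩ := key g f hg ⟨w, hw.2, hw.1⟩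
    exact ⟨b, a, h4, h3, h2, h1⟩

theorem step1_Flat {θ : V → ℂ} (hθ : Differentiable ℂ θ) (hne : ∃ z, θ z ≠ 0) {x p q a b : V}
    (hp : θ p = 0) (hq : θ q = 0)
    (h1 : fderiv ℂ θ p a = 1) (h2 : fderiv ℂ θ q a = 0) (h3 : fderiv ℂ θ p b = 0)
    (h4 : fderiv ℂ θ q b = 1)
    (h : ∀ᶠ r : V × V in 𝓝 (p, q), θ r.1 = 0 → θ r.2 = 0 → θ (x - r.1 - r.2) = 0) : False := by
  have : CompleteSpace V := FiniteDimensional.complete ℂ V
  have hs : ∀ y, HasStrictFDerivAt θ (fderiv ℂ θ y) y := fun y =>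
    (contDiff_Flat hθ).contDiffAt.hasStrictFDerivAt (by norm_num)
  let D : V × V →L[ℂ] ℂ × ℂ × V :=
    ((fderiv ℂ θ p).comp (ContinuousLinearMap.fst ℂ V V)).prod
      (((fderiv ℂ θ q).comp (ContinuousLinearMap.snd ℂ V V)).prod
        (ContinuousLinearMap.fst ℂ V V + ContinuousLinearMap.snd ℂ V V))
  have hD : HasStrictFDerivAt (fun r : V × V => (θ r.1, θ r.2, r.1 + r.2)) D (p, q) := by
    refine HasStrictFDerivAt.prodMk ?_ (HasStrictFDerivAt.prodMk ?_ ?_)
    · exact HasStrictFDerivAt.comp (p, q) (hs p) hasStrictFDerivAt_fst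
    · exact HasStrictFDerivAt.comp (p, q) (hs q) hasStrictFDerivAt_snd
    · exact hasStrictFDerivAt_fst.add hasStrictFDerivAt_snd
  have hsurj : LinearMap.range (D : V × V →ₗ[ℂ] ℂ × ℂ × V) = ⊤ := by
    rw [LinearMap.range_eq_top]
    rintro ⟨α, β, z⟩
    refine ⟨(α • a + (fderiv ℂ θ q z - β) • b, z - (α • a + (fderiv ℂ θ q z - β) • b)), ?_⟩
    simp [D, h1, h2, h3, h4]
  have hmap := hD.map_nhds_eq_of_surj hsurj
  simp only [hp, hq] at hmap
  have himg := image_mem_map (f := 𝓝 (p, q))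
    (m := fun r : V × V => (θ r.1, θ r.2, r.1 + r.2)) h
  rw [hmap] at himg
  have hc : Continuous fun z : V => ((0 : ℂ), (0 : ℂ), z) := by fun_prop
  have h5 : ∀ᶠ z : V in 𝓝 (p + q), θ (x - z) = 0 := by
    have := (hc.tendsto (p + q)).eventually himg
    filter_upwards [this] with z hz
    obtain ⟨r, hr, hr'⟩ := hz
    simp only [Prod.mk.injEq] at hr'
    obtain ⟨e1, e2, e3⟩ := hr'
    have := hr e1 e2
    rw [← e3]
    rwa [sub_sub] at this
  obtain ⟨z, hz⟩ := hne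
  apply hz
  have h6 := eq_zero_Flat hθ (p := x - (p + q)) (z - (x - (p + q))) ?_
  · simpa using h6
  · have hc2 : Continuous fun s : ℂ => (p + q) - s • (z - (x - (p + q))) := by fun_prop
    have h7 := hc2.continuousAt.tendsto (x := 0)
    simp only [zero_smul, sub_zero] at h7
    filter_upwards [h7.eventually h5] with s hs
    rw [← hs]
    congr 1
    abel

theorem step2_Flat {θ : V → ℂ} (hθ : Differentiable ℂ θ) {y w b : V} (hy : θ y = 0)
    (hb : fderiv ℂ θ y b = 1) (hw : fderiv ℂ θ y w = 0)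
    (h : ∀ᶠ p in 𝓝 y, θ p = 0 → fderiv ℂ θ p w = 0) :
    ∀ᶠ s : ℂ in 𝓝 0, θ (y + s • w) = 0 := by
  have hC := contDiff_Flat hθ
  -- the map `(s, t) ↦ (s, θ (y + s w + t b))`
  have hΨc : ContDiff ℂ 1 (fun r : ℂ × ℂ => (r.1, θ (y + r.1 • w + r.2 • b))) := by
    refine contDiff_fst.prodMk (hC.comp ?_)
    fun_prop
  have hd : HasFDerivAt (fun r : ℂ × ℂ => (r.1, θ (y + r.1 • w + r.2 • b)))
      ((ContinuousLinearEquiv.refl ℂ (ℂ × ℂ) : (ℂ × ℂ) ≃L[ℂ] (ℂ × ℂ)) :
        (ℂ × ℂ) →L[ℂ] (ℂ × ℂ)) (0, 0) := by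
    have e1 : HasFDerivAt (fun r : ℂ × ℂ => y + r.1 • w + r.2 • b)
        ((ContinuousLinearMap.fst ℂ ℂ ℂ).smulRight w +
          (ContinuousLinearMap.snd ℂ ℂ ℂ).smulRight b) (0, 0) :=
      (((hasFDerivAt_fst (𝕜 := ℂ) (p := ((0 : ℂ), (0 : ℂ)))).smul_const w).const_add y).add
        ((hasFDerivAt_snd (𝕜 := ℂ) (p := ((0 : ℂ), (0 : ℂ)))).smul_const b)
    have e2 : HasFDerivAt θ (fderiv ℂ θ y) (y + ((0 : ℂ), (0 : ℂ)).1 • w + ((0 : ℂ), (0 : ℂ)).2 • b) := by
      simpa using (hθ y).hasFDerivAt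
    have e3 := HasFDerivAt.prodMk (hasFDerivAt_fst (𝕜 := ℂ) (p := ((0 : ℂ), (0 : ℂ))))
      (e2.comp ((0 : ℂ), (0 : ℂ)) (f := fun r : ℂ × ℂ => y + r.1 • w + r.2 • b) e1)
    refine e3.congr_fderiv ?_
    ext <;> simp [hw, hb]
  have hcd := hΨc.contDiffAt (x := (0, 0))
  have hinv := hcd.to_localInverse hd (by norm_num)
  have hval := hcd.localInverse_apply_image hd (by norm_num)
  have hright := (hcd.hasStrictFDerivAt' hd (by norm_num)).eventually_right_inverse
  change ∀ᶠ r in 𝓝 ((fun r : ℂ × ℂ => (r.1, θ (y + r.1 • w + r.2 • b))) (0, 0)),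
    (fun r : ℂ × ℂ => (r.1, θ (y + r.1 • w + r.2 • b))) (hcd.localInverse hd (by norm_num) r) = r
    at hright
  generalize hcd.localInverse hd (by norm_num) = κ at hinv hval hright
  simp only [zero_smul, add_zero, hy] at hinv hval hright
  -- the implicit function
  have hτd : ∀ᶠ s : ℂ in 𝓝 0, DifferentiableAt ℂ (fun s : ℂ => (κ (s, 0)).2) s := by
    have e1 : ∀ᶠ r : ℂ × ℂ in 𝓝 (0, 0), ContDiffAt ℂ 1 κ r := hinv.eventually (by simp)
    have e2 : Continuous fun s : ℂ => (s, (0 : ℂ)) := by fun_prop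
    have e3 := (e2.tendsto 0).eventually e1
    filter_upwards [e3] with s hs
    have e4 : DifferentiableAt ℂ (fun s : ℂ => (s, (0 : ℂ))) s := by fun_prop
    exact ((hs.differentiableAt (by norm_num)).comp s e4).snd
  have hτc : ContinuousAt (fun s : ℂ => (κ (s, 0)).2) 0 := hτd.self_of_nhds.continuousAt
  have hτ0 : (κ (0, 0)).2 = 0 := by rw [hval]
  have hz : ∀ᶠ s : ℂ in 𝓝 0, θ (y + s • w + (κ (s, 0)).2 • b) = 0 := by
    have e2 : Continuous fun s : ℂ => (s, (0 : ℂ)) := by fun_prop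
    have e3 := (e2.tendsto 0).eventually hright
    filter_upwards [e3] with s hs
    simp only [Prod.mk.injEq] at hs
    obtain ⟨hs1, hs2⟩ := hs
    rwa [hs1] at hs2
  have hpc : ContinuousAt (fun s : ℂ => y + s • w + (κ (s, 0)).2 • b) 0 :=
    (continuousAt_const.add (continuousAt_id.smul continuousAt_const)).add
      (hτc.smul continuousAt_const)
  have hpc' : Tendsto (fun s : ℂ => y + s • w + (κ (s, 0)).2 • b) (𝓝 0) (𝓝 y) := by
    have := hpc.tendsto
    simpa [hτ0] using this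
  have hb' : ∀ᶠ p in 𝓝 y, fderiv ℂ θ p b ≠ 0 := by
    have e1 : Continuous fun p => fderiv ℂ θ p b :=
      (continuous_fderiv_Flat hθ).clm_apply continuous_const
    exact e1.continuousAt.eventually_ne (by rw [hb]; exact one_ne_zero)
  have hderiv : ∀ᶠ s : ℂ in 𝓝 0, HasDerivAt (fun s : ℂ => (κ (s, 0)).2) 0 s := by
    filter_upwards [hτd, hz, hz.eventually_nhds, hpc'.eventually h, hpc'.eventually hb']
      with s s1 s2 s3 s4 s5
    have e1 : HasDerivAt (fun s : ℂ => y + s • w + (κ (s, 0)).2 • b)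
        (w + deriv (fun s : ℂ => (κ (s, 0)).2) s • b) s := by
      have e2 : HasDerivAt (fun s : ℂ => y + s • w) w s := by
        simpa using ((hasDerivAt_id s).smul_const w).const_add y
      exact e2.add (s1.hasDerivAt.smul_const b)
    have e3 := (hθ (y + s • w + (κ (s, 0)).2 • b)).hasFDerivAt.comp_hasDerivAt s e1
    have e4 : HasDerivAt (θ ∘ fun s : ℂ => y + s • w + (κ (s, 0)).2 • b) 0 s := by
      refine HasDerivAt.congr_of_eventuallyEq (hasDerivAt_const s (0 : ℂ)) ?_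
      filter_upwards [s3] with t ht
      exact ht
    have e5 := e3.unique e4
    rw [map_add, map_smul, s4 s2, zero_add, smul_eq_mul] at e5
    have e6 := (mul_eq_zero.1 e5).resolve_right s5
    have e7 := s1.hasDerivAt
    rwa [e6] at e7
  obtain ⟨r, hr, hball⟩ := Metric.eventually_nhds_iff_ball.1 (hderiv.and hz)
  filter_upwards [Metric.ball_mem_nhds (0 : ℂ) hr] with s hs
  have e1 : (κ (s, 0)).2 = (κ (0, 0)).2 := by
    refine Metric.isOpen_ball.is_const_of_deriv_eq_zero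
      (f := fun s : ℂ => (κ (s, 0)).2) (convex_ball (0 : ℂ) r).isPreconnected ?_ ?_ hs
      (Metric.mem_ball_self hr)
    · intro t ht
      exact (hball t ht).1.differentiableAt.differentiableWithinAt
    · intro t ht
      exact (hball t ht).1.deriv
  have e2 := (hball s hs).2
  rw [e1, hτ0, zero_smul, add_zero] at e2
  exact e2

end Flat

theorem hFlat : StFlat := by
  intro V _ _ _ θ x y₁ y₂ hθ hne h1 h2 hf1 hf2 h w hw
  have hce := continuous_fderiv_Flat hθ
  have hker : ∀ᶠ p in 𝓝 y₁, θ p = 0 → ∀ w, fderiv ℂ θ p w = 0 ↔ fderiv ℂ θ y₂ w = 0 := by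
    have e1 : Continuous fun p : V => (p, y₂) := by fun_prop
    have e2 := (e1.tendsto y₁).eventually h.eventually_nhds
    have e3 : ∀ᶠ p in 𝓝 y₁, fderiv ℂ θ p ≠ 0 := hce.continuousAt.eventually_ne hf1
    filter_upwards [e2, e3] with p hp hp' hp0
    by_contra hc
    obtain ⟨a, b, g1, g2, g3, g4⟩ := ker_Flat hp' hf2 hc
    exact step1_Flat hθ hne hp0 h2 g1 g2 g3 g4 hp
  have hker1 := hker.self_of_nhds h1
  obtain ⟨a, ha⟩ : ∃ a, fderiv ℂ θ y₁ a ≠ 0 := by
    by_contra hc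
    push Not at hc
    exact hf1 (ContinuousLinearMap.ext fun x => by simp [hc x])
  refine eq_zero_Flat hθ w (step2_Flat hθ (b := (fderiv ℂ θ y₁ a)⁻¹ • a) h1 ?_ hw ?_)
  · rw [map_smul, smul_eq_mul, inv_mul_cancel₀ ha]
  · filter_upwards [hker] with p hp hp0
    rw [hp hp0 w, ← hker1 w]
    exact hw

end Pool.Agent.Helper7.JT
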