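import Pool.Agent.Helper7.JT.Base

namespace Pool.Agent.Helper7.JT

open MeasureTheory Module Filter Topology Asymptotics

/-- Bounded functions without zeros. -/
private theorem nv_G1 {h : ℂ → ℂ} {r B : ℝ} (hr : 0 < r)
    (hd : DifferentiableOn ℂ h (Metric.ball 0 r))
    (h0 : ∀ s ∈ Metric.ball (0 : ℂ) r, h s ≠ 0) (hB : ∀ s ∈ Metric.ball (0 : ℂ) r, ‖h s‖ ≤ B) :
    ‖deriv h 0‖ ^ 2 ≤ 4 * B * ‖h 0‖ / r ^ 2 := by
  have hop : IsOpen (Metric.ball (0 : ℂ) r) := Metric.isOpen_ball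
  have h0m : (0 : ℂ) ∈ Metric.ball (0 : ℂ) r := Metric.mem_ball_self hr
  have hB0 : 0 ≤ B := (norm_nonneg _).trans (hB 0 h0m)
  have hd' : DifferentiableOn ℂ (fun s => deriv h s / h s) (Metric.ball 0 r) :=
    (hd.deriv hop).div hd h0
  obtain ⟨G, hG0, hG⟩ := hd'.isExactOn_ball.with_val_at 0 (Complex.log (h 0))
  have hhd : ∀ s ∈ Metric.ball (0 : ℂ) r, HasDerivAt h (deriv h s) s := fun s hs =>
    ((hd s hs).differentiableAt (hop.mem_nhds hs)).hasDerivAt
  have hE : ∀ s ∈ Metric.ball (0 : ℂ) r, HasDerivAt (fun s => h s * Complex.exp (-G s)) 0 s := by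
    intro s hs
    have h1 := (hhd s hs).mul ((hG s hs).neg.cexp)
    have h2 : h s ≠ 0 := h0 s hs
    have h3 : deriv h s * Complex.exp (-G s) + h s * (Complex.exp (-G s) * -(deriv h s / h s)) = 0 := by
      have : h s * (Complex.exp (-G s) * -(deriv h s / h s)) =
          -(Complex.exp (-G s) * (h s * (deriv h s / h s))) := by ring
      rw [this, mul_div_cancel₀ _ h2]
      ring
    rw [← h3]
    exact h1
  have hconst : ∀ s ∈ Metric.ball (0 : ℂ) r, h s = Complex.exp (G s) := by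
    intro s hs
    have h1 : h s * Complex.exp (-G s) = h 0 * Complex.exp (-G 0) := by
      refine IsOpen.is_const_of_deriv_eq_zero hop (convex_ball (0 : ℂ) r).isPreconnected
        (fun z hz => (hE z hz).differentiableAt.differentiableWithinAt)
        (fun z hz => (hE z hz).deriv) hs h0m
    rw [hG0, Complex.exp_neg (Complex.log (h 0)), Complex.exp_log (h0 0 h0m),
      mul_inv_cancel₀ (h0 0 h0m)] at h1
    rw [Complex.exp_neg] at h1
    exact (mul_inv_eq_one₀ (Complex.exp_ne_zero _)).1 h1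
  set k : ℂ → ℂ := fun s => Complex.exp (G s / 2) with hk
  have hk2 : ∀ s ∈ Metric.ball (0 : ℂ) r, k s ^ 2 = h s := by
    intro s hs
    rw [hconst s hs, hk]
    beta_reduce
    rw [← Complex.exp_nat_mul]
    congr 1
    push_cast
    ring
  have hkd : ∀ s ∈ Metric.ball (0 : ℂ) r, HasDerivAt k (k s * ((deriv h s / h s) / 2)) s := by
    intro s hs
    exact ((hG s hs).div_const 2).cexp
  have hkB : ∀ s ∈ Metric.ball (0 : ℂ) r, ‖k s‖ ≤ Real.sqrt B := by
    intro s hs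
    apply Real.le_sqrt_of_sq_le
    rw [← norm_pow, hk2 s hs]
    exact hB s hs
  have hmain : ∀ ρ : ℝ, 0 < ρ → ρ < r → ‖deriv h 0‖ ^ 2 ≤ 4 * B * ‖h 0‖ / ρ ^ 2 := by
    intro ρ hρ hρr
    have hsub : Metric.closedBall (0 : ℂ) ρ ⊆ Metric.ball 0 r :=
      Metric.closedBall_subset_ball hρr
    have h1 : ‖deriv k 0‖ ≤ Real.sqrt B / ρ := by
      refine Complex.norm_deriv_le_of_forall_mem_sphere_norm_le hρ ?_ ?_
      · refine DifferentiableOn.diffContOnCl ?_
        rw [closure_ball _ hρ.ne']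
        exact fun s hs => (hkd s (hsub hs)).differentiableAt.differentiableWithinAt
      · intro s hs
        exact hkB s (hsub (Metric.sphere_subset_closedBall hs))
    rw [(hkd 0 h0m).deriv] at h1
    have h2 : ‖k 0 * (deriv h 0 / h 0 / 2)‖ ^ 2 ≤ B / ρ ^ 2 := by
      calc ‖k 0 * (deriv h 0 / h 0 / 2)‖ ^ 2 ≤ (Real.sqrt B / ρ) ^ 2 :=
            pow_le_pow_left₀ (norm_nonneg _) h1 2
        _ = B / ρ ^ 2 := by rw [div_pow, Real.sq_sqrt hB0]
    have h3 : ‖k 0‖ ^ 2 = ‖h 0‖ := by rw [← norm_pow, hk2 0 h0m]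
    have h4 : 0 < ‖h 0‖ := norm_pos_iff.2 (h0 0 h0m)
    have h5 : ‖k 0 * (deriv h 0 / h 0 / 2)‖ ^ 2 = ‖deriv h 0‖ ^ 2 / (4 * ‖h 0‖) := by
      rw [norm_mul, norm_div, norm_div, mul_pow, h3]
      have : ‖(2 : ℂ)‖ = 2 := by simp
      rw [this]
      field_simp
      ring
    rw [h5, div_le_iff₀ (by positivity)] at h2
    calc ‖deriv h 0‖ ^ 2 ≤ B / ρ ^ 2 * (4 * ‖h 0‖) := h2
      _ = 4 * B * ‖h 0‖ / ρ ^ 2 := by ring
  have hlim : Tendsto (fun ρ : ℝ => 4 * B * ‖h 0‖ / ρ ^ 2) (𝓝[<] r) (𝓝 (4 * B * ‖h 0‖ / r ^ 2)) := by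
    have : ContinuousAt (fun ρ : ℝ => 4 * B * ‖h 0‖ / ρ ^ 2) r :=
      continuousAt_const.div (continuousAt_id.pow 2) (by positivity)
    exact this.tendsto.mono_left nhdsWithin_le_nhds
  refine ge_of_tendsto hlim ?_
  filter_upwards [Ioo_mem_nhdsLT hr] with ρ hρ
  exact hmain ρ hρ.1 hρ.2

theorem hG1 : StG1 := by
  intro h M hd hM hz
  have hM0 : 0 ≤ M := (norm_nonneg _).trans (hM 0 (by simp))
  by_cases h0 : h 0 = 0
  · rw [hz 0 h0, h0]
    simp
  by_cases hZ : ∃ s ∈ Metric.closedBall (0 : ℂ) (1 / 2), h s = 0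
  · have hcomp : IsCompact (Metric.closedBall (0 : ℂ) (1 / 2) ∩ h ⁻¹' {0}) :=
      (isCompact_closedBall _ _).inter_right (isClosed_singleton.preimage hd.continuous)
    obtain ⟨s₀, hs₀, hs₀'⟩ := hZ
    obtain ⟨a, ha, hmin⟩ := hcomp.exists_isMinOn ⟨s₀, hs₀, hs₀'⟩
      (continuous_norm.continuousOn)
    have hha : h a = 0 := ha.2
    have ha2 : ‖a‖ ≤ 1 / 2 := by simpa using ha.1
    have ha0 : 0 < ‖a‖ := by
      rw [norm_pos_iff]
      rintro rfl
      exact h0 hha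
    have hnv : ∀ s ∈ Metric.ball (0 : ℂ) ‖a‖, h s ≠ 0 := by
      intro s hs h1
      have hs' : ‖s‖ < ‖a‖ := by simpa using hs
      have h2 : s ∈ Metric.closedBall (0 : ℂ) (1 / 2) ∩ h ⁻¹' {0} :=
        ⟨by simpa using (hs'.le.trans ha2), h1⟩
      exact absurd (hmin h2) (not_le.2 hs')
    set q : ℂ → ℂ := dslope (dslope h a) a with hq
    have hqd : Differentiable ℂ q := by
      rw [← differentiableOn_univ, hq, Complex.differentiableOn_dslope univ_mem,
        Complex.differentiableOn_dslope univ_mem, differentiableOn_univ]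
      exact hd
    have hfac : ∀ s, h s = (s - a) ^ 2 * q s := by
      intro s
      have h1 := sub_smul_dslope h a s
      have h2 := sub_smul_dslope (dslope h a) a s
      rw [dslope_same, hz a hha, sub_zero] at h2
      rw [hha, sub_zero, ← h2] at h1
      rw [← h1, smul_eq_mul, smul_eq_mul, hq]
      ring
    have hqB : ∀ s ∈ Metric.closedBall (0 : ℂ) 1, ‖q s‖ ≤ 4 * M := by
      intro s hs
      refine Complex.norm_le_of_forall_mem_frontier_norm_le (U := Metric.ball (0 : ℂ) 1)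
        Metric.isBounded_ball hqd.diffContOnCl ?_ ?_
      · intro z hz'
        rw [frontier_ball _ one_ne_zero] at hz'
        have hz1 : ‖z‖ = 1 := by simpa using hz'
        have h1 : ‖z - a‖ ≥ 1 / 2 := by
          have := norm_sub_norm_le z a
          linarith
        have h2 := hM z hz1.le
        rw [hfac z, norm_mul, norm_pow] at h2
        have h3 : (1 / 2 : ℝ) ^ 2 ≤ ‖z - a‖ ^ 2 := pow_le_pow_left₀ (by norm_num) h1 2
        have h4 := mul_le_mul_of_nonneg_right h3 (norm_nonneg (q z))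
        nlinarith
      · rw [closure_ball _ one_ne_zero]
        exact hs
    have hB : ∀ s ∈ Metric.ball (0 : ℂ) ‖a‖, ‖h s‖ ≤ 16 * M * ‖a‖ ^ 2 := by
      intro s hs
      have hs' : ‖s‖ < ‖a‖ := by simpa using hs
      rw [hfac s, norm_mul, norm_pow]
      have h1 : ‖s - a‖ ≤ 2 * ‖a‖ := (norm_sub_le _ _).trans (by linarith)
      have h2 := hqB s (by simpa using hs'.le.trans (ha2.trans (by norm_num)))
      calc ‖s - a‖ ^ 2 * ‖q s‖ ≤ (2 * ‖a‖) ^ 2 * (4 * M) :=
            mul_le_mul (pow_le_pow_left₀ (norm_nonneg _) h1 2) h2 (norm_nonneg _) (by positivity)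
        _ = 16 * M * ‖a‖ ^ 2 := by ring
    have h1 := nv_G1 ha0 hd.differentiableOn hnv hB
    calc ‖deriv h 0‖ ^ 2 ≤ 4 * (16 * M * ‖a‖ ^ 2) * ‖h 0‖ / ‖a‖ ^ 2 := h1
      _ = 64 * M * ‖h 0‖ := by
        field_simp
        ring
  · push Not at hZ
    have h1 := nv_G1 (h := h) (r := 1 / 2) (B := M) (by norm_num) hd.differentiableOn
      (fun s hs => hZ s (Metric.ball_subset_closedBall hs)) (fun s hs => hM s (by
        have : ‖s‖ < 1 / 2 := by simpa using hs
        linarith))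
    calc ‖deriv h 0‖ ^ 2 ≤ 4 * M * ‖h 0‖ / (1 / 2) ^ 2 := h1
      _ = 16 * (M * ‖h 0‖) := by ring
      _ ≤ 64 * (M * ‖h 0‖) := by
        have : 0 ≤ M * ‖h 0‖ := by positivity
        linarith
      _ = 64 * M * ‖h 0‖ := by ring

end Pool.Agent.Helper7.JT
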