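import Pool.Agent.Helper7.JT.Smooth

/-!
Project JT, module Grad: the gradient of a principal theta function is nondegenerate on the theta
divisor.
-/

set_option autoImplicit false

namespace Pool.Agent.Helper7.JT

open MeasureTheory Module Filter Topology Asymptotics Metric

/-- The differential equation `h h'' - h'^2 = c h^2`. -/
private theorem exp_form_Grad {h : ℂ → ℂ} (hh : Differentiable ℂ h) (c : ℂ) (h0 : h 0 ≠ 0)
    (hode : ∀ s, h s * deriv (deriv h) s - deriv h s ^ 2 = c * h s ^ 2) :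
    ∃ m : ℂ, ∀ s, h s = h 0 * Complex.exp (m * s + c * s ^ 2 / 2) := by
  have hd : Differentiable ℂ (deriv h) := by
    intro s
    exact (hh.analyticAt s).deriv.differentiableAt
  set m := deriv h 0 / h 0 with hm
  refine ⟨m, ?_⟩
  -- near `0`
  obtain ⟨r, hr, hball⟩ : ∃ r > 0, ∀ s ∈ ball (0 : ℂ) r, h s ≠ 0 := by
    have h1 : ∀ᶠ s in 𝓝 (0 : ℂ), h s ≠ 0 := hh.continuous.continuousAt.eventually_ne h0
    obtain ⟨r, hr, h2⟩ := Metric.eventually_nhds_iff_ball.1 h1
    exact ⟨r, hr, h2⟩
  have hk : ∀ᶠ s in 𝓝 (0 : ℂ), deriv h s - (m + c * s) * h s = 0 := by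
    rw [Metric.eventually_nhds_iff_ball]
    refine ⟨r, hr, fun s hs => ?_⟩
    have hq : ∀ s ∈ ball (0 : ℂ) r, HasDerivAt (fun s => deriv h s / h s - c * s) 0 s := by
      intro s hs
      have h1 := ((hd s).hasDerivAt.div (hh s).hasDerivAt (hball s hs)).sub
        ((hasDerivAt_id s).const_mul c)
      refine h1.congr_deriv ?_
      have h2 := hode s
      have h3 := hball s hs
      rw [mul_one, sub_eq_zero, div_eq_iff (pow_ne_zero 2 h3)]
      linear_combination h2
    have h1 := isOpen_ball.is_const_of_deriv_eq_zero (s := ball (0 : ℂ) r)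
      (convex_ball _ _).isPreconnected
      (fun s hs => (hq s hs).differentiableAt.differentiableWithinAt)
      (fun s hs => (hq s hs).deriv) hs (mem_ball_self hr)
    simp only [mul_zero, sub_zero] at h1
    rw [← hm, sub_eq_iff_eq_add, div_eq_iff (hball s hs)] at h1
    rw [h1]
    ring
  have hk' : ∀ s, deriv h s - (m + c * s) * h s = 0 := by
    refine fun s => eq_zero_of_eventually (h := fun s => deriv h s - (m + c * s) * h s) ?_ hk s
    exact hd.sub (((differentiable_const m).add ((differentiable_const c).mul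
      differentiable_id)).mul hh)
  -- the quotient is constant
  have hw : ∀ s, HasDerivAt (fun s => h s * Complex.exp (-(m * s + c * s ^ 2 / 2))) 0 s := by
    intro s
    have h1 : HasDerivAt (fun s : ℂ => -(m * s + c * s ^ 2 / 2)) (-(m + c * s)) s := by
      have := (((hasDerivAt_id s).const_mul m).add
        ((((hasDerivAt_id s).pow 2).const_mul c).div_const 2)).neg
      refine this.congr_deriv ?_
      simp
      ring
    have h2 := (hh s).hasDerivAt.mul h1.cexp
    refine h2.congr_deriv ?_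
    have h3 := hk' s
    linear_combination Complex.exp (-(m * s + c * s ^ 2 / 2)) * h3
  intro s
  have h1 := is_const_of_deriv_eq_zero (f := fun s => h s * Complex.exp (-(m * s + c * s ^ 2 / 2)))
    (fun s => (hw s).differentiableAt) (fun s => (hw s).deriv) s 0
  simp only [mul_zero, ne_eq, OfNat.ofNat_ne_zero, not_false_eq_true, zero_pow, zero_div, add_zero,
    neg_zero, Complex.exp_zero, mul_one] at h1
  rw [← h1, mul_assoc, ← Complex.exp_add, neg_add_cancel, Complex.exp_zero, mul_one]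

section

variable {V : Type} [NormedAddCommGroup V] [InnerProductSpace ℂ V]

private theorem nrm_add_Grad {L : Submodule ℤ V} {χ θ : V → ℂ} (hχ : IsSemichar L 1 χ)
    (hθ : IsSec L 1 χ θ) {l : V} (hl : l ∈ L) (z : V) :
    ‖θ (z + l)‖ * Real.exp (-(Real.pi / 2 * ‖z + l‖ ^ 2)) =
      ‖θ z‖ * Real.exp (-(Real.pi / 2 * ‖z‖ ^ 2)) := by
  have h1 := ((isSec_iff_Tr L 1 χ θ).1 hθ).2 l hl z
  have h2 := norm_Tr 1 l θ z
  rw [h1, norm_mul, hχ.1 l hl, one_mul, mul_one] at h2
  have h3 : Real.exp (Real.pi / 2 * ‖z‖ ^ 2) * Real.exp (-(Real.pi / 2 * ‖z‖ ^ 2)) = 1 := by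
    rw [← Real.exp_add]
    simp
  rw [h2]
  linear_combination (-(‖θ (z + l)‖ * Real.exp (-(Real.pi / 2 * ‖z + l‖ ^ 2)))) * h3

variable [FiniteDimensional ℂ V]

private theorem beta_zero_Grad (hRec : StRec) (L : Submodule ℤ V) [DiscreteTopology L]
    [IsZLattice ℝ L] {χ θ : V → ℂ} (hχ : IsSemichar L 1 χ) (hθ : IsSec L 1 χ θ) {z₀ v : V}
    (h0 : θ z₀ ≠ 0) (m c : ℂ)
    (hexp : ∀ s : ℂ, θ (z₀ + s • v) = θ z₀ * Complex.exp (m * s + c * s ^ 2 / 2)) (ζ : ℂ)
    (hζ : ‖ζ‖ = 1) : (c * ζ ^ 2).re / 2 - Real.pi / 2 * ‖v‖ ^ 2 = 0 := by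
  set β := (c * ζ ^ 2).re / 2 - Real.pi / 2 * ‖v‖ ^ 2 with hβ
  set α := (m * ζ).re - Real.pi * (Hm z₀ (ζ • v)).re with hα
  by_contra hne
  set Nf : V → ℝ := fun z => ‖θ z‖ * Real.exp (-(Real.pi / 2 * ‖z‖ ^ 2)) with hNf
  have hNc : Continuous Nf := by
    have := hθ.1.continuous
    fun_prop
  have hN0 : 0 < Nf z₀ := mul_pos (norm_pos_iff.2 h0) (Real.exp_pos _)
  -- values along the line
  have hval : ∀ n : ℕ, Nf (z₀ + n • (ζ • v)) = Nf z₀ * Real.exp (α * n + β * n ^ 2) := by
    intro n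
    have e1 : n • (ζ • v) = ((n : ℂ) * ζ) • v := by
      rw [← Nat.cast_smul_eq_nsmul ℂ, smul_smul]
    have e2 : ‖z₀ + n • (ζ • v)‖ ^ 2 =
        ‖z₀‖ ^ 2 + 2 * (n * (Hm z₀ (ζ • v)).re) + n ^ 2 * ‖v‖ ^ 2 := by
      rw [norm_add_sq', ← Nat.cast_smul_eq_nsmul ℂ, Hm_smul_right, norm_smul, norm_smul, hζ,
        Complex.norm_natCast, Complex.conj_natCast, ← Complex.ofReal_natCast,
        Complex.re_ofReal_mul]
      ring
    simp only [hNf]
    rw [e2, e1, hexp, norm_mul, Complex.norm_exp, mul_assoc, mul_assoc, ← Real.exp_add,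
      ← Real.exp_add]
    congr 2
    have e3 : (m * ((n : ℂ) * ζ) + c * ((n : ℂ) * ζ) ^ 2 / 2).re =
        (m * ζ).re * n + (c * ζ ^ 2).re / 2 * n ^ 2 := by
      have e4 : m * ((n : ℂ) * ζ) + c * ((n : ℂ) * ζ) ^ 2 / 2 =
          ((n : ℝ) : ℂ) * (m * ζ) + (((n : ℝ) ^ 2 / 2 : ℝ) : ℂ) * (c * ζ ^ 2) := by
        push_cast
        ring
      rw [e4, Complex.add_re, Complex.re_ofReal_mul, Complex.re_ofReal_mul]
      ring
    rw [e3, hα, hβ]
    ring
  -- continuity at `z₀`
  obtain ⟨ε, hε, hcl⟩ := Metric.continuous_iff.1 hNc z₀ (Nf z₀ / 2) (half_pos hN0)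
  obtain ⟨n₀, hn₀⟩ := exists_nat_ge ((|α| + 1) / |β|)
  obtain ⟨n, hn, l, hl, hnl⟩ := hRec V L (ζ • v) ε (n₀ + 1) hε
  have h1 : Nf (z₀ + n • (ζ • v)) = Nf (z₀ + (n • (ζ • v) - l)) := by
    have := nrm_add_Grad hχ hθ hl (z₀ + (n • (ζ • v) - l))
    rw [show z₀ + (n • (ζ • v) - l) + l = z₀ + n • (ζ • v) by abel] at this
    exact this
  have h2 := hcl (z₀ + (n • (ζ • v) - l)) (by
    rw [dist_eq_norm, add_sub_cancel_left]
    exact hnl)
  rw [← h1, hval, Real.dist_eq] at h2
  set y := α * n + β * n ^ 2 with hy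
  have h3 : |Real.exp y - 1| < 1 / 2 := by
    have : Nf z₀ * Real.exp y - Nf z₀ = Nf z₀ * (Real.exp y - 1) := by ring
    rw [this, abs_mul, abs_of_pos hN0] at h2
    by_contra h4
    push Not at h4
    nlinarith
  have hpos : 0 < |β| := abs_pos.2 hne
  have hn1 : (n₀ : ℝ) + 1 ≤ n := by exact_mod_cast hn
  have h4 : |α| + 1 ≤ |β| * n := by
    rw [div_le_iff₀ hpos] at hn₀
    nlinarith
  have h5 : 1 ≤ |y| := by
    have h6 : |β * n ^ 2| - |α * n| ≤ |y| := by
      have := abs_sub_abs_le_abs_sub (β * n ^ 2) (-(α * n))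
      rw [abs_neg, sub_neg_eq_add, add_comm (β * _)] at this
      exact this
    rw [abs_mul, abs_mul, abs_of_nonneg (by positivity : (0 : ℝ) ≤ (n : ℝ) ^ 2), Nat.abs_cast] at h6
    have h7 : (1 : ℝ) ≤ n := by
      have : (0 : ℝ) ≤ n₀ := Nat.cast_nonneg _
      linarith
    nlinarith
  rw [abs_lt] at h3
  rcases le_abs.1 h5 with h6 | h6
  · have := Real.add_one_le_exp y
    linarith
  · have h7 : Real.exp y ≤ Real.exp (-1) := Real.exp_le_exp.2 (by linarith)
    have h8 : Real.exp (-1) ≤ 1 / 2 := by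
      rw [Real.exp_neg, inv_le_comm₀ (Real.exp_pos _) (by norm_num)]
      have := Real.add_one_le_exp (1 : ℝ)
      norm_num at this ⊢
      linarith
    linarith

end

theorem hGrad (hG1 : StG1) (hDiv : StDiv) (hRec : StRec) (hDim : StDim) (hCov : StCov) :
    StGrad := by
  intro V _ _ _ L _ _ χ θ hP hχ hθ hne v hv
  by_contra hcon
  push Not at hcon
  have hprop : ProperSpace V := FiniteDimensional.proper ℂ V
  obtain ⟨hd, hq⟩ := hθ
  set D1 : V → ℂ := fun z => fderiv ℂ θ z v with hD1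
  set D2 : V → ℂ := fun z => fderiv ℂ D1 z v with hD2
  have hd1 : Differentiable ℂ D1 := differentiable_fderiv_apply hd v
  have hd2 : Differentiable ℂ D2 := differentiable_fderiv_apply hd1 v
  -- step 1: the bound
  have hbound : ∀ y, ∃ C : ℝ, ∀ᶠ z in 𝓝 y, ‖D1 z ^ 2‖ ≤ C * ‖θ z‖ := by
    intro y
    obtain ⟨M, hM⟩ := (isCompact_closedBall y (‖v‖ + 1)).exists_bound_of_continuousOn
      hd.continuous.continuousOn
    refine ⟨64 * M, ?_⟩
    filter_upwards [ball_mem_nhds y one_pos] with z hz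
    have h1 := hG1 (fun s => θ (z + s • v)) M (differentiable_line hd z v) (fun s hs => ?_)
      (fun s hs => ?_)
    · rw [deriv_line hd, zero_smul, add_zero] at h1
      rw [norm_pow]
      exact h1
    · refine hM _ ?_
      rw [mem_closedBall, dist_eq_norm]
      rw [mem_ball, dist_eq_norm] at hz
      calc ‖z + s • v - y‖ = ‖(z - y) + s • v‖ := by
            congr 1
            abel
        _ ≤ ‖z - y‖ + ‖s • v‖ := norm_add_le _ _
        _ ≤ ‖v‖ + 1 := by
            rw [norm_smul]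
            have := mul_le_mul_of_nonneg_right hs (norm_nonneg v)
            linarith
    · rw [deriv_line hd]
      exact hcon _ hs
  -- step 2: division
  obtain ⟨F, hF, hFe⟩ := hDiv V θ (fun z => D1 z ^ 2) hd (hd1.pow 2) hne hbound
  -- step 3: quasi-periodicity
  set ψ : V → ℂ := fun z => D2 z - F z with hψ
  have hψs : IsSec L 1 χ ψ := by
    refine ⟨hd2.sub hF, fun l hl => ?_⟩
    -- the factor
    set e : V → ℂ := fun z => χ l * fac 1 z l with he
    set κ : ℂ := (Real.pi : ℂ) * Hm v l with hκ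
    have hHd : ∀ z, HasFDerivAt (fun z : V => Hm z l) (innerSL ℂ l) z := by
      intro z
      have : (fun z : V => Hm z l) = fun z => (innerSL ℂ l) z := by
        funext z
        simp [Hm]
      rw [this]
      exact (innerSL ℂ l).hasFDerivAt
    have hed : ∀ z, HasFDerivAt e ((e z * (Real.pi : ℂ)) • innerSL ℂ l) z := by
      intro z
      have h1 := ((((hHd z).const_mul (((Real.pi * 1 : ℝ) : ℂ))).add_const
        (((Real.pi * 1 / 2 * ‖l‖ ^ 2 : ℝ) : ℂ))).cexp).const_mul (χ l)
      refine h1.congr_fderiv ?_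
      rw [smul_smul, smul_smul]
      congr 1
      simp only [he, fac]
      push_cast
      ring
    have hev : ∀ z, fderiv ℂ e z v = e z * κ := by
      intro z
      rw [(hed z).fderiv]
      simp [hκ, Hm]
      ring
    have hedd : Differentiable ℂ e := fun z => (hed z).differentiableAt
    have hene : ∀ z, e z ≠ 0 := fun z => mul_ne_zero (hχ.ne_zero hl) (Complex.exp_ne_zero _)
    have q0 : ∀ z, θ (z + l) = e z * θ z := fun z => hq l hl z
    have q1 : ∀ z, D1 (z + l) = e z * (D1 z + κ * θ z) := by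
      intro z
      have h1 : (fun z => θ (z + l)) = fun z => e z * θ z := funext q0
      have h2 : fderiv ℂ (fun z => θ (z + l)) z v = D1 (z + l) := by
        rw [fderiv_comp_add_right]
      rw [← h2, h1, fderiv_fun_mul (hedd z) (hd z)]
      simp only [_root_.add_apply, _root_.smul_apply, smul_eq_mul, hev]
      ring
    have q2 : ∀ z, D2 (z + l) = e z * (D2 z + 2 * κ * D1 z + κ ^ 2 * θ z) := by
      intro z
      have h1 : (fun z => D1 (z + l)) = fun z => e z * (D1 z + κ * θ z) := funext q1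
      have h2 : fderiv ℂ (fun z => D1 (z + l)) z v = D2 (z + l) := by
        rw [fderiv_comp_add_right]
      have h3 : HasFDerivAt (fun z => D1 z + κ * θ z) (fderiv ℂ D1 z + κ • fderiv ℂ θ z) z :=
        (hd1 z).hasFDerivAt.add ((hd z).hasFDerivAt.const_mul κ)
      rw [← h2, h1, fderiv_fun_mul (hedd z) h3.differentiableAt, h3.fderiv]
      simp only [_root_.add_apply, _root_.smul_apply, smul_eq_mul, hev]
      change e z * (D2 z + κ * D1 z) + (D1 z + κ * θ z) * (e z * κ) = _
      ring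
    have q3 : (fun z => F (z + l)) = fun z => e z * (F z + 2 * κ * D1 z + κ ^ 2 * θ z) := by
      refine eq_of_eq_of_ne_zero hd hne (hF.continuous.comp (continuous_id.add continuous_const))
        (hedd.continuous.mul ((hF.continuous.add (continuous_const.mul hd1.continuous)).add
          (continuous_const.mul hd.continuous))) fun z hz => ?_
      have h1 := hFe (z + l)
      have h2 := hFe z
      simp only [q0, q1] at h1 h2
      have h3 : e z * θ z ≠ 0 := mul_ne_zero (hene z) hz
      refine mul_right_cancel₀ h3 ?_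
      rw [← h1]
      linear_combination (e z) ^ 2 * h2
    intro z
    have h1 := congrFun q3 z
    simp only [hψ] at h1 ⊢
    rw [q2, h1]
    change _ = e z * (D2 z - F z)
    ring
  -- step 4: proportionality
  obtain ⟨c, hc⟩ : ∃ c : ℂ, ∀ z, ψ z = c * θ z := by
    borelize V
    by_contra hno
    push Not at hno
    have hli : LinearIndependent ℂ ![ψ, θ] := by
      rw [LinearIndependent.pair_iff]
      intro a b hab
      have hab' : ∀ z, a * ψ z + b * θ z = 0 := fun z => by
        have := congrFun hab z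
        simpa using this
      by_cases ha : a = 0
      · subst ha
        obtain ⟨z, hz⟩ := hne
        have := hab' z
        rw [zero_mul, zero_add] at this
        exact ⟨rfl, (mul_eq_zero.1 this).resolve_right hz⟩
      · exfalso
        obtain ⟨z, hz⟩ := hno (-b / a)
        apply hz
        have := hab' z
        field_simp
        linear_combination this
    have h1 := hDim V L 1 χ one_pos hP.1 hχ 2 ![ψ, θ] (fun i => by
      fin_cases i
      · exact hψs
      · exact ⟨hd, hq⟩) hli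
    rw [hCov V L 1 one_pos hP] at h1
    norm_num at h1
  -- step 5, 6
  obtain ⟨z₀, hz₀⟩ := hne
  have hdl : deriv (fun s : ℂ => θ (z₀ + s • v)) = fun s => D1 (z₀ + s • v) := by
    funext s
    exact deriv_line hd z₀ v s
  obtain ⟨m, hm⟩ := exp_form_Grad (h := fun s : ℂ => θ (z₀ + s • v))
    (differentiable_line hd z₀ v) c (by simpa using hz₀) (fun s => by
      rw [hdl, deriv_line hd1]
      have h1 := hc (z₀ + s • v)
      have h2 := hFe (z₀ + s • v)
      simp only [hψ, hD2] at h1 h2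
      linear_combination θ (z₀ + s • v) * h1 - h2)
  simp only [zero_smul, add_zero] at hm
  -- step 7
  have k1 := beta_zero_Grad hRec L hχ ⟨hd, hq⟩ hz₀ m c hm 1 (by simp)
  have k2 := beta_zero_Grad hRec L hχ ⟨hd, hq⟩ hz₀ m c hm Complex.I (by simp)
  rw [one_pow, mul_one] at k1
  rw [Complex.I_sq, mul_neg, mul_one, Complex.neg_re] at k2
  have k3 : Real.pi * ‖v‖ ^ 2 = 0 := by linarith
  have k4 : 0 < Real.pi * ‖v‖ ^ 2 := by
    have := norm_pos_iff.2 hv
    have := Real.pi_pos
    positivity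
  linarith

end Pool.Agent.Helper7.JT
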