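import Pool.Agent.Helper7.JT.Base

/-! Project JT (MP_43f214_ag), module Growth: Gaussian growth of theta functions. -/

namespace Pool.Agent.Helper7.JT

open MeasureTheory Module Filter Topology Asymptotics

/-- A continuous function that is periodic under a lattice is bounded. -/
theorem bounded_of_periodic_Growth {V : Type} [NormedAddCommGroup V] [InnerProductSpace ℂ V]
    [FiniteDimensional ℂ V] (L : Submodule ℤ V) [DiscreteTopology L] [IsZLattice ℝ L]
    (N : V → ℝ) (hN : Continuous N) (hp : ∀ l ∈ L, ∀ z, N (z + l) = N z) :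
    ∃ C : ℝ, ∀ z, N z ≤ C := by
  have : FiniteDimensional ℝ V := FiniteDimensional.complexToReal V
  have : ProperSpace V := FiniteDimensional.proper ℂ V
  set b₀ := Module.Free.chooseBasis ℤ L
  set b := b₀.ofZLatticeBasis ℝ L
  have hspan : Submodule.span ℤ (Set.range b) = L := b₀.ofZLatticeBasis_span ℝ
  set R : ℝ := ∑ i, ‖b i‖
  obtain ⟨C, hC⟩ := (isCompact_closedBall (0 : V) R).bddAbove_image hN.continuousOn
  refine ⟨C, fun z => ?_⟩
  have hfl : ((ZSpan.floor b z : V)) ∈ L := hspan.le (ZSpan.floor b z).2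
  have hz : z = ZSpan.fract b z + (ZSpan.floor b z : V) := by
    rw [ZSpan.fract_apply]; abel
  have h1 : N z = N (ZSpan.fract b z) := by
    conv_lhs => rw [hz]
    exact hp _ hfl _
  rw [h1]
  apply hC
  refine ⟨ZSpan.fract b z, ?_, rfl⟩
  rw [mem_closedBall_zero_iff]
  exact ZSpan.norm_fract_le b z

theorem hGrowth : StGrowth := by
  intro V _ _ _ L _ _ t χ f ht hχ hf
  have hper := (isSec_iff_Tr L t χ f).1 hf
  have hcont : Continuous f := hf.1.continuous
  obtain ⟨C, hC⟩ := bounded_of_periodic_Growth L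
    (fun z => Real.exp (-(Real.pi * t / 2 * ‖z‖ ^ 2)) * ‖f z‖)
    (by fun_prop) (by
      intro l hl z
      have h1 := congrArg norm (hper.2 l hl z)
      rw [norm_mul, hχ.1 l hl, one_mul, norm_Tr] at h1
      show Real.exp (-(Real.pi * t / 2 * ‖z + l‖ ^ 2)) * ‖f (z + l)‖
        = Real.exp (-(Real.pi * t / 2 * ‖z‖ ^ 2)) * ‖f z‖
      rw [← h1, ← mul_assoc, ← Real.exp_add, neg_add_cancel, Real.exp_zero, one_mul])
  refine ⟨C, fun z => ?_⟩
  have h2 := hC z
  have h3 : ‖f z‖ = (Real.exp (-(Real.pi * t / 2 * ‖z‖ ^ 2)) * ‖f z‖) *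
      Real.exp (Real.pi * t / 2 * ‖z‖ ^ 2) := by
    have : Real.exp (-(Real.pi * t / 2 * ‖z‖ ^ 2)) * Real.exp (Real.pi * t / 2 * ‖z‖ ^ 2) = 1 := by
      rw [← Real.exp_add, neg_add_cancel, Real.exp_zero]
    calc ‖f z‖ = (Real.exp (-(Real.pi * t / 2 * ‖z‖ ^ 2)) *
          Real.exp (Real.pi * t / 2 * ‖z‖ ^ 2)) * ‖f z‖ := by rw [this, one_mul]
      _ = _ := by ring
  rw [h3]
  exact mul_le_mul_of_nonneg_right h2 (Real.exp_pos _).le

end Pool.Agent.Helper7.JT
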