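import Pool.Agent.Helper7.JT.Base

/-! Project JT (MP_43f214_ag), module Inj: injectivity of the transform. -/

namespace Pool.Agent.Helper7.JT

open MeasureTheory Module Filter Topology Asymptotics Pointwise

/-- Unfolding: if all lattice sums of an integrable function vanish, so does its integral. -/
private theorem unfold_Inj {V : Type} [NormedAddCommGroup V] [NormedSpace ℝ V]
    [FiniteDimensional ℝ V] [MeasurableSpace V] [BorelSpace V]
    (L : Submodule ℤ V) [DiscreteTopology L] [IsZLattice ℝ L] (μ : Measure V)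
    [μ.IsAddHaarMeasure] (F : V → ℂ) (hF : Integrable F μ)
    (h0 : ∀ w, ∑' l : L, F (w - l) = 0) : ∫ w, F w ∂μ = 0 := by
  have hinv : VAddInvariantMeasure L V μ :=
    inferInstanceAs <| VAddInvariantMeasure L.toAddSubgroup V μ
  have hD := ZLattice.isAddFundamentalDomain (Module.Free.chooseBasis ℤ L) μ
  set D := ZSpan.fundamentalDomain ((Module.Free.chooseBasis ℤ L).ofZLatticeBasis ℝ)
  have h1 := hD.integral_eq_tsum' F hF
  have h2 : ∀ (l : L) (w : V), (-l) +ᵥ w = w - (l : V) := by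
    intro l w
    show ((-l : L) : V) + w = w - l
    rw [Submodule.coe_neg]; abel
  simp only [h2] at h1
  have h3 : ∀ l : L, Integrable (fun w => F (w - l)) (μ.restrict D) := by
    intro l
    exact (hF.comp_sub_right (l : V)).restrict
  have h4 : Summable fun l : L => ∫ w in D, ‖F (w - l)‖ ∂μ := by
    have h5 : Integrable (fun w => ‖F w‖) (Measure.sum fun g : L => μ.restrict (g +ᵥ D)) := by
      rw [hD.sum_restrict]
      exact hF.norm
    have h6 := (hasSum_integral_measure h5).summable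
    have h7 := ((Equiv.neg L).summable_iff (f := fun g : L => ∫ x in g +ᵥ D, ‖F x‖ ∂μ)).2 h6
    refine h7.congr fun l => ?_
    have h8 := (measurePreserving_vadd (-l) μ).setIntegral_image_emb
      (measurableEmbedding_const_vadd (-l)) (fun x => ‖F x‖) D
    simp only [h2] at h8
    simp only [Function.comp, Equiv.neg_apply]
    rw [← h8]
    have h9 : (-l +ᵥ D : Set V) = (fun a => a - (l : V)) '' D := by
      rw [← Set.image_vadd]
      simp only [h2]
    rw [h9]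
  rw [integral_tsum_of_summable_integral_norm h3 h4] at h1
  rw [h1]
  simp only [h0, integral_zero]

section Cont

variable {V : Type} [NormedAddCommGroup V] [InnerProductSpace ℂ V] [FiniteDimensional ℂ V]

private theorem continuous_Gk_Inj (t : ℝ) (i : Idx V) : Continuous fun w : V => Gk t w i := by
  have h1 : ∀ b : V, Continuous fun w : V => Hm b w := fun b => by
    unfold Hm
    exact continuous_id.inner continuous_const
  rcases i with i | i | i
  · simp only [Gk]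
    fun_prop
  · simp only [Gk]
    have := h1 (ob i)
    fun_prop
  · simp only [Gk]
    have := h1 (ob i.1.1)
    have := h1 (ob i.1.2)
    fun_prop

private theorem norm_Gk_Inj (w : V) (i : Idx V) :
    ‖Gk 3 w i‖ ≤ Real.exp (3 * Real.pi ^ 2) * Real.exp (-‖w‖ ^ 2) := by
  have hpi := Real.pi_gt_three
  have hob : ∀ j : Fin (finrank ℂ V), ‖(ob j : V)‖ = 1 := fun j => (ob (V := V)).norm_eq_one j
  have hH : ∀ j : Fin (finrank ℂ V), ‖Hm (ob j) w‖ ≤ ‖w‖ := by
    intro j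
    have := norm_Hm_le (ob j) w
    rwa [hob, one_mul] at this
  have hw := norm_nonneg w
  have key : ∀ A : ℂ, ‖A‖ ≤ (1 + 3 * Real.pi * ‖w‖) ^ 2 →
      ‖A * ((Real.exp (-(Real.pi * 3 / 2 * ‖w‖ ^ 2)) : ℝ) : ℂ)‖ ≤
        Real.exp (3 * Real.pi ^ 2) * Real.exp (-‖w‖ ^ 2) := by
    intro A hA
    rw [norm_mul, Complex.norm_real, Real.norm_of_nonneg (Real.exp_pos _).le]
    have h1 : 1 + 3 * Real.pi * ‖w‖ ≤ Real.exp (3 * Real.pi * ‖w‖) := by
      have := Real.add_one_le_exp (3 * Real.pi * ‖w‖)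
      linarith
    have h2 : (1 + 3 * Real.pi * ‖w‖) ^ 2 ≤ Real.exp (6 * Real.pi * ‖w‖) := by
      have h3 : Real.exp (6 * Real.pi * ‖w‖) = Real.exp (3 * Real.pi * ‖w‖) ^ 2 := by
        rw [← Real.exp_nat_mul]; congr 1; push_cast; ring
      rw [h3]
      exact pow_le_pow_left₀ (by positivity) h1 2
    calc ‖A‖ * Real.exp (-(Real.pi * 3 / 2 * ‖w‖ ^ 2))
        ≤ Real.exp (6 * Real.pi * ‖w‖) * Real.exp (-(Real.pi * 3 / 2 * ‖w‖ ^ 2)) :=
          mul_le_mul_of_nonneg_right (hA.trans h2) (Real.exp_pos _).le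
      _ = Real.exp (6 * Real.pi * ‖w‖ + -(Real.pi * 3 / 2 * ‖w‖ ^ 2)) := (Real.exp_add _ _).symm
      _ ≤ Real.exp (3 * Real.pi ^ 2 + -‖w‖ ^ 2) := by
          apply Real.exp_le_exp.2
          nlinarith [sq_nonneg (‖w‖ - Real.pi), sq_nonneg ‖w‖, mul_nonneg hw hw]
      _ = _ := Real.exp_add _ _
  rcases i with i | i | i
  · simp only [Gk]
    refine key 1 ?_
    rw [norm_one]
    nlinarith [mul_nonneg (mul_nonneg (by norm_num : (0:ℝ) ≤ 3) Real.pi_pos.le) hw]
  · simp only [Gk]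
    refine key _ ?_
    rw [norm_mul, Complex.norm_real, Real.norm_of_nonneg (by positivity)]
    have h1 := hH i
    have h2 : 0 ≤ 3 * Real.pi * ‖w‖ := by positivity
    nlinarith [mul_le_mul_of_nonneg_left h1 (by positivity : (0:ℝ) ≤ Real.pi * 3)]
  · simp only [Gk]
    refine key _ ?_
    rw [norm_mul, norm_mul, norm_pow, Complex.norm_real, Real.norm_of_nonneg (by positivity)]
    have h1 := hH i.1.1
    have h2 := hH i.1.2
    have h3 : 0 ≤ 3 * Real.pi * ‖w‖ := by positivity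
    have h4 : (Real.pi * 3) ^ 2 * ‖Hm (ob i.1.1) w‖ * ‖Hm (ob i.1.2) w‖ ≤
        (Real.pi * 3) ^ 2 * ‖w‖ * ‖w‖ := by gcongr
    nlinarith

end Cont

theorem hInj (hS : StSep) (hR : StRepJ) (hG : StGrowth) : StInj := by
  intro V _ _ _ L _ _ hP hnp χ hχ q hq
  by_contra hcon
  push Not at hcon
  let _ : MeasurableSpace V := borel V
  have : BorelSpace V := ⟨rfl⟩
  have hfin : FiniteDimensional ℝ V := FiniteDimensional.complexToReal V
  -- the conjugate semicharacter
  have hχ' : IsSemichar L ((3 : ℝ)) (fun v => (starRingEnd ℂ) (χ v)) := by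
    refine ⟨fun l hl => by rw [RCLike.norm_conj]; exact hχ.1 l hl, fun l hl m hm => ?_⟩
    show (starRingEnd ℂ) (χ (l + m)) = (starRingEnd ℂ) (χ l) * (starRingEnd ℂ) (χ m) * _
    rw [hχ.2 l hl m hm, map_mul, map_mul]
    congr 1
    obtain ⟨n, hn⟩ := hP.1 l hl m hm
    have h1 : Real.pi * 3 * Ef l m = Real.pi * (3 * n : ℤ) := by
      push_cast
      rw [one_mul] at hn
      rw [hn]; ring
    rw [h1, ← Complex.exp_conj, map_mul, Complex.conj_ofReal, Complex.conj_I]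
    rw [Complex.exp_eq_exp_iff_exists_int]
    refine ⟨-(3 * n), ?_⟩
    push_cast
    ring
  obtain ⟨f, hf, hfq⟩ := hS V L hP hnp _ hχ' q hq
  obtain ⟨C, hC⟩ := hG V L 3 _ f (by norm_num) hχ' hf
  apply hfq
  have hfc : Continuous f := hf.1.continuous
  -- integrability
  have hgauss : Integrable (fun w : V => Real.exp (-‖w‖ ^ 2)) (vol V) := by
    let i1 : InnerProductSpace ℝ V := InnerProductSpace.complexToReal
    have h1 := GaussianFourier.integrable_cexp_neg_mul_sq_norm_add (V := V) (b := 1)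
      (by simp) 0 (0 : V)
    have h2 := h1.norm
    refine h2.congr (Eventually.of_forall fun v => ?_)
    simp only [Complex.norm_exp]
    congr 1
    simp
    norm_cast
  have hint : ∀ i : Idx V, Integrable (fun w : V => f w * Gk 3 w i *
      ((Real.exp (-(Real.pi * 3 / 2 * ‖w‖ ^ 2)) : ℝ) : ℂ)) (vol V) := by
    intro i
    refine Integrable.mono' (hgauss.const_mul (C * Real.exp (3 * Real.pi ^ 2))) ?_
      (Eventually.of_forall fun w => ?_)
    · have := continuous_Gk_Inj 3 i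
      exact (by fun_prop : Continuous fun w : V => f w * Gk 3 w i *
        ((Real.exp (-(Real.pi * 3 / 2 * ‖w‖ ^ 2)) : ℝ) : ℂ)).aestronglyMeasurable
    · rw [norm_mul, norm_mul, Complex.norm_real, Real.norm_of_nonneg (Real.exp_pos _).le]
      have h1 := hC w
      have h2 := norm_Gk_Inj w i
      have h3 : ‖f w‖ * Real.exp (-(Real.pi * 3 / 2 * ‖w‖ ^ 2)) ≤ C := by
        calc ‖f w‖ * Real.exp (-(Real.pi * 3 / 2 * ‖w‖ ^ 2))
            ≤ C * Real.exp (Real.pi * 3 / 2 * ‖w‖ ^ 2) *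
              Real.exp (-(Real.pi * 3 / 2 * ‖w‖ ^ 2)) :=
              mul_le_mul_of_nonneg_right h1 (Real.exp_pos _).le
          _ = C := by rw [mul_assoc, ← Real.exp_add]; simp
      have h4 : 0 ≤ ‖f w‖ * Real.exp (-(Real.pi * 3 / 2 * ‖w‖ ^ 2)) := by positivity
      calc ‖f w‖ * ‖Gk 3 w i‖ * Real.exp (-(Real.pi * 3 / 2 * ‖w‖ ^ 2))
          = (‖f w‖ * Real.exp (-(Real.pi * 3 / 2 * ‖w‖ ^ 2))) * ‖Gk 3 w i‖ := by ring
        _ ≤ C * (Real.exp (3 * Real.pi ^ 2) * Real.exp (-‖w‖ ^ 2)) := by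
            apply mul_le_mul h3 h2 (norm_nonneg _) (h4.trans h3)
        _ = _ := by ring
  set F : V → ℂ := fun w => ∑ i, q i * (f w * Gk 3 w i *
      ((Real.exp (-(Real.pi * 3 / 2 * ‖w‖ ^ 2)) : ℝ) : ℂ)) with hFdef
  have hFint : Integrable F (vol V) := integrable_finsetSum _ fun i _ => (hint i).const_mul _
  have hsum : ∑ i, q i * Dj i f = ((3 : ℝ) : ℂ) ^ (finrank ℂ V) * ∫ w, F w ∂(vol V) := by
    rw [hFdef, integral_finsetSum _ fun i _ => (hint i).const_mul _, Finset.mul_sum]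
    refine Finset.sum_congr rfl fun i _ => ?_
    rw [hR V 3 f (by norm_num) hf.1 ⟨C, hC⟩ i, integral_const_mul]
    ring
  rw [hsum]
  have hhaar : (vol V).IsAddHaarMeasure := by
    let i1 : InnerProductSpace ℝ V := InnerProductSpace.complexToReal
    exact (inferInstance : (volume : Measure V).IsAddHaarMeasure)
  rw [unfold_Inj L (vol V) F hFint ?_, mul_zero]
  intro w
  have hper := (isSec_iff_Tr L 3 _ f).1 hf
  have hterm : ∀ l : L, F (w - l) = (f w * ((Real.exp (-(Real.pi * 3 / 2 * ‖w‖ ^ 2)) : ℝ) : ℂ)) *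
      ∑ i, Complex.exp (((Real.pi * 3 * Ef (l : V) w : ℝ) : ℂ) * Complex.I) * (χ l * q i) *
        Gk 3 (w - l) i := by
    intro l
    have h1 := hper.2 (-(l : V)) (L.neg_mem l.2) w
    have h2 : (starRingEnd ℂ) (χ (-(l : V))) = χ l := by
      rw [hχ.neg l.2, Complex.conj_conj]
    rw [h2, Tr_apply, ← sub_eq_add_neg] at h1
    have h3 : f (w - l) * ((Real.exp (-(Real.pi * 3 / 2 * ‖w - l‖ ^ 2)) : ℝ) : ℂ) =
        (f w * ((Real.exp (-(Real.pi * 3 / 2 * ‖w‖ ^ 2)) : ℝ) : ℂ)) *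
        (Complex.exp (((Real.pi * 3 * Ef (l : V) w : ℝ) : ℂ) * Complex.I) * χ l) := by
      have h4 : f (w - l) = Complex.exp ((((Real.pi * 3 : ℝ) : ℂ) * Hm w (-(l : V))) +
          ((Real.pi * 3 / 2 * ‖-(l : V)‖ ^ 2 : ℝ) : ℂ)) * (χ l * f w) := by
        rw [← h1, ← mul_assoc, ← Complex.exp_add]
        rw [show (((Real.pi * 3 : ℝ) : ℂ) * Hm w (-(l : V))) +
          ((Real.pi * 3 / 2 * ‖-(l : V)‖ ^ 2 : ℝ) : ℂ) +
          (-(((Real.pi * 3 : ℝ) : ℂ) * Hm w (-(l : V))) -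
          ((Real.pi * 3 / 2 * ‖-(l : V)‖ ^ 2 : ℝ) : ℂ)) = 0 by ring, Complex.exp_zero, one_mul]
      rw [h4, norm_sub_sq', norm_neg, Hm_neg_right]
      have h5 : Hm w (l : V) = (((Hm w (l : V)).re : ℝ) : ℂ) + ((Ef w (l : V) : ℝ) : ℂ) * Complex.I :=
        by rw [Ef]; exact (Complex.re_add_im _).symm
      have h6 : Ef (l : V) w = - Ef w (l : V) := Ef_swap _ _
      rw [Complex.ofReal_exp, Complex.ofReal_exp]
      rw [show Complex.exp (((Real.pi * 3 : ℝ) : ℂ) * -Hm w (l : V) +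
          ((Real.pi * 3 / 2 * ‖(l : V)‖ ^ 2 : ℝ) : ℂ)) * (χ l * f w) *
          Complex.exp ((-(Real.pi * 3 / 2 * (‖w‖ ^ 2 - 2 * (Hm w (l : V)).re + ‖(l : V)‖ ^ 2)) : ℝ) : ℂ)
          = f w * χ l * (Complex.exp (((Real.pi * 3 : ℝ) : ℂ) * -Hm w (l : V) +
          ((Real.pi * 3 / 2 * ‖(l : V)‖ ^ 2 : ℝ) : ℂ)) *
          Complex.exp ((-(Real.pi * 3 / 2 * (‖w‖ ^ 2 - 2 * (Hm w (l : V)).re + ‖(l : V)‖ ^ 2)) : ℝ) : ℂ))
          by ring]
      rw [show f w * Complex.exp ((-(Real.pi * 3 / 2 * ‖w‖ ^ 2) : ℝ) : ℂ) *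
        (Complex.exp (((Real.pi * 3 * Ef (l : V) w : ℝ) : ℂ) * Complex.I) * χ l) =
        f w * χ l * (Complex.exp ((-(Real.pi * 3 / 2 * ‖w‖ ^ 2) : ℝ) : ℂ) *
        Complex.exp (((Real.pi * 3 * Ef (l : V) w : ℝ) : ℂ) * Complex.I)) by ring]
      rw [← Complex.exp_add, ← Complex.exp_add]
      congr 2
      rw [h6]
      nth_rewrite 1 [h5]
      push_cast
      ring
    rw [hFdef]
    simp only
    rw [Finset.mul_sum]
    refine Finset.sum_congr rfl fun i _ => ?_
    calc q i * (f (w - l) * Gk 3 (w - l) i *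
          ((Real.exp (-(Real.pi * 3 / 2 * ‖w - l‖ ^ 2)) : ℝ) : ℂ))
        = q i * Gk 3 (w - l) i * (f (w - l) *
          ((Real.exp (-(Real.pi * 3 / 2 * ‖w - l‖ ^ 2)) : ℝ) : ℂ)) := by ring
      _ = _ := by rw [h3]; ring
  simp only [hterm]
  rw [tsum_mul_left]
  have h7 := hcon w
  rw [Phi] at h7
  rw [h7, mul_zero]

end Pool.Agent.Helper7.JT
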