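import Pool.Agent.Helper7.JT.Base

/-!
JT: module Jen.  Zero count of an entire function of Gaussian growth vanishing on a lattice.
-/

set_option autoImplicit false

namespace Pool.Agent.Helper7.JT

open MeasureTheory Module Filter Topology Asymptotics Metric MeromorphicOn Real

namespace JenAux

theorem divisor_one_le (h : ℂ → ℂ) (hd : Differentiable ℂ h) (hne : ∃ s, h s ≠ 0) (U : Set ℂ)
    (u : ℂ) (hu : u ∈ U) (h0 : h u = 0) : (1 : ℤ) ≤ divisor h U u := by
  have han : AnalyticOnNhd ℂ h U := fun z _ => hd.analyticAt z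
  rw [han.divisor_apply hu]
  have h1 : analyticOrderAt h u ≠ 0 := by
    rw [Ne, (hd.analyticAt u).analyticOrderAt_eq_zero]
    simpa using h0
  have h2 : analyticOrderAt h u ≠ ⊤ := by
    rw [Ne, analyticOrderAt_eq_top]
    intro hev
    obtain ⟨s, hs⟩ := hne
    have han' : AnalyticOnNhd ℂ h Set.univ := fun z _ => hd.analyticAt z
    exact hs (han'.eqOn_zero_of_preconnected_of_eventuallyEq_zero isPreconnected_univ
      (Set.mem_univ u) hev (Set.mem_univ s))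
  obtain ⟨n, hn⟩ := ENat.ne_top_iff_exists.1 h2
  rw [← hn] at h1 ⊢
  have : n ≠ 0 := by
    intro h; apply h1; rw [h]; rfl
  have h3 : (((n : ℕ∞).map (fun k : ℕ => (k : ℤ))).untop₀ : ℤ) = n := by
    simp
  rw [h3]
  exact_mod_cast Nat.one_le_iff_ne_zero.2 this

theorem jensen_lower (h : ℂ → ℂ) (hd : Differentiable ℂ h) (hne : ∃ s, h s ≠ 0) (R : ℝ)
    (hR : 1 ≤ R) (S : Finset ℂ) (hS : ∀ u ∈ S, u ≠ 0 ∧ ‖u‖ ≤ R ∧ h u = 0) :
    ∑ u ∈ S, Real.log (R / ‖u‖) + Real.log ‖meromorphicTrailingCoeffAt h 0‖ ≤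
      circleAverage (Real.log ‖h ·‖) 0 R := by
  have hR0 : (0 : ℝ) < R := by linarith
  have han : AnalyticOnNhd ℂ h (closedBall 0 |R|) := fun z _ => hd.analyticAt z
  rw [MeromorphicOn.circleAverage_log_norm hR0.ne' han.meromorphicOn]
  have hdn : ∀ u, 0 ≤ divisor h (closedBall 0 |R|) u := fun u => han.divisor_nonneg u
  have h1 : 0 ≤ (divisor h (closedBall 0 |R|) 0 : ℝ) * Real.log R :=
    mul_nonneg (by exact_mod_cast hdn 0) (Real.log_nonneg hR)
  have hfin := (divisor h (closedBall 0 |R|)).finiteSupport (isCompact_closedBall 0 |R|)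
  have h2 : ∑ u ∈ S, Real.log (R / ‖u‖) ≤
      ∑ᶠ u, (divisor h (closedBall 0 |R|) u : ℝ) * Real.log (R * ‖(0 : ℂ) - u‖⁻¹) := by
    classical
    have hsub : (Function.support fun u => (divisor h (closedBall 0 |R|) u : ℝ) *
        Real.log (R * ‖(0 : ℂ) - u‖⁻¹)) ⊆ ((hfin.toFinset ∪ S : Finset ℂ) : Set ℂ) := by
      intro u hu
      rw [Finset.coe_union]
      left
      simp only [Set.Finite.coe_toFinset]
      intro h0
      apply hu
      simp only
      rw [h0]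
      simp
    rw [finsum_eq_sum_of_support_subset _ hsub]
    have hnn : ∀ u ∈ hfin.toFinset ∪ S, 0 ≤ (divisor h (closedBall 0 |R|) u : ℝ) *
        Real.log (R * ‖(0 : ℂ) - u‖⁻¹) := by
      intro u _
      by_cases hu : u ∈ closedBall (0 : ℂ) |R|
      · refine mul_nonneg (by exact_mod_cast hdn u) ?_
        by_cases hu0 : u = 0
        · rw [hu0]; simp
        · refine Real.log_nonneg ?_
          have hu1 : 0 < ‖(0 : ℂ) - u‖ := by
            rw [zero_sub, norm_neg]; exact norm_pos_iff.2 hu0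
          rw [mem_closedBall, dist_zero_right, abs_of_pos hR0] at hu
          rw [← div_eq_mul_inv, one_le_div hu1, zero_sub, norm_neg]
          exact hu
      · rw [Function.locallyFinsuppWithin.apply_eq_zero_of_notMem _ hu]
        simp
    refine le_trans ?_ (Finset.sum_le_sum_of_subset_of_nonneg Finset.subset_union_right
      fun u hu _ => hnn u hu)
    refine Finset.sum_le_sum fun u hu => ?_
    obtain ⟨hu0, huR, hh⟩ := hS u hu
    have hu1 : 0 < ‖u‖ := norm_pos_iff.2 hu0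
    have hmem : u ∈ closedBall (0 : ℂ) |R| := by
      rw [mem_closedBall, dist_zero_right, abs_of_pos hR0]
      exact huR
    have h3 := divisor_one_le h hd hne _ u hmem hh
    rw [zero_sub, norm_neg, ← div_eq_mul_inv]
    have h4 : 0 ≤ Real.log (R / ‖u‖) := Real.log_nonneg ((one_le_div hu1).2 huR)
    have h5 : (1 : ℝ) ≤ (divisor h (closedBall 0 |R|) u : ℝ) := by exact_mod_cast h3
    nlinarith
  linarith

theorem jensen_upper (h : ℂ → ℂ) (hd : Differentiable ℂ h) (C D β R : ℝ) (hC : 1 ≤ C)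
    (hD : 0 ≤ D) (hβ : 0 ≤ β) (hR : 0 ≤ R)
    (hb : ∀ s, ‖h s‖ ≤ C * Real.exp (Real.pi / 2 * β * ‖s‖ ^ 2 + D * ‖s‖)) :
    circleAverage (Real.log ‖h ·‖) 0 R ≤ Real.log C + (Real.pi / 2 * β * R ^ 2 + D * R) := by
  refine circleAverage_mono_on_of_le_circle ?_ ?_
  · have han : AnalyticOnNhd ℂ h (sphere 0 |R|) := fun z _ => hd.analyticAt z
    exact han.meromorphicOn.circleIntegrable_log_norm
  · intro x hx
    have hxn : ‖x‖ = R := by
      rw [mem_sphere, dist_zero_right, abs_of_nonneg hR] at hx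
      exact hx
    have hnn : 0 ≤ Real.log C + (Real.pi / 2 * β * R ^ 2 + D * R) := by
      have := Real.log_nonneg hC
      positivity
    rcases eq_or_ne (h x) 0 with h0 | h0
    · simp only [h0, norm_zero, Real.log_zero]
      exact hnn
    · have := hb x
      rw [hxn] at this
      have hpos : 0 < ‖h x‖ := norm_pos_iff.2 h0
      calc Real.log ‖h x‖ ≤ Real.log (C * Real.exp (Real.pi / 2 * β * R ^ 2 + D * R)) :=
            Real.log_le_log hpos this
        _ = _ := by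
            rw [Real.log_mul (by linarith) (Real.exp_ne_zero _), Real.log_exp]

/-- The lattice points. -/
noncomputable def lam (w₁ w₂ : ℂ) (p : ℤ × ℤ) : ℂ := p.1 * w₁ + p.2 * w₂

theorem lam_fst (w₁ w₂ : ℂ) (p : ℤ × ℤ) :
    (lam w₁ w₂ p * (starRingEnd ℂ) w₂).im = p.1 * (w₁ * (starRingEnd ℂ) w₂).im := by
  simp only [lam, Complex.mul_im, Complex.add_re, Complex.add_im, Complex.mul_re,
    Complex.intCast_re, Complex.intCast_im, Complex.conj_re, Complex.conj_im]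
  ring

theorem lam_snd (w₁ w₂ : ℂ) (p : ℤ × ℤ) :
    (lam w₁ w₂ p * (starRingEnd ℂ) w₁).im = -(p.2 * (w₁ * (starRingEnd ℂ) w₂).im) := by
  simp only [lam, Complex.mul_im, Complex.add_re, Complex.add_im, Complex.mul_re,
    Complex.intCast_re, Complex.intCast_im, Complex.conj_re, Complex.conj_im]
  ring

theorem lam_inj (w₁ w₂ : ℂ) (hA : (w₁ * (starRingEnd ℂ) w₂).im ≠ 0) :
    Function.Injective (lam w₁ w₂) := by
  intro p q h
  have h1 := lam_fst w₁ w₂ p
  have h2 := lam_snd w₁ w₂ p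
  rw [h, lam_fst] at h1
  rw [h, lam_snd] at h2
  have h3 : (q.1 : ℝ) = p.1 := mul_right_cancel₀ hA h1
  have h4 : (q.2 : ℝ) = p.2 := mul_right_cancel₀ hA (neg_injective h2)
  ext
  · exact_mod_cast h3.symm
  · exact_mod_cast h4.symm

theorem lam_finite (w₁ w₂ : ℂ) (hA : (w₁ * (starRingEnd ℂ) w₂).im ≠ 0) (r : ℝ) :
    {p : ℤ × ℤ | ‖lam w₁ w₂ p‖ < r}.Finite := by
  set A := |(w₁ * (starRingEnd ℂ) w₂).im| with hAdef
  have hApos : 0 < A := abs_pos.2 hA
  set B := ⌈r * (‖w₁‖ + ‖w₂‖) / A⌉ with hB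
  refine ((Set.finite_Icc (-B) B).prod (Set.finite_Icc (-B) B)).subset ?_
  rintro p hp
  have hp' : ‖lam w₁ w₂ p‖ < r := hp
  have hr : 0 < r := (norm_nonneg _).trans_lt hp'
  have key : ∀ x : ℝ, |x| * A ≤ r * (‖w₁‖ + ‖w₂‖) → |x| ≤ B := by
    intro x hx
    have : |x| ≤ r * (‖w₁‖ + ‖w₂‖) / A := by rwa [le_div_iff₀ hApos]
    exact this.trans (Int.le_ceil _)
  have h1 : |(p.1 : ℝ)| ≤ B := by
    apply key
    have h := Complex.abs_im_le_norm (lam w₁ w₂ p * (starRingEnd ℂ) w₂)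
    rw [lam_fst, abs_mul, norm_mul, Complex.norm_conj] at h
    refine h.trans ?_
    exact mul_le_mul hp'.le (by linarith [norm_nonneg w₁]) (norm_nonneg _) hr.le
  have h2 : |(p.2 : ℝ)| ≤ B := by
    apply key
    have h := Complex.abs_im_le_norm (lam w₁ w₂ p * (starRingEnd ℂ) w₁)
    rw [lam_snd, abs_neg, abs_mul, norm_mul, Complex.norm_conj] at h
    refine h.trans ?_
    exact mul_le_mul hp'.le (by linarith [norm_nonneg w₂]) (norm_nonneg _) hr.le
  rw [← Int.cast_abs, Int.cast_le, abs_le] at h1 h2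
  exact ⟨⟨h1.1, h1.2⟩, ⟨h2.1, h2.2⟩⟩

/-- The linear map with columns `w₁`, `w₂`. -/
noncomputable def TT (w₁ w₂ : ℂ) : ℂ →ₗ[ℝ] ℂ :=
  Complex.reLm.smulRight w₁ + Complex.imLm.smulRight w₂

theorem TT_apply (w₁ w₂ z : ℂ) : TT w₁ w₂ z = z.re * w₁ + z.im * w₂ := by
  simp [TT]

theorem TT_det (w₁ w₂ : ℂ) : LinearMap.det (TT w₁ w₂) = -(w₁ * (starRingEnd ℂ) w₂).im := by
  rw [← LinearMap.det_toMatrix Complex.basisOneI, Matrix.det_fin_two]
  simp only [LinearMap.toMatrix_apply, TT_apply, Complex.coe_basisOneI, Complex.coe_basisOneI_repr]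
  simp [Complex.mul_im]
  ring

theorem volume_Q : volume {z : ℂ | 0 ≤ z.re ∧ z.re < 1 ∧ 0 ≤ z.im ∧ z.im < 1} = 1 := by
  have h := Complex.volume_preserving_equiv_real_prod.measure_preimage
    (s := (Set.Ico (0 : ℝ) 1) ×ˢ (Set.Ico (0 : ℝ) 1))
    (measurableSet_Ico.prod measurableSet_Ico).nullMeasurableSet
  have h2 : Complex.measurableEquivRealProd ⁻¹' ((Set.Ico (0 : ℝ) 1) ×ˢ (Set.Ico (0 : ℝ) 1)) =
      {z : ℂ | 0 ≤ z.re ∧ z.re < 1 ∧ 0 ≤ z.im ∧ z.im < 1} := by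
    ext z
    simp [Complex.measurableEquivRealProd_apply, Set.mem_prod, and_assoc]
  rw [← h2, h, Measure.volume_eq_prod, Measure.prod_prod]
  simp

theorem count (w₁ w₂ : ℂ) (hA : (w₁ * (starRingEnd ℂ) w₂).im ≠ 0) (r : ℝ)
    (hr : ‖w₁‖ + ‖w₂‖ ≤ r) :
    Real.pi * (r - (‖w₁‖ + ‖w₂‖)) ^ 2 ≤
      ((lam_finite w₁ w₂ hA r).toFinset.card : ℝ) * |(w₁ * (starRingEnd ℂ) w₂).im| := by
  set Q : Set ℂ := {z : ℂ | 0 ≤ z.re ∧ z.re < 1 ∧ 0 ≤ z.im ∧ z.im < 1} with hQ
  set P : Set ℂ := TT w₁ w₂ '' Q with hP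
  set A := |(w₁ * (starRingEnd ℂ) w₂).im| with hAdef
  have hvP : volume P = ENNReal.ofReal A := by
    rw [hP, Measure.addHaar_image_linearMap, volume_Q, TT_det, abs_neg, mul_one]
  have hdet : LinearMap.det (TT w₁ w₂) ≠ 0 := by
    rw [TT_det]; exact neg_ne_zero.2 hA
  have hsurj : Function.Surjective (TT w₁ w₂) :=
    (LinearMap.equivOfDetNeZero (TT w₁ w₂) hdet).surjective
  have hcov : ball (0 : ℂ) (r - (‖w₁‖ + ‖w₂‖)) ⊆
      ⋃ p ∈ (lam_finite w₁ w₂ hA r).toFinset, (fun z => lam w₁ w₂ p + z) '' P := by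
    intro z hz
    obtain ⟨y, hy⟩ := hsurj z
    set p : ℤ × ℤ := (⌊y.re⌋, ⌊y.im⌋) with hp
    set f : ℂ := ⟨Int.fract y.re, Int.fract y.im⟩ with hf
    have hfQ : f ∈ Q := ⟨Int.fract_nonneg _, Int.fract_lt_one _, Int.fract_nonneg _,
      Int.fract_lt_one _⟩
    have hz2 : lam w₁ w₂ p + TT w₁ w₂ f = z := by
      rw [← hy, TT_apply, TT_apply, lam, hp, hf]
      have e1 : ((⌊y.re⌋ : ℝ) : ℂ) + ((Int.fract y.re : ℝ) : ℂ) = (y.re : ℂ) := by
        rw [← Complex.ofReal_add, Int.floor_add_fract]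
      have e2 : ((⌊y.im⌋ : ℝ) : ℂ) + ((Int.fract y.im : ℝ) : ℂ) = (y.im : ℂ) := by
        rw [← Complex.ofReal_add, Int.floor_add_fract]
      rw [← e1, ← e2]
      push_cast
      ring
    have hTf : ‖TT w₁ w₂ f‖ ≤ ‖w₁‖ + ‖w₂‖ := by
      rw [TT_apply]
      refine (norm_add_le _ _).trans ?_
      rw [norm_mul, norm_mul, Complex.norm_real, Complex.norm_real, Real.norm_eq_abs,
        Real.norm_eq_abs, abs_of_nonneg hfQ.1, abs_of_nonneg hfQ.2.2.1]
      have := mul_le_mul_of_nonneg_right hfQ.2.1.le (norm_nonneg w₁)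
      have := mul_le_mul_of_nonneg_right hfQ.2.2.2.le (norm_nonneg w₂)
      linarith
    rw [Set.mem_iUnion₂]
    refine ⟨p, ?_, TT w₁ w₂ f, ⟨f, hfQ, rfl⟩, hz2⟩
    rw [Set.Finite.mem_toFinset]
    show ‖lam w₁ w₂ p‖ < r
    have h1 : lam w₁ w₂ p = z - TT w₁ w₂ f := by rw [← hz2]; ring
    rw [h1]
    refine (norm_sub_le _ _).trans_lt ?_
    rw [mem_ball, dist_zero_right] at hz
    linarith
  have hm := (measure_mono hcov).trans (measure_biUnion_finset_le (μ := volume) _ _)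
  have htr : ∀ p : ℤ × ℤ, volume ((fun z => lam w₁ w₂ p + z) '' P) = ENNReal.ofReal A := by
    intro p
    rw [← hvP, Set.image_add_left, measure_preimage_add]
  simp only [htr, Finset.sum_const, nsmul_eq_mul] at hm
  rw [Complex.volume_ball] at hm
  have hnn : 0 ≤ r - (‖w₁‖ + ‖w₂‖) := by linarith
  have h3 : ENNReal.ofReal (Real.pi * (r - (‖w₁‖ + ‖w₂‖)) ^ 2) ≤
      ENNReal.ofReal (((lam_finite w₁ w₂ hA r).toFinset.card : ℝ) * A) := by
    rw [ENNReal.ofReal_mul Real.pi_pos.le, ENNReal.ofReal_pow hnn,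
      ENNReal.ofReal_mul (Nat.cast_nonneg _), ENNReal.ofReal_natCast]
    refine le_trans (le_of_eq ?_) hm
    rw [mul_comm]
    congr 1
    rw [ENNReal.ofReal, NNReal.pi]
    congr 1
    exact Real.toNNReal_of_nonneg Real.pi_pos.le
  exact (ENNReal.ofReal_le_ofReal_iff (by positivity)).1 h3


theorem card_mul_log (R ρ x : ℝ) (K : ℕ) (hρ0 : 0 < ρ) (hρ1 : ρ < 1) (hx : 0 < x) (hxR : x < R) :
    (((Finset.Icc 1 K).filter fun k : ℕ => x < R * ρ ^ k).card : ℝ) * Real.log (1 / ρ) ≤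
      Real.log (R / x) := by
  have hL : 0 < Real.log (1 / ρ) := Real.log_pos (by rw [lt_div_iff₀ hρ0]; linarith)
  rcases ((Finset.Icc 1 K).filter fun k : ℕ => x < R * ρ ^ k).eq_empty_or_nonempty with he | hne
  · rw [he]
    simp only [Finset.card_empty, Nat.cast_zero, zero_mul]
    exact Real.log_nonneg ((one_le_div hx).2 hxR.le)
  · obtain ⟨k, hk, hmax⟩ := Finset.exists_max_image _ (fun k : ℕ => k) hne
    rw [Finset.mem_filter] at hk
    have hcard : ((Finset.Icc 1 K).filter fun k : ℕ => x < R * ρ ^ k).card ≤ k := by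
      calc _ ≤ (Finset.Icc 1 k).card := by
            refine Finset.card_le_card fun j hj => ?_
            rw [Finset.mem_Icc]
            exact ⟨(Finset.mem_Icc.1 (Finset.mem_filter.1 hj).1).1, hmax j hj⟩
        _ = k := by simp
    have h1 : (k : ℝ) * Real.log (1 / ρ) ≤ Real.log (R / x) := by
      have hpow : (1 / ρ) ^ k ≤ R / x := by
        rw [le_div_iff₀ hx, one_div, inv_pow, inv_mul_le_iff₀ (by positivity)]
        have := hk.2
        linarith
      rw [← Real.log_pow]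
      exact Real.log_le_log (by positivity) hpow
    refine le_trans ?_ h1
    exact mul_le_mul_of_nonneg_right (by exact_mod_cast hcard) hL.le

theorem sum_log (w₁ w₂ : ℂ) (hA : (w₁ * (starRingEnd ℂ) w₂).im ≠ 0) (R ρ : ℝ) (K : ℕ)
    (hρ0 : 0 < ρ) (hρ1 : ρ < 1) (hR : 0 < R) :
    Real.log (1 / ρ) * ∑ k ∈ Finset.Icc 1 K,
      (((lam_finite w₁ w₂ hA (R * ρ ^ k)).toFinset.card : ℝ) - 1) ≤
    ∑ p ∈ (lam_finite w₁ w₂ hA R).toFinset.erase 0, Real.log (R / ‖lam w₁ w₂ p‖) := by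
  have hz : lam w₁ w₂ 0 = 0 := by simp [lam]
  have h1 : ∀ p ∈ (lam_finite w₁ w₂ hA R).toFinset.erase 0,
      ((((Finset.Icc 1 K).filter fun k : ℕ => ‖lam w₁ w₂ p‖ < R * ρ ^ k).card : ℝ) *
        Real.log (1 / ρ)) ≤ Real.log (R / ‖lam w₁ w₂ p‖) := by
    intro p hp
    rw [Finset.mem_erase, Set.Finite.mem_toFinset] at hp
    refine card_mul_log R ρ _ K hρ0 hρ1 ?_ hp.2
    refine norm_pos_iff.2 fun h => hp.1 ?_
    exact lam_inj w₁ w₂ hA (h.trans hz.symm)
  refine le_trans (le_of_eq ?_) (Finset.sum_le_sum h1)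
  rw [← Finset.sum_mul, mul_comm]
  congr 1
  have h2 : ∀ p : ℤ × ℤ, (((Finset.Icc 1 K).filter fun k : ℕ => ‖lam w₁ w₂ p‖ < R * ρ ^ k).card : ℝ)
      = ∑ k ∈ Finset.Icc 1 K, if ‖lam w₁ w₂ p‖ < R * ρ ^ k then (1 : ℝ) else 0 := by
    intro p
    rw [Finset.card_filter]
    push_cast
    rfl
  simp_rw [h2]
  rw [Finset.sum_comm]
  refine Finset.sum_congr rfl fun k _ => ?_
  rw [← Finset.sum_filter, Finset.sum_const, nsmul_eq_mul, mul_one]
  have hle : R * ρ ^ k ≤ R := by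
    have := pow_le_one₀ hρ0.le hρ1.le (n := k)
    nlinarith
  have h3 : ((lam_finite w₁ w₂ hA R).toFinset.erase 0).filter
      (fun p => ‖lam w₁ w₂ p‖ < R * ρ ^ k) =
      (lam_finite w₁ w₂ hA (R * ρ ^ k)).toFinset.erase 0 := by
    ext p
    rw [Finset.mem_filter, Finset.mem_erase, Finset.mem_erase, Set.Finite.mem_toFinset,
      Set.Finite.mem_toFinset]
    constructor
    · rintro ⟨⟨h, -⟩, h'⟩
      exact ⟨h, h'⟩
    · rintro ⟨h, h'⟩
      exact ⟨⟨h, lt_of_lt_of_le h' hle⟩, h'⟩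
  rw [h3, Finset.card_erase_of_mem, Nat.cast_sub, Nat.cast_one]
  · rw [Nat.one_le_iff_ne_zero, ← Nat.pos_iff_ne_zero, Finset.card_pos]
    refine ⟨0, ?_⟩
    rw [Set.Finite.mem_toFinset]
    show ‖lam w₁ w₂ 0‖ < _
    rw [hz, norm_zero]
    positivity
  · rw [Set.Finite.mem_toFinset]
    show ‖lam w₁ w₂ 0‖ < _
    rw [hz, norm_zero]
    positivity

theorem quad_le (a b c R₀ : ℝ) (h : ∀ R, R₀ ≤ R → a * R ^ 2 ≤ b * R + c) : a ≤ 0 := by
  by_contra ha
  push Not at ha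
  set R := max R₀ (max 1 ((|b| + |c|) / a + 1)) with hR
  have h1 : R₀ ≤ R := le_max_left _ _
  have h2 : 1 ≤ R := (le_max_left _ _).trans (le_max_right _ _)
  have h3 : (|b| + |c|) / a + 1 ≤ R := (le_max_right _ _).trans (le_max_right _ _)
  have h4 : (|b| + |c|) / a < R := by linarith
  rw [div_lt_iff₀ ha] at h4
  have h5 := h R h1
  have h6 := le_abs_self b
  have h7 := le_abs_self c
  have h8 := abs_nonneg c
  nlinarith [mul_le_mul_of_nonneg_right h6 (by linarith : (0:ℝ) ≤ R),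
    mul_lt_mul_of_pos_right h4 (by linarith : (0:ℝ) < R),
    mul_le_mul_of_nonneg_left h2 h8]

theorem jen_nonneg (w₁ w₂ : ℂ) (h : ℂ → ℂ) (C D β : ℝ) (hA : (w₁ * (starRingEnd ℂ) w₂).im ≠ 0)
    (hd : Differentiable ℂ h) (hne : ∃ s, h s ≠ 0) (hz : ∀ m n : ℤ, h (m * w₁ + n * w₂) = 0)
    (hC : 1 ≤ C) (hD : 0 ≤ D) (hβ : 0 ≤ β)
    (hb : ∀ s, ‖h s‖ ≤ C * Real.exp (Real.pi / 2 * β * ‖s‖ ^ 2 + D * ‖s‖)) :
    1 ≤ β * |(w₁ * (starRingEnd ℂ) w₂).im| := by
  set A := |(w₁ * (starRingEnd ℂ) w₂).im| with hAdef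
  have hApos : 0 < A := abs_pos.2 hA
  set d := ‖w₁‖ + ‖w₂‖ with hddef
  have hd0 : 0 ≤ d := by positivity
  set t := Real.log ‖meromorphicTrailingCoeffAt h 0‖ with ht
  -- the basic inequality
  have hbas : ∀ (ρ R : ℝ) (K : ℕ), 0 < ρ → ρ < 1 → 1 ≤ R →
      Real.log (1 / ρ) * ∑ k ∈ Finset.Icc 1 K,
        (((lam_finite w₁ w₂ hA (R * ρ ^ k)).toFinset.card : ℝ) - 1) + t ≤
      Real.log C + (Real.pi / 2 * β * R ^ 2 + D * R) := by
    intro ρ R K hρ0 hρ1 hR
    classical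
    have hR0 : 0 < R := by linarith
    have h1 := sum_log w₁ w₂ hA R ρ K hρ0 hρ1 hR0
    have h2 := jensen_lower h hd hne R hR
      (((lam_finite w₁ w₂ hA R).toFinset.erase 0).image (lam w₁ w₂)) (by
        intro u hu
        obtain ⟨p, hp, rfl⟩ := Finset.mem_image.1 hu
        rw [Finset.mem_erase, Set.Finite.mem_toFinset] at hp
        refine ⟨fun h0 => hp.1 (lam_inj w₁ w₂ hA (h0.trans (by simp [lam]))),
          (show ‖lam w₁ w₂ p‖ < R from hp.2).le, hz p.1 p.2⟩)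
    rw [Finset.sum_image fun p _ q _ h => lam_inj w₁ w₂ hA h] at h2
    have h3 := jensen_upper h hd C D β R hC hD hβ hR0.le hb
    linarith
  -- fixed ratio
  have hfix : ∀ (ρ : ℝ) (K : ℕ), 0 < ρ → ρ < 1 →
      Real.log (1 / ρ) * ∑ k ∈ Finset.Icc 1 K, ρ ^ (2 * k) ≤ A * β / 2 := by
    intro ρ K hρ0 hρ1
    set L := Real.log (1 / ρ) with hL
    have hLpos : 0 < L := Real.log_pos (by rw [lt_div_iff₀ hρ0]; linarith)
    set s := ∑ k ∈ Finset.Icc 1 K, ρ ^ (2 * k) with hs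
    have hq := quad_le (L * Real.pi * s / A - Real.pi * β / 2)
      (2 * d * K * L * Real.pi / A + D) (L * K + (Real.log C - t)) (max 1 (d / ρ ^ K)) (by
        intro R hR
        have hR1 : 1 ≤ R := (le_max_left _ _).trans hR
        have hR0 : 0 < R := by linarith
        have hRK : d ≤ R * ρ ^ K := by
          have := (le_max_right 1 (d / ρ ^ K)).trans hR
          rwa [div_le_iff₀ (by positivity)] at this
        have h1 := hbas ρ R K hρ0 hρ1 hR1
        have h2 : ∀ k ∈ Finset.Icc 1 K, Real.pi / A * (R ^ 2 * ρ ^ (2 * k) - 2 * d * R) - 1 ≤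
            (((lam_finite w₁ w₂ hA (R * ρ ^ k)).toFinset.card : ℝ) - 1) := by
          intro k hk
          have hkK := (Finset.mem_Icc.1 hk).2
          have hpk : ρ ^ K ≤ ρ ^ k := pow_le_pow_of_le_one hρ0.le hρ1.le hkK
          have hdk : d ≤ R * ρ ^ k := hRK.trans (mul_le_mul_of_nonneg_left hpk hR0.le)
          have h3 := count w₁ w₂ hA (R * ρ ^ k) hdk
          rw [← hddef, ← hAdef] at h3
          have h4 : R ^ 2 * ρ ^ (2 * k) - 2 * d * R ≤ (R * ρ ^ k - d) ^ 2 := by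
            have h5 : ρ ^ k ≤ 1 := pow_le_one₀ hρ0.le hρ1.le
            have h6 : (R * ρ ^ k - d) ^ 2 = R ^ 2 * ρ ^ (2 * k) - 2 * d * (R * ρ ^ k) + d ^ 2 := by
              rw [mul_comm 2 k, pow_mul]
              ring
            rw [h6]
            have h7 : R * ρ ^ k ≤ R := by nlinarith
            nlinarith [mul_le_mul_of_nonneg_left h7 hd0, sq_nonneg d]
          have h8 : Real.pi / A * (R ^ 2 * ρ ^ (2 * k) - 2 * d * R) ≤
              ((lam_finite w₁ w₂ hA (R * ρ ^ k)).toFinset.card : ℝ) := by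
            rw [div_mul_eq_mul_div, div_le_iff₀ hApos]
            exact (mul_le_mul_of_nonneg_left h4 Real.pi_pos.le).trans h3
          linarith
        have h9 := Finset.sum_le_sum h2
        rw [Finset.sum_sub_distrib, ← Finset.mul_sum, Finset.sum_sub_distrib, ← Finset.mul_sum,
          ← hs] at h9
        simp only [Finset.sum_const, Nat.card_Icc, nsmul_eq_mul, mul_one, Nat.add_sub_cancel] at h9
        have h10 := mul_le_mul_of_nonneg_left h9 hLpos.le
        have h11 : (L * Real.pi * s / A - Real.pi * β / 2) * R ^ 2 -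
            ((2 * d * K * L * Real.pi / A + D) * R + (L * K + (Real.log C - t))) =
            L * (Real.pi / A * (R ^ 2 * s - K * (2 * d * R)) - K) + t -
              (Real.log C + (Real.pi / 2 * β * R ^ 2 + D * R)) := by
          field_simp
          ring
        linarith)
    have h12 : L * Real.pi * s / A ≤ Real.pi * β / 2 := by linarith
    rw [div_le_iff₀ hApos] at h12
    have h13 : Real.pi * (L * s) ≤ Real.pi * (A * β / 2) := by linarith
    exact le_of_mul_le_mul_left h13 Real.pi_pos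
  -- all K
  have hall : ∀ ρ : ℝ, 0 < ρ → ρ < 1 → ρ ^ 2 / (1 + ρ) ≤ A * β / 2 := by
    intro ρ hρ0 hρ1
    have hgeo : ∀ K : ℕ, ∑ k ∈ Finset.Icc 1 K, ρ ^ (2 * k) =
        ρ ^ 2 * (1 - (ρ ^ 2) ^ K) / (1 - ρ ^ 2) := by
      intro K
      have h1 : (1 : ℝ) - ρ ^ 2 ≠ 0 := by nlinarith
      rw [eq_div_iff h1]
      induction K with
      | zero => simp
      | succ n ih =>
        rw [Finset.sum_Icc_succ_top (by omega), add_mul, ih]
        rw [show ρ ^ (2 * (n + 1)) = (ρ ^ 2) ^ (n + 1) by rw [pow_mul]]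
        ring
    have hsq : ρ ^ 2 < 1 := by nlinarith
    have hlim : Tendsto (fun K : ℕ => Real.log (1 / ρ) * (ρ ^ 2 * (1 - (ρ ^ 2) ^ K) / (1 - ρ ^ 2)))
        atTop (𝓝 (Real.log (1 / ρ) * (ρ ^ 2 * (1 - 0) / (1 - ρ ^ 2)))) := by
      have h1 := tendsto_pow_atTop_nhds_zero_of_lt_one (sq_nonneg ρ) hsq
      exact (((h1.const_sub 1).const_mul (ρ ^ 2)).div_const _).const_mul _
    have h2 : Real.log (1 / ρ) * (ρ ^ 2 * (1 - 0) / (1 - ρ ^ 2)) ≤ A * β / 2 := by
      refine le_of_tendsto' hlim fun K => ?_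
      rw [← hgeo K]
      exact hfix ρ K hρ0 hρ1
    refine le_trans ?_ h2
    have h3 : 1 - ρ ≤ Real.log (1 / ρ) := by
      rw [one_div, Real.log_inv]
      have := Real.log_le_sub_one_of_pos hρ0
      linarith
    have h4 : 0 < 1 - ρ ^ 2 := by linarith
    have h5 : ρ ^ 2 / (1 + ρ) = (1 - ρ) * (ρ ^ 2 * (1 - 0) / (1 - ρ ^ 2)) := by
      have : (1 - ρ ^ 2) = (1 - ρ) * (1 + ρ) := by ring
      rw [this]
      have h6 : 1 - ρ ≠ 0 := by linarith
      have h7 : 1 + ρ ≠ 0 := by linarith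
      field_simp
      ring
    rw [h5]
    exact mul_le_mul_of_nonneg_right h3 (by positivity)
  by_contra hcon
  push Not at hcon
  set e := (1 - β * A) / 2 with he
  have he0 : 0 < e := by rw [he]; linarith
  have he1 : e ≤ 1 / 2 := by
    rw [he]
    have : 0 ≤ β * A := by positivity
    linarith
  have h1 := hall (1 - e / 2) (by linarith) (by linarith)
  rw [div_le_iff₀ (by linarith)] at h1
  nlinarith

end JenAux

open JenAux in
theorem hJen : StJen := by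
  intro w₁ w₂ h C D β hA hd hne hz hb
  have hb' : ∀ s, ‖h s‖ ≤ max C 1 * Real.exp (Real.pi / 2 * (max β 0) * ‖s‖ ^ 2 + (max D 0) * ‖s‖) := by
    intro s
    refine (hb s).trans ?_
    have h1 : Real.exp (Real.pi / 2 * β * ‖s‖ ^ 2 + D * ‖s‖) ≤
        Real.exp (Real.pi / 2 * (max β 0) * ‖s‖ ^ 2 + (max D 0) * ‖s‖) := by
      refine Real.exp_le_exp.2 ?_
      have h2 : Real.pi / 2 * β * ‖s‖ ^ 2 ≤ Real.pi / 2 * (max β 0) * ‖s‖ ^ 2 := by
        refine mul_le_mul_of_nonneg_right ?_ (sq_nonneg _)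
        exact mul_le_mul_of_nonneg_left (le_max_left _ _) (by positivity)
      have h3 : D * ‖s‖ ≤ max D 0 * ‖s‖ :=
        mul_le_mul_of_nonneg_right (le_max_left _ _) (norm_nonneg _)
      linarith
    calc C * Real.exp (Real.pi / 2 * β * ‖s‖ ^ 2 + D * ‖s‖)
        ≤ max C 1 * Real.exp (Real.pi / 2 * β * ‖s‖ ^ 2 + D * ‖s‖) :=
          mul_le_mul_of_nonneg_right (le_max_left _ _) (Real.exp_pos _).le
      _ ≤ _ := mul_le_mul_of_nonneg_left h1 (by positivity)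
  have h1 := jen_nonneg w₁ w₂ h (max C 1) (max D 0) (max β 0) hA hd hne hz (le_max_right _ _)
    (le_max_right _ _) (le_max_right _ _) hb'
  rcases le_or_gt β 0 with h0 | h0
  · rw [max_eq_right h0, zero_mul] at h1
    linarith
  · rwa [max_eq_left h0.le] at h1

end Pool.Agent.Helper7.JT
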