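import Pool.Agent.Helper7.JT.Base

/-!
Lower bound for the transform: compactness and Parseval.
-/

namespace Pool.Agent.Helper7.JT

open MeasureTheory Module Filter Topology Asymptotics

/-! ### Unit complex numbers -/

noncomputable def uE_Low (s : ℝ) : ℂ := Complex.exp ((s : ℂ) * Complex.I)

theorem uE_add_Low (s t : ℝ) : uE_Low (s + t) = uE_Low s * uE_Low t := by
  unfold uE_Low
  rw [← Complex.exp_add]
  congr 1
  push_cast
  ring

theorem norm_uE_Low (s : ℝ) : ‖uE_Low s‖ = 1 := Complex.norm_exp_ofReal_mul_I s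

theorem uE_zero_Low : uE_Low 0 = 1 := by simp [uE_Low]

theorem conj_uE_Low (s : ℝ) : (starRingEnd ℂ) (uE_Low s) = uE_Low (-s) := by
  unfold uE_Low
  rw [← Complex.exp_conj]
  simp

theorem continuous_uE_Low : Continuous uE_Low := by
  unfold uE_Low
  fun_prop

section

variable {V : Type} [NormedAddCommGroup V] [InnerProductSpace ℂ V]

theorem continuous_Ef_Low (y : V) : Continuous fun x : V => Ef x y := by
  unfold Ef Hm
  exact Complex.continuous_im.comp (continuous_const.inner continuous_id)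

/-- The twisted semicharacter. -/
noncomputable def chx_Low (χ : V → ℂ) (x l : V) : ℂ := χ l * uE_Low (2 * Real.pi * Ef x l)

theorem chx_semichar_Low {L : Submodule ℤ V} {t : ℝ} {χ : V → ℂ} (h : IsSemichar L t χ) (x : V) :
    IsSemichar L t (chx_Low χ x) := by
  refine ⟨fun l hl => ?_, fun l hl m hm => ?_⟩
  · rw [chx_Low, norm_mul, h.1 l hl, norm_uE_Low, one_mul]
  · rw [chx_Low, chx_Low, chx_Low, h.2 l hl m hm, Ef_add_right, mul_add, uE_add_Low]
    ring

theorem norm_chx_Low {L : Submodule ℤ V} {t : ℝ} {χ : V → ℂ} (h : IsSemichar L t χ) (x : V)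
    (l : L) : ‖chx_Low χ x l‖ = 1 := (chx_semichar_Low h x).1 l l.2

theorem conj_chx_Low (χ : V → ℂ) (x l : V) : (starRingEnd ℂ) (chx_Low χ x l) =
    (starRingEnd ℂ) (χ l) * uE_Low (-(2 * Real.pi * Ef x l)) := by
  rw [chx_Low, map_mul, conj_uE_Low]

/-- The phase computation. -/
theorem phase_Low {L : Submodule ℤ V} {χ : V → ℂ} (h : IsSemichar L 3 χ) (w : V) (k m : L) :
    (starRingEnd ℂ) (χ k) * (uE_Low (Real.pi * 3 * Ef ((k - m : L) : V) w) * χ ((k - m : L) : V)) =
      (starRingEnd ℂ) (χ m) * uE_Low (-(Real.pi * 3 * Ef (m : V) w)) *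
        uE_Low (Real.pi * 3 * Ef (k : V) (w + m)) := by
  obtain ⟨l, rfl⟩ : ∃ l : L, k = l + m := ⟨k - m, by abel⟩
  have h1 : l + m - m = l := by abel
  rw [h1]
  have h2 := h.2 m m.2 l l.2
  have h3 : Complex.exp (((Real.pi * 3 * Ef (m : V) l : ℝ) : ℂ) * Complex.I) =
    uE_Low (Real.pi * 3 * Ef (m : V) l) := rfl
  rw [h3] at h2
  rw [Submodule.coe_add, add_comm (l : V) m, h2, map_mul, map_mul, conj_uE_Low]
  have h4 : (starRingEnd ℂ) (χ l) * χ l = 1 := by
    rw [mul_comm, Complex.mul_conj, Complex.normSq_eq_norm_sq, h.1 l l.2]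
    simp
  have h5 : uE_Low (-(Real.pi * 3 * Ef (m : V) l)) * uE_Low (Real.pi * 3 * Ef (l : V) w) =
      uE_Low (-(Real.pi * 3 * Ef (m : V) w)) *
        uE_Low (Real.pi * 3 * Ef ((m : V) + l) (w + m)) := by
    rw [← uE_add_Low, ← uE_add_Low]
    congr 1
    rw [Ef_add_left, Ef_add_right, Ef_add_right, Ef_self, Ef_swap (m : V) l]
    ring
  calc (starRingEnd ℂ) (χ m) * (starRingEnd ℂ) (χ l) * uE_Low (-(Real.pi * 3 * Ef (m : V) l)) *
        (uE_Low (Real.pi * 3 * Ef (l : V) w) * χ l) =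
      (starRingEnd ℂ) (χ m) * ((starRingEnd ℂ) (χ l) * χ l) *
        (uE_Low (-(Real.pi * 3 * Ef (m : V) l)) * uE_Low (Real.pi * 3 * Ef (l : V) w)) := by ring
    _ = _ := by rw [h4, h5]; ring

end

section

variable {V : Type} [NormedAddCommGroup V] [InnerProductSpace ℂ V] [FiniteDimensional ℂ V]

/-! ### The kernel -/

theorem poly_exp_Low (r : ℝ) (k : ℕ) (hr : 0 ≤ r) (hk : k ≤ 2) :
    r ^ k * Real.exp (-(Real.pi * 3 / 2 * r ^ 2)) ≤ Real.exp (1 - r) := by
  have h1 : r ^ k ≤ Real.exp (k * r) := by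
    have h2 : r ≤ Real.exp r := by
      have := Real.add_one_le_exp r
      linarith
    calc r ^ k ≤ Real.exp r ^ k := pow_le_pow_left₀ hr h2 k
      _ = Real.exp (k * r) := by rw [← Real.exp_nat_mul]
  calc r ^ k * Real.exp (-(Real.pi * 3 / 2 * r ^ 2)) ≤
      Real.exp (k * r) * Real.exp (-(Real.pi * 3 / 2 * r ^ 2)) :=
        mul_le_mul_of_nonneg_right h1 (Real.exp_pos _).le
    _ = Real.exp (k * r - Real.pi * 3 / 2 * r ^ 2) := by
        rw [← Real.exp_add]; congr 1
    _ ≤ Real.exp (1 - r) := by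
        apply Real.exp_le_exp.2
        have h3 : (k : ℝ) ≤ 2 := by exact_mod_cast hk
        have h4 : (k : ℝ) * r ≤ 2 * r := mul_le_mul_of_nonneg_right h3 hr
        have h5 := Real.pi_gt_three
        have h6 : 9 / 4 * r ^ 2 ≤ Real.pi * 3 / 2 * r ^ 2 := by
          apply mul_le_mul_of_nonneg_right _ (by positivity)
          linarith
        nlinarith [sq_nonneg (1 - 3 / 2 * r)]

theorem one_le_pi3_Low : (1 : ℝ) ≤ Real.pi * 3 := by
  have := Real.pi_gt_three
  linarith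

theorem norm_ob_Low (i : Fin (finrank ℂ V)) : ‖(ob i : V)‖ = 1 := by
  unfold ob
  exact (stdOrthonormalBasis ℂ V).orthonormal.1 i

theorem gk_le_Low (ζ : V) (i : Idx V) :
    ‖Gk 3 ζ i‖ ≤ (Real.pi * 3) ^ 2 * (Real.exp 1 * Real.exp (-‖ζ‖)) := by
  have hp := one_le_pi3_Low
  have hexp : Real.exp 1 * Real.exp (-‖ζ‖) = Real.exp (1 - ‖ζ‖) := by
    rw [← Real.exp_add]; rfl
  rw [hexp]
  have hn : ∀ j : Fin (finrank ℂ V), ‖Hm (ob j : V) ζ‖ ≤ ‖ζ‖ := by
    intro j
    have := norm_Hm_le (ob j : V) ζ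
    rw [norm_ob_Low, one_mul] at this
    exact this
  have hpos : 0 ≤ Real.exp (-(Real.pi * 3 / 2 * ‖ζ‖ ^ 2)) := (Real.exp_pos _).le
  have hP : ‖((Real.pi * 3 : ℝ) : ℂ)‖ = Real.pi * 3 := by
    rw [Complex.norm_real, Real.norm_of_nonneg (zero_le_one.trans hp)]
  rcases i with i | i | i
  · have h1 := poly_exp_Low ‖ζ‖ 0 (norm_nonneg _) (by norm_num)
    rw [pow_zero, one_mul] at h1
    unfold Gk
    simp only [one_mul, Complex.norm_real, Real.norm_eq_abs, abs_of_nonneg hpos]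
    have h2 : (1 : ℝ) ≤ (Real.pi * 3) ^ 2 := one_le_pow₀ hp
    nlinarith [Real.exp_pos (1 - ‖ζ‖)]
  · have h1 := poly_exp_Low ‖ζ‖ 1 (norm_nonneg _) (by norm_num)
    rw [pow_one] at h1
    unfold Gk
    rw [norm_mul, norm_mul, hP, Complex.norm_real, Real.norm_of_nonneg hpos]
    calc Real.pi * 3 * ‖Hm (ob i : V) ζ‖ * Real.exp (-(Real.pi * 3 / 2 * ‖ζ‖ ^ 2)) ≤
        Real.pi * 3 * (‖ζ‖ * Real.exp (-(Real.pi * 3 / 2 * ‖ζ‖ ^ 2))) := by
          rw [mul_assoc]
          apply mul_le_mul_of_nonneg_left _ (zero_le_one.trans hp)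
          exact mul_le_mul_of_nonneg_right (hn i) hpos
      _ ≤ Real.pi * 3 * Real.exp (1 - ‖ζ‖) :=
          mul_le_mul_of_nonneg_left h1 (zero_le_one.trans hp)
      _ ≤ (Real.pi * 3) ^ 2 * Real.exp (1 - ‖ζ‖) := by
          apply mul_le_mul_of_nonneg_right _ (Real.exp_pos _).le
          nlinarith
  · have h1 := poly_exp_Low ‖ζ‖ 2 (norm_nonneg _) (by norm_num)
    unfold Gk
    rw [norm_mul, norm_mul, norm_mul, norm_pow, hP, Complex.norm_real, Real.norm_of_nonneg hpos]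
    calc (Real.pi * 3) ^ 2 * ‖Hm (ob i.1.1 : V) ζ‖ * ‖Hm (ob i.1.2 : V) ζ‖ *
          Real.exp (-(Real.pi * 3 / 2 * ‖ζ‖ ^ 2)) ≤
        (Real.pi * 3) ^ 2 * (‖ζ‖ ^ 2 * Real.exp (-(Real.pi * 3 / 2 * ‖ζ‖ ^ 2))) := by
          rw [mul_assoc, mul_assoc]
          apply mul_le_mul_of_nonneg_left _ (by positivity)
          rw [← mul_assoc]
          apply mul_le_mul_of_nonneg_right _ hpos
          rw [pow_two]
          exact mul_le_mul (hn _) (hn _) (norm_nonneg _) (norm_nonneg _)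
      _ ≤ (Real.pi * 3) ^ 2 * Real.exp (1 - ‖ζ‖) :=
          mul_le_mul_of_nonneg_left h1 (by positivity)

/-- The bound of the kernel. -/
noncomputable def kb_Low (ζ : V) : ℝ := (Real.pi * 3) ^ 2 * (Real.exp 1 * Real.exp (-‖ζ‖))

omit [InnerProductSpace ℂ V] [FiniteDimensional ℂ V] in
theorem kb_nonneg_Low (ζ : V) : 0 ≤ kb_Low ζ := by unfold kb_Low; positivity

theorem summable_kb_Low (L : Submodule ℤ V) [DiscreteTopology L] (w : V) :
    Summable fun l : L => kb_Low (w - (l : V)) := by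
  unfold kb_Low
  apply Summable.mul_left
  apply Summable.mul_left
  have := summable_exp_norm_sub L one_pos w
  refine this.congr fun l => ?_
  rw [one_mul, norm_sub_rev]

theorem summable_kb'_Low (L : Submodule ℤ V) [DiscreteTopology L] (w : V) :
    Summable fun l : L => kb_Low (w + (l : V)) := by
  unfold kb_Low
  apply Summable.mul_left
  apply Summable.mul_left
  have := summable_exp_norm_add L one_pos w
  refine this.congr fun l => ?_
  rw [one_mul]

/-! ### The Fourier side -/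

/-- The transform of the character `x`, as a linear form in `q`. -/
noncomputable def Fx_Low (L : Submodule ℤ V) (χ : V → ℂ) (w x : V) (i : Idx V) : ℂ :=
  ∑' l : L, uE_Low (Real.pi * 3 * Ef (l : V) w) * chx_Low χ x l * Gk 3 (w - l) i

/-- The Fourier transform of a family. -/
noncomputable def vh_Low (L : Submodule ℤ V) (χ : V → ℂ) (v : L → Idx V → ℂ) (x : V)
    (i : Idx V) : ℂ :=
  ∑' k : L, (starRingEnd ℂ) (chx_Low χ x k) * v k i

theorem fx_term_le_Low {L : Submodule ℤ V} {χ : V → ℂ} (h : IsSemichar L 3 χ)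
    (w x : V) (i : Idx V) (l : L) :
    ‖uE_Low (Real.pi * 3 * Ef (l : V) w) * chx_Low χ x l * Gk 3 (w - l) i‖ ≤ kb_Low (w - (l : V)) := by
  rw [norm_mul, norm_mul, norm_uE_Low, norm_chx_Low h, one_mul, one_mul]
  exact gk_le_Low _ _

theorem fx_summable_Low {L : Submodule ℤ V} [DiscreteTopology L] {χ : V → ℂ}
    (h : IsSemichar L 3 χ) (w x : V) (i : Idx V) :
    Summable fun l : L => uE_Low (Real.pi * 3 * Ef (l : V) w) * chx_Low χ x l *
      Gk 3 (w - (l : V)) i :=
  Summable.of_norm_bounded (summable_kb_Low L w) (fx_term_le_Low h w x i)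

theorem continuous_Fx_Low {L : Submodule ℤ V} [DiscreteTopology L] {χ : V → ℂ}
    (h : IsSemichar L 3 χ) (w : V) (i : Idx V) : Continuous fun x => Fx_Low L χ w x i := by
  unfold Fx_Low
  refine continuous_tsum (u := fun l : L => kb_Low (w - (l : V))) (fun l => ?_)
    (summable_kb_Low L w) (fun l x => fx_term_le_Low h w x i l)
  have h1 : Continuous fun x : V => chx_Low χ x l := by
    unfold chx_Low
    exact continuous_const.mul (continuous_uE_Low.comp
      (continuous_const.mul (continuous_Ef_Low (l : V))))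
  exact (continuous_const.mul h1).mul continuous_const

theorem Phi_chx_Low {L : Submodule ℤ V} [DiscreteTopology L] {χ : V → ℂ}
    (h : IsSemichar L 3 χ) (w x : V) (q : Idx V → ℂ) :
    Phi L 3 (fun l i => chx_Low χ x l * q i) w = ∑ i, q i * Fx_Low L χ w x i := by
  unfold Phi Fx_Low
  rw [Summable.tsum_finsetSum]
  · refine Finset.sum_congr rfl fun i _ => ?_
    rw [← tsum_mul_left]
    refine tsum_congr fun l => ?_
    have : Complex.exp (((Real.pi * 3 * Ef (l : V) w : ℝ) : ℂ) * Complex.I) =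
      uE_Low (Real.pi * 3 * Ef (l : V) w) := rfl
    rw [this]
    ring
  · intro i _
    refine ((fx_summable_Low h w x i).mul_left (q i)).congr fun l => ?_
    have : Complex.exp (((Real.pi * 3 * Ef (l : V) w : ℝ) : ℂ) * Complex.I) =
      uE_Low (Real.pi * 3 * Ef (l : V) w) := rfl
    rw [this]
    ring

/-- The change of variables `(m, k) ↦ (k, k - m)`. -/
def eq_Low (L : Submodule ℤ V) : L × L ≃ L × L where
  toFun p := (p.2, p.2 - p.1)
  invFun p := (p.1 - p.2, p.1)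
  left_inv p := by simp
  right_inv p := by simp

theorem summable_conv_Low {L : Submodule ℤ V} [DiscreteTopology L] {v : L → Idx V → ℂ}
    (hv : ∀ i, Summable fun l => ‖v l i‖) (w : V) (i : Idx V) :
    Summable fun p : L × L => ‖v p.2 i‖ * kb_Low (w + (p.1 : V) - (p.2 : V)) := by
  have h1 : Summable fun p : L × L => ‖v p.1 i‖ * kb_Low (w - (p.2 : V)) :=
    (hv i).mul_of_nonneg (summable_kb_Low L w) (fun _ => norm_nonneg _) (fun _ => kb_nonneg_Low _)
  have h2 := (eq_Low L).summable_iff.2 h1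
  refine h2.congr fun p => ?_
  simp only [eq_Low, Function.comp, Equiv.coe_fn_mk, Submodule.coe_sub]
  congr 2
  abel

theorem Phi_term_le_Low {L : Submodule ℤ V} (v : L → Idx V → ℂ) (w : V) (m k : L) (i : Idx V) :
    ‖Complex.exp (((Real.pi * 3 * Ef (k : V) (w + m) : ℝ) : ℂ) * Complex.I) * v k i *
      Gk 3 (w + m - k) i‖ ≤ ‖v k i‖ * kb_Low (w + (m : V) - (k : V)) := by
  rw [norm_mul, norm_mul, Complex.norm_exp_ofReal_mul_I, one_mul]
  exact mul_le_mul_of_nonneg_left (gk_le_Low _ _) (norm_nonneg _)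

theorem Phi_summable_Low {L : Submodule ℤ V} [DiscreteTopology L] {v : L → Idx V → ℂ}
    (hv : ∀ i, Summable fun l => ‖v l i‖) (w : V) :
    Summable fun m : L => ‖Phi L 3 v (w + m)‖ := by
  have h1 : Summable fun p : L × L => ∑ i, ‖v p.2 i‖ * kb_Low (w + (p.1 : V) - (p.2 : V)) :=
    summable_sum fun i _ => summable_conv_Low hv w i
  have h2 := h1.prod
  refine Summable.of_nonneg_of_le (fun _ => norm_nonneg _) (fun m => ?_) h2
  unfold Phi
  refine tsum_of_norm_bounded (h1.prod_factor m).hasSum fun k => ?_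
  exact (norm_sum_le _ _).trans (Finset.sum_le_sum fun i _ => Phi_term_le_Low v w m k i)

/-- The factors of the double family. -/
noncomputable def fa_Low (L : Submodule ℤ V) (χ : V → ℂ) (v : L → Idx V → ℂ) (x : V)
    (i : Idx V) (k : L) : ℂ := (starRingEnd ℂ) (chx_Low χ x k) * v k i

noncomputable def fb_Low (L : Submodule ℤ V) (χ : V → ℂ) (w x : V) (i : Idx V) (l : L) : ℂ :=
  uE_Low (Real.pi * 3 * Ef (l : V) w) * chx_Low χ x l * Gk 3 (w - l) i

omit [FiniteDimensional ℂ V] in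
theorem fa_norm_Low {L : Submodule ℤ V} {χ : V → ℂ} (h : IsSemichar L 3 χ)
    {v : L → Idx V → ℂ} (hv : ∀ i, Summable fun l => ‖v l i‖) (x : V) (i : Idx V) :
    Summable fun k => ‖fa_Low L χ v x i k‖ := by
  refine (hv i).congr fun k => ?_
  rw [fa_Low, norm_mul, RCLike.norm_conj, norm_chx_Low h, one_mul]

theorem fb_norm_Low {L : Submodule ℤ V} [DiscreteTopology L] {χ : V → ℂ}
    (h : IsSemichar L 3 χ) (w x : V) (i : Idx V) :
    Summable fun l => ‖fb_Low L χ w x i l‖ :=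
  Summable.of_nonneg_of_le (fun _ => norm_nonneg _) (fx_term_le_Low h w x i) (summable_kb_Low L w)

theorem vh_mul_Fx_Low {L : Submodule ℤ V} [DiscreteTopology L] {χ : V → ℂ}
    (h : IsSemichar L 3 χ) {v : L → Idx V → ℂ} (hv : ∀ i, Summable fun l => ‖v l i‖) (w x : V)
    (i : Idx V) : vh_Low L χ v x i * Fx_Low L χ w x i =
      ∑' p : L × L, fa_Low L χ v x i p.1 * fb_Low L χ w x i p.2 := by
  have := tsum_mul_tsum_of_summable_norm (fa_norm_Low h hv x i) (fb_norm_Low h w x i)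
  rw [← this]
  rfl

theorem fafb_summable_Low {L : Submodule ℤ V} [DiscreteTopology L] {χ : V → ℂ}
    (h : IsSemichar L 3 χ) {v : L → Idx V → ℂ} (hv : ∀ i, Summable fun l => ‖v l i‖) (w x : V)
    (i : Idx V) : Summable fun p : L × L => fa_Low L χ v x i p.1 * fb_Low L χ w x i p.2 :=
  summable_mul_of_summable_norm (fa_norm_Low h hv x i) (fb_norm_Low h w x i)

theorem term_Low {L : Submodule ℤ V} {χ : V → ℂ}
    (h : IsSemichar L 3 χ) (v : L → Idx V → ℂ) (w x : V) (i : Idx V) (m k : L) :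
    fa_Low L χ v x i k * fb_Low L χ w x i (k - m) =
      ((starRingEnd ℂ) (χ m) * uE_Low (-(Real.pi * 3 * Ef (m : V) w)) *
        (Complex.exp (((Real.pi * 3 * Ef (k : V) (w + m) : ℝ) : ℂ) * Complex.I) * v k i *
          Gk 3 (w + m - k) i)) * uE_Low (-(2 * Real.pi * Ef x (m : V))) := by
  have h4 := phase_Low (chx_semichar_Low h x) w k m
  have h5 : Complex.exp (((Real.pi * 3 * Ef (k : V) (w + m) : ℝ) : ℂ) * Complex.I) =
      uE_Low (Real.pi * 3 * Ef (k : V) (w + m)) := rfl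
  rw [h5, fa_Low, fb_Low]
  have h6 : w - ((k - m : L) : V) = w + m - k := by
    rw [Submodule.coe_sub]; abel
  rw [h6]
  calc (starRingEnd ℂ) (chx_Low χ x k) * v k i *
        (uE_Low (Real.pi * 3 * Ef ((k - m : L) : V) w) * chx_Low χ x ((k - m : L) : V) *
          Gk 3 (w + m - k) i) =
      ((starRingEnd ℂ) (chx_Low χ x k) * (uE_Low (Real.pi * 3 * Ef ((k - m : L) : V) w) *
        chx_Low χ x ((k - m : L) : V))) * (v k i * Gk 3 (w + m - k) i) := by ring
    _ = _ := by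
      rw [h4, conj_chx_Low]
      ring

/-- The key identity. -/
theorem key_Low {L : Submodule ℤ V} [DiscreteTopology L] {χ : V → ℂ}
    (h : IsSemichar L 3 χ) {v : L → Idx V → ℂ} (hv : ∀ i, Summable fun l => ‖v l i‖) (w x : V) :
    ∑ i, vh_Low L χ v x i * Fx_Low L χ w x i =
      ∑' m : L, ((starRingEnd ℂ) (χ m) * uE_Low (-(Real.pi * 3 * Ef (m : V) w)) *
        Phi L 3 v (w + m)) * uE_Low (-(2 * Real.pi * Ef x (m : V))) := by
  have h2 : Summable fun p : L × L => ∑ i, fa_Low L χ v x i p.1 * fb_Low L χ w x i p.2 :=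
    summable_sum fun i _ => fafb_summable_Low h hv w x i
  have h3 : Summable fun p : L × L => ∑ i, fa_Low L χ v x i p.2 *
      fb_Low L χ w x i (p.2 - p.1) :=
    ((eq_Low L).summable_iff (f := fun p : L × L => ∑ i, fa_Low L χ v x i p.1 *
      fb_Low L χ w x i p.2)).2 h2
  have h4 : ∑ i, vh_Low L χ v x i * Fx_Low L χ w x i =
      ∑' p : L × L, ∑ i, fa_Low L χ v x i p.1 * fb_Low L χ w x i p.2 := by
    rw [Summable.tsum_finsetSum (fun i _ => fafb_summable_Low h hv w x i)]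
    exact Finset.sum_congr rfl fun i _ => vh_mul_Fx_Low h hv w x i
  have h5 : ∑' p : L × L, ∑ i, fa_Low L χ v x i p.1 * fb_Low L χ w x i p.2 =
      ∑' p : L × L, ∑ i, fa_Low L χ v x i p.2 * fb_Low L χ w x i (p.2 - p.1) :=
    ((eq_Low L).tsum_eq (fun p : L × L => ∑ i, fa_Low L χ v x i p.1 *
      fb_Low L χ w x i p.2)).symm
  rw [h4, h5, h3.tsum_prod]
  refine tsum_congr fun m => ?_
  unfold Phi
  rw [← tsum_mul_left, ← tsum_mul_right]
  refine tsum_congr fun k => ?_
  rw [Finset.mul_sum, Finset.sum_mul]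
  exact Finset.sum_congr rfl fun i _ => term_Low h v w x i m k

/-! ### Parseval -/

theorem haar_Low [MeasurableSpace V] [BorelSpace V] : (vol V).IsAddHaarMeasure := by
  unfold vol
  letI : InnerProductSpace ℝ V := InnerProductSpace.complexToReal
  infer_instance

theorem fund_Low [MeasurableSpace V] [BorelSpace V] (L : Submodule ℤ V) [DiscreteTopology L]
    [IsZLattice ℝ L] : ∃ D : Set V, IsAddFundamentalDomain L D (vol V) ∧ MeasurableSet D ∧
      Bornology.IsBounded D ∧ (vol V) D ≠ 0 ∧ (vol V) D ≠ ⊤ := by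
  haveI : (vol V).IsAddHaarMeasure := haar_Low
  have : FiniteDimensional ℝ V := inferInstance
  refine ⟨_, ZLattice.isAddFundamentalDomain (Module.Free.chooseBasis ℤ L) (vol V), 
    ZSpan.fundamentalDomain_measurableSet _, ZSpan.fundamentalDomain_isBounded _,
    ZSpan.measure_fundamentalDomain_ne_zero _, ?_⟩
  exact (Bornology.IsBounded.measure_lt_top (ZSpan.fundamentalDomain_isBounded _)).ne

omit [FiniteDimensional ℂ V] in
theorem continuous_ser_Low {L : Submodule ℤ V} {c : L → ℂ} (hc : Summable fun m => ‖c m‖) :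
    Continuous fun x : V => ∑' m : L, c m * uE_Low (-(2 * Real.pi * Ef x (m : V))) := by
  refine continuous_tsum (u := fun m : L => ‖c m‖) (fun m => ?_) hc (fun m x => ?_)
  · exact continuous_const.mul (continuous_uE_Low.comp
      (continuous_const.mul (continuous_Ef_Low (m : V))).neg)
  · rw [norm_mul, norm_uE_Low, mul_one]

/-- Orthogonality, in the form that we use. -/
theorem orth_Low (hO : StOrth) [MeasurableSpace V] [BorelSpace V] {L : Submodule ℤ V}
    [DiscreteTopology L] [IsZLattice ℝ L] (hI : IntT L 1) {D : Set V}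
    (hD : IsAddFundamentalDomain L D (vol V)) (hb : Bornology.IsBounded D) (m n : L)
    (hmn : m ≠ n) : ∫ x in D, uE_Low (2 * Real.pi * Ef x ((n - m : L) : V)) ∂(vol V) = 0 := by
  have h1 := hO V L 1 D one_pos hI hD hb ((n - m : L) : V) (n - m : L).2 (by
    intro h
    apply hmn
    have : (n - m : L) = 0 := by exact_mod_cast h
    exact (sub_eq_zero.1 this).symm)
  simp only [mul_one] at h1
  exact h1

theorem parseval_Low (hO : StOrth) [MeasurableSpace V] [BorelSpace V] {L : Submodule ℤ V}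
    [DiscreteTopology L] [IsZLattice ℝ L] (hI : IntT L 1) {D : Set V}
    (hD : IsAddFundamentalDomain L D (vol V)) (hb : Bornology.IsBounded D)
    (hfin : (vol V) D ≠ ⊤) {c : L → ℂ} (hc : Summable fun m => ‖c m‖) :
    ∫ x in D, ‖∑' m : L, c m * uE_Low (-(2 * Real.pi * Ef x (m : V)))‖ ^ 2 ∂(vol V) =
      (vol V).real D * ∑' m, ‖c m‖ ^ 2 := by
  set F : L × L → V → ℂ := fun p x => (c p.1 * uE_Low (-(2 * Real.pi * Ef x (p.1 : V)))) *
    (starRingEnd ℂ) (c p.2 * uE_Low (-(2 * Real.pi * Ef x (p.2 : V)))) with hF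
  haveI : IsFiniteMeasure ((vol V).restrict D) := ⟨by simpa using hfin.lt_top⟩
  have hFn : ∀ p x, ‖F p x‖ = ‖c p.1‖ * ‖c p.2‖ := by
    intro p x
    rw [hF]
    simp only [norm_mul, RCLike.norm_conj, norm_uE_Low, mul_one]
  have hFc : ∀ p, Continuous (F p) := by
    intro p
    have h1 : ∀ m : L, Continuous fun x : V => c m * uE_Low (-(2 * Real.pi * Ef x (m : V))) :=
      fun m => continuous_const.mul (continuous_uE_Low.comp
        (continuous_const.mul (continuous_Ef_Low (m : V))).neg)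
    exact (h1 p.1).mul (Complex.continuous_conj.comp (h1 p.2))
  have hint : ∀ p, Integrable (F p) ((vol V).restrict D) := by
    intro p
    refine (integrable_const (‖c p.1‖ * ‖c p.2‖)).mono' (hFc p).aestronglyMeasurable ?_
    exact Eventually.of_forall fun x => (hFn p x).le
  have hcc : Summable fun p : L × L => ‖c p.1‖ * ‖c p.2‖ :=
    hc.mul_of_nonneg hc (fun _ => norm_nonneg _) (fun _ => norm_nonneg _)
  have hsum : Summable fun p => ∫ x in D, ‖F p x‖ ∂(vol V) := by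
    refine (hcc.mul_left ((vol V).real D)).congr fun p => ?_
    simp only [hFn]
    rw [setIntegral_const, smul_eq_mul]
  have h1 := hasSum_integral_of_summable_integral_norm hint hsum
  have hoff : ∀ p : L × L, p ∉ Set.range (fun m : L => (m, m)) →
      ∫ x in D, F p x ∂(vol V) = 0 := by
    rintro ⟨m, n⟩ hp
    have hmn : m ≠ n := by
      rintro rfl
      exact hp ⟨m, rfl⟩
    have h2 : ∀ x, F (m, n) x = (c m * (starRingEnd ℂ) (c n)) *
        uE_Low (2 * Real.pi * Ef x ((n - m : L) : V)) := by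
      intro x
      simp only [hF, map_mul, conj_uE_Low]
      have h3 : uE_Low (2 * Real.pi * Ef x ((n - m : L) : V)) =
          uE_Low (-(2 * Real.pi * Ef x (m : V))) * uE_Low (-(-(2 * Real.pi * Ef x (n : V)))) := by
        rw [← uE_add_Low, Submodule.coe_sub, Ef_sub_right]
        congr 1
        ring
      rw [h3]
      ring
    simp only [h2]
    rw [integral_const_mul, orth_Low hO hI hD hb m n hmn, mul_zero]
  have hinj : Function.Injective (fun m : L => (m, m)) := fun a b h => (Prod.mk.inj h).1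
  have h2 := (hinj.hasSum_iff hoff).2 h1
  have hdiag : ∀ m : L, ∫ x in D, F (m, m) x ∂(vol V) =
      (((vol V).real D * ‖c m‖ ^ 2 : ℝ) : ℂ) := by
    intro m
    have h3 : ∀ x, F (m, m) x = ((‖c m‖ ^ 2 : ℝ) : ℂ) := by
      intro x
      simp only [hF]
      rw [Complex.mul_conj, Complex.normSq_eq_norm_sq, norm_mul, norm_uE_Low, mul_one]
    simp only [h3]
    rw [setIntegral_const, Complex.real_smul]
    push_cast
    ring
  have hser : ∀ x, ∑' p, F p x =
      ((‖∑' m : L, c m * uE_Low (-(2 * Real.pi * Ef x (m : V)))‖ ^ 2 : ℝ) : ℂ) := by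
    intro x
    have hn : Summable fun m : L => ‖c m * uE_Low (-(2 * Real.pi * Ef x (m : V)))‖ := by
      refine hc.congr fun m => ?_
      rw [norm_mul, norm_uE_Low, mul_one]
    have hn' : Summable fun m : L =>
        ‖(starRingEnd ℂ) (c m * uE_Low (-(2 * Real.pi * Ef x (m : V))))‖ := by
      refine hn.congr fun m => ?_
      rw [RCLike.norm_conj]
    have h3 := tsum_mul_tsum_of_summable_norm hn hn'
    rw [← Complex.normSq_eq_norm_sq, ← Complex.mul_conj, Complex.conj_tsum, h3]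
  have h5 : ∫ x in D, ∑' p, F p x ∂(vol V) =
      ((∫ x in D, ‖∑' m : L, c m * uE_Low (-(2 * Real.pi * Ef x (m : V)))‖ ^ 2 ∂(vol V) : ℝ) :
        ℂ) := by
    simp only [hser]
    exact integral_complex_ofReal
  rw [h5] at h2
  have h6 : ((fun p => ∫ x in D, F p x ∂(vol V)) ∘ fun m : L => (m, m)) =
      fun m : L => (((vol V).real D * ‖c m‖ ^ 2 : ℝ) : ℂ) := by
    funext m
    exact hdiag m
  rw [h6] at h2
  have h4 := (Complex.hasSum_ofReal.1 h2).tsum_eq
  rw [← h4, tsum_mul_left]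

/-! ### Compactness -/

/-- Compactness. -/
theorem compact_Low {L : Submodule ℤ V} [DiscreteTopology L] {χ : V → ℂ}
    (h : IsSemichar L 3 χ)
    (hyp : ∀ χ : V → ℂ, IsSemichar L 3 χ → ∀ q : Idx V → ℂ, q ≠ 0 →
      ∃ w : V, Phi L 3 (fun l i => χ l * q i) w ≠ 0) (R : ℝ) :
    ∃ (W : Finset V) (c : ℝ), 0 < c ∧ ∀ x : V, ‖x‖ ≤ R → ∀ q : Idx V → ℂ,
      c * ∑ i, ‖q i‖ ^ 2 ≤ ∑ w ∈ W, ‖∑ i, q i * Fx_Low L χ w x i‖ ^ 2 := by
  haveI : ProperSpace V := FiniteDimensional.proper ℂ V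
  set g : V → V × (Idx V → ℂ) → ℂ := fun w p => ∑ i, p.2 i * Fx_Low L χ w p.1 i with hg
  have hgc : ∀ w, Continuous (g w) := by
    intro w
    refine continuous_finsetSum _ fun i _ => ?_
    exact ((continuous_apply i).comp continuous_snd).mul
      ((continuous_Fx_Low h w i).comp continuous_fst)
  have hK : IsCompact (Metric.closedBall (0 : V) R ×ˢ Metric.sphere (0 : Idx V → ℂ) 1) :=
    (isCompact_closedBall _ _).prod (isCompact_sphere _ _)
  obtain ⟨W, hW⟩ := hK.elim_finite_subcover (fun w : V => {p | g w p ≠ 0})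
    (fun w => isOpen_ne_fun (hgc w) continuous_const) (by
      rintro ⟨x, q⟩ ⟨_, hq⟩
      have hq0 : q ≠ 0 := by
        rintro rfl
        simp at hq
      obtain ⟨w, hw⟩ := hyp _ (chx_semichar_Low h x) q hq0
      rw [Phi_chx_Low h] at hw
      exact Set.mem_iUnion.2 ⟨w, hw⟩)
  obtain ⟨c, hc, hcK⟩ := hK.exists_forall_le' (f := fun p => ∑ w ∈ W, ‖g w p‖ ^ 2)
    (continuous_finsetSum _ fun w _ => ((hgc w).norm.pow 2)).continuousOn (a := 0) (by
      intro p hp
      obtain ⟨w, hw, hwp⟩ := Set.mem_iUnion₂.1 (hW hp)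
      refine Finset.sum_pos' (fun _ _ => by positivity) ⟨w, hw, ?_⟩
      have : 0 < ‖g w p‖ := norm_pos_iff.2 hwp
      positivity)
  refine ⟨W, c / Fintype.card (Idx V), by
    have : 0 < Fintype.card (Idx V) := Fintype.card_pos
    positivity, fun x hx q => ?_⟩
  have hcard : (0 : ℝ) < Fintype.card (Idx V) := by
    have : 0 < Fintype.card (Idx V) := Fintype.card_pos
    exact_mod_cast this
  have h1 : ∑ i, ‖q i‖ ^ 2 ≤ Fintype.card (Idx V) * ‖q‖ ^ 2 := by
    calc ∑ i, ‖q i‖ ^ 2 ≤ ∑ _i : Idx V, ‖q‖ ^ 2 :=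
          Finset.sum_le_sum fun i _ => pow_le_pow_left₀ (norm_nonneg _) (norm_le_pi_norm q i) 2
      _ = _ := by rw [Finset.sum_const, Finset.card_univ, nsmul_eq_mul]
  have h2 : c * ‖q‖ ^ 2 ≤ ∑ w ∈ W, ‖g w (x, q)‖ ^ 2 := by
    by_cases hq : q = 0
    · rw [hq, norm_zero]
      have : 0 ≤ ∑ w ∈ W, ‖g w (x, (0 : Idx V → ℂ))‖ ^ 2 :=
        Finset.sum_nonneg fun _ _ => by positivity
      simpa using this
    · have hqn : 0 < ‖q‖ := norm_pos_iff.2 hq
      have h3 := hcK (x, ((‖q‖⁻¹ : ℝ) : ℂ) • q) ⟨by simpa using hx, by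
        rw [mem_sphere_zero_iff_norm, norm_smul, Complex.norm_real, norm_inv, norm_norm,
          inv_mul_cancel₀ hqn.ne']⟩
      have h4 : ∀ w, ‖g w (x, ((‖q‖⁻¹ : ℝ) : ℂ) • q)‖ ^ 2 = (‖q‖ ^ 2)⁻¹ * ‖g w (x, q)‖ ^ 2 := by
        intro w
        have : g w (x, ((‖q‖⁻¹ : ℝ) : ℂ) • q) = ((‖q‖⁻¹ : ℝ) : ℂ) * g w (x, q) := by
          simp only [hg, Pi.smul_apply, smul_eq_mul, Finset.mul_sum, mul_assoc]
        rw [this, norm_mul, mul_pow, Complex.norm_real, norm_inv, norm_norm, inv_pow]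
      simp only [h4] at h3
      rw [← Finset.mul_sum] at h3
      calc c * ‖q‖ ^ 2 ≤ ((‖q‖ ^ 2)⁻¹ * ∑ w ∈ W, ‖g w (x, q)‖ ^ 2) * ‖q‖ ^ 2 :=
            mul_le_mul_of_nonneg_right h3 (by positivity)
        _ = _ := by field_simp
  calc c / Fintype.card (Idx V) * ∑ i, ‖q i‖ ^ 2 ≤
      c / Fintype.card (Idx V) * (Fintype.card (Idx V) * ‖q‖ ^ 2) :=
        mul_le_mul_of_nonneg_left h1 (by positivity)
    _ = c * ‖q‖ ^ 2 := by field_simp
    _ ≤ _ := h2

end

/-- Lower bound for the transform. -/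
theorem hLow (hO : StOrth) (hS : StSemi) (_hC : StChar) : StLow := by
  intro V _ _ _ L _ _ hI hyp
  letI : MeasurableSpace V := borel V
  haveI : BorelSpace V := ⟨rfl⟩
  have hI3 : IntT L 3 := by
    intro l hl m hm
    obtain ⟨n, hn⟩ := hI l hl m hm
    refine ⟨3 * n, ?_⟩
    push_cast
    rw [← hn]
    ring
  obtain ⟨χ, hχ⟩ := hS V L 3 hI3
  obtain ⟨D, hD, hDm, hDb, hD0, hDt⟩ := fund_Low L
  obtain ⟨R, hR⟩ := hDb.exists_norm_le
  obtain ⟨W, c, hc, hcW⟩ := compact_Low hχ hyp R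
  have hvol : 0 < (vol V).real D := ENNReal.toReal_pos hD0 hDt
  refine ⟨W, c, hc, fun v hv => ?_⟩
  have hPs : ∀ w, Summable fun m : L => ‖Phi L 3 v (w + m)‖ := Phi_summable_Low hv
  have hsq : ∀ u : L → ℂ, (Summable fun m => ‖u m‖) → Summable fun m => ‖u m‖ ^ 2 := by
    intro u hu
    refine Summable.of_nonneg_of_le (fun _ => by positivity) (fun m => ?_)
      (hu.mul_left (∑' m, ‖u m‖))
    rw [pow_two]
    exact mul_le_mul_of_nonneg_right (hu.le_tsum m fun _ _ => norm_nonneg _) (norm_nonneg _)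
  refine ⟨fun w => hsq _ (hPs w), ?_⟩
  -- the coefficient families
  have hcw : ∀ w, Summable fun m : L => ‖(starRingEnd ℂ) (χ m) *
      uE_Low (-(Real.pi * 3 * Ef (m : V) w)) * Phi L 3 v (w + m)‖ := by
    intro w
    refine (hPs w).congr fun m => ?_
    rw [norm_mul, norm_mul, RCLike.norm_conj, norm_uE_Low, hχ.1 m m.2, one_mul, one_mul]
  have hcv : ∀ i, Summable fun k : L => ‖(starRingEnd ℂ) (χ k) * v k i‖ := by
    intro i
    refine (hv i).congr fun m => ?_
    rw [norm_mul, RCLike.norm_conj, hχ.1 m m.2, one_mul]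
  have hpar : ∀ u : L → ℂ, (Summable fun m => ‖u m‖) →
      IntegrableOn (fun x => ‖∑' m : L, u m * uE_Low (-(2 * Real.pi * Ef x (m : V)))‖ ^ 2) D
        (vol V) := by
    intro u hu
    haveI : IsFiniteMeasure ((vol V).restrict D) := ⟨by simpa using hDt.lt_top⟩
    refine (integrable_const ((∑' m, ‖u m‖) ^ 2)).mono'
      ((continuous_ser_Low hu).norm.pow 2).aestronglyMeasurable ?_
    refine Eventually.of_forall fun x => ?_
    rw [Real.norm_of_nonneg (by positivity)]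
    refine pow_le_pow_left₀ (norm_nonneg _) ?_ 2
    refine tsum_of_norm_bounded hu.hasSum fun m => ?_
    rw [norm_mul, norm_uE_Low, mul_one]
  have hvh : ∀ x i, vh_Low L χ v x i =
      ∑' k : L, ((starRingEnd ℂ) (χ k) * v k i) * uE_Low (-(2 * Real.pi * Ef x (k : V))) := by
    intro x i
    unfold vh_Low
    refine tsum_congr fun k => ?_
    rw [conj_chx_Low]
    ring
  have hpt : ∀ x ∈ D, c * ∑ i, ‖vh_Low L χ v x i‖ ^ 2 ≤
      ∑ w ∈ W, ‖∑' m : L, ((starRingEnd ℂ) (χ m) * uE_Low (-(Real.pi * 3 * Ef (m : V) w)) *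
        Phi L 3 v (w + m)) * uE_Low (-(2 * Real.pi * Ef x (m : V)))‖ ^ 2 := by
    intro x hx
    refine (hcW x (hR x hx) (fun i => vh_Low L χ v x i)).trans (le_of_eq ?_)
    refine Finset.sum_congr rfl fun w _ => ?_
    rw [key_Low hχ hv w x]
  have hI1 : ∀ i, IntegrableOn (fun x => ‖vh_Low L χ v x i‖ ^ 2) D (vol V) := by
    intro i
    simp only [hvh]
    exact hpar _ (hcv i)
  have hI2 : ∀ w, IntegrableOn (fun x => ‖∑' m : L, ((starRingEnd ℂ) (χ m) *
      uE_Low (-(Real.pi * 3 * Ef (m : V) w)) * Phi L 3 v (w + m)) *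
        uE_Low (-(2 * Real.pi * Ef x (m : V)))‖ ^ 2) D (vol V) := fun w => hpar _ (hcw w)
  have hint := setIntegral_mono_on (μ := vol V) (s := D)
    ((integrable_finsetSum _ fun i _ => hI1 i).const_mul c)
    (integrable_finsetSum _ fun w _ => hI2 w) hDm hpt
  rw [integral_const_mul, integral_finsetSum _ fun i _ => hI1 i,
    integral_finsetSum _ fun w _ => hI2 w] at hint
  have hl : ∀ i, ∫ x in D, ‖vh_Low L χ v x i‖ ^ 2 ∂(vol V) =
      (vol V).real D * ∑' k, ‖v k i‖ ^ 2 := by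
    intro i
    simp only [hvh]
    rw [parseval_Low hO hI hD hDb hDt (hcv i)]
    congr 1
    refine tsum_congr fun k => ?_
    rw [norm_mul, RCLike.norm_conj, hχ.1 k k.2, one_mul]
  have hr : ∀ w, ∫ x in D, ‖∑' m : L, ((starRingEnd ℂ) (χ m) *
      uE_Low (-(Real.pi * 3 * Ef (m : V) w)) * Phi L 3 v (w + m)) *
        uE_Low (-(2 * Real.pi * Ef x (m : V)))‖ ^ 2 ∂(vol V) =
      (vol V).real D * ∑' m : L, ‖Phi L 3 v (w + m)‖ ^ 2 := by
    intro w
    rw [parseval_Low hO hI hD hDb hDt (hcw w)]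
    congr 1
    refine tsum_congr fun m => ?_
    rw [norm_mul, norm_mul, RCLike.norm_conj, norm_uE_Low, hχ.1 m m.2, one_mul, one_mul]
  simp only [hl, hr] at hint
  rw [← Finset.mul_sum, ← Finset.mul_sum] at hint
  have hsw : ∑' l : L, ∑ i, ‖v l i‖ ^ 2 = ∑ i, ∑' l : L, ‖v l i‖ ^ 2 :=
    Summable.tsum_finsetSum fun i _ => hsq _ (hv i)
  rw [hsw]
  have h9 : (vol V).real D * (c * ∑ i, ∑' l : L, ‖v l i‖ ^ 2) ≤
      (vol V).real D * ∑ w ∈ W, ∑' m : L, ‖Phi L 3 v (w + m)‖ ^ 2 := by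
    calc (vol V).real D * (c * ∑ i, ∑' l : L, ‖v l i‖ ^ 2) =
        c * ((vol V).real D * ∑ i, ∑' l : L, ‖v l i‖ ^ 2) := by ring
      _ ≤ _ := hint
  exact le_of_mul_le_mul_left h9 hvol

end Pool.Agent.Helper7.JT
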