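import Pool.Agent.Helper7.JT.Base

/-!
JT: module MV.  Gaussian mean value property.
-/

set_option autoImplicit false
set_option linter.style.haveILetI false

namespace Pool.Agent.Helper7.JT

open MeasureTheory Module Filter Topology Asymptotics

namespace MVAux

variable {V : Type} [NormedAddCommGroup V] [InnerProductSpace ℂ V] [FiniteDimensional ℂ V]
    [MeasurableSpace V] [BorelSpace V]

/-- Rotation by a complex number of norm one, as a real isometry. -/
noncomputable def rot (u : ℂ) (hu : ‖u‖ = 1) :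
    letI := InnerProductSpace.complexToReal (G := V)
    V ≃ₗᵢ[ℝ] V :=
  letI := InnerProductSpace.complexToReal (G := V)
  { toFun := fun w => u • w
    invFun := fun w => u⁻¹ • w
    left_inv := fun w => by
      have : u ≠ 0 := by intro h; rw [h, norm_zero] at hu; exact zero_ne_one hu
      simp [smul_smul, inv_mul_cancel₀ this]
    right_inv := fun w => by
      have : u ≠ 0 := by intro h; rw [h, norm_zero] at hu; exact zero_ne_one hu
      simp [smul_smul, mul_inv_cancel₀ this]
    map_add' := fun x y => smul_add u x y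
    map_smul' := fun c x => smul_comm u c x
    norm_map' := fun w => by
      show ‖u • w‖ = ‖w‖
      rw [norm_smul, hu, one_mul] }

theorem rot_integral (u : ℂ) (hu : ‖u‖ = 1) (G : V → ℂ) :
    ∫ w : V, G (u • w) ∂(vol V) = ∫ w : V, G w ∂(vol V) := by
  letI := InnerProductSpace.complexToReal (G := V)
  have hmp := (rot (V := V) u hu).measurePreserving
  exact hmp.integral_comp (rot (V := V) u hu).toHomeomorph.measurableEmbedding G

theorem gauss_integrable (b : ℝ) (hb : 0 < b) :
    Integrable (fun w : V => Real.exp (-(b * ‖w‖ ^ 2))) (vol V) := by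
  letI := InnerProductSpace.complexToReal (G := V)
  haveI : FiniteDimensional ℝ V := FiniteDimensional.complexToReal V
  have h := GaussianFourier.integrable_cexp_neg_mul_sq_norm_add (V := V) (b := (b : ℂ))
    (by simpa using hb) 0 0
  have h2 := h.norm
  refine h2.congr (Eventually.of_forall fun w => ?_)
  simp only [Complex.norm_exp]
  congr 1
  have : (-(b : ℂ) * (‖w‖ : ℂ) ^ 2 + 0 * ((inner ℝ (0 : V) w : ℝ) : ℂ)) =
      ((-(b * ‖w‖ ^ 2) : ℝ) : ℂ) := by
    push_cast
    ring
  rw [this, Complex.ofReal_re]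

theorem gauss_integral (t : ℝ) (ht : 0 < t) :
    (t : ℂ) ^ (finrank ℂ V) *
      ∫ w : V, ((Real.exp (-(Real.pi * t * ‖w‖ ^ 2)) : ℝ) : ℂ) ∂(vol V) = 1 := by
  letI := InnerProductSpace.complexToReal (G := V)
  haveI : FiniteDimensional ℝ V := FiniteDimensional.complexToReal V
  have h := GaussianFourier.integral_rexp_neg_mul_sq_norm (V := V) (b := Real.pi * t)
    (by positivity)
  have h2 : ∫ w : V, ((Real.exp (-(Real.pi * t * ‖w‖ ^ 2)) : ℝ) : ℂ) ∂(vol V) =
      (((∫ w : V, Real.exp (-(Real.pi * t) * ‖w‖ ^ 2)) : ℝ) : ℂ) := by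
    refine Eq.trans ?_ (integral_ofReal (𝕜 := ℂ) (μ := vol V)
      (f := fun w : V => Real.exp (-(Real.pi * t) * ‖w‖ ^ 2)))
    refine integral_congr_ae (Eventually.of_forall fun w => ?_)
    simp only [neg_mul]
    rfl
  rw [h2, h]
  have h3 : Real.pi / (Real.pi * t) = t⁻¹ := by
    field_simp
  have h4 : ((finrank ℝ V : ℝ) / 2) = (finrank ℂ V : ℝ) := by
    have := finrank_real_of_complex V
    rw [this]
    push_cast
    ring
  rw [h3, h4, Real.rpow_natCast]
  push_cast
  rw [← mul_pow, mul_inv_cancel₀ (by exact_mod_cast ht.ne'), one_pow]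

end MVAux

open MVAux in
theorem hMV : StMV := by
  intro V _ _ _ _ _ t F ht hF hb
  obtain ⟨C, ε, hε, hb⟩ := hb
  letI := InnerProductSpace.complexToReal (G := V)
  haveI : FiniteDimensional ℝ V := FiniteDimensional.complexToReal V
  set g : V → ℂ := fun w => ((Real.exp (-(Real.pi * t * ‖w‖ ^ 2)) : ℝ) : ℂ) with hg
  have hC : 0 ≤ C := by
    have := (norm_nonneg _).trans (hb 0)
    simpa using this
  -- the bound
  have hbound : ∀ (u : ℂ), ‖u‖ = 1 → ∀ w : V, ‖F (u • w) * g w‖ ≤ C * Real.exp (-(ε * ‖w‖ ^ 2)) := by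
    intro u hu w
    have h1 := hb (u • w)
    rw [norm_smul, hu, one_mul] at h1
    rw [norm_mul, hg, Complex.norm_real, Real.norm_eq_abs, abs_of_pos (Real.exp_pos _)]
    calc ‖F (u • w)‖ * Real.exp (-(Real.pi * t * ‖w‖ ^ 2))
        ≤ C * Real.exp ((Real.pi * t - ε) * ‖w‖ ^ 2) * Real.exp (-(Real.pi * t * ‖w‖ ^ 2)) :=
          mul_le_mul_of_nonneg_right h1 (Real.exp_pos _).le
      _ = C * Real.exp (-(ε * ‖w‖ ^ 2)) := by
          rw [mul_assoc, ← Real.exp_add]
          congr 2
          ring
  have hFc : Continuous F := hF.continuous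
  have hgc : Continuous g := by
    rw [hg]
    exact Complex.continuous_ofReal.comp (Real.continuous_exp.comp (by fun_prop))
  -- rotation invariance
  have hrot : ∀ θ : ℝ, ∫ w : V, F (circleMap 0 1 θ • w) * g w ∂(vol V) =
      ∫ w : V, F w * g w ∂(vol V) := by
    intro θ
    have hu : ‖circleMap 0 1 θ‖ = 1 := by simp
    rw [← rot_integral (circleMap 0 1 θ) hu (fun w => F w * g w)]
    refine integral_congr_ae (Eventually.of_forall fun w => ?_)
    simp only [hg, norm_smul, hu, one_mul]
  -- mean value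
  have hmean : ∀ w : V, ∫ θ in (0 : ℝ)..2 * Real.pi, F (circleMap 0 1 θ • w) =
      (2 * Real.pi : ℝ) • F 0 := by
    intro w
    have hd : Differentiable ℂ (fun s : ℂ => F (s • w)) :=
      hF.comp (differentiable_id.smul_const w)
    have h1 := DiffContOnCl.circleAverage (c := 0) (R := 1) (f := fun s : ℂ => F (s • w))
      hd.diffContOnCl
    rw [Real.circleAverage_def] at h1
    simp only [zero_smul] at h1
    rw [← h1, smul_smul, mul_inv_cancel₀ (by positivity), one_smul]
  -- Fubini
  have hfub : ∫ θ in (0 : ℝ)..2 * Real.pi, ∫ w : V, F (circleMap 0 1 θ • w) * g w ∂(vol V) =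
      ∫ w : V, (∫ θ in (0 : ℝ)..2 * Real.pi, F (circleMap 0 1 θ • w) * g w) ∂(vol V) := by
    have h2p : (0 : ℝ) ≤ 2 * Real.pi := by positivity
    simp only [intervalIntegral.integral_of_le h2p]
    haveI : SFinite (vol V) := by
      unfold vol
      infer_instance
    refine integral_integral_swap ?_
    have hcont : Continuous (Function.uncurry fun (θ : ℝ) (w : V) =>
        F (circleMap 0 1 θ • w) * g w) := by
      have hc : Continuous fun p : ℝ × V => circleMap 0 1 p.1 • p.2 :=
        ((continuous_circleMap 0 1).comp continuous_fst).smul continuous_snd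
      exact (hFc.comp hc).mul (hgc.comp continuous_snd)
    have hG : Integrable (fun w : V => C * Real.exp (-(ε * ‖w‖ ^ 2))) (vol V) :=
      (gauss_integrable ε hε).const_mul C
    have hG2 : Integrable (fun p : ℝ × V => (1 : ℝ) * (C * Real.exp (-(ε * ‖p.2‖ ^ 2))))
        ((volume.restrict (Set.Ioc 0 (2 * Real.pi))).prod (vol V)) :=
      Integrable.mul_prod (f := fun _ : ℝ => (1 : ℝ)) (integrable_const 1) hG
    refine hG2.mono' hcont.aestronglyMeasurable (Eventually.of_forall fun p => ?_)
    rw [one_mul]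
    exact hbound _ (by simp) p.2
  have h1 : ∫ θ in (0 : ℝ)..2 * Real.pi, ∫ w : V, F (circleMap 0 1 θ • w) * g w ∂(vol V) =
      (2 * Real.pi : ℝ) • ∫ w : V, F w * g w ∂(vol V) := by
    rw [intervalIntegral.integral_congr (g := fun _ => ∫ w : V, F w * g w ∂(vol V))
      fun θ _ => hrot θ, intervalIntegral.integral_const, sub_zero]
  have h2 : ∫ w : V, (∫ θ in (0 : ℝ)..2 * Real.pi, F (circleMap 0 1 θ • w) * g w) ∂(vol V) =
      (2 * Real.pi : ℝ) • (F 0 * ∫ w : V, g w ∂(vol V)) := by
    rw [← integral_const_mul, ← integral_smul]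
    refine integral_congr_ae (Eventually.of_forall fun w => ?_)
    simp only
    rw [intervalIntegral.integral_mul_const, hmean w, smul_mul_assoc]
  have h3 : ∫ w : V, F w * g w ∂(vol V) = F 0 * ∫ w : V, g w ∂(vol V) := by
    rw [h1, h2] at hfub
    have hne : (2 * Real.pi : ℝ) ≠ 0 := by positivity
    exact smul_right_injective ℂ hne hfub
  show (t : ℂ) ^ (finrank ℂ V) * ∫ w : V, F w * g w ∂(vol V) = F 0
  rw [h3, mul_left_comm]
  have h4 := gauss_integral (V := V) t ht
  rw [h4, mul_one]

end Pool.Agent.Helper7.JT
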