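import Pool.Agent.Helper7.JT.Base

/-! Project JT (MP_43f214_ag), module Orth: orthogonality of the characters of the torus. -/

namespace Pool.Agent.Helper7.JT

open MeasureTheory Module Filter Topology Asymptotics
open scoped Pointwise

/-- `vol V` is an additive Haar measure. -/
theorem isAddHaar_vol_Orth (V : Type) [NormedAddCommGroup V] [InnerProductSpace ℂ V]
    [FiniteDimensional ℂ V] [MeasurableSpace V] [BorelSpace V] :
    (vol V).IsAddHaarMeasure := by
  let _ : InnerProductSpace ℝ V := InnerProductSpace.complexToReal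
  let _ : MeasureSpace V := measureSpaceOfInnerProductSpace
  show (volume : Measure V).IsAddHaarMeasure
  infer_instance

/-- `vol V` is invariant under a lattice. -/
theorem vaddInv_vol_Orth (V : Type) [NormedAddCommGroup V] [InnerProductSpace ℂ V]
    [FiniteDimensional ℂ V] [MeasurableSpace V] [BorelSpace V] (L : Submodule ℤ V) :
    VAddInvariantMeasure L V (vol V) := by
  have hH := isAddHaar_vol_Orth V
  refine ⟨fun c s _ => ?_⟩
  exact measure_preimage_add (vol V) (c : V) s

theorem hOrth : StOrth := by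
  intro V _ _ _ _ _ L _ _ t D ht hI hD hb l hl hl0
  have hH := isAddHaar_vol_Orth V
  have hL := vaddInv_vol_Orth V L
  set e : V → ℂ := fun z => Complex.exp (((2 * Real.pi * t * Ef z l : ℝ) : ℂ) * Complex.I) with he
  have hadd : ∀ u z : V, e (u + z) = e u * e z := by
    intro u z
    simp only [he]
    rw [← Complex.exp_add, Ef_add_left]
    congr 1
    push_cast
    ring
  have hper : ∀ m ∈ L, e m = 1 := by
    intro m hm
    obtain ⟨n, hn⟩ := hI m hm l hl
    simp only [he]
    rw [show (2 * Real.pi * t * Ef m l : ℝ) = (n : ℝ) * (2 * Real.pi) by rw [← hn]; ring]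
    push_cast
    rw [show ((n : ℂ) * (2 * (Real.pi : ℂ)) * Complex.I) = (n : ℂ) * (2 * (Real.pi : ℂ) * Complex.I)
      by ring]
    exact Complex.exp_int_mul_two_pi_mul_I n
  -- a vector `u` with `e u = -1`
  have hnorm : (0 : ℝ) < ‖l‖ ^ 2 := by
    have := norm_pos_iff.2 hl0
    positivity
  set u : V := ((1 / (2 * t * ‖l‖ ^ 2) : ℝ) : ℂ) • (Complex.I • l) with hu
  have hEu : Ef u l = 1 / (2 * t) := by
    rw [hu, Ef_smul_left]
    have h1 : Ef (Complex.I • l) l = ‖l‖ ^ 2 := by
      rw [Ef, Hm_smul_left, Hm_self]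
      simp
      norm_cast
    rw [h1]
    field_simp
  have heu : e u = -1 := by
    simp only [he]
    rw [hEu, show (2 * Real.pi * t * (1 / (2 * t)) : ℝ) = Real.pi by field_simp]
    exact Complex.exp_pi_mul_I
  have hD' : IsAddFundamentalDomain L (u +ᵥ D) (vol V) := hD.vadd_of_comm u
  have h1 : ∫ z in (u +ᵥ D), e z ∂(vol V) = ∫ z in D, e z ∂(vol V) := by
    apply hD'.setIntegral_eq hD
    intro g x
    have : (g +ᵥ x : V) = (g : V) + x := rfl
    rw [this, hadd, hper g g.2, one_mul]
  have h2 : ∫ z in (u +ᵥ D), e z ∂(vol V) = ∫ z in D, e (u + z) ∂(vol V) := by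
    have := (measurePreserving_vadd u (vol V)).setIntegral_image_emb
      (measurableEmbedding_const_vadd u) e D
    exact this
  have h3 : ∫ z in D, e (u + z) ∂(vol V) = -∫ z in D, e z ∂(vol V) := by
    have : (fun z => e (u + z)) = fun z => -e z := by
      funext z
      rw [hadd, heu, neg_one_mul]
    rw [this, integral_neg]
  have h4 : ∫ z in D, e z ∂(vol V) = -∫ z in D, e z ∂(vol V) := by
    rw [← h3, ← h2, h1]
  have h5 : (2 : ℂ) * ∫ z in D, e z ∂(vol V) = 0 := by
    linear_combination h4
  exact (mul_eq_zero.1 h5).resolve_left two_ne_zero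

end Pool.Agent.Helper7.JT
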