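import Pool.Agent.Helper7.JT.Base

namespace Pool.Agent.Helper7.JT

open MeasureTheory Module Filter Topology Asymptotics

section

variable {V : Type} [NormedAddCommGroup V] [InnerProductSpace ℂ V]

theorem fderiv_eq_deriv_PK {F : V → ℂ} (hF : Differentiable ℂ F) (z v : V) :
    fderiv ℂ F z v = deriv (fun s : ℂ => F (z + s • v)) 0 := by
  have h1 : HasDerivAt (fun s : ℂ => z + s • v) v 0 := by
    simpa using ((hasDerivAt_id (0 : ℂ)).smul_const v).const_add z
  have h2 : HasFDerivAt F (fderiv ℂ F (z + (0 : ℂ) • v)) (z + (0 : ℂ) • v) :=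
    (hF _).hasFDerivAt
  have h3 := h2.comp_hasDerivAt (0 : ℂ) h1
  rw [zero_smul, add_zero] at h3
  exact h3.deriv.symm

theorem norm_fderiv_le_PK {F : V → ℂ} (hF : Differentiable ℂ F) (z : V) {M : ℝ}
    (hM : ∀ y, ‖y - z‖ ≤ 1 → ‖F y‖ ≤ M) : ‖fderiv ℂ F z‖ ≤ M := by
  have hM0 : 0 ≤ M := (norm_nonneg _).trans (hM z (by simp))
  refine ContinuousLinearMap.opNorm_le_bound _ hM0 fun w => ?_
  rcases eq_or_ne w 0 with rfl | hw
  · simp
  have hw0 : 0 < ‖w‖ := norm_pos_iff.2 hw
  rw [fderiv_eq_deriv_PK hF]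
  have hd : Differentiable ℂ (fun s : ℂ => F (z + s • w)) :=
    hF.comp ((differentiable_id.smul_const w).const_add z)
  have h := Complex.norm_deriv_le_of_forall_mem_sphere_norm_le (c := 0) (R := ‖w‖⁻¹) (C := M)
    (inv_pos.2 hw0) hd.diffContOnCl (fun s hs => hM _ ?_)
  · rwa [div_inv_eq_mul] at h
  · rw [add_sub_cancel_left, norm_smul]
    rw [mem_sphere_zero_iff_norm] at hs
    rw [hs, inv_mul_cancel₀ hw0.ne']

variable [FiniteDimensional ℂ V]

/-- Directional derivatives of entire functions are entire. -/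
theorem differentiable_fderiv_PK {F : V → ℂ} (hF : Differentiable ℂ F) (v : V) :
    Differentiable ℂ (fun z => fderiv ℂ F z v) := by
  borelize V
  have : ProperSpace V := FiniteDimensional.proper ℂ V
  have hc : Continuous F := hF.continuous
  have hcm : ∀ θ : ℝ, ‖circleMap 0 1 θ‖ = 1 := fun θ => by simp
  have h1 : Continuous (fun θ : ℝ => circleMap 0 1 θ) := continuous_circleMap 0 1
  have hA : Continuous (fun θ : ℝ => deriv (circleMap 0 1) θ) := by
    have : (fun θ : ℝ => deriv (circleMap 0 1) θ) = fun θ => circleMap 0 1 θ * Complex.I := by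
      funext θ
      simp
    rw [this]
    fun_prop
  have hB : Continuous (fun θ : ℝ => (1 / (circleMap 0 1 θ - 0) ^ 2 : ℂ)) := by
    refine Continuous.div₀ continuous_const ((h1.sub continuous_const).pow 2) fun θ => ?_
    intro h
    have := hcm θ
    rw [sub_zero] at h
    rw [pow_eq_zero_iff two_ne_zero] at h
    rw [h, norm_zero] at this
    exact zero_ne_one this
  have key : (fun z => fderiv ℂ F z v) = fun z => (2 * Real.pi * Complex.I : ℂ)⁻¹ •
      ∫ θ in (0 : ℝ)..2 * Real.pi, deriv (circleMap 0 1) θ •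
        ((1 / (circleMap 0 1 θ - 0) ^ 2 : ℂ) • F (z + circleMap 0 1 θ • v)) := by
    funext z
    have h2 : Differentiable ℂ (fun s : ℂ => F (z + s • v)) :=
      hF.comp ((differentiable_id.smul_const v).const_add z)
    have h3 := DiffContOnCl.deriv_eq_smul_circleIntegral (c := 0) (R := 1) one_pos
      h2.diffContOnCl
    rw [fderiv_eq_deriv_PK hF]
    have h4 : (2 * Real.pi * Complex.I : ℂ) ≠ 0 := by
      simp [Real.pi_ne_zero]
    rw [eq_comm, inv_smul_eq_iff₀ h4, ← h3]
    rfl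
  rw [key]
  refine Differentiable.fun_const_smul ?_ _
  intro z₀
  obtain ⟨M, hM⟩ := (isCompact_closedBall z₀ (‖v‖ + 2)).exists_bound_of_continuousOn
    hc.continuousOn
  have hcont : ∀ z : V, Continuous (fun θ : ℝ => deriv (circleMap 0 1) θ •
        ((1 / (circleMap 0 1 θ - 0) ^ 2 : ℂ) • F (z + circleMap 0 1 θ • v))) := fun z =>
    hA.smul (hB.smul (hc.comp (continuous_const.add (h1.smul continuous_const))))
  have := intervalIntegral.hasFDerivAt_integral_of_dominated_of_fderiv_le (𝕜 := ℂ)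
    (μ := volume) (a := 0) (b := 2 * Real.pi) (x₀ := z₀) (s := Metric.ball z₀ 1)
    (F := fun z θ => deriv (circleMap 0 1) θ •
        ((1 / (circleMap 0 1 θ - 0) ^ 2 : ℂ) • F (z + circleMap 0 1 θ • v)))
    (F' := fun z θ => deriv (circleMap 0 1) θ •
        ((1 / (circleMap 0 1 θ - 0) ^ 2 : ℂ) • fderiv ℂ F (z + circleMap 0 1 θ • v)))
    (bound := fun _ => M) (Metric.ball_mem_nhds _ one_pos)
    (Eventually.of_forall fun z => (hcont z).aestronglyMeasurable)
    ((hcont z₀).intervalIntegrable _ _) ?_ ?_ intervalIntegrable_const ?_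
  · exact this.differentiableAt
  · have h2 : Measurable (fun θ : ℝ => fderiv ℂ F (z₀ + circleMap 0 1 θ • v)) :=
      (measurable_fderiv ℂ F).comp
        (continuous_const.add (h1.smul continuous_const)).measurable
    have : ProperSpace (V →L[ℂ] ℂ) := FiniteDimensional.proper ℂ _
    exact hA.aestronglyMeasurable.smul (hB.aestronglyMeasurable.smul h2.aestronglyMeasurable)
  · refine Eventually.of_forall fun θ _ z hz => ?_
    rw [norm_smul, norm_smul, norm_div, norm_pow, sub_zero, hcm, one_pow, norm_one, div_one,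
      one_mul]
    have h3 : ‖deriv (circleMap 0 1) θ‖ = 1 := by simp
    rw [h3, one_mul]
    refine norm_fderiv_le_PK hF _ fun y hy => hM y ?_
    rw [mem_closedBall_iff_norm]
    rw [mem_ball_iff_norm] at hz
    calc ‖y - z₀‖ = ‖(y - (z + circleMap 0 1 θ • v)) + (z - z₀) + circleMap 0 1 θ • v‖ := by
          congr 1; abel
      _ ≤ ‖y - (z + circleMap 0 1 θ • v)‖ + ‖z - z₀‖ + ‖circleMap 0 1 θ • v‖ :=
          norm_add₃_le
      _ ≤ 1 + 1 + ‖v‖ := by
          rw [norm_smul, hcm, one_mul]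
          gcongr
      _ = ‖v‖ + 2 := by ring
  · refine Eventually.of_forall fun θ _ z _ => ?_
    refine HasFDerivAt.fun_const_smul (HasFDerivAt.fun_const_smul ?_ _) _
    have h4 : HasFDerivAt (fun x : V => x + circleMap 0 1 θ • v) (ContinuousLinearMap.id ℂ V) z :=
      (hasFDerivAt_id z).add_const _
    have h5 := (hF (z + circleMap 0 1 θ • v)).hasFDerivAt.comp z h4
    simpa [Function.comp_def] using h5

/-! linearity of the coordinates of the 2-jet -/

theorem Dj_add_PK (i : Idx V) {F G : V → ℂ} (hF : Differentiable ℂ F) (hG : Differentiable ℂ G) :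
    Dj i (fun z => F z + G z) = Dj i F + Dj i G := by
  rcases i with i | i | i
  · rfl
  · simp only [Dj]
    rw [fderiv_fun_add (hF 0) (hG 0)]
    rfl
  · simp only [Dj]
    have : (fun z => fderiv ℂ (fun z => F z + G z) z (ob i.1.1)) =
        fun z => fderiv ℂ F z (ob i.1.1) + fderiv ℂ G z (ob i.1.1) := by
      funext z
      rw [fderiv_fun_add (hF z) (hG z)]
      rfl
    rw [this, fderiv_fun_add (differentiable_fderiv_PK hF _ 0) (differentiable_fderiv_PK hG _ 0)]
    rfl

theorem Dj_smul_PK (i : Idx V) (c : ℂ) {F : V → ℂ} (hF : Differentiable ℂ F) :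
    Dj i (fun z => c * F z) = c * Dj i F := by
  rcases i with i | i | i
  · rfl
  · simp only [Dj]
    rw [fderiv_const_mul (hF 0)]
    rfl
  · simp only [Dj]
    have : (fun z => fderiv ℂ (fun z => c * F z) z (ob i.1.1)) =
        fun z => c * fderiv ℂ F z (ob i.1.1) := by
      funext z
      rw [fderiv_const_mul (hF z)]
      rfl
    rw [this, fderiv_const_mul (differentiable_fderiv_PK hF _ 0)]
    rfl

theorem Dj_sub_PK (i : Idx V) {F G : V → ℂ} (hF : Differentiable ℂ F) (hG : Differentiable ℂ G) :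
    Dj i (fun z => F z - G z) = Dj i F - Dj i G := by
  have h1 : (fun z => F z - G z) = fun z => F z + (-1 : ℂ) * G z := by
    funext z; ring
  rw [h1, Dj_add_PK i hF (hG.const_mul _), Dj_smul_PK i _ hG]
  ring

/-- The degree of a coordinate. -/
def dg_PK (i : Idx V) : ℕ :=
  match i with
  | Sum.inl _ => 0
  | Sum.inr (Sum.inl _) => 1
  | Sum.inr (Sum.inr _) => 2

theorem Dj_comp_PK (i : Idx V) (c : ℂ) {F : V → ℂ} (hF : Differentiable ℂ F) :
    Dj i (fun z => F (c • z)) = c ^ dg_PK i * Dj i F := by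
  have h0 : ∀ {G : V → ℂ} (_ : Differentiable ℂ G) (z v : V),
      fderiv ℂ (fun z => G (c • z)) z v = c * fderiv ℂ G (c • z) v := by
    intro G hG z v
    have h1 : HasFDerivAt (fun z : V => c • z) (c • ContinuousLinearMap.id ℂ V) z :=
      (hasFDerivAt_id z).const_smul c
    have h2 := ((hG (c • z)).hasFDerivAt.comp z h1).fderiv
    have h3 : fderiv ℂ (fun z => G (c • z)) z = fderiv ℂ (G ∘ fun z => c • z) z := rfl
    rw [h3, h2]
    simp
  rcases i with i | i | i
  · simp [Dj, dg_PK]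
  · simp only [Dj, dg_PK, pow_one]
    rw [h0 hF, smul_zero]
  · simp only [Dj, dg_PK]
    have : (fun z => fderiv ℂ (fun z => F (c • z)) z (ob i.1.1)) =
        fun z => c * fderiv ℂ F (c • z) (ob i.1.1) := by
      funext z
      rw [h0 hF]
    rw [this]
    have hd := differentiable_fderiv_PK hF (ob i.1.1)
    have h5 : Differentiable ℂ (fun z => fderiv ℂ F (c • z) (ob i.1.1)) :=
      hd.comp (differentiable_id.const_smul c)
    rw [fderiv_const_mul (h5 0), smul_apply, h0 hd, smul_zero]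
    simp only [smul_eq_mul]
    ring


omit [FiniteDimensional ℂ V] in
theorem Tr_scale_PK (t T : ℝ) (b : ℕ) (hT : T = (b : ℝ) * b * t) (x : V) (F : V → ℂ) (z : V) :
    Tr T x (fun z => F ((b : ℂ) • z)) z = Tr t ((b : ℂ) • x) F ((b : ℂ) • z) := by
  simp only [Tr_apply, ← smul_add]
  congr 2
  rw [Hm_smul_left, Hm_smul_right, norm_smul, hT]
  simp only [Complex.norm_natCast, Complex.conj_natCast]
  push_cast
  ring

omit [FiniteDimensional ℂ V] in
theorem Tr_add_PK (T : ℝ) (x : V) (F G : V → ℂ) :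
    Tr T x (fun z => F z + G z) = fun z => Tr T x F z + Tr T x G z := by
  funext z
  simp only [Tr_apply]
  ring

omit [FiniteDimensional ℂ V] in
theorem Tr_sub_PK (T : ℝ) (x : V) (F G : V → ℂ) :
    Tr T x (fun z => F z - G z) = fun z => Tr T x F z - Tr T x G z := by
  funext z
  simp only [Tr_apply]
  ring

omit [FiniteDimensional ℂ V] in
theorem Tr_smul_PK (T : ℝ) (x : V) (c : ℂ) (F : V → ℂ) :
    Tr T x (fun z => c * F z) = fun z => c * Tr T x F z := by
  funext z
  simp only [Tr_apply]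
  ring

/-- The phase `exp (-i pi T E(x,y))`. -/
noncomputable def ph_PK (T : ℝ) (x y : V) : ℂ :=
  Complex.exp (-((Real.pi * T * Ef x y : ℝ) : ℂ) * Complex.I)

omit [FiniteDimensional ℂ V] in
theorem ph_ne_PK (T : ℝ) (x y : V) : ph_PK T x y ≠ 0 := Complex.exp_ne_zero _

omit [FiniteDimensional ℂ V] in
theorem norm_ph_PK (T : ℝ) (x y : V) : ‖ph_PK T x y‖ = 1 := by
  rw [ph_PK, ← Complex.ofReal_neg, Complex.norm_exp_ofReal_mul_I]

theorem Dj_Tr_Tr_PK (T : ℝ) (x m : V) (i : Idx V) {F : V → ℂ} (hF : Differentiable ℂ F) :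
    Dj i (Tr T x (Tr T m F)) = ph_PK T x m * Dj i (Tr T (x + m) F) := by
  have : Tr T x (Tr T m F) = fun z => ph_PK T x m * Tr T (x + m) F z := by
    funext z
    exact Tr_Tr T x m F z
  rw [this, Dj_smul_PK i _ (Tr_differentiable T _ hF)]

/-- The jet of a section at `x + m`, `m` a lattice vector. -/
theorem Dj_sec_PK {L : Submodule ℤ V} {T : ℝ} {χ f : V → ℂ} (hf : IsSec L T χ f) (x : V) {m : V}
    (hm : m ∈ L) (i : Idx V) :
    χ m * Dj i (Tr T x f) = ph_PK T x m * Dj i (Tr T (x + m) f) := by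
  have hd := hf.1
  have h1 : Tr T m f = fun z => χ m * f z := by
    funext z
    exact ((isSec_iff_Tr L T χ f).1 hf).2 m hm z
  rw [← Dj_Tr_Tr_PK T x m i hd, h1, Tr_smul_PK, Dj_smul_PK i _ (Tr_differentiable T _ hd)]

/-- The module of sections. -/
def SecM_PK (L : Submodule ℤ V) (T : ℝ) (χ : V → ℂ) : Submodule ℂ (V → ℂ) where
  carrier := {f | IsSec L T χ f}
  add_mem' := by
    intro f g hf hg
    refine ⟨hf.1.add hg.1, fun l hl z => ?_⟩
    simp only [Pi.add_apply]
    rw [hf.2 l hl z, hg.2 l hl z]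
    ring
  zero_mem' := by
    refine ⟨differentiable_const (0 : ℂ), fun l hl z => ?_⟩
    simp
  smul_mem' := by
    intro c f hf
    refine ⟨hf.1.const_smul c, fun l hl z => ?_⟩
    simp only [Pi.smul_apply, smul_eq_mul]
    rw [hf.2 l hl z]
    ring

/-- Evaluation of jets of sections at finitely many points. -/
noncomputable def Ev_PK (L : Submodule ℤ V) (T : ℝ) (χ : V → ℂ) {Q : Type} (xq : Q → V) :
    SecM_PK L T χ →ₗ[ℂ] (Q × Idx V → ℂ) where
  toFun f := fun p => Dj p.2 (Tr T (xq p.1) f.1)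
  map_add' := by
    intro f g
    funext p
    have h1 : ((f + g : SecM_PK L T χ) : V → ℂ) = fun z => f.1 z + g.1 z := rfl
    show Dj p.2 (Tr T (xq p.1) ((f + g : SecM_PK L T χ) : V → ℂ)) = _
    rw [h1, Tr_add_PK, Dj_add_PK _ (Tr_differentiable _ _ f.2.1) (Tr_differentiable _ _ g.2.1)]
    rfl
  map_smul' := by
    intro c f
    funext p
    have h1 : ((c • f : SecM_PK L T χ) : V → ℂ) = fun z => c * f.1 z := rfl
    show Dj p.2 (Tr T (xq p.1) ((c • f : SecM_PK L T χ) : V → ℂ)) = _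
    rw [h1, Tr_smul_PK, Dj_smul_PK _ _ (Tr_differentiable _ _ f.2.1)]
    rfl

/-- From jets to `SameJet`. -/
theorem sameJet_PK (hJ : StJet) (T : ℝ) {f g : V → ℂ} (e : V) (hf : Differentiable ℂ f)
    (hg : Differentiable ℂ g) (h : ∀ i : Idx V, Dj i (Tr T e f) = Dj i (Tr T e g)) :
    SameJet 2 f g e := by
  have h1 : ∀ i : Idx V, Dj i (Tr T e (fun z => f z - g z)) = 0 := by
    intro i
    rw [Tr_sub_PK, Dj_sub_PK _ (Tr_differentiable _ _ hf) (Tr_differentiable _ _ hg), h i, sub_self]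
  have h2 := hJ V _ (Tr_differentiable T e (F := fun z => f z - g z) (hf.sub hg)) h1
  have h3 : (fun z => f (z + e) - g (z + e)) =O[𝓝 0] fun z : V => ‖z‖ ^ 3 := by
    have h4 : (fun z : V => Complex.exp (((Real.pi * T : ℝ) : ℂ) * Hm z e +
        ((Real.pi * T / 2 * ‖e‖ ^ 2 : ℝ) : ℂ))) =O[𝓝 0] fun _ : V => (1 : ℝ) := by
      refine ContinuousAt.isBigO ?_
      have h5 : (fun z : V => Hm z e) = fun z => (innerSL ℂ e) z := by
        funext z
        simp [Hm]
      have h6 : Continuous (fun z : V => Hm z e) := by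
        rw [h5]
        exact (innerSL ℂ e).continuous
      exact ((continuous_const.mul h6).add continuous_const).cexp.continuousAt
    have h7 := h4.mul h2
    simp only [one_mul] at h7
    refine h7.congr_left fun z => ?_
    rw [Tr_apply, ← mul_assoc, ← Complex.exp_add]
    have : ((Real.pi * T : ℝ) : ℂ) * Hm z e + ((Real.pi * T / 2 * ‖e‖ ^ 2 : ℝ) : ℂ) +
        (-(((Real.pi * T : ℝ) : ℂ) * Hm z e) - ((Real.pi * T / 2 * ‖e‖ ^ 2 : ℝ) : ℂ)) = 0 := by
      ring
    rw [this, Complex.exp_zero, one_mul]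
  have h8 : Tendsto (fun z : V => z - e) (𝓝 e) (𝓝 0) := by
    have : Continuous (fun z : V => z - e) := continuous_id.sub continuous_const
    simpa using this.tendsto e
  have h9 := h3.comp_tendsto h8
  simp only [Function.comp_def, sub_add_cancel] at h9
  exact h9


/-- Surjectivity of the evaluation of jets. -/
theorem surj_PK (hP : StPois) (hS : StSumm) (L : Submodule ℤ V) [DiscreteTopology L]
    [IsZLattice ℝ L] (a b : ℕ) (ha : 0 < a) (hb : 0 < b) (hI : IntT L 1)
    (hU : Uniq L ((a : ℝ) / b)) (χ : V → ℂ) (hχ : IsSemichar L ((a * b : ℕ) : ℝ) χ)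
    {Q : Type} [Fintype Q] (r : Q → L) (e : Q × L ≃ L)
    (he : ∀ p : Q × L, e p = r p.1 + b • p.2) :
    Function.Surjective (Ev_PK L ((a * b : ℕ) : ℝ) χ fun q : Q => (b : ℂ)⁻¹ • (r q : V)) := by
  classical
  set T : ℝ := ((a * b : ℕ) : ℝ) with hTdef
  set t : ℝ := (a : ℝ) / b with htdef
  set xq : Q → V := fun q : Q => (b : ℂ)⁻¹ • (r q : V) with hxq
  have hbR : (b : ℝ) ≠ 0 := by exact_mod_cast hb.ne'
  have hbC : (b : ℂ) ≠ 0 := by exact_mod_cast hb.ne'
  have hT0 : 0 < T := by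
    rw [hTdef]
    exact_mod_cast Nat.mul_pos ha hb
  have ht0 : 0 < t := by
    rw [htdef]
    positivity
  have hTt : T = (b : ℝ) * b * t := by
    rw [hTdef, htdef]
    push_cast
    field_simp
  have hIT : IntT L T := by
    intro l hl m hm
    obtain ⟨n, hn⟩ := hI l hl m hm
    refine ⟨(a * b : ℕ) * n, ?_⟩
    rw [one_mul] at hn
    rw [hn, hTdef]
    push_cast
    ring
  by_contra hns
  have hlt : LinearMap.range (Ev_PK L T χ xq) < ⊤ :=
    lt_of_le_of_ne le_top fun h => hns (LinearMap.range_eq_top.1 h)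
  obtain ⟨φ, hφ0, hφ⟩ := Submodule.exists_le_ker_of_lt_top _ hlt
  set R : Q × Idx V → ℂ := fun p => φ (fun p' => if p = p' then 1 else 0) with hR
  have hφR : ∀ y : Q × Idx V → ℂ, φ y = ∑ p, y p * R p := by
    intro y
    rw [LinearMap.pi_apply_eq_sum_univ φ y]
    rfl
  have hann : ∀ f : V → ℂ, IsSec L T χ f → ∑ q, ∑ i, R (q, i) * Dj i (Tr T (xq q) f) = 0 := by
    intro f hf
    have h1 : φ (Ev_PK L T χ xq ⟨f, hf⟩) = 0 :=
      LinearMap.mem_ker.1 (hφ ⟨⟨f, hf⟩, rfl⟩)
    rw [hφR, Fintype.sum_prod_type] at h1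
    rw [← h1]
    refine Finset.sum_congr rfl fun q _ => Finset.sum_congr rfl fun i _ => ?_
    rw [mul_comm]
    rfl
  -- the family P
  set P : L → Idx V → ℂ := fun l i => (b : ℂ) ^ dg_PK i * ((starRingEnd ℂ) (χ ((e.symm l).2 : V)) *
    ph_PK T (xq (e.symm l).1) ((e.symm l).2 : V)) * R ((e.symm l).1, i) with hPdef
  have hPe : ∀ (q : Q) (m : L) (i : Idx V), P (e (q, m)) i = (b : ℂ) ^ dg_PK i *
      ((starRingEnd ℂ) (χ (m : V)) * ph_PK T (xq q) (m : V)) * R (q, i) := by
    intro q m i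
    simp only [hPdef, Equiv.symm_apply_apply]
  have hPb : ∃ M : ℝ, ∀ l i, ‖P l i‖ ≤ M := by
    refine ⟨∑ q, ∑ i, (b : ℝ) ^ dg_PK i * ‖R (q, i)‖, fun l i => ?_⟩
    have h1 : ‖P l i‖ = (b : ℝ) ^ dg_PK i * ‖R ((e.symm l).1, i)‖ := by
      simp only [hPdef]
      rw [norm_mul, norm_mul, norm_mul, norm_pow, RCLike.norm_conj, norm_ph_PK,
        hχ.1 _ (e.symm l).2.2, Complex.norm_natCast]
      ring
    rw [h1]
    have h2 : (b : ℝ) ^ dg_PK i * ‖R ((e.symm l).1, i)‖ ≤
        ∑ i, (b : ℝ) ^ dg_PK i * ‖R ((e.symm l).1, i)‖ :=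
      Finset.single_le_sum (f := fun i => (b : ℝ) ^ dg_PK i * ‖R ((e.symm l).1, i)‖)
        (fun i _ => by positivity) (Finset.mem_univ i)
    exact h2.trans (Finset.single_le_sum
      (f := fun q => ∑ i, (b : ℝ) ^ dg_PK i * ‖R (q, i)‖)
      (fun q _ => Finset.sum_nonneg fun i _ => by positivity) (Finset.mem_univ (e.symm l).1))
  have hK : Kills L t P := by
    intro F hF
    -- the scaled function
    have hf : Loc T (fun z => F ((b : ℂ) • z)) := by
      obtain ⟨hFd, C, ε, hε, hC⟩ := hF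
      refine ⟨hFd.comp (differentiable_id.const_smul (b : ℂ)), C, ε * (b * b), by positivity,
        fun z => ?_⟩
      refine (hC _).trans (le_of_eq ?_)
      rw [norm_smul, Complex.norm_natCast, hTt]
      ring_nf
    obtain ⟨S, hSsec, -, hSj⟩ := hP V L T χ _ hT0 hIT hχ hf
    have hterm : ∀ (q : Q) (m : L) (i : Idx V),
        R (q, i) * ((starRingEnd ℂ) (χ m) *
          Dj i (Tr T (xq q) (Tr T (m : V) (fun z => F ((b : ℂ) • z))))) =
        P (e (q, m)) i * Dj i (Tr t ((e (q, m) : L) : V) F) := by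
      intro q m i
      rw [Dj_Tr_Tr_PK T (xq q) m i hf.1, hPe]
      have h1 : Tr T (xq q + m) (fun z => F ((b : ℂ) • z)) =
          fun z => Tr t ((e (q, m) : L) : V) F ((b : ℂ) • z) := by
        funext z
        rw [Tr_scale_PK t T b hTt]
        congr 1
        rw [he, smul_add, hxq, smul_smul, mul_inv_cancel₀ hbC, one_smul, Submodule.coe_add,
          Submodule.coe_smul_of_tower, Nat.cast_smul_eq_nsmul]
      rw [h1, Dj_comp_PK i _ (Tr_differentiable t _ hF.1)]
      ring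
    obtain ⟨G, hG⟩ : ∃ G : L → ℂ, ∀ l, G l = ∑ i, P l i * Dj i (Tr t (l : V) F) :=
      ⟨_, fun _ => rfl⟩
    have hsum : Summable G := by
      have hG' : G = fun l : L => ∑ i, P l i * Dj i (Tr t (l : V) F) := funext hG
      rw [hG']
      refine summable_sum fun i _ => ?_
      obtain ⟨M, hM⟩ := hPb
      refine Summable.of_norm ?_
      refine Summable.of_nonneg_of_le (fun _ => norm_nonneg _) (fun l => ?_)
        ((hS V L t F ht0 hF i).mul_left M)
      rw [norm_mul]
      exact mul_le_mul_of_nonneg_right (hM l i) (norm_nonneg _)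
    have hsum2 : Summable fun p : Q × L => G (e p) := (Equiv.summable_iff e (f := G)).2 hsum
    have h2 : ∀ q, HasSum (fun m : L => G (e (q, m))) (∑ i, R (q, i) * Dj i (Tr T (xq q) S)) := by
      intro q
      have h3 : (fun m : L => G (e (q, m))) = fun m : L => ∑ i, R (q, i) * ((starRingEnd ℂ) (χ m) *
          Dj i (Tr T (xq q) (Tr T (m : V) (fun z => F ((b : ℂ) • z))))) := by
        funext m
        rw [hG]
        exact Finset.sum_congr rfl fun i _ => (hterm q m i).symm
      rw [h3]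
      exact hasSum_sum fun i _ => (hSj (xq q) i).mul_left (R (q, i))
    calc ∑' l : L, ∑ i, P l i * Dj i (Tr t (l : V) F) = ∑' l : L, G l := by
          exact tsum_congr fun l => (hG l).symm
      _ = ∑' p : Q × L, G (e p) := (Equiv.tsum_eq e G).symm
      _ = ∑' q : Q, ∑' m : L, G (e (q, m)) := hsum2.tsum_prod
      _ = ∑ q : Q, ∑' m : L, G (e (q, m)) := tsum_fintype _
      _ = ∑ q : Q, ∑ i, R (q, i) * Dj i (Tr T (xq q) S) :=
          Finset.sum_congr rfl fun q _ => (h2 q).tsum_eq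
      _ = 0 := hann S hSsec
  have hP0 : P = 0 := hU P hPb hK
  apply hφ0
  refine LinearMap.ext fun y => ?_
  rw [hφR, LinearMap.zero_apply]
  refine Finset.sum_eq_zero fun p _ => ?_
  obtain ⟨q, i⟩ := p
  have h3 : P (e (q, 0)) i = 0 := by
    rw [hP0]
    rfl
  rw [hPe] at h3
  have h4 : R (q, i) = 0 := by
    rcases mul_eq_zero.1 h3 with h5 | h5
    · exfalso
      rcases mul_eq_zero.1 h5 with h6 | h6
      · exact pow_ne_zero _ hbC h6
      · rcases mul_eq_zero.1 h6 with h7 | h7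
        · rw [map_eq_zero] at h7
          exact hχ.ne_zero (0 : L).2 h7
        · exact ph_ne_PK _ _ _ h7
    · exact h5
  rw [h4, mul_zero]


theorem quot_PK (L : Submodule ℤ V) [DiscreteTopology L] [IsZLattice ℝ L] (b : ℕ)
    (hb : 0 < b) :
    ∃ (Q : Type) (_ : Fintype Q) (r : Q → L) (e : Q × L ≃ L), ∀ p : Q × L, e p = r p.1 + b • p.2 := by
  classical
  have : FiniteDimensional ℝ V := FiniteDimensional.complexToReal V
  have hfin : Module.Finite ℤ L := ZLattice.module_finite ℝ L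
  set I : Ideal ℤ := Ideal.span {(b : ℤ)} with hI
  have : NeZero (b : ℤ) := ⟨by exact_mod_cast hb.ne'⟩
  have hQ : Finite (L ⧸ I • (⊤ : Submodule ℤ L)) :=
    Submodule.finite_quotient_smul I Module.Finite.fg_top
  have hmem : ∀ x : L, x ∈ I • (⊤ : Submodule ℤ L) ↔ ∃ y : L, x = b • y := by
    intro x
    rw [hI, Submodule.ideal_span_singleton_smul, Submodule.mem_smul_pointwise_iff_exists]
    constructor
    · rintro ⟨y, -, rfl⟩
      exact ⟨y, by simp⟩
    · rintro ⟨y, rfl⟩
      exact ⟨y, trivial, by simp⟩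
  refine ⟨L ⧸ I • (⊤ : Submodule ℤ L), Fintype.ofFinite _, fun q => q.out,
    Equiv.ofBijective (fun p => p.1.out + b • p.2) ⟨?_, ?_⟩, fun p => rfl⟩
  · rintro ⟨q, m⟩ ⟨q', m'⟩ h
    simp only at h
    have hz : ∀ y : L, (Submodule.Quotient.mk (b • y) : L ⧸ I • (⊤ : Submodule ℤ L)) = 0 :=
      fun y => (Submodule.Quotient.mk_eq_zero _).2 ((hmem _).2 ⟨y, rfl⟩)
    have h1 : q = q' := by
      have h2 := congrArg (Submodule.Quotient.mk (p := I • (⊤ : Submodule ℤ L))) h
      rw [Submodule.Quotient.mk_add, Submodule.Quotient.mk_add, hz, hz, add_zero, add_zero,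
        Submodule.Quotient.mk_out, Submodule.Quotient.mk_out] at h2
      exact h2
    subst h1
    have h3 : b • m = b • m' := add_left_cancel h
    have h4 : m = m' := by
      apply Subtype.ext
      have h5 : b • (m : V) = b • (m' : V) := by
        have := congrArg (Subtype.val) h3
        simpa using this
      rw [← Nat.cast_smul_eq_nsmul ℂ, ← Nat.cast_smul_eq_nsmul ℂ] at h5
      exact (smul_right_injective V (show (b : ℂ) ≠ 0 by exact_mod_cast hb.ne')) h5
    rw [h4]
  · intro l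
    have h1 : l - (Submodule.Quotient.mk l : L ⧸ I • (⊤ : Submodule ℤ L)).out ∈
        I • (⊤ : Submodule ℤ L) := by
      rw [← Submodule.Quotient.mk_eq_zero, Submodule.Quotient.mk_sub, Submodule.Quotient.mk_out,
        sub_self]
    obtain ⟨y, hy⟩ := (hmem _).1 h1
    refine ⟨(Submodule.Quotient.mk l, y), ?_⟩
    simp only
    rw [← hy]
    abel

end

/-- From uniqueness to IT(0). -/
theorem hPK (hP : StPois) (hS : StSumm) (hJ : StJet) : StPK := by
  intro V _ _ _ L _ _ a b ha hb hI hU χ hχ e₀ he₀ g hg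
  classical
  have : FiniteDimensional ℝ V := FiniteDimensional.complexToReal V
  obtain ⟨Q, _, r, e, he⟩ := quot_PK L b hb
  have hbC : (b : ℂ) ≠ 0 := by exact_mod_cast hb.ne'
  have hsurj := surj_PK hP hS L a b ha hb hI hU χ hχ r e he
  set T : ℝ := ((a * b : ℕ) : ℝ) with hTdef
  set xq : Q → V := fun q : Q => (b : ℂ)⁻¹ • (r q : V) with hxq
  -- decomposition of torsion points
  have hdec : ∀ x : V, b • x ∈ L → ∃ (q : Q) (m : L), x = xq q + m := by
    intro x hx
    obtain ⟨⟨q, m⟩, hp⟩ := e.surjective ⟨b • x, hx⟩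
    refine ⟨q, m, ?_⟩
    rw [he] at hp
    have h1 := congrArg Subtype.val hp
    simp only [Submodule.coe_add, Submodule.coe_smul_of_tower] at h1
    have h2 : (b : ℂ) • x = (b : ℂ) • (xq q + m) := by
      rw [hxq]
      simp only
      rw [smul_add, smul_smul, mul_inv_cancel₀ hbC, one_smul, Nat.cast_smul_eq_nsmul,
        Nat.cast_smul_eq_nsmul, ← h1]
    exact smul_right_injective V hbC h2
  obtain ⟨q₀, m₀, hq₀⟩ := hdec e₀ he₀
  obtain ⟨f, hf⟩ := hsurj (fun p => if p.1 = q₀ then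
    (χ m₀)⁻¹ * ph_PK T (xq q₀) (m₀ : V) * Dj p.2 (Tr T e₀ g) else 0)
  have hfv : ∀ q i, Dj i (Tr T (xq q) f.1) = if q = q₀ then
      (χ m₀)⁻¹ * ph_PK T (xq q₀) (m₀ : V) * Dj i (Tr T e₀ g) else 0 := by
    intro q i
    exact congrFun hf (q, i)
  refine ⟨f.1, f.2, ?_, ?_⟩
  · refine sameJet_PK hJ T e₀ f.2.1 hg fun i => ?_
    have h1 := Dj_sec_PK f.2 (xq q₀) m₀.2 i
    rw [hfv, if_pos rfl, ← hq₀] at h1
    have h2 : χ (m₀ : V) ≠ 0 := hχ.ne_zero m₀.2
    have h3 : ph_PK T (xq q₀) (m₀ : V) ≠ 0 := ph_ne_PK _ _ _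
    have h4 : ph_PK T (xq q₀) (m₀ : V) * Dj i (Tr T e₀ g) =
        ph_PK T (xq q₀) (m₀ : V) * Dj i (Tr T e₀ f.1) := by
      rw [← h1]
      field_simp
    exact (mul_left_cancel₀ h3 h4).symm
  · intro x hx hne
    obtain ⟨q, m, hq⟩ := hdec x hx
    refine sameJet_PK hJ T x f.2.1 (differentiable_const (0 : ℂ)) fun i => ?_
    have hqq : q ≠ q₀ := by
      rintro rfl
      apply hne
      rw [hq, hq₀, add_sub_add_left_eq_sub]
      exact L.sub_mem m.2 m₀.2
    have h1 := Dj_sec_PK f.2 (xq q) m.2 i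
    rw [hfv, if_neg hqq, mul_zero, ← hq] at h1
    have h2 : Dj i (Tr T x f.1) = 0 := by
      rcases mul_eq_zero.1 h1.symm with h3 | h3
      · exact absurd h3 (ph_ne_PK _ _ _)
      · exact h3
    rw [h2]
    have h4 : Tr T x (0 : V → ℂ) = fun z => (0 : ℂ) * (fun _ : V => (0 : ℂ)) z := by
      funext z
      simp [Tr_apply]
    rw [h4, Dj_smul_PK i _ (differentiable_const (0 : ℂ)), zero_mul]

end Pool.Agent.Helper7.JT
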