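import Pool.Agent.Helper7.JT.Base

namespace Pool.Agent.Helper7.JT

open MeasureTheory Module Filter Topology Asymptotics

section

variable {V : Type} [NormedAddCommGroup V] [InnerProductSpace ℂ V]

theorem hasFDerivAt_Hm (ζ z : V) : HasFDerivAt (fun z : V => Hm z ζ) (innerSL ℂ ζ) z := by
  have : (fun z : V => Hm z ζ) = fun z => (innerSL ℂ ζ) z := by
    funext z
    simp [Hm]
  rw [this]
  exact (innerSL ℂ ζ).hasFDerivAt

theorem hasFDerivAt_expHm (c s : ℂ) (ζ z : V) :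
    HasFDerivAt (fun z : V => c * Complex.exp (s * Hm z ζ))
      (c • (Complex.exp (s * Hm z ζ) • (s • innerSL ℂ ζ))) z :=
  (((hasFDerivAt_Hm ζ z).const_mul s).cexp).const_mul c

theorem fderiv_expHm (c s : ℂ) (ζ z v : V) :
    fderiv ℂ (fun z : V => c * Complex.exp (s * Hm z ζ)) z v =
      (c * (s * Hm v ζ)) * Complex.exp (s * Hm z ζ) := by
  rw [(hasFDerivAt_expHm c s ζ z).fderiv]
  simp [Hm]
  ring

variable [FiniteDimensional ℂ V]

theorem Dj_expHm (t : ℝ) (c : ℂ) (ζ : V) (i : Idx V) :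
    Dj i (fun z : V => c * Complex.exp (((Real.pi * t : ℝ) : ℂ) * Hm z ζ)) *
      ((Real.exp (-(Real.pi * t / 2 * ‖ζ‖ ^ 2)) : ℝ) : ℂ) = c * Gk t ζ i := by
  rcases i with _ | i | p
  · simp [Dj, Gk]
  · simp only [Dj, Gk]
    rw [fderiv_expHm]
    simp only [Hm_zero_left, mul_zero, Complex.exp_zero, mul_one]
    ring
  · simp only [Dj, Gk]
    simp only [fderiv_expHm]
    simp only [Hm_zero_left, mul_zero, Complex.exp_zero, mul_one]
    ring

end

/-- Annihilating families have vanishing transform. -/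
theorem hPhi : StPhi := by
  intro V _ _ _ L t P ht hK w
  set f : V → ℂ := fun z => Complex.exp (-((Real.pi * t / 2 * ‖w‖ ^ 2 : ℝ) : ℂ)) *
    Complex.exp (((Real.pi * t : ℝ) : ℂ) * Hm z w) with hf
  have hloc : Loc t f := by
    refine ⟨fun z => (hasFDerivAt_expHm _ _ w z).differentiableAt, ?_⟩
    refine ⟨Real.exp (Real.pi * t / 2 * ‖w‖ ^ 2), Real.pi * t / 4, by positivity, fun z => ?_⟩
    rw [hf]
    simp only [norm_mul, Complex.norm_exp]
    rw [← Real.exp_add, ← Real.exp_add]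
    apply Real.exp_le_exp.2
    have h1 : (((Real.pi * t : ℝ) : ℂ) * Hm z w).re = Real.pi * t * (Hm z w).re :=
      Complex.re_ofReal_mul _ _
    rw [h1, Complex.neg_re, Complex.ofReal_re]
    have h2 := (abs_le.1 (re_Hm_le z w)).2
    have h3 : (Hm z w).re ≤ ‖z‖ ^ 2 / 4 + ‖w‖ ^ 2 := by
      nlinarith [sq_nonneg (‖z‖ / 2 - ‖w‖)]
    have h4 : 0 < Real.pi * t := by positivity
    nlinarith
  have h := hK f hloc
  rw [Phi, ← h]
  refine tsum_congr fun l => Finset.sum_congr rfl fun i _ => ?_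
  have h1 : Tr t (l : V) f = fun z => (Complex.exp (((Real.pi * t * Ef (l : V) w : ℝ) : ℂ) *
      Complex.I) * ((Real.exp (-(Real.pi * t / 2 * ‖w - l‖ ^ 2)) : ℝ) : ℂ)) *
      Complex.exp (((Real.pi * t : ℝ) : ℂ) * Hm z (w - l)) := by
    funext z
    rw [Tr_apply, hf]
    simp only
    rw [Complex.ofReal_exp, ← Complex.exp_add, ← Complex.exp_add, ← Complex.exp_add,
      ← Complex.exp_add]
    congr 1
    rw [norm_sub_sq', Hm_sub_right, Hm_add_left]
    have h2 : Hm (l : V) w = (((Hm w (l : V)).re : ℝ) : ℂ) +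
        ((Ef (l : V) w : ℝ) : ℂ) * Complex.I := by
      rw [Ef, ← Hm_conj (l : V) w, Complex.conj_re]
      exact (Complex.re_add_im _).symm
    rw [h2]
    push_cast
    ring
  have h2 := Dj_expHm t (Complex.exp (((Real.pi * t * Ef (l : V) w : ℝ) : ℂ) *
      Complex.I) * ((Real.exp (-(Real.pi * t / 2 * ‖w - l‖ ^ 2)) : ℝ) : ℂ)) (w - l) i
  have hne : ((Real.exp (-(Real.pi * t / 2 * ‖w - l‖ ^ 2)) : ℝ) : ℂ) ≠ 0 := by
    exact_mod_cast (Real.exp_pos _).ne'
  have h3 : Dj i (Tr t (l : V) f) = Complex.exp (((Real.pi * t * Ef (l : V) w : ℝ) : ℂ) *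
      Complex.I) * Gk t (w - l) i := by
    rw [h1]
    apply mul_right_cancel₀ hne
    rw [h2]
    ring
  rw [h3]
  ring

end Pool.Agent.Helper7.JT
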