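import Pool.Agent.Helper7.JT.M_Summ

/-!
Poincare series.
-/

namespace Pool.Agent.Helper7.JT

open MeasureTheory Module Filter Topology Asymptotics

section GenP

variable {V : Type} [NormedAddCommGroup V] [InnerProductSpace ℂ V] [FiniteDimensional ℂ V]

theorem Dj_const_mul_Pois {F : V → ℂ} (hF : Differentiable ℂ F) (c : ℂ) (i : Idx V) :
    Dj i (fun z => c * F z) = c * Dj i F := by
  have h1 : ∀ z v : V, fderiv ℂ (fun z => c * F z) z v = c * fderiv ℂ F z v := by
    intro z v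
    rw [fderiv_const_mul (hF z)]
    simp
  rcases i with i | i | p
  · rfl
  · exact h1 0 (ob i)
  · change fderiv ℂ (fun z => fderiv ℂ (fun z => c * F z) z (ob p.1.1)) 0 (ob p.1.2) =
      c * fderiv ℂ (fun z => fderiv ℂ F z (ob p.1.1)) 0 (ob p.1.2)
    have h2 : (fun z => fderiv ℂ (fun z => c * F z) z (ob p.1.1)) =
        fun z => c * fderiv ℂ F z (ob p.1.1) := by
      funext z
      exact h1 z _
    rw [h2, fderiv_const_mul (diff_fderiv_Summ hF _ 0)]
    simp

omit [FiniteDimensional ℂ V] in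
/-- The translate of a dominated family is dominated. -/
theorem Tr_bd_Pois {ι : Type} {F : ι → V → ℂ} (t : ℝ) (x : V)
    (hb : ∀ R : ℝ, ∃ u : ι → ℝ, Summable u ∧ ∀ n, ∀ z ∈ Metric.ball (0 : V) R, ‖F n z‖ ≤ u n)
    (R : ℝ) : ∃ u : ι → ℝ, Summable u ∧ ∀ n, ∀ z ∈ Metric.ball (0 : V) R,
      ‖Tr t x (F n) z‖ ≤ u n := by
  obtain ⟨u, hu, hu'⟩ := hb (R + ‖x‖)
  refine ⟨fun n => Real.exp (|Real.pi * t| * (R * ‖x‖) + |Real.pi * t / 2 * ‖x‖ ^ 2|) * u n,
    hu.mul_left _, fun n z hz => ?_⟩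
  have hzR : ‖z‖ < R := by simpa using hz
  have h1 : ‖z + x‖ < R + ‖x‖ := by
    have := norm_add_le z x
    linarith
  rw [Tr_apply, norm_mul, Complex.norm_exp]
  refine mul_le_mul (Real.exp_le_exp.2 ?_) (hu' n _ (by simpa using h1)) (norm_nonneg _)
    (Real.exp_pos _).le
  rw [Complex.sub_re, Complex.neg_re, Complex.re_ofReal_mul, Complex.ofReal_re]
  have h2 := re_Hm_le z x
  have h3 : ‖z‖ * ‖x‖ ≤ R * ‖x‖ := mul_le_mul_of_nonneg_right hzR.le (norm_nonneg x)
  have h4 : -(Real.pi * t * (Hm z x).re) ≤ |Real.pi * t| * (R * ‖x‖) := by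
    calc -(Real.pi * t * (Hm z x).re) ≤ |Real.pi * t * (Hm z x).re| := neg_le_abs _
      _ = |Real.pi * t| * |(Hm z x).re| := abs_mul _ _
      _ ≤ |Real.pi * t| * (R * ‖x‖) :=
        mul_le_mul_of_nonneg_left (h2.trans h3) (abs_nonneg _)
  have h5 := neg_le_abs (Real.pi * t / 2 * ‖x‖ ^ 2)
  linarith

omit [FiniteDimensional ℂ V] in
theorem Tr_smul_Pois (t : ℝ) (x : V) (c : ℂ) (F : V → ℂ) :
    Tr t x (fun z => c * F z) = fun z => c * Tr t x F z := by
  funext z
  simp only [Tr_apply]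
  ring

end GenP

theorem hPois : StPois := by
  intro V _ _ _ L _ _ t χ f ht hI hχ hf
  set F : L → V → ℂ := fun l z => (starRingEnd ℂ) (χ l) * Tr t (l : V) f z with hF
  have hFd : ∀ l, Differentiable ℂ (F l) := fun l =>
    (Tr_differentiable t (l : V) hf.1).const_mul _
  have hb : ∀ R : ℝ, ∃ u : L → ℝ, Summable u ∧ ∀ l, ∀ z ∈ Metric.ball (0 : V) R,
      ‖F l z‖ ≤ u l := by
    intro R
    obtain ⟨u, hu, hu'⟩ := loc_bd_Summ L ht hf R
    refine ⟨u, hu, fun l z hz => ?_⟩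
    simp only [hF]
    rw [norm_mul, RCLike.norm_conj, hχ.1 l l.2, one_mul]
    exact hu' l z hz
  obtain ⟨h1, h2, -⟩ := tsum_diff_Summ hFd hb
  refine ⟨fun z => ∑' l, F l z, ?_, h2, fun x i => ?_⟩
  · rw [isSec_iff_Tr]
    refine ⟨h1, fun n hn z => ?_⟩
    have h3 : ∀ l : L, Complex.exp (-(((Real.pi * t : ℝ) : ℂ) * Hm z n) -
        ((Real.pi * t / 2 * ‖n‖ ^ 2 : ℝ) : ℂ)) * F l (z + n) =
        χ n * F ((Equiv.addLeft (⟨n, hn⟩ : L)) l) z := by
      intro l
      have h4 : Tr t n (Tr t (l : V) f) z = _ := Tr_Tr t n (l : V) f z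
      have h5 := hχ.2 n hn (l : V) l.2
      have h6 : Complex.exp (((Real.pi * t * Ef n (l : V) : ℝ) : ℂ) * Complex.I) *
          Complex.exp (-((Real.pi * t * Ef n (l : V) : ℝ) : ℂ) * Complex.I) = 1 := by
        rw [← Complex.exp_add, ← Complex.exp_zero]
        congr 1
        ring
      have hnn : χ n * (starRingEnd ℂ) (χ n) = 1 := by
        rw [Complex.mul_conj, Complex.normSq_eq_norm_sq, hχ.1 n hn]
        simp
      have h7 : (starRingEnd ℂ) (χ (n + l)) = (starRingEnd ℂ) (χ n) * (starRingEnd ℂ) (χ l) *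
          Complex.exp (-((Real.pi * t * Ef n (l : V) : ℝ) : ℂ) * Complex.I) := by
        rw [h5, map_mul, map_mul, ← Complex.exp_conj]
        congr 2
        rw [map_mul, Complex.conj_ofReal, Complex.conj_I]
        ring
      have h8 : (((Equiv.addLeft (⟨n, hn⟩ : L)) l : L) : V) = n + l := rfl
      simp only [hF]
      rw [h8, h7]
      rw [Tr_apply] at h4
      calc Complex.exp (-(((Real.pi * t : ℝ) : ℂ) * Hm z n) -
            ((Real.pi * t / 2 * ‖n‖ ^ 2 : ℝ) : ℂ)) *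
            ((starRingEnd ℂ) (χ l) * Tr t (l : V) f (z + n))
          = (starRingEnd ℂ) (χ l) * (Complex.exp (-(((Real.pi * t : ℝ) : ℂ) * Hm z n) -
            ((Real.pi * t / 2 * ‖n‖ ^ 2 : ℝ) : ℂ)) * Tr t (l : V) f (z + n)) := by ring
        _ = (starRingEnd ℂ) (χ l) *
            (Complex.exp (-((Real.pi * t * Ef n (l : V) : ℝ) : ℂ) * Complex.I) *
              Tr t (n + l) f z) := by rw [h4]
        _ = (χ n * (starRingEnd ℂ) (χ n)) * ((starRingEnd ℂ) (χ l) *
            (Complex.exp (-((Real.pi * t * Ef n (l : V) : ℝ) : ℂ) * Complex.I) *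
              Tr t (n + l) f z)) := by rw [hnn, one_mul]
        _ = _ := by ring
    rw [Tr_apply, ← tsum_mul_left]
    simp only [h3]
    rw [tsum_mul_left, Equiv.tsum_eq (Equiv.addLeft (⟨n, hn⟩ : L)) (fun l => F l z)]
  · have h3 := Dj_tsum_Summ (F := fun l : L => Tr t x (F l))
      (fun l => Tr_differentiable t x (hFd l)) (fun R => Tr_bd_Pois t x hb R) i
    have h4 : (fun z => ∑' l : L, Tr t x (F l) z) = Tr t x (fun z => ∑' l, F l z) := by
      funext z
      simp only [Tr_apply]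
      rw [tsum_mul_left]
    rw [h4] at h3
    have h5 : (fun l : L => Dj i (Tr t x (F l))) =
        fun l : L => (starRingEnd ℂ) (χ l) * Dj i (Tr t x (Tr t (l : V) f)) := by
      funext l
      simp only [hF]
      rw [Tr_smul_Pois, Dj_const_mul_Pois
        (Tr_differentiable t x (Tr_differentiable t (l : V) hf.1))]
    rw [h5] at h3
    exact h3

end Pool.Agent.Helper7.JT
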