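import Pool.Agent.Helper7.JT.Base

/-! Project JT (MP_43f214_ag), module Rec: recurrence in the torus. -/

namespace Pool.Agent.Helper7.JT

open MeasureTheory Module Filter Topology Asymptotics

theorem hRec : StRec := by
  intro V _ _ _ L _ _ x ε N hε
  have : FiniteDimensional ℝ V := FiniteDimensional.complexToReal V
  have : ProperSpace V := FiniteDimensional.proper ℂ V
  set b₀ := Module.Free.chooseBasis ℤ L
  set b := b₀.ofZLatticeBasis ℝ L
  have hspan : Submodule.span ℤ (Set.range b) = L := b₀.ofZLatticeBasis_span ℝ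
  have hfl : ∀ z : V, ((ZSpan.floor b z : V)) ∈ L := fun z => hspan.le (ZSpan.floor b z).2
  have hfr : ∀ z : V, ZSpan.fract b z = z - (ZSpan.floor b z : V) := fun z => ZSpan.fract_apply b z
  obtain ⟨a, -, φ, hφ, hlim⟩ := (isCompact_closedBall (0 : V) (∑ i, ‖b i‖)).tendsto_subseq
    (x := fun k : ℕ => ZSpan.fract b ((k * (N + 1)) • x))
    (fun k => mem_closedBall_zero_iff.2 (ZSpan.norm_fract_le b _))
  obtain ⟨k, hk⟩ := Metric.cauchySeq_iff'.1 hlim.cauchySeq ε hε
  have h1 := hk (k + 1) (Nat.le_succ k)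
  have h2 : φ k < φ (k + 1) := hφ (Nat.lt_succ_self k)
  simp only [Function.comp_apply] at h1
  refine ⟨(φ (k + 1) - φ k) * (N + 1), ?_,
    (ZSpan.floor b ((φ (k + 1) * (N + 1)) • x) : V) - (ZSpan.floor b ((φ k * (N + 1)) • x) : V),
    L.sub_mem (hfl _) (hfl _), ?_⟩
  · have : 1 ≤ φ (k + 1) - φ k := by omega
    calc N ≤ 1 * (N + 1) := by omega
      _ ≤ _ := Nat.mul_le_mul_right _ this
  · rw [dist_eq_norm, hfr, hfr] at h1
    have h3 : ((φ (k + 1) - φ k) * (N + 1)) • x =
        (φ (k + 1) * (N + 1)) • x - (φ k * (N + 1)) • x := by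
      rw [Nat.sub_mul, sub_nsmul _ (Nat.mul_le_mul_right _ h2.le), sub_eq_add_neg]
    rw [h3]
    have h4 : ∀ p q r s : V, p - q - (r - s) = p - r - (q - s) := fun p q r s => by abel
    rw [h4]
    exact h1

end Pool.Agent.Helper7.JT
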