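import Pool.Agent.Helper7.JT.Base

/-! Module RepJ: the reproducing formula for the coordinates of the `2`-jet at `0`. -/

namespace Pool.Agent.Helper7.JT

open MeasureTheory Module Filter Topology Asymptotics

section RepJ

variable {V : Type} [NormedAddCommGroup V] [InnerProductSpace ℂ V] [FiniteDimensional ℂ V]
  [MeasurableSpace V] [BorelSpace V]

private theorem gauss_RepJ {c : ℝ} (hc : 0 < c) :
    Integrable (fun w : V => Real.exp (-(c * ‖w‖ ^ 2))) (vol V) := by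
  letI : InnerProductSpace ℝ V := InnerProductSpace.complexToReal
  haveI : FiniteDimensional ℝ V := FiniteDimensional.complexToReal V
  have h := GaussianFourier.integrable_cexp_neg_mul_sq_norm_add (V := V) (b := (c : ℂ))
    (by simpa using hc) 0 0
  have h2 : Integrable (fun w : V => Real.exp (-(c * ‖w‖ ^ 2))) volume := by
    have h3 := h.norm
    refine h3.congr (Filter.Eventually.of_forall fun w => ?_)
    show ‖Complex.exp (-(c : ℂ) * ((‖w‖ : ℝ) : ℂ) ^ 2 + 0 * _)‖ = _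
    rw [zero_mul, add_zero, Complex.norm_exp]
    congr 1
    have : (-(c : ℂ) * ((‖w‖ : ℝ) : ℂ) ^ 2) = ((-(c * ‖w‖ ^ 2) : ℝ) : ℂ) := by
      push_cast
      ring
    rw [this, Complex.ofReal_re]
  exact h2

/-- the integrand -/
private noncomputable def FF (k : ℝ) (f P : V → ℂ) (z w : V) : ℂ :=
  f w * P w * Complex.exp ((k : ℂ) * Hm z w) * ((Real.exp (-(k * ‖w‖ ^ 2)) : ℝ) : ℂ)

private noncomputable def LL (k : ℝ) (w : V) : V →L[ℂ] ℂ := (k : ℂ) • innerSL ℂ w

omit [FiniteDimensional ℂ V] [MeasurableSpace V] [BorelSpace V] in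
private theorem LL_apply (k : ℝ) (w z : V) : LL k w z = (k : ℂ) * Hm z w := by
  simp [LL, Hm]

omit [FiniteDimensional ℂ V] [MeasurableSpace V] [BorelSpace V] in
private theorem LL_norm (k : ℝ) (hk : 0 < k) (w : V) : ‖LL k w‖ ≤ k * ‖w‖ := by
  unfold LL
  rw [norm_smul, innerSL_apply_norm, Complex.norm_real, Real.norm_of_nonneg hk.le]

omit [FiniteDimensional ℂ V] [MeasurableSpace V] [BorelSpace V] in
private theorem contHm (z : V) : Continuous (fun w : V => Hm z w) := by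
  unfold Hm
  fun_prop

omit [FiniteDimensional ℂ V] [MeasurableSpace V] [BorelSpace V] in
private theorem contFF (k : ℝ) (f P : V → ℂ) (hf : Continuous f) (hP : Continuous P) (z : V) :
    Continuous (FF k f P z) := by
  have h := contHm z
  have e : FF k f P z = fun w => f w * P w * Complex.exp ((k : ℂ) * Hm z w) *
      ((Real.exp (-(k * ‖w‖ ^ 2)) : ℝ) : ℂ) := rfl
  rw [e]
  fun_prop

omit [FiniteDimensional ℂ V] [MeasurableSpace V] [BorelSpace V] in
private theorem normFF (k : ℝ) (hk : 0 < k) (f P : V → ℂ) (C A R : ℝ) (hC : 0 ≤ C) (hA : 0 ≤ A)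
    (hf : ∀ z, ‖f z‖ ≤ C * Real.exp (k / 2 * ‖z‖ ^ 2))
    (hP : ∀ z, ‖P z‖ ≤ A * Real.exp ‖z‖) (z w : V) (hz : ‖z‖ ≤ R) :
    ‖FF k f P z w‖ * (1 + k * ‖w‖) ≤
      (C * A * (1 + k)) * Real.exp ((2 + k * R) ^ 2 / k) * Real.exp (-(k / 4 * ‖w‖ ^ 2)) := by
  have h1 : ‖FF k f P z w‖ = ‖f w‖ * ‖P w‖ * Real.exp (k * (Hm z w).re) *
      Real.exp (-(k * ‖w‖ ^ 2)) := by
    unfold FF
    rw [norm_mul, norm_mul, norm_mul, Complex.norm_exp, Complex.re_ofReal_mul, Complex.norm_real,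
      Real.norm_of_nonneg (Real.exp_pos _).le]
  have h2 : k * (Hm z w).re ≤ k * R * ‖w‖ := by
    have h3 := (le_abs_self _).trans (re_Hm_le z w)
    have h4 : ‖z‖ * ‖w‖ ≤ R * ‖w‖ := by gcongr
    calc k * (Hm z w).re ≤ k * (R * ‖w‖) := by
          apply mul_le_mul_of_nonneg_left _ hk.le
          linarith
      _ = _ := by ring
  have h5 : 1 + k * ‖w‖ ≤ (1 + k) * Real.exp ‖w‖ := by
    have h6 := Real.add_one_le_exp ‖w‖
    have h7 := norm_nonneg w
    nlinarith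
  rw [h1]
  calc ‖f w‖ * ‖P w‖ * Real.exp (k * (Hm z w).re) * Real.exp (-(k * ‖w‖ ^ 2)) * (1 + k * ‖w‖)
      ≤ (C * Real.exp (k / 2 * ‖w‖ ^ 2)) * (A * Real.exp ‖w‖) * Real.exp (k * R * ‖w‖) *
        Real.exp (-(k * ‖w‖ ^ 2)) * ((1 + k) * Real.exp ‖w‖) := by
        have h8 := hf w
        have h9 := hP w
        have h10 := Real.exp_le_exp.2 h2
        have h11 : 0 ≤ 1 + k * ‖w‖ := by positivity
        gcongr
    _ = (C * A * (1 + k)) * Real.exp (k / 2 * ‖w‖ ^ 2 + ‖w‖ + k * R * ‖w‖ + (-(k * ‖w‖ ^ 2)) +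
        ‖w‖) := by
        rw [Real.exp_add, Real.exp_add, Real.exp_add, Real.exp_add]
        ring
    _ ≤ (C * A * (1 + k)) * Real.exp ((2 + k * R) ^ 2 / k + (-(k / 4 * ‖w‖ ^ 2))) := by
        apply mul_le_mul_of_nonneg_left _ (by positivity)
        apply Real.exp_le_exp.2
        have h12 : (2 + k * R) ^ 2 / k + k / 4 * ‖w‖ ^ 2 - (2 + k * R) * ‖w‖
            = (2 * (2 + k * R) - k * ‖w‖) ^ 2 / (4 * k) := by
          field_simp
          ring
        have h13 : 0 ≤ (2 * (2 + k * R) - k * ‖w‖) ^ 2 / (4 * k) := by positivity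
        linarith
    _ = _ := by rw [Real.exp_add]; ring

private theorem key_RepJ (k : ℝ) (hk : 0 < k) (f P : V → ℂ) (C A : ℝ) (hC : 0 ≤ C) (hA : 0 ≤ A)
    (hfc : Continuous f) (hPc : Continuous P)
    (hf : ∀ z, ‖f z‖ ≤ C * Real.exp (k / 2 * ‖z‖ ^ 2))
    (hP : ∀ z, ‖P z‖ ≤ A * Real.exp ‖z‖) (z₀ : V) :
    HasFDerivAt (fun z => ∫ w : V, FF k f P z w ∂(vol V))
      (∫ w : V, FF k f P z₀ w • LL k w ∂(vol V)) z₀ ∧
    ∀ b : V, (∫ w : V, FF k f P z₀ w • LL k w ∂(vol V)) b =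
      ∫ w : V, FF k f (fun w => P w * ((k : ℂ) * Hm b w)) z₀ w ∂(vol V) := by
  haveI : ProperSpace V := FiniteDimensional.proper ℂ V
  set R : ℝ := ‖z₀‖ + 1 with hR
  set B : V → ℝ := fun w => (C * A * (1 + k)) * Real.exp ((2 + k * R) ^ 2 / k) *
    Real.exp (-(k / 4 * ‖w‖ ^ 2)) with hB
  have hBint : Integrable B (vol V) := (gauss_RepJ (V := V) (by positivity : 0 < k / 4)).const_mul _
  have hb1 : ∀ z : V, ‖z‖ ≤ R → ∀ w, ‖FF k f P z w‖ ≤ B w := by
    intro z hz w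
    have h := normFF k hk f P C A R hC hA hf hP z w hz
    have h2 : ‖FF k f P z w‖ * 1 ≤ ‖FF k f P z w‖ * (1 + k * ‖w‖) := by
      apply mul_le_mul_of_nonneg_left _ (norm_nonneg _)
      have : 0 ≤ k * ‖w‖ := by positivity
      linarith
    rw [mul_one] at h2
    exact h2.trans h
  have hb2 : ∀ z : V, ‖z‖ ≤ R → ∀ w, ‖FF k f P z w • LL k w‖ ≤ B w := by
    intro z hz w
    have h := normFF k hk f P C A R hC hA hf hP z w hz
    have h2 : ‖FF k f P z w • LL k w‖ ≤ ‖FF k f P z w‖ * (1 + k * ‖w‖) := by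
      rw [norm_smul]
      apply mul_le_mul_of_nonneg_left _ (norm_nonneg _)
      have := LL_norm k hk w
      linarith
    exact h2.trans h
  have hLc : Continuous (fun w : V => LL k w) := by
    unfold LL
    exact (innerSL ℂ (E := V)).continuous.const_smul (k : ℂ)
  have hm1 : ∀ z : V, AEStronglyMeasurable (FF k f P z) (vol V) :=
    fun z => (contFF k f P hfc hPc z).aestronglyMeasurable
  have hm2 : AEStronglyMeasurable (fun w : V => FF k f P z₀ w • LL k w) (vol V) :=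
    ((contFF k f P hfc hPc z₀).smul hLc).aestronglyMeasurable
  have hz0 : ‖z₀‖ ≤ R := by rw [hR]; linarith
  have hi1 : Integrable (FF k f P z₀) (vol V) :=
    hBint.mono' (hm1 z₀) (Filter.Eventually.of_forall (hb1 z₀ hz0))
  have hi2 : Integrable (fun w : V => FF k f P z₀ w • LL k w) (vol V) :=
    hBint.mono' hm2 (Filter.Eventually.of_forall (hb2 z₀ hz0))
  constructor
  · refine hasFDerivAt_integral_of_dominated_of_fderiv_le (F := fun z w => FF k f P z w)
      (F' := fun z w => FF k f P z w • LL k w) (bound := B) (s := Metric.ball z₀ 1)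
      (Metric.ball_mem_nhds _ one_pos) (Filter.Eventually.of_forall hm1) hi1 hm2
      (Filter.Eventually.of_forall fun w z hz => ?_) hBint
      (Filter.Eventually.of_forall fun w z hz => ?_)
    · apply hb2
      rw [hR]
      have h1 : ‖z - z₀‖ < 1 := by rwa [← dist_eq_norm]
      have h2 : ‖z‖ ≤ ‖z₀‖ + ‖z - z₀‖ := by
        calc ‖z‖ = ‖z₀ + (z - z₀)‖ := by congr 1; abel
          _ ≤ _ := norm_add_le _ _
      linarith
    · have h1 : HasFDerivAt (fun z : V => (k : ℂ) * Hm z w) (LL k w) z := by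
        have e : (fun z : V => (k : ℂ) * Hm z w) = fun z => LL k w z := by
          funext z
          rw [LL_apply]
        rw [e]
        exact (LL k w).hasFDerivAt
      have h2 := h1.cexp
      have h3 := (h2.const_mul (f w * P w)).mul_const
        ((Real.exp (-(k * ‖w‖ ^ 2)) : ℝ) : ℂ)
      have e2 : (fun z : V => f w * P w * Complex.exp ((k : ℂ) * Hm z w) *
          ((Real.exp (-(k * ‖w‖ ^ 2)) : ℝ) : ℂ)) = fun z => FF k f P z w := rfl
      rw [e2] at h3
      refine h3.congr_fderiv ?_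
      ext v
      unfold FF
      simp only [ContinuousLinearMap.smul_apply, smul_eq_mul]
      ring
  · intro b
    rw [ContinuousLinearMap.integral_apply hi2]
    apply integral_congr_ae
    refine Filter.Eventually.of_forall fun w => ?_
    show (FF k f P z₀ w • LL k w) b = FF k f (fun w => P w * ((k : ℂ) * Hm b w)) z₀ w
    rw [ContinuousLinearMap.smul_apply, LL_apply, smul_eq_mul]
    unfold FF
    ring

theorem hRepJ (h : StRepro) : StRepJ := by
  intro V _ _ _ _ _ t f ht hfd hC i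
  obtain ⟨C₀, hC₀⟩ := hC
  set k : ℝ := Real.pi * t with hk
  have hk0 : 0 < k := by positivity
  have hC0 : 0 ≤ C₀ := by
    have h1 := (norm_nonneg _).trans (hC₀ 0)
    rw [norm_zero] at h1
    simpa using h1
  have hfc : Continuous f := hfd.continuous
  have hf : ∀ z, ‖f z‖ ≤ C₀ * Real.exp (k / 2 * ‖z‖ ^ 2) := hC₀
  set n : ℕ := finrank ℂ V with hn
  have hrep : ∀ z, f z = (t : ℂ) ^ n * ∫ w : V, FF k f (fun _ => 1) z w ∂(vol V) := by
    intro z
    rw [h V t f ht hfd ⟨C₀, hC₀⟩ z]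
    congr 1
    apply integral_congr_ae
    refine Filter.Eventually.of_forall fun w => ?_
    show f w * Complex.exp (((Real.pi * t : ℝ) : ℂ) * Hm z w) *
        ((Real.exp (-(Real.pi * t * ‖w‖ ^ 2)) : ℝ) : ℂ) = FF k f (fun _ => 1) z w
    unfold FF
    rw [mul_one]
  have hP1 : ∀ z : V, ‖(1 : ℂ)‖ ≤ 1 * Real.exp ‖z‖ := by
    intro z
    rw [norm_one, one_mul]
    exact Real.one_le_exp (norm_nonneg z)
  have hfder : ∀ z b : V, fderiv ℂ f z b = (t : ℂ) ^ n *
      ∫ w : V, FF k f (fun w => 1 * ((k : ℂ) * Hm b w)) z w ∂(vol V) := by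
    intro z b
    obtain ⟨h1, h2⟩ := key_RepJ k hk0 f (fun _ => 1) C₀ 1 hC0 zero_le_one hfc
      continuous_const hf hP1 z
    have h3 := h1.const_mul ((t : ℂ) ^ n)
    have h4 : (fun z => (t : ℂ) ^ n * ∫ w : V, FF k f (fun _ => 1) z w ∂(vol V)) = f := by
      funext z
      exact (hrep z).symm
    rw [h4] at h3
    rw [h3.fderiv, ContinuousLinearMap.smul_apply, h2 b, smul_eq_mul]
  have hfder2 : ∀ b c : V, fderiv ℂ (fun z => fderiv ℂ f z b) 0 c = (t : ℂ) ^ n *
      ∫ w : V, FF k f (fun w => 1 * ((k : ℂ) * Hm b w) * ((k : ℂ) * Hm c w)) 0 w ∂(vol V) := by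
    intro b c
    have hPc : Continuous (fun w : V => 1 * ((k : ℂ) * Hm b w)) := by
      have := contHm b
      fun_prop
    have hPb : ∀ z : V, ‖1 * ((k : ℂ) * Hm b z)‖ ≤ (k * ‖b‖) * Real.exp ‖z‖ := by
      intro z
      rw [one_mul, norm_mul, Complex.norm_real, Real.norm_of_nonneg hk0.le]
      have h1 := norm_Hm_le b z
      have h2 : ‖z‖ ≤ Real.exp ‖z‖ := by
        have := Real.add_one_le_exp ‖z‖
        linarith
      calc k * ‖Hm b z‖ ≤ k * (‖b‖ * ‖z‖) := by gcongr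
        _ ≤ k * (‖b‖ * Real.exp ‖z‖) := by gcongr
        _ = _ := by ring
    obtain ⟨h1, h2⟩ := key_RepJ k hk0 f (fun w => 1 * ((k : ℂ) * Hm b w)) C₀ (k * ‖b‖) hC0
      (by positivity) hfc hPc hf hPb 0
    have h3 := h1.const_mul ((t : ℂ) ^ n)
    have h4 : (fun z => (t : ℂ) ^ n *
        ∫ w : V, FF k f (fun w => 1 * ((k : ℂ) * Hm b w)) z w ∂(vol V))
        = fun z => fderiv ℂ f z b := by
      funext z
      exact (hfder z b).symm
    rw [h4] at h3
    rw [h3.fderiv, ContinuousLinearMap.smul_apply, h2 c, smul_eq_mul]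
  have hexp : ∀ w : V, ((Real.exp (-(k / 2 * ‖w‖ ^ 2)) : ℝ) : ℂ) *
      ((Real.exp (-(k / 2 * ‖w‖ ^ 2)) : ℝ) : ℂ) = ((Real.exp (-(k * ‖w‖ ^ 2)) : ℝ) : ℂ) := by
    intro w
    rw [← Complex.ofReal_mul, ← Real.exp_add]
    congr 2
    ring
  rcases i with i | i | p
  · show f 0 = _
    rw [hrep 0]
    congr 1
    apply integral_congr_ae
    refine Filter.Eventually.of_forall fun w => ?_
    show FF k f (fun _ => 1) 0 w = f w * ((1 : ℂ) * ((Real.exp (-(k / 2 * ‖w‖ ^ 2)) : ℝ) : ℂ)) *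
      ((Real.exp (-(k / 2 * ‖w‖ ^ 2)) : ℝ) : ℂ)
    unfold FF
    rw [← hexp w, Hm_zero_left, mul_zero, Complex.exp_zero]
    ring
  · show fderiv ℂ f 0 (ob i) = _
    rw [hfder 0 (ob i)]
    congr 1
    apply integral_congr_ae
    refine Filter.Eventually.of_forall fun w => ?_
    show FF k f (fun w => 1 * ((k : ℂ) * Hm (ob i) w)) 0 w =
      f w * ((((k : ℝ) : ℂ) * Hm (ob i) w) * ((Real.exp (-(k / 2 * ‖w‖ ^ 2)) : ℝ) : ℂ)) *
      ((Real.exp (-(k / 2 * ‖w‖ ^ 2)) : ℝ) : ℂ)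
    unfold FF
    rw [← hexp w, Hm_zero_left, mul_zero, Complex.exp_zero]
    ring
  · show fderiv ℂ (fun z => fderiv ℂ f z (ob p.1.1)) 0 (ob p.1.2) = _
    rw [hfder2 (ob p.1.1) (ob p.1.2)]
    congr 1
    apply integral_congr_ae
    refine Filter.Eventually.of_forall fun w => ?_
    show FF k f (fun w => 1 * ((k : ℂ) * Hm (ob p.1.1) w) * ((k : ℂ) * Hm (ob p.1.2) w)) 0 w =
      f w * ((((k : ℝ) : ℂ) ^ 2 * Hm (ob p.1.1) w * Hm (ob p.1.2) w) *
        ((Real.exp (-(k / 2 * ‖w‖ ^ 2)) : ℝ) : ℂ)) *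
      ((Real.exp (-(k / 2 * ‖w‖ ^ 2)) : ℝ) : ℂ)
    unfold FF
    rw [← hexp w, Hm_zero_left, mul_zero, Complex.exp_zero]
    ring

end RepJ

end Pool.Agent.Helper7.JT
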