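import Pool.Agent.Helper7.JT.Base

/-!
Project JT, module Repro: the reproducing formula from the Gaussian mean value property.
-/

namespace Pool.Agent.Helper7.JT

open MeasureTheory Module Filter Topology Asymptotics

private theorem vol_invariant_Repro (V : Type) [NormedAddCommGroup V] [InnerProductSpace ℂ V]
    [FiniteDimensional ℂ V] [MeasurableSpace V] [BorelSpace V] :
    (vol V).IsAddLeftInvariant := by
  let _ : InnerProductSpace ℝ V := InnerProductSpace.complexToReal
  let _ : MeasureSpace V := measureSpaceOfInnerProductSpace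
  have h : (vol V) = (volume : Measure V) := rfl
  rw [h]
  infer_instance

/-- The Gaussian mean value property implies the reproducing formula. -/
theorem hRepro (h : StMV) : StRepro := by
  intro V _ _ _ _ _ t f ht hf hC z
  obtain ⟨C, hC⟩ := hC
  have hC0 : 0 ≤ C := by
    by_contra hneg
    push Not at hneg
    have h1 := hC 0
    have h2 : C * Real.exp (Real.pi * t / 2 * ‖(0 : V)‖ ^ 2) < 0 :=
      mul_neg_of_neg_of_pos hneg (Real.exp_pos _)
    have h3 := norm_nonneg (f 0)
    linarith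
  have hpt : 0 < Real.pi * t := by positivity
  set F : V → ℂ := fun u => f (z + u) * Complex.exp (-(((Real.pi * t : ℝ) : ℂ) * Hm u z)) with hF
  have hHd : Differentiable ℂ (fun u : V => Hm u z) := by
    have : (fun u : V => Hm u z) = fun u => (innerSL ℂ z) u := by
      funext u
      simp [Hm]
    rw [this]
    exact (innerSL ℂ z).differentiable
  have hFd : Differentiable ℂ F := by
    refine Differentiable.mul ?_ ?_
    · exact hf.comp (differentiable_id.const_add z)
    · exact ((hHd.const_mul _).neg).cexp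
  have hgrow : ∃ C ε : ℝ, 0 < ε ∧ ∀ u, ‖F u‖ ≤ C * Real.exp ((Real.pi * t - ε) * ‖u‖ ^ 2) := by
    refine ⟨C * Real.exp (9 / 2 * (Real.pi * t) * ‖z‖ ^ 2), Real.pi * t / 4, by positivity,
      fun u => ?_⟩
    rw [hF]
    simp only [norm_mul, Complex.norm_exp]
    have h1 := hC (z + u)
    have h2 : (-(((Real.pi * t : ℝ) : ℂ) * Hm u z)).re ≤ Real.pi * t * (‖u‖ * ‖z‖) := by
      rw [Complex.neg_re, Complex.re_ofReal_mul]
      have h3 := abs_le.1 (re_Hm_le u z)
      nlinarith [h3.1]
    have h4 : ‖z + u‖ ^ 2 ≤ (‖z‖ + ‖u‖) ^ 2 :=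
      pow_le_pow_left₀ (norm_nonneg _) (norm_add_le z u) 2
    calc ‖f (z + u)‖ * Real.exp (-(((Real.pi * t : ℝ) : ℂ) * Hm u z)).re
        ≤ (C * Real.exp (Real.pi * t / 2 * ‖z + u‖ ^ 2)) *
            Real.exp (Real.pi * t * (‖u‖ * ‖z‖)) := by
          apply mul_le_mul h1 (Real.exp_le_exp.2 h2) (Real.exp_pos _).le
          positivity
      _ = C * Real.exp (Real.pi * t / 2 * ‖z + u‖ ^ 2 + Real.pi * t * (‖u‖ * ‖z‖)) := by
          rw [mul_assoc C, ← Real.exp_add]
      _ ≤ C * Real.exp (9 / 2 * (Real.pi * t) * ‖z‖ ^ 2 +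
            (Real.pi * t - Real.pi * t / 4) * ‖u‖ ^ 2) := by
          apply mul_le_mul_of_nonneg_left _ hC0
          apply Real.exp_le_exp.2
          have h5 : ‖z + u‖ ^ 2 / 2 + ‖u‖ * ‖z‖ ≤ 9 / 2 * ‖z‖ ^ 2 + 3 / 4 * ‖u‖ ^ 2 := by
            nlinarith [sq_nonneg (‖u‖ - 4 * ‖z‖)]
          have h6 := mul_le_mul_of_nonneg_left h5 hpt.le
          nlinarith [h6]
      _ = C * Real.exp (9 / 2 * (Real.pi * t) * ‖z‖ ^ 2) *
            Real.exp ((Real.pi * t - Real.pi * t / 4) * ‖u‖ ^ 2) := by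
          rw [mul_assoc C, ← Real.exp_add]
  have hmv := h V t F ht hFd hgrow
  have hF0 : F 0 = f z := by
    rw [hF]
    simp
  rw [hF0] at hmv
  rw [← hmv]
  congr 1
  have := vol_invariant_Repro V
  rw [← integral_add_left_eq_self (μ := vol V) (fun w : V => f w *
    Complex.exp (((Real.pi * t : ℝ) : ℂ) * Hm z w) *
        ((Real.exp (-(Real.pi * t * ‖w‖ ^ 2)) : ℝ) : ℂ)) z]
  congr 1
  funext u
  rw [hF]
  simp only [mul_assoc]
  congr 1
  rw [Complex.ofReal_exp, Complex.ofReal_exp, ← Complex.exp_add, ← Complex.exp_add]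
  congr 1
  have h7 : Hm u z = ((2 * (Hm z u).re : ℝ) : ℂ) - Hm z u := by
    rw [← Hm_conj z u]
    apply Complex.ext
    · simp
      ring
    · simp
  rw [Hm_add_right, Hm_self, norm_add_sq', h7]
  push_cast
  ring

end Pool.Agent.Helper7.JT
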