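import Pool.Agent.Helper7.JT.Base

/-! Project JT (MP_43f214_ag), module Semi: existence of semicharacters. -/

namespace Pool.Agent.Helper7.JT

open MeasureTheory Module Filter Topology Asymptotics

private theorem Ef_sum_zsmul_Semi {V : Type} [NormedAddCommGroup V] [InnerProductSpace ℂ V]
    {ι : Type} [Fintype ι] (c d : ι → ℤ) (v : ι → V) :
    Ef (∑ i, c i • v i) (∑ j, d j • v j) = ∑ i, ∑ j, (c i : ℝ) * (d j : ℝ) * Ef (v i) (v j) := by
  let A (y : V) : V →+ ℝ := AddMonoidHom.mk' (fun x => Ef x y) (fun a b => Ef_add_left a b y)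
  let B (x : V) : V →+ ℝ := AddMonoidHom.mk' (fun y => Ef x y) (fun a b => Ef_add_right x a b)
  have hA : ∀ y, Ef (∑ i, c i • v i) y = ∑ i, (c i : ℝ) * Ef (v i) y := by
    intro y
    have h := map_sum (A y) (fun i => c i • v i) Finset.univ
    refine h.trans (Finset.sum_congr rfl fun i _ => ?_)
    rw [map_zsmul, zsmul_eq_mul]
    rfl
  have hB : ∀ x, Ef x (∑ j, d j • v j) = ∑ j, (d j : ℝ) * Ef x (v j) := by
    intro x
    have h := map_sum (B x) (fun i => d i • v i) Finset.univ
    refine h.trans (Finset.sum_congr rfl fun i _ => ?_)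
    rw [map_zsmul, zsmul_eq_mul]
    rfl
  rw [hA]
  refine Finset.sum_congr rfl fun i _ => ?_
  rw [hB, Finset.mul_sum]
  refine Finset.sum_congr rfl fun j _ => ?_
  ring

private theorem quad_Semi {n : ℕ} (a b : Fin n → ℤ) (e : Fin n → Fin n → ℤ)
    (he : ∀ i j, e j i = -e i j) :
    (∑ i, ∑ j, if i < j then (a i + b i) * (a j + b j) * e i j else 0) =
      (∑ i, ∑ j, if i < j then a i * a j * e i j else 0) +
      (∑ i, ∑ j, if i < j then b i * b j * e i j else 0) +
      (∑ i, ∑ j, a i * b j * e i j) +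
      2 * (∑ i, ∑ j, if i < j then b i * a j * e i j else 0) := by
  have hdiag : ∀ i, e i i = 0 := fun i => by have := he i i; omega
  have h1 : (∑ i, ∑ j, a i * b j * e i j) =
      (∑ i, ∑ j, if i < j then a i * b j * e i j else 0) +
      (∑ i, ∑ j, if j < i then a i * b j * e i j else 0) := by
    rw [← Finset.sum_add_distrib]
    refine Finset.sum_congr rfl fun i _ => ?_
    rw [← Finset.sum_add_distrib]
    refine Finset.sum_congr rfl fun j _ => ?_
    rcases lt_trichotomy i j with h | h | h
    · simp [h, not_lt.2 h.le]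
    · subst h; simp [hdiag]
    · simp [h, not_lt.2 h.le]
  have h2 : (∑ i, ∑ j, if j < i then a i * b j * e i j else 0) =
      -(∑ i, ∑ j, if i < j then b i * a j * e i j else 0) := by
    rw [Finset.sum_comm, ← Finset.sum_neg_distrib]
    refine Finset.sum_congr rfl fun i _ => ?_
    rw [← Finset.sum_neg_distrib]
    refine Finset.sum_congr rfl fun j _ => ?_
    split_ifs with h
    · rw [he i j]; ring
    · simp
  rw [h1, h2]
  simp only [Finset.mul_sum, ← Finset.sum_add_distrib, ← Finset.sum_neg_distrib]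
  refine Finset.sum_congr rfl fun i _ => ?_
  refine Finset.sum_congr rfl fun j _ => ?_
  split_ifs
  · ring
  · simp

theorem hSemi : StSemi := by
  intro V _ _ _ L _ _ t hInt
  classical
  have : FiniteDimensional ℝ V := FiniteDimensional.complexToReal V
  have : ProperSpace V := FiniteDimensional.proper ℂ V
  have : Module.Finite ℤ L := ZLattice.module_finite ℝ L
  have : Module.Free ℤ L := ZLattice.module_free ℝ L
  let b := Module.finBasis ℤ L
  choose e he using fun (i j : Fin (finrank ℤ L)) => hInt (b i : V) (b i).2 (b j : V) (b j).2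
  have hanti : ∀ i j, e j i = -e i j := by
    intro i j
    have h : ((e j i : ℤ) : ℝ) = ((-e i j : ℤ) : ℝ) := by
      push_cast
      rw [← he, ← he, Ef_swap]
      ring
    exact_mod_cast h
  let q : L → ℤ := fun l => ∑ i, ∑ j, if i < j then b.repr l i * b.repr l j * e i j else 0
  have hq : ∀ l m : L, ∃ K : ℤ, (q (l + m) : ℝ) = q l + q m + t * Ef (l : V) m + 2 * K := by
    intro l m
    refine ⟨∑ i, ∑ j, if i < j then b.repr m i * b.repr l j * e i j else 0, ?_⟩
    have h1 : t * Ef (l : V) m = ((∑ i, ∑ j, b.repr l i * b.repr m j * e i j : ℤ) : ℝ) := by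
      have hl : (l : V) = ∑ i, b.repr l i • (b i : V) := by
        conv_lhs => rw [← b.sum_repr l]
        push_cast
        rfl
      have hm : (m : V) = ∑ i, b.repr m i • (b i : V) := by
        conv_lhs => rw [← b.sum_repr m]
        push_cast
        rfl
      rw [hl, hm, Ef_sum_zsmul_Semi, Finset.mul_sum]
      push_cast
      refine Finset.sum_congr rfl fun i _ => ?_
      rw [Finset.mul_sum]
      refine Finset.sum_congr rfl fun j _ => ?_
      rw [← he]
      ring
    rw [h1]
    have h2 := quad_Semi (fun i => b.repr l i) (fun i => b.repr m i) e hanti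
    have h3 : q (l + m) = q l + q m + (∑ i, ∑ j, b.repr l i * b.repr m j * e i j) +
        2 * (∑ i, ∑ j, if i < j then b.repr m i * b.repr l j * e i j else 0) := by
      rw [← h2]
      simp [q]
    rw [h3]
    push_cast
    ring
  refine ⟨fun v => if h : v ∈ L then
    Complex.exp (((Real.pi * q ⟨v, h⟩ : ℝ) : ℂ) * Complex.I) else 1, ?_, ?_⟩
  · intro l hl
    simp only [hl, dif_pos]
    exact Complex.norm_exp_ofReal_mul_I _
  · intro l hl m hm
    have hlm : l + m ∈ L := L.add_mem hl hm
    simp only [hl, hm, hlm, dif_pos]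
    obtain ⟨K, hK⟩ := hq ⟨l, hl⟩ ⟨m, hm⟩
    have h4 : (⟨l + m, hlm⟩ : L) = ⟨l, hl⟩ + ⟨m, hm⟩ := rfl
    rw [h4, hK, ← Complex.exp_add, ← Complex.exp_add, Complex.exp_eq_exp_iff_exists_int]
    refine ⟨K, ?_⟩
    push_cast
    ring

end Pool.Agent.Helper7.JT
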