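import Pool.Agent.Helper88.JT.Prod

/-!
Separation of `2`-jets at weight `3`.
-/

namespace Pool.Agent.Helper7.JT

open MeasureTheory Module Filter Topology Asymptotics

theorem hSep (hE : StExist) (hS : StSemi) (hC : StChar) (hGr : StGrad) (hF : StFlat)
    (hSp : StSplit) : StSep := by
  intro V _ _ _ L _ _ hP hPT χ hχ q hq
  obtain ⟨χ₀, hχ₀⟩ := hS V L 1 hP.1
  obtain ⟨θ, hθ, hθ0⟩ := hE V L 1 χ₀ one_pos hP.1 hχ₀
  have hgrad := hGr V L χ₀ θ hP hχ₀ hθ hθ0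
  have hsemi : ∀ l ∈ L, ∀ m ∈ L, χ (l + m) / χ₀ (l + m) ^ 3 =
      (χ l / χ₀ l ^ 3) * (χ m / χ₀ m ^ 3) := by
    intro l hl m hm
    have e1 := hχ.2 l hl m hm
    have e2 := hχ₀.2 l hl m hm
    have n1 := hχ₀.ne_zero hl
    have n2 := hχ₀.ne_zero hm
    have n3 := Complex.exp_ne_zero (((Real.pi * 1 * Ef l m : ℝ) : ℂ) * Complex.I)
    have e3 : Complex.exp (((Real.pi * 3 * Ef l m : ℝ) : ℂ) * Complex.I) =
        Complex.exp (((Real.pi * 1 * Ef l m : ℝ) : ℂ) * Complex.I) ^ 3 := by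
      rw [← Complex.exp_nat_mul]
      congr 1
      push_cast
      ring
    rw [e1, e2, e3]
    field_simp
  obtain ⟨x, hx⟩ := hC V L (fun l => χ l / χ₀ l ^ 3)
    (fun l hl => by rw [norm_div, norm_pow, hχ.1 l hl, hχ₀.1 l hl]; norm_num) hsemi
  by_contra hcon
  push Not at hcon
  have hsec : ∀ u₁ u₂ u₃, u₁ + u₂ + u₃ = x → IsSec L 3 χ (T3 θ u₁ u₂ u₃) := by
    intro u₁ u₂ u₃ hu
    rw [isSec_iff_Tr]
    refine ⟨T3_differentiable hθ.1 _ _ _, fun l hl z => ?_⟩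
    rw [Tr3_T3 hθ hl, hu, ← hx l hl]
    have n1 := hχ₀.ne_zero hl
    field_simp
  have hpos : ∀ u₁ u₂ u₃ : V, ((Real.exp (-(Real.pi * 1 / 2 * ‖u₁‖ ^ 2)) *
      Real.exp (-(Real.pi * 1 / 2 * ‖u₂‖ ^ 2)) *
        Real.exp (-(Real.pi * 1 / 2 * ‖u₃‖ ^ 2)) : ℝ) : ℂ) ≠ 0 := by
    intro u₁ u₂ u₃
    rw [Complex.ofReal_ne_zero]
    positivity
  have key : ∀ u₁ u₂, θ u₁ = 0 → θ u₂ = 0 →
      Bq q (fderiv ℂ θ u₁) (fderiv ℂ θ u₂) * θ (x - u₁ - u₂) = 0 := by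
    intro u₁ u₂ h₁ h₂
    have h := hcon _ (hsec u₁ u₂ (x - u₁ - u₂) (by abel))
    rw [T3_quad q hθ.1 h₁ h₂] at h
    exact (mul_eq_zero.1 h).resolve_left (hpos _ _ _)
  by_cases hq2 : ∀ p, q (Sum.inr (Sum.inr p)) = 0
  · by_cases hq1 : ∀ i, q (Sum.inr (Sum.inl i)) = 0
    · -- only the constant term
      have hq0 : q (Sum.inl ()) ≠ 0 := by
        intro h0
        apply hq
        funext i
        rcases i with i | i | i
        · exact h0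
        · exact hq1 i
        · exact hq2 i
      obtain ⟨u₁, h₁⟩ := hθ0
      obtain ⟨u₂, h₂⟩ := Pool.Agent.Helper88.JT.exists_mul_ne_zero
        (F := θ) (G := fun z => θ (x - u₁ - z)) hθ.1
        (hθ.1.comp ((differentiable_const _).sub differentiable_id)) ⟨u₁, h₁⟩
        ⟨x - u₁ - u₁, by simpa using h₁⟩
      have h := hcon _ (hsec u₁ u₂ (x - u₁ - u₂) (by abel))
      rw [T3_const q hq2 hq1] at h
      have h3 := (mul_eq_zero.1 h).resolve_left (hpos _ _ _)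
      have h4 := (mul_eq_zero.1 h3).resolve_left hq0
      rw [mul_assoc] at h4
      exact h₂ ((mul_eq_zero.1 h4).resolve_left h₁)
    · push Not at hq1
      obtain ⟨i, hi⟩ := hq1
      obtain ⟨u₁, h₁, h₁'⟩ := hgrad _ (lin_ne_zero hi)
      obtain ⟨z₀, hz₀⟩ := hθ0
      obtain ⟨u₂, h₂⟩ := Pool.Agent.Helper88.JT.exists_mul_ne_zero
        (F := θ) (G := fun z => θ (x - u₁ - z)) hθ.1
        (hθ.1.comp ((differentiable_const _).sub differentiable_id)) ⟨z₀, hz₀⟩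
        ⟨x - u₁ - z₀, by simpa using hz₀⟩
      have h := hcon _ (hsec u₁ u₂ (x - u₁ - u₂) (by abel))
      rw [T3_lin q hq2 hθ.1 h₁] at h
      have h3 := (mul_eq_zero.1 h).resolve_left (hpos _ _ _)
      exact h₂ ((mul_eq_zero.1 h3).resolve_left h₁')
  · push Not at hq2
    obtain ⟨p, hp⟩ := hq2
    have hex : ∃ u₁ u₂, θ u₁ = 0 ∧ θ u₂ = 0 ∧ Bq q (fderiv ℂ θ u₁) (fderiv ℂ θ u₂) ≠ 0 := by
      by_contra hno
      push Not at hno
      refine hp (Bq_zero (G := {k | ∃ u, θ u = 0 ∧ k = fderiv ℂ θ u}) ?_ ?_ p)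
      · intro v hv
        obtain ⟨y, hy, hy'⟩ := hgrad v hv
        exact ⟨_, ⟨y, hy, rfl⟩, hy'⟩
      · rintro _ ⟨u₁, h₁, rfl⟩ _ ⟨u₂, h₂, rfl⟩
        exact hno u₁ u₂ h₁ h₂
    obtain ⟨u₁, u₂, h₁, h₂, hB⟩ := hex
    have hd1 : fderiv ℂ θ u₁ ≠ 0 := by
      intro h0
      rw [h0] at hB
      exact hB (by simp [Bq])
    have hd2 : fderiv ℂ θ u₂ ≠ 0 := by
      intro h0
      rw [h0] at hB
      exact hB (by simp [Bq])
    have hcd : ∀ b, Continuous (fun z => fderiv ℂ θ z b) := fun b =>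
      (Pool.Agent.Helper88.JT.differentiable_fderiv_apply hθ.1 b).continuous
    have hcont : Continuous (fun r : V × V => Bq q (fderiv ℂ θ r.1) (fderiv ℂ θ r.2)) := by
      unfold Bq
      refine continuous_finsetSum _ fun p _ => continuous_const.mul ?_
      exact (((hcd _).comp continuous_fst).mul ((hcd _).comp continuous_snd)).add
        (((hcd _).comp continuous_fst).mul ((hcd _).comp continuous_snd))
    have hev : ∀ᶠ r : V × V in 𝓝 (u₁, u₂), Bq q (fderiv ℂ θ r.1) (fderiv ℂ θ r.2) ≠ 0 :=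
      hcont.continuousAt.eventually_ne hB
    have hflat := hF V θ x u₁ u₂ hθ.1 hθ0 h₁ h₂ hd1 hd2 (hev.mono fun r hr e1 e2 =>
      (mul_eq_zero.1 (key r.1 r.2 e1 e2)).resolve_left hr)
    exact hPT (hSp V L χ₀ θ hP hχ₀ hθ hθ0 (fderiv ℂ θ u₁) u₁ hd1 hflat)

end Pool.Agent.Helper7.JT
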