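import Pool.Agent.Helper7.JT.Base

/-!
A flat hyperplane in the theta divisor splits off an elliptic curve (`StSplit`).
-/

namespace Pool.Agent.Helper7.JT

open MeasureTheory Module Filter Topology Asymptotics

section Split

variable {V : Type} [NormedAddCommGroup V] [InnerProductSpace ℂ V]

/-- The image of `L` under a linear form, as a lattice in `ℂ`. -/
private theorem disc_Split (M : Submodule ℤ ℂ) (r : ℝ) (hr : 0 < r)
    (h : ∀ x ∈ M, x ≠ 0 → r ≤ ‖x‖) : DiscreteTopology M := by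
  refine discreteTopology_iff_isOpen_singleton_zero.mpr ⟨Metric.ball 0 r, Metric.isOpen_ball, ?_⟩
  ext ⟨x, hx⟩
  simp only [Set.mem_preimage, Metric.mem_ball, dist_zero_right, Set.mem_singleton_iff]
  constructor
  · intro h1
    by_contra h2
    have h3 : x ≠ 0 := by
      intro h4
      exact h2 (Subtype.ext h4)
    exact absurd (h x hx h3) (not_le.2 h1)
  · intro h1
    have h2 : x = 0 := congrArg Subtype.val h1
    rw [h2, norm_zero]
    exact hr

private theorem span_Split [FiniteDimensional ℂ V] (L : Submodule ℤ V)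
    (hL : Submodule.span ℝ (L : Set V) = ⊤) (f : V →L[ℂ] ℂ) (hf : f ≠ 0) :
    Submodule.span ℝ ((L.map (f.toLinearMap.restrictScalars ℤ) : Submodule ℤ ℂ) : Set ℂ) = ⊤ := by
  have h1 : ((L.map (f.toLinearMap.restrictScalars ℤ) : Submodule ℤ ℂ) : Set ℂ) =
      (f.toLinearMap.restrictScalars ℝ) '' (L : Set V) := by
    rw [Submodule.map_coe]
    rfl
  rw [h1, ← Submodule.map_span, hL, Submodule.map_top, LinearMap.range_eq_top]
  have h2 : f.toLinearMap ≠ 0 := by
    intro h3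
    apply hf
    ext x
    exact LinearMap.congr_fun h3 x
  exact LinearMap.surjective h2

private theorem area_Split (w₁ w₂ : ℂ) (h : LinearIndependent ℝ ![w₁, w₂]) :
    (w₁ * (starRingEnd ℂ) w₂).im ≠ 0 := by
  intro h0
  rw [LinearIndependent.pair_iff] at h
  have h1 : w₁ * (starRingEnd ℂ) w₂ = (((w₁ * (starRingEnd ℂ) w₂).re : ℝ) : ℂ) := by
    apply Complex.ext
    · simp
    · rw [h0]; simp
  have h2 := h (Complex.normSq w₂) (-(w₁ * (starRingEnd ℂ) w₂).re) ?_
  · have h3 : w₂ = 0 := Complex.normSq_eq_zero.1 h2.1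
    have h4 := h 0 1 (by simp [h3])
    exact one_ne_zero h4.2
  · rw [Complex.real_smul, Complex.real_smul, Complex.ofReal_neg, ← h1, ← Complex.mul_conj]
    ring

/-- Nondegeneracy of `E` on the lattice. -/
private theorem nondeg_Split (L : Submodule ℤ V) (hL : Submodule.span ℝ (L : Set V) = ⊤) (x : V)
    (h : ∀ l ∈ L, Ef l x = 0) : x = 0 := by
  have h1 : ∀ z ∈ Submodule.span ℝ (L : Set V), Ef z x = 0 := by
    intro z hz
    induction hz using Submodule.span_induction with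
    | mem z hz => exact h z hz
    | zero => exact Ef_zero_left x
    | add a b _ _ ha hb => rw [Ef_add_left, ha, hb, add_zero]
    | smul c a _ ha =>
      have : c • a = (c : ℂ) • a := (Complex.coe_smul c a).symm
      rw [this, Ef_smul_left, ha, mul_zero]
  have h2 := h1 (Complex.I • x) (by rw [hL]; trivial)
  rw [Ef, Hm_smul_left, Hm_self] at h2
  have h3 : ‖x‖ ^ 2 = 0 := by
    rw [Complex.I_mul_im, Complex.ofReal_re] at h2
    exact h2
  exact norm_eq_zero.1 (pow_eq_zero_iff (two_ne_zero)|>.1 h3)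

/-- A linear form is a multiple of `Hm · b` with `f b = 1`. -/
private theorem riesz_Split [FiniteDimensional ℂ V] (f : V →L[ℂ] ℂ) (hf : f ≠ 0) :
    ∃ b : V, f b = 1 ∧ b ≠ 0 ∧ ∀ z, Hm z b = ((‖b‖ ^ 2 : ℝ) : ℂ) * f z := by
  have : CompleteSpace V := FiniteDimensional.complete ℂ V
  set v : V := (InnerProductSpace.toDual ℂ V).symm f with hv
  have h1 : ∀ z, Hm z v = f z := fun z => InnerProductSpace.toDual_symm_apply
  have hv0 : v ≠ 0 := by
    intro h0
    apply hf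
    ext z
    rw [← h1 z, h0]
    simp
  have hn : 0 < ‖v‖ := norm_pos_iff.2 hv0
  have h2 : f v = ((‖v‖ ^ 2 : ℝ) : ℂ) := by rw [← h1, Hm_self]
  refine ⟨(((‖v‖ ^ 2)⁻¹ : ℝ) : ℂ) • v, ?_, ?_, ?_⟩
  · rw [map_smul, h2, smul_eq_mul, ← Complex.ofReal_mul, inv_mul_cancel₀ (by positivity)]
    simp
  · rw [Ne, smul_eq_zero, not_or]
    refine ⟨?_, hv0⟩
    rw [Complex.ofReal_eq_zero]
    positivity
  · intro z
    rw [Hm_smul_right, h1, Complex.conj_ofReal]
    congr 2
    rw [norm_smul, Complex.norm_real, Real.norm_of_nonneg (by positivity), mul_pow]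
    field_simp

end Split

theorem hSplit (hD : StDisc) (hJ : StJen) (hG : StGrowth) : StSplit := by
  intro V _ _ _ L _ _ χ θ hP hχ hθ hz f y hf0 hvan
  obtain ⟨r, hr, hr'⟩ := hD V L χ θ hχ hθ hz f y hf0 hvan
  obtain ⟨b, hfb, hb0, hHb⟩ := riesz_Split f hf0
  have hbn : 0 < ‖b‖ := norm_pos_iff.2 hb0
  -- the image lattice
  set M : Submodule ℤ ℂ := L.map (f.toLinearMap.restrictScalars ℤ) with hM
  have hMd : DiscreteTopology M := by
    refine disc_Split M r hr ?_
    rintro x ⟨l, hl, rfl⟩ hx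
    exact hr' l hl hx
  have hMz : IsZLattice ℝ M := ⟨span_Split L IsZLattice.span_top f hf0⟩
  have := ZLattice.module_free ℝ M
  have := ZLattice.module_finite ℝ M
  have hrk : finrank ℤ M = 2 := by
    rw [ZLattice.rank ℝ M, Complex.finrank_real_complex]
  let B : Basis (Fin 2) ℤ M := finBasisOfFinrankEq ℤ M hrk
  obtain ⟨l₁, hl₁, hw₁⟩ : ∃ l ∈ L, f l = (B 0 : ℂ) := (B 0).2
  obtain ⟨l₂, hl₂, hw₂⟩ : ∃ l ∈ L, f l = (B 1 : ℂ) := (B 1).2
  have hlin : LinearIndependent ℝ ![(B 0 : ℂ), (B 1 : ℂ)] := by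
    have h1 := (B.ofZLatticeBasis ℝ M).linearIndependent
    have h2 : (fun i => (B.ofZLatticeBasis ℝ M) i) = ![(B 0 : ℂ), (B 1 : ℂ)] := by
      funext i
      rw [Basis.ofZLatticeBasis_apply]
      fin_cases i <;> rfl
    exact h2 ▸ h1
  have hA := area_Split _ _ hlin
  set w₁ : ℂ := (B 0 : ℂ) with hw₁'
  set w₂ : ℂ := (B 1 : ℂ) with hw₂'
  set A : ℝ := (w₁ * (starRingEnd ℂ) w₂).im with hAdef
  -- the auxiliary function
  have hθv : ∀ w, f w = 0 → ∀ l ∈ L, θ (y + w + l) = 0 := by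
    intro w hw l hl
    rw [hθ.2 l hl, hvan w hw, mul_zero]
  obtain ⟨z₀, hz₀⟩ := hz
  set w : V := z₀ - y - f (z₀ - y) • b with hw
  have hfw : f w = 0 := by
    rw [hw, map_sub, map_smul, hfb, smul_eq_mul, mul_one, sub_self]
  set h : ℂ → ℂ := fun s => θ (y + w + s • b) with hh
  have hhd : Differentiable ℂ h := hθ.1.comp ((differentiable_id.smul_const b).const_add (y + w))
  have hhne : ∃ s, h s ≠ 0 := by
    refine ⟨f (z₀ - y), ?_⟩
    have : y + w + f (z₀ - y) • b = z₀ := by rw [hw]; abel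
    simp only [hh]
    rw [this]
    exact hz₀
  have hhv : ∀ l ∈ L, h (f l) = 0 := by
    intro l hl
    have h1 : y + w + f l • b = y + (w + f l • b - l) + l := by abel
    simp only [hh]
    rw [h1]
    refine hθv _ ?_ l hl
    rw [map_sub, map_add, map_smul, hfb, hfw, smul_eq_mul, mul_one, zero_add, sub_self]
  obtain ⟨C, hC⟩ := hG V L 1 χ θ one_pos hχ hθ
  have hC0 : 0 ≤ C := by
    have h1 := (norm_nonneg _).trans (hC 0)
    by_contra h2
    rw [not_le] at h2
    have h3 := mul_neg_of_neg_of_pos h2 (Real.exp_pos (Real.pi * 1 / 2 * ‖(0 : V)‖ ^ 2))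
    linarith
  have hgrow : ∀ s, ‖h s‖ ≤ (C * Real.exp (Real.pi / 2 * ‖y + w‖ ^ 2)) *
      Real.exp (Real.pi / 2 * ‖b‖ ^ 2 * ‖s‖ ^ 2 + (Real.pi * ‖y + w‖ * ‖b‖) * ‖s‖) := by
    intro s
    refine (hC _).trans ?_
    rw [mul_assoc, ← Real.exp_add]
    refine mul_le_mul_of_nonneg_left (Real.exp_le_exp.2 ?_) hC0
    rw [norm_add_sq', norm_smul]
    have h1 := (le_abs_self _).trans (re_Hm_le (y + w) (s • b))
    rw [norm_smul] at h1
    have h2 := mul_le_mul_of_nonneg_left h1 Real.pi_pos.le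
    nlinarith
  have hAb : 1 ≤ ‖b‖ ^ 2 * |A| := by
    refine hJ w₁ w₂ h _ _ (‖b‖ ^ 2) hA hhd hhne ?_ hgrow
    intro m n
    have h1 : (m : ℂ) * w₁ + n * w₂ = f (m • l₁ + n • l₂) := by
      rw [map_add, map_zsmul, map_zsmul, hw₁, hw₂, zsmul_eq_mul, zsmul_eq_mul]
    rw [h1]
    exact hhv _ (L.add_mem (L.smul_mem m hl₁) (L.smul_mem n hl₂))
  have hA0 : 0 < |A| := abs_pos.2 hA
  set c : ℝ := (A * ‖b‖ ^ 2)⁻¹ with hc
  -- multiplication by `c`
  have hcmul : ∀ m ∈ L, ((c : ℂ) * f m) • b ∈ L := by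
    intro m hm
    let g : L →ₗ[ℤ] M := (f.toLinearMap.restrictScalars ℤ).restrict
      (fun x hx => Submodule.mem_map_of_mem hx)
    let m' : M := g ⟨m, hm⟩
    let φ : L →ₗ[ℤ] ℤ := (B.repr m' 1 • B.coord 0 - B.repr m' 0 • B.coord 1) ∘ₗ g
    have hexp : ∀ x : M, (x : ℂ) = (B.repr x 0 : ℂ) * w₁ + (B.repr x 1 : ℂ) * w₂ := by
      intro x
      have h1 := congrArg Subtype.val (B.sum_repr x)
      rw [Fin.sum_univ_two] at h1
      rw [← h1]
      simp [hw₁', hw₂']
    obtain ⟨n, hn, hn'⟩ := hP.2 φ.toAddMonoidHom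
    have hkey : n = ((c : ℂ) * f m) • b := by
      rw [← sub_eq_zero]
      refine nondeg_Split L IsZLattice.span_top _ ?_
      intro l hl
      have h1 := hn' ⟨l, hl⟩
      rw [one_mul] at h1
      rw [Ef_sub_right, ← h1, sub_eq_zero]
      have h2 : (φ.toAddMonoidHom ⟨l, hl⟩ : ℤ) = B.repr m' 1 * B.repr (g ⟨l, hl⟩) 0 -
          B.repr m' 0 * B.repr (g ⟨l, hl⟩) 1 := by
        simp [φ]
      have h3 : f l = (B.repr (g ⟨l, hl⟩) 0 : ℂ) * w₁ + (B.repr (g ⟨l, hl⟩) 1 : ℂ) * w₂ :=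
        hexp (g ⟨l, hl⟩)
      have h4 : f m = (B.repr m' 0 : ℂ) * w₁ + (B.repr m' 1 : ℂ) * w₂ := hexp m'
      rw [h2, Ef, Hm_smul_right, hHb, h3, h4, hc]
      generalize (B.repr m' 0) = p'
      generalize (B.repr m' 1) = q'
      generalize (B.repr (g ⟨l, hl⟩) 0) = p
      generalize (B.repr (g ⟨l, hl⟩) 1) = q
      have h5 : ((w₁ * (starRingEnd ℂ) w₂).im) = w₁.im * w₂.re - w₁.re * w₂.im := by
        rw [Complex.mul_im, Complex.conj_re, Complex.conj_im]
        ring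
      have hA' : A = w₁.im * w₂.re - w₁.re * w₂.im := hAdef.trans h5
      have hb2 : ‖b‖ ^ 2 ≠ 0 := by positivity
      have h6 : ((starRingEnd ℂ) ((((A * ‖b‖ ^ 2)⁻¹ : ℝ) : ℂ) * ((p' : ℂ) * w₁ + (q' : ℂ) * w₂)) *
          ((((‖b‖ ^ 2 : ℝ)) : ℂ) * ((p : ℂ) * w₁ + (q : ℂ) * w₂))) =
          (((A)⁻¹ : ℝ) : ℂ) * ((starRingEnd ℂ) ((p' : ℂ) * w₁ + (q' : ℂ) * w₂) *
            ((p : ℂ) * w₁ + (q : ℂ) * w₂)) := by
        rw [map_mul, Complex.conj_ofReal]
        have h8 : (A * ‖b‖ ^ 2)⁻¹ * ‖b‖ ^ 2 = A⁻¹ := by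
          rw [mul_inv, mul_assoc, inv_mul_cancel₀ hb2, mul_one]
        rw [← h8, Complex.ofReal_mul]
        ring
      rw [h6, Complex.im_ofReal_mul]
      have h7 : ((starRingEnd ℂ) ((p' : ℂ) * w₁ + (q' : ℂ) * w₂) *
            ((p : ℂ) * w₁ + (q : ℂ) * w₂)).im = ((q' : ℝ) * p - p' * q) * A := by
        rw [hA']
        simp only [map_add, map_mul, Complex.mul_im, Complex.add_im, Complex.add_re,
          Complex.mul_re, Complex.conj_re, Complex.conj_im, map_intCast, Complex.intCast_re,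
          Complex.intCast_im]
        ring
      rw [h7]
      push_cast
      have hA'' : A ≠ 0 := hA
      field_simp
    rw [← hkey]
    exact hn
  have hcpos : 0 < |c| := by
    rw [hc, abs_inv, abs_mul, abs_of_pos (by positivity : (0 : ℝ) < ‖b‖ ^ 2)]
    positivity
  have hc1 : |c| ≤ 1 := by
    rw [hc, abs_inv, abs_mul, abs_of_pos (by positivity : (0 : ℝ) < ‖b‖ ^ 2), mul_comm]
    exact inv_le_one_of_one_le₀ hAb
  have hc2 : 1 ≤ |c| := by
    by_contra hlt
    rw [not_le] at hlt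
    have h1 : ∀ k : ℕ, ∃ l ∈ L, f l = (c : ℂ) ^ k * w₁ := by
      intro k
      induction k with
      | zero => exact ⟨l₁, hl₁, by rw [hw₁]; simp⟩
      | succ k ih =>
        obtain ⟨l, hl, hl'⟩ := ih
        refine ⟨_, hcmul l hl, ?_⟩
        rw [map_smul, hfb, hl', smul_eq_mul, mul_one, pow_succ']
        ring
    have hw0 : w₁ ≠ 0 := by
      intro h0
      apply hA
      rw [hAdef, h0, zero_mul, Complex.zero_im]
    have h2 : Tendsto (fun k : ℕ => |c| ^ k * ‖w₁‖) atTop (𝓝 (0 * ‖w₁‖)) :=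
      (tendsto_pow_atTop_nhds_zero_of_lt_one hcpos.le hlt).mul_const _
    rw [zero_mul] at h2
    obtain ⟨k, hk⟩ := (h2.eventually (gt_mem_nhds hr)).exists
    obtain ⟨l, hl, hl'⟩ := h1 k
    have h3 : f l ≠ 0 := by
      rw [hl']
      refine mul_ne_zero (pow_ne_zero _ ?_) hw0
      exact_mod_cast abs_pos.1 hcpos
    have h4 := hr' l hl h3
    rw [hl', norm_mul, norm_pow, Complex.norm_real, Real.norm_eq_abs] at h4
    exact absurd h4 (not_le.2 hk)
  have hproj : ∀ m ∈ L, f m • b ∈ L := by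
    intro m hm
    have h1 := hcmul m hm
    rcases eq_or_eq_neg_of_abs_eq (le_antisymm hc1 hc2) with h2 | h2
    · rw [h2, Complex.ofReal_one, one_mul] at h1
      exact h1
    · rw [h2, Complex.ofReal_neg, Complex.ofReal_one, neg_one_mul, neg_smul] at h1
      exact (L.neg_mem_iff).1 h1
  have horth : ∀ (s : ℂ) (x : V), f x = 0 → Hm (s • b) x = 0 := by
    intro s x hx
    rw [Hm_smul_left, ← Hm_conj, hHb, hx, mul_zero, map_zero, mul_zero]
  refine ⟨Submodule.span ℂ {b}, LinearMap.ker f.toLinearMap, finrank_span_singleton hb0,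
    ?_, ?_, ?_, ?_, ?_⟩
  · refine IsCompl.of_eq ?_ ?_
    · rw [eq_bot_iff]
      rintro x ⟨hx1, hx2⟩
      obtain ⟨s, rfl⟩ := Submodule.mem_span_singleton.1 hx1
      have h1 : f (s • b) = 0 := hx2
      rw [map_smul, hfb, smul_eq_mul, mul_one] at h1
      rw [h1, zero_smul]
      exact Submodule.zero_mem _
    · rw [eq_top_iff]
      intro x _
      have h1 : x = f x • b + (x - f x • b) := by abel
      rw [h1]
      refine Submodule.add_mem_sup (Submodule.smul_mem _ _ (Submodule.mem_span_singleton_self b)) ?_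
      change f (x - f x • b) = 0
      rw [map_sub, map_smul, hfb, smul_eq_mul, mul_one, sub_self]
  · intro x hx z hz
    obtain ⟨s, rfl⟩ := Submodule.mem_span_singleton.1 hx
    exact horth s z hz
  · intro l hl
    refine ⟨f l • b, hproj l hl, l - f l • b, L.sub_mem hl (hproj l hl),
      Submodule.smul_mem _ _ (Submodule.mem_span_singleton_self b), ?_, by abel⟩
    change f (l - f l • b) = 0
    rw [map_sub, map_smul, hfb, smul_eq_mul, mul_one, sub_self]
  · rintro l ⟨hl, _⟩ m ⟨hm, _⟩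
    exact hP.1 l hl m hm
  · intro φ
    let g : L →ₗ[ℤ] (L ⊓ (Submodule.span ℂ {b}).restrictScalars ℤ : Submodule ℤ V) :=
      LinearMap.codRestrict _ (((LinearMap.toSpanSingleton ℂ V b).restrictScalars ℤ) ∘ₗ
        (f.toLinearMap.restrictScalars ℤ) ∘ₗ L.subtype) (fun l =>
          ⟨hproj l l.2, Submodule.smul_mem _ _ (Submodule.mem_span_singleton_self b)⟩)
    obtain ⟨n, hn, hn'⟩ := hP.2 (φ.comp g.toAddMonoidHom)
    refine ⟨f n • b, ⟨hproj n hn, Submodule.smul_mem _ _ (Submodule.mem_span_singleton_self b)⟩, ?_⟩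
    rintro ⟨l, hl, hlb⟩
    have h1 := hn' ⟨l, hl⟩
    obtain ⟨s, hs⟩ := Submodule.mem_span_singleton.1 hlb
    have h2 : f l • b = l := by
      rw [← hs, map_smul, hfb, smul_eq_mul, mul_one]
    have h3 : (φ.comp g.toAddMonoidHom) ⟨l, hl⟩ = φ ⟨l, hl, hlb⟩ := by
      change φ (g ⟨l, hl⟩) = _
      congr 1
      exact Subtype.ext h2
    rw [h3] at h1
    change ((φ ⟨l, hl, hlb⟩ : ℤ) : ℝ) = 1 * Ef l (f n • b)
    rw [h1]
    congr 1
    change Ef l n = _
    rw [← sub_eq_zero, ← Ef_sub_right, ← h2, Ef, horth]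
    · rfl
    · rw [map_sub, map_smul, hfb, smul_eq_mul, mul_one, sub_self]

end Pool.Agent.Helper7.JT

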