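import Pool.Agent.Helper7.JT.Base

namespace Pool.Agent.Helper7.JT

open MeasureTheory Module Filter Topology Asymptotics
open scoped ENNReal

theorem two_mul_le_Stab (a b : ℝ≥0∞) : 2 * (a * b) ≤ a ^ 2 + b ^ 2 := by
  wlog h : a ≤ b with H
  · have := H b a (le_of_not_ge h)
    rw [mul_comm a b, add_comm (a ^ 2)]
    exact this
  obtain ⟨d, rfl⟩ := exists_add_of_le h
  calc 2 * (a * (a + d)) ≤ 2 * (a * (a + d)) + d ^ 2 := le_self_add
    _ = a ^ 2 + (a + d) ^ 2 := by ring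

theorem add_sq_le_Stab (a b : ℝ≥0∞) : (a + b) ^ 2 ≤ 2 * (a ^ 2 + b ^ 2) := by
  calc (a + b) ^ 2 = a ^ 2 + b ^ 2 + 2 * (a * b) := by ring
    _ ≤ a ^ 2 + b ^ 2 + (a ^ 2 + b ^ 2) := by gcongr; exact two_mul_le_Stab a b
    _ = 2 * (a ^ 2 + b ^ 2) := by ring

/-- Schur test. -/
theorem schur_Stab {G : Type*} [AddCommGroup G] (κ U : G → ℝ≥0∞) :
    ∑' m, (∑' l, κ (m - l) * U l) ^ 2 ≤ (∑' n, κ n) ^ 2 * ∑' l, U l ^ 2 := by
  have h1 : ∀ m, (∑' l, κ (m - l) * U l) ^ 2 ≤ (∑' n, κ n) * ∑' l, κ (m - l) * U l ^ 2 := by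
    intro m
    have hs : ∑' l, κ (m - l) = ∑' n, κ n := (Equiv.subLeft m).tsum_eq κ
    have e1 : (∑' l, κ (m - l) * U l) ^ 2 =
        ∑' l, ∑' k, (κ (m - l) * κ (m - k)) * (U l * U k) := by
      rw [sq, ← ENNReal.tsum_mul_right]
      refine tsum_congr fun l => ?_
      rw [← ENNReal.tsum_mul_left]
      refine tsum_congr fun k => ?_
      ring
    have e2 : (∑' n, κ n) * ∑' l, κ (m - l) * U l ^ 2 =
        ∑' l, ∑' k, (κ (m - l) * κ (m - k)) * U l ^ 2 := by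
      rw [← hs, mul_comm, ← ENNReal.tsum_mul_right]
      refine tsum_congr fun l => ?_
      rw [← ENNReal.tsum_mul_left]
      refine tsum_congr fun k => ?_
      ring
    have e3 : (∑' n, κ n) * ∑' l, κ (m - l) * U l ^ 2 =
        ∑' l, ∑' k, (κ (m - l) * κ (m - k)) * U k ^ 2 := by
      rw [e2, ENNReal.tsum_comm]
      refine tsum_congr fun l => tsum_congr fun k => by ring
    have e4 : 2 * ((∑' n, κ n) * ∑' l, κ (m - l) * U l ^ 2) =
        ∑' l, ∑' k, (κ (m - l) * κ (m - k)) * (U l ^ 2 + U k ^ 2) := by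
      calc 2 * ((∑' n, κ n) * ∑' l, κ (m - l) * U l ^ 2)
          = (∑' n, κ n) * (∑' l, κ (m - l) * U l ^ 2) +
            (∑' n, κ n) * ∑' l, κ (m - l) * U l ^ 2 := two_mul _
        _ = (∑' l, ∑' k, (κ (m - l) * κ (m - k)) * U l ^ 2) +
            ∑' l, ∑' k, (κ (m - l) * κ (m - k)) * U k ^ 2 := congrArg₂ (· + ·) e2 e3
        _ = ∑' l, ∑' k, (κ (m - l) * κ (m - k)) * (U l ^ 2 + U k ^ 2) := by
          rw [← ENNReal.tsum_add]
          refine tsum_congr fun l => ?_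
          rw [← ENNReal.tsum_add]
          refine tsum_congr fun k => ?_
          ring
    have h2 : 2 * (∑' l, κ (m - l) * U l) ^ 2 ≤
        2 * ((∑' n, κ n) * ∑' l, κ (m - l) * U l ^ 2) := by
      rw [e4, e1, ← ENNReal.tsum_mul_left]
      refine ENNReal.tsum_le_tsum fun l => ?_
      rw [← ENNReal.tsum_mul_left]
      refine ENNReal.tsum_le_tsum fun k => ?_
      calc 2 * ((κ (m - l) * κ (m - k)) * (U l * U k))
          = (κ (m - l) * κ (m - k)) * (2 * (U l * U k)) := by ring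
        _ ≤ _ := by gcongr; exact two_mul_le_Stab _ _
    exact (ENNReal.mul_le_mul_iff_right (by norm_num) (by norm_num)).1 h2
  calc ∑' m, (∑' l, κ (m - l) * U l) ^ 2
      ≤ ∑' m, (∑' n, κ n) * ∑' l, κ (m - l) * U l ^ 2 := ENNReal.tsum_le_tsum h1
    _ = (∑' n, κ n) * ∑' l, ∑' m, κ (m - l) * U l ^ 2 := by
        rw [ENNReal.tsum_mul_left, ENNReal.tsum_comm]
    _ = (∑' n, κ n) * ∑' l, (∑' n, κ n) * U l ^ 2 := by
        congr 1
        refine tsum_congr fun l => ?_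
        rw [ENNReal.tsum_mul_right]
        congr 1
        exact (Equiv.subRight l).tsum_eq κ
    _ = _ := by rw [ENNReal.tsum_mul_left]; ring

section real

theorem exp_sub_le_Stab {a b m : ℝ} (ha : m ≤ a) (hb : m ≤ b) :
    |Real.exp (-a) - Real.exp (-b)| ≤ |a - b| * Real.exp (-m) := by
  wlog h : a ≤ b with H
  · have := H hb ha (le_of_not_ge h)
    rw [abs_sub_comm, abs_sub_comm a b]
    exact this
  have h1 : Real.exp (-b) ≤ Real.exp (-a) := Real.exp_le_exp.2 (by linarith)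
  rw [abs_of_nonneg (by linarith), abs_of_nonpos (by linarith)]
  have h2 : Real.exp (-b) = Real.exp (-a) * Real.exp (-(b - a)) := by
    rw [← Real.exp_add]; congr 1; ring
  have h3 := Real.add_one_le_exp (-(b - a))
  have h4 : Real.exp (-a) ≤ Real.exp (-m) := Real.exp_le_exp.2 (by linarith)
  have h5 := Real.exp_pos (-a)
  rw [h2]
  nlinarith [mul_le_mul_of_nonneg_left h4 (sub_nonneg.2 h)]

theorem pow_le_exp_Stab {r : ℝ} (hr : 0 ≤ r) {k : ℕ} (hk : k ≤ 2) : r ^ k ≤ Real.exp (2 * r) := by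
  have h1 := Real.add_one_le_exp r
  have h2 : r ^ k ≤ (r + 1) ^ 2 := by
    calc r ^ k ≤ (r + 1) ^ k := by gcongr; linarith
      _ ≤ (r + 1) ^ 2 := pow_le_pow_right₀ (by linarith) hk
  calc r ^ k ≤ (r + 1) ^ 2 := h2
    _ ≤ (Real.exp r) ^ 2 := by gcongr
    _ = Real.exp (2 * r) := by rw [← Real.exp_nat_mul]; norm_num

theorem gauss_Stab {t r : ℝ} (ht : |t - 3| ≤ 1) :
    Real.exp (-(Real.pi * t / 2 * r ^ 2)) ≤ Real.exp (-(3 * r ^ 2)) := by
  have h1 := abs_le.1 ht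
  have h2 := Real.pi_gt_three
  apply Real.exp_le_exp.2
  have h3 : 3 ≤ Real.pi * t / 2 := by nlinarith
  nlinarith [sq_nonneg r]

theorem real1_Stab {t r : ℝ} (ht : |t - 3| ≤ 1) (hr : 0 ≤ r) {k : ℕ} (hk : k ≤ 2) :
    (Real.pi * t) ^ k * r ^ k * Real.exp (-(Real.pi * t / 2 * r ^ 2)) ≤
      624 * Real.exp 5 * Real.exp (-(3 * r)) := by
  have h1 := abs_le.1 ht
  have h2 := Real.pi_gt_three
  have h3 := Real.pi_le_four
  have h4 : (Real.pi * t) ^ k ≤ 256 := by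
    calc (Real.pi * t) ^ k ≤ (16 : ℝ) ^ k := by
          apply pow_le_pow_left₀ (by nlinarith) (by nlinarith)
      _ ≤ 16 ^ 2 := pow_le_pow_right₀ (by norm_num) hk
      _ = 256 := by norm_num
  have h5 := pow_le_exp_Stab hr hk
  have h6 := gauss_Stab (r := r) ht
  have h7 : 0 ≤ (Real.pi * t) ^ k := by
    apply pow_nonneg; nlinarith
  calc (Real.pi * t) ^ k * r ^ k * Real.exp (-(Real.pi * t / 2 * r ^ 2))
      ≤ 256 * Real.exp (2 * r) * Real.exp (-(3 * r ^ 2)) := by gcongr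
    _ = 256 * Real.exp (2 * r - 3 * r ^ 2) := by
        rw [mul_assoc, ← Real.exp_add]; congr 2
    _ ≤ 624 * Real.exp (5 + -(3 * r)) := by
        apply mul_le_mul (by norm_num) _ (Real.exp_pos _).le (by norm_num)
        apply Real.exp_le_exp.2
        nlinarith [sq_nonneg (r - 1)]
    _ = _ := by rw [Real.exp_add]; ring

theorem real2_Stab {t r : ℝ} (ht : |t - 3| ≤ 1) (hr : 0 ≤ r) {k : ℕ} (hk : k ≤ 2) :
    |(Real.pi * 3) ^ k * Real.exp (-(Real.pi * 3 / 2 * r ^ 2)) -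
      (Real.pi * t) ^ k * Real.exp (-(Real.pi * t / 2 * r ^ 2))| * r ^ k ≤
      624 * Real.exp 5 * |t - 3| * Real.exp (-(3 * r)) := by
  have h1 := abs_le.1 ht
  have h2 := Real.pi_gt_three
  have h3 := Real.pi_le_four
  have h4 : (Real.pi * t) ^ k ≤ 256 := by
    calc (Real.pi * t) ^ k ≤ (16 : ℝ) ^ k := by
          apply pow_le_pow_left₀ (by nlinarith) (by nlinarith)
      _ ≤ 16 ^ 2 := pow_le_pow_right₀ (by norm_num) hk
      _ = 256 := by norm_num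
  have h5 := pow_le_exp_Stab hr hk
  have h6 := gauss_Stab (r := r) ht
  have h6' := gauss_Stab (t := 3) (r := r) (by norm_num)
  have h7 : 0 ≤ (Real.pi * t) ^ k := by
    apply pow_nonneg; nlinarith
  have h8 : |(Real.pi * 3) ^ k - (Real.pi * t) ^ k| ≤ 112 * |t - 3| := by
    interval_cases k
    · simp
    · rw [pow_one, pow_one, ← mul_sub, abs_mul, abs_of_pos Real.pi_pos, abs_sub_comm]
      nlinarith [abs_nonneg (t - 3)]
    · have : (Real.pi * 3) ^ 2 - (Real.pi * t) ^ 2 = -(Real.pi ^ 2 * (3 + t) * (t - 3)) := by ring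
      rw [this, abs_neg, abs_mul, abs_of_nonneg (by nlinarith : 0 ≤ Real.pi ^ 2 * (3 + t))]
      apply mul_le_mul_of_nonneg_right _ (abs_nonneg _)
      nlinarith
  have h9 : |Real.exp (-(Real.pi * 3 / 2 * r ^ 2)) - Real.exp (-(Real.pi * t / 2 * r ^ 2))| ≤
      2 * r ^ 2 * |t - 3| * Real.exp (-(3 * r ^ 2)) := by
    have h10 := exp_sub_le_Stab (a := Real.pi * 3 / 2 * r ^ 2) (b := Real.pi * t / 2 * r ^ 2)
      (m := 3 * r ^ 2) (by nlinarith [sq_nonneg r])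
      (by
        have : 3 ≤ Real.pi * t / 2 := by nlinarith
        nlinarith [sq_nonneg r])
    refine h10.trans ?_
    apply mul_le_mul_of_nonneg_right _ (Real.exp_pos _).le
    have : Real.pi * 3 / 2 * r ^ 2 - Real.pi * t / 2 * r ^ 2 = -(Real.pi / 2 * r ^ 2 * (t - 3)) := by
      ring
    rw [this, abs_neg, abs_mul, abs_of_nonneg (by positivity)]
    apply mul_le_mul_of_nonneg_right _ (abs_nonneg _)
    nlinarith [sq_nonneg r]
  have h10 : |(Real.pi * 3) ^ k * Real.exp (-(Real.pi * 3 / 2 * r ^ 2)) -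
      (Real.pi * t) ^ k * Real.exp (-(Real.pi * t / 2 * r ^ 2))| ≤
      624 * Real.exp (2 * r) * |t - 3| * Real.exp (-(3 * r ^ 2)) := by
    have e1 : (Real.pi * 3) ^ k * Real.exp (-(Real.pi * 3 / 2 * r ^ 2)) -
      (Real.pi * t) ^ k * Real.exp (-(Real.pi * t / 2 * r ^ 2)) =
      ((Real.pi * 3) ^ k - (Real.pi * t) ^ k) * Real.exp (-(Real.pi * 3 / 2 * r ^ 2)) +
      (Real.pi * t) ^ k * (Real.exp (-(Real.pi * 3 / 2 * r ^ 2)) -
        Real.exp (-(Real.pi * t / 2 * r ^ 2))) := by ring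
    rw [e1]
    refine (abs_add_le _ _).trans ?_
    rw [abs_mul, abs_mul, abs_of_pos (Real.exp_pos _), abs_of_nonneg h7]
    have h11 : |(Real.pi * 3) ^ k - (Real.pi * t) ^ k| * Real.exp (-(Real.pi * 3 / 2 * r ^ 2)) ≤
        112 * |t - 3| * Real.exp (-(3 * r ^ 2)) := by gcongr
    have h12 : (Real.pi * t) ^ k * |Real.exp (-(Real.pi * 3 / 2 * r ^ 2)) -
        Real.exp (-(Real.pi * t / 2 * r ^ 2))| ≤
        256 * (2 * r ^ 2 * |t - 3| * Real.exp (-(3 * r ^ 2))) := by gcongr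
    have h13 : 1 ≤ Real.exp (2 * r) := Real.one_le_exp (by linarith)
    have h14 := pow_le_exp_Stab hr (k := 2) le_rfl
    have h15 : 0 ≤ |t - 3| * Real.exp (-(3 * r ^ 2)) := by positivity
    nlinarith [mul_le_mul_of_nonneg_right h13 h15, mul_le_mul_of_nonneg_right h14 h15]
  calc |(Real.pi * 3) ^ k * Real.exp (-(Real.pi * 3 / 2 * r ^ 2)) -
      (Real.pi * t) ^ k * Real.exp (-(Real.pi * t / 2 * r ^ 2))| * r ^ k
      ≤ 624 * Real.exp (2 * r) * |t - 3| * Real.exp (-(3 * r ^ 2)) * Real.exp (2 * r) := by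
        gcongr
    _ = 624 * |t - 3| * Real.exp (4 * r - 3 * r ^ 2) := by
        have : Real.exp (4 * r - 3 * r ^ 2) =
            Real.exp (2 * r) * Real.exp (-(3 * r ^ 2)) * Real.exp (2 * r) := by
          rw [← Real.exp_add, ← Real.exp_add]; congr 1; ring
        rw [this]; ring
    _ ≤ 624 * |t - 3| * Real.exp (5 + -(3 * r)) := by
        apply mul_le_mul_of_nonneg_left _ (by positivity)
        apply Real.exp_le_exp.2
        nlinarith [sq_nonneg (6 * r - 7)]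
    _ = _ := by rw [Real.exp_add]; ring

end real

section gk

variable {V : Type} [NormedAddCommGroup V] [InnerProductSpace ℂ V] [FiniteDimensional ℂ V]

theorem Gk_form_Stab (ζ : V) (i : Idx V) : ∃ (k : ℕ) (h : ℂ), k ≤ 2 ∧ ‖h‖ ≤ ‖ζ‖ ^ k ∧
    ∀ t, Gk t ζ i = ((Real.pi * t : ℝ) : ℂ) ^ k * h *
      ((Real.exp (-(Real.pi * t / 2 * ‖ζ‖ ^ 2)) : ℝ) : ℂ) := by
  have hb : ∀ j, ‖Hm (ob (V := V) j) ζ‖ ≤ ‖ζ‖ := by
    intro j
    have := norm_Hm_le (ob (V := V) j) ζ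
    rwa [(ob (V := V)).norm_eq_one, one_mul] at this
  rcases i with i | i | p
  · exact ⟨0, 1, by norm_num, by simp, fun t => by simp [Gk]⟩
  · exact ⟨1, Hm (ob i) ζ, by norm_num, by simpa using hb i, fun t => by simp [Gk]⟩
  · refine ⟨2, Hm (ob p.1.1) ζ * Hm (ob p.1.2) ζ, le_rfl, ?_, fun t => ?_⟩
    · rw [norm_mul, sq]
      exact mul_le_mul (hb _) (hb _) (norm_nonneg _) (norm_nonneg _)
    · simp only [Gk]
      ring

theorem Gk_bound_Stab {t : ℝ} (ht : |t - 3| ≤ 1) (ζ : V) (i : Idx V) :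
    ‖Gk t ζ i‖ ≤ 624 * Real.exp 5 * Real.exp (-(3 * ‖ζ‖)) := by
  obtain ⟨k, h, hk, hh, hG⟩ := Gk_form_Stab ζ i
  have h1 := abs_le.1 ht
  have h2 := Real.pi_pos
  have h3 : 0 ≤ Real.pi * t := by nlinarith
  rw [hG, norm_mul, norm_mul, norm_pow, Complex.norm_real, Complex.norm_real,
    Real.norm_of_nonneg h3, Real.norm_of_nonneg (Real.exp_pos _).le]
  refine le_trans ?_ (real1_Stab ht (norm_nonneg ζ) hk)
  gcongr

theorem Gk_diff_Stab {t : ℝ} (ht : |t - 3| ≤ 1) (ζ : V) (i : Idx V) :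
    ‖Gk 3 ζ i - Gk t ζ i‖ ≤ 624 * Real.exp 5 * |t - 3| * Real.exp (-(3 * ‖ζ‖)) := by
  obtain ⟨k, h, hk, hh, hG⟩ := Gk_form_Stab ζ i
  have e1 : Gk 3 ζ i - Gk t ζ i =
      (((Real.pi * 3) ^ k * Real.exp (-(Real.pi * 3 / 2 * ‖ζ‖ ^ 2)) -
      (Real.pi * t) ^ k * Real.exp (-(Real.pi * t / 2 * ‖ζ‖ ^ 2)) : ℝ) : ℂ) * h := by
    rw [hG, hG]
    push_cast
    ring
  rw [e1, norm_mul, Complex.norm_real, Real.norm_eq_abs]
  refine le_trans ?_ (real2_Stab ht (norm_nonneg ζ) hk)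
  gcongr

/-- The phase. -/
noncomputable def ph_Stab (t : ℝ) (l w : V) : ℂ :=
  Complex.exp (((Real.pi * t * Ef l w : ℝ) : ℂ) * Complex.I)

omit [FiniteDimensional ℂ V] in
theorem norm_ph_Stab (t : ℝ) (l w : V) : ‖ph_Stab t l w‖ = 1 :=
  Complex.norm_exp_ofReal_mul_I _

omit [FiniteDimensional ℂ V] in
theorem ph_diff_Stab (t : ℝ) (l w : V) :
    ‖ph_Stab 3 l w - ph_Stab t l w‖ ≤ 4 * |t - 3| * (‖w - l‖ * ‖w‖) := by
  have e1 : ph_Stab 3 l w - ph_Stab t l w = ph_Stab t l w *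
      (Complex.exp (Complex.I * ((Real.pi * (3 - t) * Ef l w : ℝ) : ℂ)) - 1) := by
    rw [mul_sub, mul_one, ph_Stab, ph_Stab, ← Complex.exp_add]
    congr 2
    push_cast
    ring
  rw [e1, norm_mul, norm_ph_Stab, one_mul]
  refine Real.norm_exp_I_mul_ofReal_sub_one_le.trans ?_
  rw [Real.norm_eq_abs, abs_mul, abs_mul, abs_of_pos Real.pi_pos, abs_sub_comm 3 t]
  have h1 : |Ef l w| ≤ ‖w - l‖ * ‖w‖ := by
    have : Ef l w = Ef (-(w - l)) w := by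
      rw [neg_sub, Ef_sub_left, Ef_self, sub_zero]
    rw [this]
    refine (abs_Ef_le _ _).trans ?_
    rw [norm_neg]
  have := Real.pi_le_four
  gcongr

theorem term_Stab {t : ℝ} (ht : |t - 3| ≤ 1) {δ ρ : ℝ} (hδ : 0 < δ) (hδ1 : δ ≤ 1)
    {w₀ : V} (hw : ‖w₀‖ ≤ ρ) (l m : V) (r : ℂ) (hr : ‖r‖ ≤ 1) (i : Idx V) :
    ‖ph_Stab 3 l (w₀ + m) * (((Real.exp (-(δ * ‖l‖)) : ℝ) : ℂ) * r) * Gk 3 (w₀ + m - l) i -
      ((Real.exp (-(δ * ‖m‖)) : ℝ) : ℂ) * (ph_Stab t l (w₀ + m) * r * Gk t (w₀ + m - l) i)‖ ≤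
    δ * (624 * Real.exp 5 * Real.exp (3 * ρ) * Real.exp (-‖m - l‖)) *
        ‖((Real.exp (-(δ * ‖l‖)) : ℝ) : ℂ) * r‖ +
      |t - 3| * (4 * (624 * Real.exp 5) * Real.exp ρ * (Real.exp (-(δ * ‖m‖)) * (ρ + ‖m‖ + 1)) *
        Real.exp (-‖m - l‖)) := by
  set C : ℝ := 624 * Real.exp 5 with hC
  have hCpos : 0 < C := by positivity
  set z := w₀ + m - l with hz
  have hzn : ‖m - l‖ - ρ ≤ ‖z‖ := by
    have h1 : m - l = z - w₀ := by rw [hz]; abel
    have h2 := norm_sub_le z w₀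
    rw [← h1] at h2
    linarith
  have hn0 := norm_nonneg (m - l)
  have e1 : ph_Stab 3 l (w₀ + m) * (((Real.exp (-(δ * ‖l‖)) : ℝ) : ℂ) * r) * Gk 3 z i -
      ((Real.exp (-(δ * ‖m‖)) : ℝ) : ℂ) * (ph_Stab t l (w₀ + m) * r * Gk t z i) =
      ((Real.exp (-(δ * ‖l‖)) - Real.exp (-(δ * ‖m‖)) : ℝ) : ℂ) * r *
        (ph_Stab 3 l (w₀ + m) * Gk 3 z i) +
      ((Real.exp (-(δ * ‖m‖)) : ℝ) : ℂ) * r *
        ((ph_Stab 3 l (w₀ + m) - ph_Stab t l (w₀ + m)) * Gk 3 z i +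
          ph_Stab t l (w₀ + m) * (Gk 3 z i - Gk t z i)) := by
    push_cast
    ring
  rw [e1]
  refine (norm_add_le _ _).trans (add_le_add ?_ ?_)
  · rw [norm_mul, norm_mul, norm_mul, norm_mul, norm_ph_Stab, one_mul, Complex.norm_real,
      Complex.norm_real, Real.norm_eq_abs, Real.norm_of_nonneg (Real.exp_pos _).le]
    have h1 : |Real.exp (-(δ * ‖l‖)) - Real.exp (-(δ * ‖m‖))| ≤
        δ * (‖m - l‖ * Real.exp ‖m - l‖) * Real.exp (-(δ * ‖l‖)) := by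
      have h2 := exp_sub_le_Stab (a := δ * ‖l‖) (b := δ * ‖m‖) (m := δ * ‖l‖ - δ * ‖m - l‖)
        (by nlinarith) (by
          have : ‖l‖ ≤ ‖m‖ + ‖m - l‖ := by
            have := norm_sub_norm_le l m
            rw [norm_sub_rev] at this
            linarith
          nlinarith)
      refine h2.trans ?_
      have h3 : |δ * ‖l‖ - δ * ‖m‖| ≤ δ * ‖m - l‖ := by
        rw [← mul_sub, abs_mul, abs_of_pos hδ, norm_sub_rev]
        exact mul_le_mul_of_nonneg_left (abs_norm_sub_norm_le _ _) hδ.le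
      have h4 : Real.exp (-(δ * ‖l‖ - δ * ‖m - l‖)) ≤
          Real.exp ‖m - l‖ * Real.exp (-(δ * ‖l‖)) := by
        rw [← Real.exp_add]
        apply Real.exp_le_exp.2
        nlinarith
      calc |δ * ‖l‖ - δ * ‖m‖| * Real.exp (-(δ * ‖l‖ - δ * ‖m - l‖))
          ≤ (δ * ‖m - l‖) * (Real.exp ‖m - l‖ * Real.exp (-(δ * ‖l‖))) := by gcongr
        _ = _ := by ring
    have h5 : ‖Gk 3 z i‖ ≤ C * (Real.exp (3 * ρ) * Real.exp (-(3 * ‖m - l‖))) := by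
      refine (Gk_bound_Stab (by norm_num) z i).trans ?_
      rw [← hC, ← Real.exp_add]
      apply mul_le_mul_of_nonneg_left _ hCpos.le
      apply Real.exp_le_exp.2
      linarith
    have h6 : ‖m - l‖ * Real.exp ‖m - l‖ * Real.exp (-(3 * ‖m - l‖)) ≤ Real.exp (-‖m - l‖) := by
      have h7 : ‖m - l‖ ≤ Real.exp ‖m - l‖ := by
        have := Real.add_one_le_exp ‖m - l‖
        linarith
      calc ‖m - l‖ * Real.exp ‖m - l‖ * Real.exp (-(3 * ‖m - l‖))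
          ≤ Real.exp ‖m - l‖ * Real.exp ‖m - l‖ * Real.exp (-(3 * ‖m - l‖)) := by gcongr
        _ = Real.exp (-‖m - l‖) := by
          rw [← Real.exp_add, ← Real.exp_add]; congr 1; ring
    calc |Real.exp (-(δ * ‖l‖)) - Real.exp (-(δ * ‖m‖))| * ‖r‖ * ‖Gk 3 z i‖
        ≤ (δ * (‖m - l‖ * Real.exp ‖m - l‖) * Real.exp (-(δ * ‖l‖))) * ‖r‖ *
          (C * (Real.exp (3 * ρ) * Real.exp (-(3 * ‖m - l‖)))) := by gcongr
      _ = δ * (C * Real.exp (3 * ρ) * (‖m - l‖ * Real.exp ‖m - l‖ * Real.exp (-(3 * ‖m - l‖)))) *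
          (Real.exp (-(δ * ‖l‖)) * ‖r‖) := by ring
      _ ≤ δ * (C * Real.exp (3 * ρ) * Real.exp (-‖m - l‖)) *
          (Real.exp (-(δ * ‖l‖)) * ‖r‖) := by gcongr
  · have hρ : 0 ≤ ρ := (norm_nonneg _).trans hw
    have h1 : ‖(ph_Stab 3 l (w₀ + m) - ph_Stab t l (w₀ + m)) * Gk 3 z i +
          ph_Stab t l (w₀ + m) * (Gk 3 z i - Gk t z i)‖ ≤
        |t - 3| * (4 * C * (ρ + ‖m‖ + 1) * Real.exp (-‖z‖)) := by
      have h2 : ‖(ph_Stab 3 l (w₀ + m) - ph_Stab t l (w₀ + m)) * Gk 3 z i‖ ≤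
          4 * |t - 3| * (‖z‖ * (ρ + ‖m‖)) * (C * Real.exp (-(3 * ‖z‖))) := by
        rw [norm_mul]
        have h3 := ph_diff_Stab t l (w₀ + m)
        rw [← hz] at h3
        have h4 : ‖w₀ + m‖ ≤ ρ + ‖m‖ := (norm_add_le _ _).trans (by linarith)
        have h5 := Gk_bound_Stab (t := 3) (by norm_num) z i
        calc _ ≤ (4 * |t - 3| * (‖z‖ * ‖w₀ + m‖)) * (C * Real.exp (-(3 * ‖z‖))) := by gcongr
          _ ≤ _ := by gcongr
      have h3 : ‖ph_Stab t l (w₀ + m) * (Gk 3 z i - Gk t z i)‖ ≤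
          C * |t - 3| * Real.exp (-(3 * ‖z‖)) := by
        rw [norm_mul, norm_ph_Stab, one_mul]
        exact Gk_diff_Stab ht z i
      have h4 : ‖z‖ * Real.exp (-(3 * ‖z‖)) ≤ Real.exp (-‖z‖) := by
        have h7 : ‖z‖ ≤ Real.exp (2 * ‖z‖) := by
          have := Real.add_one_le_exp (2 * ‖z‖)
          linarith [norm_nonneg z]
        calc ‖z‖ * Real.exp (-(3 * ‖z‖)) ≤ Real.exp (2 * ‖z‖) * Real.exp (-(3 * ‖z‖)) := by gcongr
          _ = Real.exp (-‖z‖) := by rw [← Real.exp_add]; congr 1; ring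
      have h5 : Real.exp (-(3 * ‖z‖)) ≤ Real.exp (-‖z‖) := by
        apply Real.exp_le_exp.2
        linarith [norm_nonneg z]
      calc _ ≤ _ := norm_add_le _ _
        _ ≤ 4 * |t - 3| * (‖z‖ * (ρ + ‖m‖)) * (C * Real.exp (-(3 * ‖z‖))) +
            C * |t - 3| * Real.exp (-(3 * ‖z‖)) := add_le_add h2 h3
        _ = |t - 3| * (4 * C * (ρ + ‖m‖) * (‖z‖ * Real.exp (-(3 * ‖z‖))) +
            C * Real.exp (-(3 * ‖z‖))) := by ring
        _ ≤ |t - 3| * (4 * C * (ρ + ‖m‖) * Real.exp (-‖z‖) + 4 * C * Real.exp (-‖z‖)) := by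
            have : C * Real.exp (-(3 * ‖z‖)) ≤ 4 * C * Real.exp (-‖z‖) := by
              have := Real.exp_pos (-‖z‖)
              nlinarith
            gcongr
        _ = _ := by ring
    have h6 : Real.exp (-‖z‖) ≤ Real.exp ρ * Real.exp (-‖m - l‖) := by
      rw [← Real.exp_add]
      apply Real.exp_le_exp.2
      linarith
    rw [norm_mul, norm_mul, Complex.norm_real, Real.norm_of_nonneg (Real.exp_pos _).le]
    calc Real.exp (-(δ * ‖m‖)) * ‖r‖ * _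
        ≤ Real.exp (-(δ * ‖m‖)) * 1 *
          (|t - 3| * (4 * C * (ρ + ‖m‖ + 1) * (Real.exp ρ * Real.exp (-‖m - l‖)))) := by
          gcongr
          refine h1.trans ?_
          gcongr
      _ = _ := by ring

end gk

section sums

variable {V : Type} [NormedAddCommGroup V] [InnerProductSpace ℂ V] [FiniteDimensional ℂ V]
  (L : Submodule ℤ V) [DiscreteTopology L]

/-- One summand of the transform. -/
noncomputable def F_Stab (t : ℝ) (P : L → Idx V → ℂ) (w : V) (l : L) : ℂ :=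
  ∑ i, ph_Stab t (l : V) w * P l i * Gk t (w - l) i

omit [DiscreteTopology L] in
theorem Phi_eq_Stab (t : ℝ) (P : L → Idx V → ℂ) (w : V) :
    Phi L t P w = ∑' l : L, F_Stab L t P w l := rfl

theorem summable_F_Stab {t : ℝ} (ht : |t - 3| ≤ 1) (P : L → Idx V → ℂ) {M : ℝ}
    (hP : ∀ l i, ‖P l i‖ ≤ M) (w : V) : Summable (F_Stab L t P w) := by
  have h1 := (summable_exp_norm_sub L (c := 3) (by norm_num) w).mul_left
    ((Fintype.card (Idx V) : ℝ) * (M * (624 * Real.exp 5)))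
  refine Summable.of_norm_bounded h1 fun l => ?_
  unfold F_Stab
  refine (norm_sum_le _ _).trans ?_
  have h2 : ∀ i ∈ (Finset.univ : Finset (Idx V)), ‖ph_Stab t (l : V) w * P l i * Gk t (w - l) i‖ ≤
      M * (624 * Real.exp 5) * Real.exp (-(3 * ‖(l : V) - w‖)) := by
    intro i _
    rw [norm_mul, norm_mul, norm_ph_Stab, one_mul, mul_assoc]
    have h3 := Gk_bound_Stab ht (w - l) i
    rw [norm_sub_rev] at h3
    have h4 : 0 ≤ M := (norm_nonneg _).trans (hP l i)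
    exact mul_le_mul (hP l i) h3 (norm_nonneg _) h4
  refine (Finset.sum_le_card_nsmul _ _ _ h2).trans ?_
  rw [nsmul_eq_mul, Finset.card_univ]
  apply le_of_eq
  ring

theorem main_Stab {t : ℝ} (ht : |t - 3| ≤ 1) {δ ρ : ℝ} (hδ : 0 < δ) (hδ1 : δ ≤ 1)
    {w₀ : V} (hw : ‖w₀‖ ≤ ρ) (R : L → Idx V → ℂ) (hR : ∀ l i, ‖R l i‖ ≤ 1)
    (h0 : ∀ w, Phi L t R w = 0) (m : L) :
    ‖Phi L 3 (fun l i => ((Real.exp (-(δ * ‖(l : V)‖)) : ℝ) : ℂ) * R l i) (w₀ + m)‖ₑ ≤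
      (∑' l : L, ENNReal.ofReal (δ * (624 * Real.exp 5 * Real.exp (3 * ρ) *
        Real.exp (-‖((m - l : L) : V)‖))) *
          ENNReal.ofReal (∑ i, ‖((Real.exp (-(δ * ‖(l : V)‖)) : ℝ) : ℂ) * R l i‖)) +
      ENNReal.ofReal (|t - 3| * (4 * (624 * Real.exp 5) * Real.exp ρ * (Fintype.card (Idx V)) *
        (∑' n : L, Real.exp (-‖(n : V)‖)) *
          (Real.exp (-(δ * ‖(m : V)‖)) * (ρ + ‖(m : V)‖ + 1)))) := by
  set v : L → Idx V → ℂ := fun l i => ((Real.exp (-(δ * ‖(l : V)‖)) : ℝ) : ℂ) * R l i with hv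
  have hρ : 0 ≤ ρ := (norm_nonneg _).trans hw
  have hvb : ∀ l i, ‖v l i‖ ≤ 1 := by
    intro l i
    rw [hv]
    simp only [norm_mul, Complex.norm_real, Real.norm_of_nonneg (Real.exp_pos _).le]
    have : Real.exp (-(δ * ‖(l : V)‖)) ≤ 1 := by
      apply Real.exp_le_one_iff.2
      have := mul_nonneg hδ.le (norm_nonneg (l : V))
      linarith
    calc _ ≤ 1 * 1 := mul_le_mul this (hR l i) (norm_nonneg _) (by norm_num)
      _ = 1 := by norm_num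
  have s3 := summable_F_Stab L (t := 3) (by norm_num) v hvb (w₀ + m)
  have st := summable_F_Stab L ht R hR (w₀ + m)
  set e : ℂ := ((Real.exp (-(δ * ‖(m : V)‖)) : ℝ) : ℂ) with he
  have e1 : Phi L 3 v (w₀ + m) =
      ∑' l : L, (F_Stab L 3 v (w₀ + m) l - e * F_Stab L t R (w₀ + m) l) := by
    rw [s3.tsum_sub (st.mul_left e), tsum_mul_left, ← Phi_eq_Stab, ← Phi_eq_Stab, h0, mul_zero,
      sub_zero]
  rw [e1]
  refine enorm_tsum_le_tsum_enorm.trans ?_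
  set B : ℝ := 4 * (624 * Real.exp 5) * Real.exp ρ *
    (Real.exp (-(δ * ‖(m : V)‖)) * (ρ + ‖(m : V)‖ + 1)) with hB
  have hB0 : 0 ≤ B := by positivity
  have h1 : ∀ l : L, ‖F_Stab L 3 v (w₀ + m) l - e * F_Stab L t R (w₀ + m) l‖ₑ ≤
      ENNReal.ofReal (δ * (624 * Real.exp 5 * Real.exp (3 * ρ) *
        Real.exp (-‖((m - l : L) : V)‖))) * ENNReal.ofReal (∑ i, ‖v l i‖) +
      ENNReal.ofReal (|t - 3| * (Fintype.card (Idx V)) * B) *
        ENNReal.ofReal (Real.exp (-‖((m - l : L) : V)‖)) := by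
    intro l
    rw [← ENNReal.ofReal_mul (by positivity), ← ENNReal.ofReal_mul (by positivity),
      ← ENNReal.ofReal_add (by positivity) (by positivity), ← ofReal_norm]
    apply ENNReal.ofReal_le_ofReal
    have e2 : F_Stab L 3 v (w₀ + m) l - e * F_Stab L t R (w₀ + m) l =
        ∑ i, (ph_Stab 3 (l : V) (w₀ + m) * v l i * Gk 3 (w₀ + m - l) i -
          e * (ph_Stab t (l : V) (w₀ + m) * R l i * Gk t (w₀ + m - l) i)) := by
      rw [F_Stab, F_Stab, Finset.mul_sum, ← Finset.sum_sub_distrib]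
    rw [e2]
    refine (norm_sum_le _ _).trans ?_
    refine (Finset.sum_le_sum fun i _ =>
      term_Stab ht hδ hδ1 hw (l : V) (m : V) (R l i) (hR l i) i).trans ?_
    rw [Finset.sum_add_distrib, ← Finset.mul_sum, Finset.sum_const, Finset.card_univ,
      nsmul_eq_mul, AddSubgroupClass.coe_sub]
    apply le_of_eq
    rw [hB]
    ring
  refine (ENNReal.tsum_le_tsum h1).trans ?_
  rw [ENNReal.tsum_add]
  gcongr
  rw [ENNReal.tsum_mul_left]
  have h2 : ∑' l : L, ENNReal.ofReal (Real.exp (-‖((m - l : L) : V)‖)) =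
      ENNReal.ofReal (∑' n : L, Real.exp (-‖(n : V)‖)) := by
    have h3 := (Equiv.subLeft m).tsum_eq (fun n : L => ENNReal.ofReal (Real.exp (-‖(n : V)‖)))
    simp only [Equiv.subLeft_apply] at h3
    rw [h3, ENNReal.ofReal_tsum_of_nonneg (fun n => (Real.exp_pos _).le)]
    have := summable_exp_norm L (c := 1) one_pos
    simpa using this
  rw [h2, ← ENNReal.ofReal_mul (by positivity)]
  apply le_of_eq
  congr 1
  rw [hB]
  ring

omit [DiscreteTopology L] in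
theorem shift_Stab (t : ℝ) (P : L → Idx V → ℂ) (h0 : ∀ w, Phi L t P w = 0) (l₀ : L) (s : ℂ)
    (w : V) : Phi L t (fun l i => ph_Stab t (l : V) l₀ * P (l + l₀) i * s) w = 0 := by
  have e1 : Phi L t (fun l i => ph_Stab t (l : V) l₀ * P (l + l₀) i * s) w =
      ∑' l : L, (Complex.exp (-(((Real.pi * t * Ef (l₀ : V) w : ℝ) : ℂ) * Complex.I)) * s) *
        F_Stab L t P (w + l₀) (l + l₀) := by
    rw [Phi_eq_Stab]
    refine tsum_congr fun l => ?_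
    unfold F_Stab
    rw [Finset.mul_sum]
    refine Finset.sum_congr rfl fun i _ => ?_
    have e2 : w + (l₀ : V) - ((l + l₀ : L) : V) = w - l := by
      rw [Submodule.coe_add]; abel
    rw [e2]
    have e3 : ph_Stab t (l : V) w * ph_Stab t (l : V) l₀ =
        Complex.exp (-(((Real.pi * t * Ef (l₀ : V) w : ℝ) : ℂ) * Complex.I)) *
          ph_Stab t ((l + l₀ : L) : V) (w + l₀) := by
      unfold ph_Stab
      rw [← Complex.exp_add, ← Complex.exp_add]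
      congr 1
      rw [Submodule.coe_add, Ef_add_left, Ef_add_right, Ef_add_right, Ef_self]
      push_cast
      ring
    calc ph_Stab t (l : V) w * (ph_Stab t (l : V) l₀ * P (l + l₀) i * s) * Gk t (w - l) i
        = (ph_Stab t (l : V) w * ph_Stab t (l : V) l₀) * (s * P (l + l₀) i * Gk t (w - l) i) := by
          ring
      _ = _ := by rw [e3]; ring
  rw [e1, tsum_mul_left]
  have h2 := (Equiv.addRight l₀).tsum_eq (F_Stab L t P (w + l₀))
  simp only [Equiv.coe_addRight] at h2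
  rw [h2, ← Phi_eq_Stab, h0, mul_zero]

theorem real_Stab {t : ℝ} (ht : |t - 3| ≤ 1) {δ ρ : ℝ} (hδ : 0 < δ) (hδ1 : δ ≤ 1)
    {w₀ : V} (hw : ‖w₀‖ ≤ ρ) (R : L → Idx V → ℂ) (hR : ∀ l i, ‖R l i‖ ≤ 1)
    (h0 : ∀ w, Phi L t R w = 0) (v : L → Idx V → ℂ)
    (hv : v = fun (l : L) i => ((Real.exp (-(δ * ‖(l : V)‖)) : ℝ) : ℂ) * R l i)
    (hs : Summable fun m : L => ‖Phi L 3 v (w₀ + m)‖ ^ 2)
    (hS : Summable fun l : L => ∑ i, ‖v l i‖ ^ 2)
    (hH : Summable fun m : L => (Real.exp (-(δ * ‖(m : V)‖)) * (ρ + ‖(m : V)‖ + 1)) ^ 2) :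
    ∑' m : L, ‖Phi L 3 v (w₀ + m)‖ ^ 2 ≤
      2 * ((δ * (624 * Real.exp 5 * Real.exp (3 * ρ) * ∑' n : L, Real.exp (-‖(n : V)‖))) ^ 2 *
        (Fintype.card (Idx V) * ∑' l : L, ∑ i, ‖v l i‖ ^ 2) +
      (|t - 3| * (4 * (624 * Real.exp 5) * Real.exp ρ * (Fintype.card (Idx V)) *
        (∑' n : L, Real.exp (-‖(n : V)‖)))) ^ 2 *
        ∑' m : L, (Real.exp (-(δ * ‖(m : V)‖)) * (ρ + ‖(m : V)‖ + 1)) ^ 2) := by
  have s0 : Summable (fun n : L => Real.exp (-‖(n : V)‖)) := by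
    have := summable_exp_norm L (c := 1) one_pos
    simpa using this
  set K0 : ℝ := ∑' n : L, Real.exp (-‖(n : V)‖) with hK0
  have hK0n : 0 ≤ K0 := tsum_nonneg fun n => (Real.exp_pos _).le
  have hρ : 0 ≤ ρ := (norm_nonneg _).trans hw
  set D : ℝ := 624 * Real.exp 5 * Real.exp (3 * ρ) with hD
  set A : ℝ := 4 * (624 * Real.exp 5) * Real.exp ρ * (Fintype.card (Idx V)) * K0 with hA
  have hA0 : 0 ≤ A := by positivity
  set hm : L → ℝ := fun m => Real.exp (-(δ * ‖(m : V)‖)) * (ρ + ‖(m : V)‖ + 1) with hhm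
  have hh0 : ∀ m, 0 ≤ hm m := fun m => by rw [hhm]; positivity
  have hS0 : 0 ≤ ∑' l : L, ∑ i, ‖v l i‖ ^ 2 :=
    tsum_nonneg fun l => Finset.sum_nonneg fun i _ => by positivity
  have hH0 : 0 ≤ ∑' m : L, hm m ^ 2 := tsum_nonneg fun m => by positivity
  have key : ENNReal.ofReal (∑' m : L, ‖Phi L 3 v (w₀ + m)‖ ^ 2) ≤
      ENNReal.ofReal (2 * ((δ * (D * K0)) ^ 2 *
        (Fintype.card (Idx V) * ∑' l : L, ∑ i, ‖v l i‖ ^ 2) +
        (|t - 3| * A) ^ 2 * ∑' m : L, hm m ^ 2)) := by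
    rw [ENNReal.ofReal_tsum_of_nonneg (fun m => by positivity) hs]
    set κ : L → ℝ≥0∞ := fun n => ENNReal.ofReal (δ * (D * Real.exp (-‖((n : L) : V)‖))) with hκ
    set U : L → ℝ≥0∞ := fun l => ENNReal.ofReal (∑ i, ‖v l i‖) with hU
    have h1 : ∀ m : L, ENNReal.ofReal (‖Phi L 3 v (w₀ + m)‖ ^ 2) ≤
        2 * ((∑' l : L, κ (m - l) * U l) ^ 2 + ENNReal.ofReal ((|t - 3| * A) ^ 2) *
          ENNReal.ofReal (hm m ^ 2)) := by
      intro m
      have h2 := main_Stab L ht hδ hδ1 hw R hR h0 m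
      rw [← hv] at h2
      rw [ENNReal.ofReal_pow (norm_nonneg _), ofReal_norm]
      refine (pow_le_pow_left' h2 2).trans ((add_sq_le_Stab _ _).trans ?_)
      apply le_of_eq
      congr 2
      · simp only [hκ, hU, hv, hD]
      · rw [← ENNReal.ofReal_mul (by positivity), ← ENNReal.ofReal_pow (by positivity)]
        congr 1
        rw [hA, hhm]
        ring
    refine (ENNReal.tsum_le_tsum h1).trans ?_
    rw [ENNReal.tsum_mul_left, ENNReal.tsum_add, ENNReal.tsum_mul_left]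
    rw [ENNReal.ofReal_mul (by norm_num), ENNReal.ofReal_ofNat]
    gcongr
    rw [ENNReal.ofReal_add (by positivity) (by positivity)]
    gcongr
    · refine (schur_Stab κ U).trans ?_
      have h3 : ∑' n, κ n = ENNReal.ofReal (δ * (D * K0)) := by
        rw [hκ, ← ENNReal.ofReal_tsum_of_nonneg (fun n => by positivity)
          ((s0.mul_left D).mul_left δ), tsum_mul_left, tsum_mul_left]
      have h4 : ∑' l, U l ^ 2 ≤ ENNReal.ofReal (Fintype.card (Idx V) * ∑' l : L, ∑ i, ‖v l i‖ ^ 2) := by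
        rw [← tsum_mul_left, ENNReal.ofReal_tsum_of_nonneg (fun l => by positivity)
          (hS.mul_left _)]
        refine ENNReal.tsum_le_tsum fun l => ?_
        rw [hU]
        simp only
        rw [← ENNReal.ofReal_pow (Finset.sum_nonneg fun i _ => norm_nonneg _)]
        apply ENNReal.ofReal_le_ofReal
        have := sq_sum_le_card_mul_sum_sq (s := (Finset.univ : Finset (Idx V)))
          (f := fun i => ‖v l i‖)
        rwa [Finset.card_univ] at this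
      rw [h3, ENNReal.ofReal_mul (p := (δ * (D * K0)) ^ 2) (by positivity),
        ENNReal.ofReal_pow (by positivity)]
      gcongr
    · rw [ENNReal.ofReal_mul (by positivity)]
      gcongr
      rw [ENNReal.ofReal_tsum_of_nonneg (fun m => by positivity) hH]
  exact (ENNReal.ofReal_le_ofReal_iff (by positivity)).1 key

end sums

theorem summable_wt_Stab {V : Type} [NormedAddCommGroup V] [InnerProductSpace ℂ V]
    [FiniteDimensional ℂ V] (L : Submodule ℤ V) [DiscreteTopology L] {δ ρ : ℝ} (hδ : 0 < δ)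
    (hρ0 : 0 ≤ ρ) :
    Summable fun m : L => (Real.exp (-(δ * ‖(m : V)‖)) * (ρ + ‖(m : V)‖ + 1)) ^ 2 := by
  have h1 := (summable_exp_norm L (c := δ) hδ).mul_left ((ρ + 1 + 2 / δ) ^ 2)
  refine Summable.of_nonneg_of_le (fun m => by positivity) (fun m => ?_) h1
  have h2 : ρ + ‖(m : V)‖ + 1 ≤ (ρ + 1 + 2 / δ) * Real.exp (δ / 2 * ‖(m : V)‖) := by
    have h3 := Real.add_one_le_exp (δ / 2 * ‖(m : V)‖)
    have h4 : 1 ≤ Real.exp (δ / 2 * ‖(m : V)‖) := Real.one_le_exp (by positivity)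
    have h5 : ‖(m : V)‖ = 2 / δ * (δ / 2 * ‖(m : V)‖) := by
      field_simp
    have h6 : 0 < 2 / δ := by positivity
    have h7 : 2 / δ * (δ / 2 * ‖(m : V)‖) ≤ 2 / δ * Real.exp (δ / 2 * ‖(m : V)‖) :=
      mul_le_mul_of_nonneg_left (by linarith) h6.le
    rw [← h5] at h7
    nlinarith
  calc (Real.exp (-(δ * ‖(m : V)‖)) * (ρ + ‖(m : V)‖ + 1)) ^ 2
      ≤ (Real.exp (-(δ * ‖(m : V)‖)) *
        ((ρ + 1 + 2 / δ) * Real.exp (δ / 2 * ‖(m : V)‖))) ^ 2 := by gcongr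
    _ = (ρ + 1 + 2 / δ) ^ 2 * Real.exp (-(δ * ‖(m : V)‖)) := by
      have : Real.exp (-(δ * ‖(m : V)‖)) =
          (Real.exp (-(δ * ‖(m : V)‖)) * Real.exp (δ / 2 * ‖(m : V)‖)) ^ 2 := by
        rw [← Real.exp_add, ← Real.exp_nat_mul]
        congr 1
        push_cast
        ring
      conv_rhs => rw [this]
      ring

theorem num_Stab {c S w D K0 N A Hs δ x : ℝ} (hc : 0 < c) (hw0 : 0 ≤ w) (hN0 : 0 ≤ N)
    (hHs0 : 0 ≤ Hs) (hδ : 0 < δ) (hδ1 : δ ≤ 1) (hx : 0 ≤ x) (hx1 : x ≤ 1) (hS4 : 1 / 4 ≤ S)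
    (hδ2 : δ * (4 * (w * ((D * K0) ^ 2 * N) + 1)) ≤ c)
    (ht2 : x * (16 * (w * (A ^ 2 * Hs) + 1)) < c)
    (hfin : c * S ≤ w * (2 * ((δ * (D * K0)) ^ 2 * (N * S) + (x * A) ^ 2 * Hs))) : False := by
  have hδsq : δ ^ 2 ≤ δ := by nlinarith
  have htsq : x ^ 2 ≤ x := by nlinarith
  have hS0 : 0 ≤ S := by linarith
  have e1 : w * (2 * ((δ * (D * K0)) ^ 2 * (N * S))) ≤ c / 2 * S := by
    have h2 : 0 ≤ w * ((D * K0) ^ 2 * N) := by positivity
    have h3 : δ ^ 2 * (w * ((D * K0) ^ 2 * N)) ≤ δ * (w * ((D * K0) ^ 2 * N)) :=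
      mul_le_mul_of_nonneg_right hδsq h2
    have h4 : δ * (w * ((D * K0) ^ 2 * N)) ≤ c / 4 := by linarith
    calc w * (2 * ((δ * (D * K0)) ^ 2 * (N * S)))
        = 2 * (δ ^ 2 * (w * ((D * K0) ^ 2 * N))) * S := by ring
      _ ≤ c / 2 * S := by
        apply mul_le_mul_of_nonneg_right _ hS0
        linarith
  have e2 : w * (2 * ((x * A) ^ 2 * Hs)) ≤ 2 * (x * (w * (A ^ 2 * Hs))) := by
    have h2 : 0 ≤ w * (A ^ 2 * Hs) := by positivity
    have h3 : x ^ 2 * (w * (A ^ 2 * Hs)) ≤ x * (w * (A ^ 2 * Hs)) :=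
      mul_le_mul_of_nonneg_right htsq h2
    calc w * (2 * ((x * A) ^ 2 * Hs)) = 2 * (x ^ 2 * (w * (A ^ 2 * Hs))) := by ring
      _ ≤ _ := by linarith
  have e3 : w * (2 * ((δ * (D * K0)) ^ 2 * (N * S) + (x * A) ^ 2 * Hs)) =
    w * (2 * ((δ * (D * K0)) ^ 2 * (N * S))) + w * (2 * ((x * A) ^ 2 * Hs)) := by ring
  have e4 : c / 2 * S ≤ 2 * (x * (w * (A ^ 2 * Hs))) := by linarith
  have e5 : c / 8 ≤ c / 2 * S := by nlinarith
  nlinarith

theorem hStab : StStab := by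
  intro V _ _ _ L _ _ hyp
  obtain ⟨W, c, hc, hyp⟩ := hyp
  obtain ⟨ρ, hρ0, hρ⟩ : ∃ ρ : ℝ, 0 ≤ ρ ∧ ∀ w ∈ W, ‖w‖ ≤ ρ :=
    ⟨∑ w ∈ W, ‖w‖, Finset.sum_nonneg fun _ _ => norm_nonneg _, fun w hw =>
      Finset.single_le_sum (f := fun w => ‖w‖) (fun _ _ => norm_nonneg _) hw⟩
  set K0 : ℝ := ∑' n : L, Real.exp (-‖(n : V)‖) with hK0
  have hQ0 : 0 < 4 * ((W.card : ℝ) * ((624 * Real.exp 5 * Real.exp (3 * ρ) * K0) ^ 2 *
    (Fintype.card (Idx V) : ℝ)) + 1) := by positivity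
  obtain ⟨δ, hδ, hδ1, hδ2⟩ : ∃ δ : ℝ, 0 < δ ∧ δ ≤ 1 ∧
      δ * (4 * ((W.card : ℝ) * ((624 * Real.exp 5 * Real.exp (3 * ρ) * K0) ^ 2 *
        (Fintype.card (Idx V) : ℝ)) + 1)) ≤ c := by
    refine ⟨min 1 (c / _), lt_min one_pos (div_pos hc hQ0), min_le_left _ _, ?_⟩
    exact (le_div_iff₀ hQ0).1 (min_le_right _ _)
  have hH := summable_wt_Stab L hδ hρ0
  have hHs0 : 0 ≤ ∑' m : L, (Real.exp (-(δ * ‖(m : V)‖)) * (ρ + ‖(m : V)‖ + 1)) ^ 2 :=
    tsum_nonneg fun m => by positivity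
  have hE0 : 0 < 16 * ((W.card : ℝ) * ((4 * (624 * Real.exp 5) * Real.exp ρ *
      (Fintype.card (Idx V) : ℝ) * K0) ^ 2 *
      ∑' m : L, (Real.exp (-(δ * ‖(m : V)‖)) * (ρ + ‖(m : V)‖ + 1)) ^ 2) + 1) := by positivity
  refine ⟨min 1 (c / _), lt_min one_pos (div_pos hc hE0), ?_⟩
  intro t ht P ⟨M, hM⟩ hP0
  have ht1 : |t - 3| ≤ 1 := (ht.trans_le (min_le_left _ _)).le
  have ht2 := (lt_div_iff₀ hE0).1 (ht.trans_le (min_le_right _ _))
  by_contra hPne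
  have hex : ∃ l i, P l i ≠ 0 := by
    by_contra hcon
    push Not at hcon
    exact hPne (funext fun l => funext fun i => hcon l i)
  obtain ⟨l₁, i₁, h1⟩ := hex
  have hbd : BddAbove (Set.range fun p : L × Idx V => ‖P p.1 p.2‖) :=
    ⟨M, by rintro _ ⟨p, rfl⟩; exact hM _ _⟩
  have : Nonempty (L × Idx V) := ⟨(l₁, i₁)⟩
  obtain ⟨s, hle, hs, l₀, i₀, hl⟩ : ∃ s : ℝ, (∀ l i, ‖P l i‖ ≤ s) ∧ 0 < s ∧
      ∃ l₀ i₀, s / 2 < ‖P l₀ i₀‖ := by
    have hle : ∀ l i, ‖P l i‖ ≤ ⨆ p : L × Idx V, ‖P p.1 p.2‖ := fun l i => le_ciSup hbd (l, i)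
    have hs : 0 < ⨆ p : L × Idx V, ‖P p.1 p.2‖ := (norm_pos_iff.2 h1).trans_le (hle l₁ i₁)
    obtain ⟨⟨l₀, i₀⟩, hl⟩ := exists_lt_of_lt_ciSup
      (show (⨆ p : L × Idx V, ‖P p.1 p.2‖) / 2 < ⨆ p : L × Idx V, ‖P p.1 p.2‖ by linarith)
    exact ⟨_, hle, hs, l₀, i₀, hl⟩
  obtain ⟨R, hR, hR0, hRz⟩ : ∃ R : L → Idx V → ℂ, (∀ l i, ‖R l i‖ ≤ 1) ∧ 1 / 2 ≤ ‖R 0 i₀‖ ∧
      ∀ w, Phi L t R w = 0 := by
    have hRn : ∀ (l : L) i, ‖ph_Stab t (l : V) l₀ * P (l + l₀) i * ((s⁻¹ : ℝ) : ℂ)‖ =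
        ‖P (l + l₀) i‖ * s⁻¹ := by
      intro l i
      rw [norm_mul, norm_mul, norm_ph_Stab, one_mul, Complex.norm_real, Real.norm_eq_abs,
        abs_of_pos (inv_pos.2 hs)]
    refine ⟨fun l i => ph_Stab t (l : V) l₀ * P (l + l₀) i * ((s⁻¹ : ℝ) : ℂ), ?_, ?_,
      fun w => shift_Stab L t P hP0 l₀ _ w⟩
    · intro l i
      rw [hRn, ← div_eq_mul_inv, div_le_one hs]
      exact hle _ _
    · rw [hRn, zero_add, ← div_eq_mul_inv, le_div_iff₀ hs]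
      linarith
  obtain ⟨v, hv⟩ : ∃ v : L → Idx V → ℂ,
    v = fun (l : L) i => ((Real.exp (-(δ * ‖(l : V)‖)) : ℝ) : ℂ) * R l i := ⟨_, rfl⟩
  have hvn : ∀ l i, ‖v l i‖ ≤ Real.exp (-(δ * ‖(l : V)‖)) := by
    intro l i
    rw [hv]
    simp only [norm_mul, Complex.norm_real, Real.norm_of_nonneg (Real.exp_pos _).le]
    exact mul_le_of_le_one_right (Real.exp_pos _).le (hR l i)
  have hv1 : ∀ i, Summable fun l => ‖v l i‖ := fun i =>
    Summable.of_nonneg_of_le (fun _ => norm_nonneg _) (fun l => hvn l i)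
      (summable_exp_norm L (c := δ) hδ)
  have hvS : Summable fun l : L => ∑ i, ‖v l i‖ ^ 2 := by
    refine summable_sum fun i _ => ?_
    refine Summable.of_nonneg_of_le (fun _ => by positivity) (fun l => ?_) (hv1 i)
    have h2 : ‖v l i‖ ≤ 1 := (hvn l i).trans (by
      apply Real.exp_le_one_iff.2
      have := mul_nonneg hδ.le (norm_nonneg (l : V))
      linarith)
    calc ‖v l i‖ ^ 2 = ‖v l i‖ * ‖v l i‖ := sq _
      _ ≤ ‖v l i‖ * 1 := mul_le_mul_of_nonneg_left h2 (norm_nonneg _)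
      _ = ‖v l i‖ := mul_one _
  obtain ⟨hsum, hmain⟩ := hyp v hv1
  have hS4 : 1 / 4 ≤ ∑' l : L, ∑ i, ‖v l i‖ ^ 2 := by
    have h2 : ‖v 0 i₀‖ = ‖R 0 i₀‖ := by
      rw [hv]
      simp
    have h3 : (∑ i, ‖v 0 i‖ ^ 2) ≤ ∑' l : L, ∑ i, ‖v l i‖ ^ 2 :=
      hvS.le_tsum 0 (fun l _ => Finset.sum_nonneg fun i _ => by positivity)
    have h4 : ‖v 0 i₀‖ ^ 2 ≤ ∑ i, ‖v 0 i‖ ^ 2 :=
      Finset.single_le_sum (f := fun i => ‖v 0 i‖ ^ 2) (fun _ _ => by positivity)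
        (Finset.mem_univ i₀)
    rw [h2] at h4
    nlinarith
  have hfin : c * ∑' l : L, ∑ i, ‖v l i‖ ^ 2 ≤ (W.card : ℝ) *
      (2 * ((δ * (624 * Real.exp 5 * Real.exp (3 * ρ) * K0)) ^ 2 *
        ((Fintype.card (Idx V) : ℝ) * ∑' l : L, ∑ i, ‖v l i‖ ^ 2) +
      (|t - 3| * (4 * (624 * Real.exp 5) * Real.exp ρ * (Fintype.card (Idx V) : ℝ) *
        K0)) ^ 2 * ∑' m : L, (Real.exp (-(δ * ‖(m : V)‖)) * (ρ + ‖(m : V)‖ + 1)) ^ 2)) := by
    refine hmain.trans ?_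
    rw [← nsmul_eq_mul]
    refine Finset.sum_le_card_nsmul _ _ _ fun w₀ hw₀ => ?_
    exact real_Stab L ht1 hδ hδ1 (hρ w₀ hw₀) R hR hRz v hv (hsum w₀) hvS hH
  exact num_Stab hc (Nat.cast_nonneg _) (Nat.cast_nonneg _) hHs0 hδ hδ1 (abs_nonneg _) ht1 hS4
    hδ2 ht2 hfin

end Pool.Agent.Helper7.JT
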