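import Pool.Agent.Helper7.JT.Base

/-!
Series of entire functions and their `2`-jets.
-/

namespace Pool.Agent.Helper7.JT

open MeasureTheory Module Filter Topology Asymptotics

section GenS

variable {V : Type} [NormedAddCommGroup V] [InnerProductSpace ℂ V]

/-- Cauchy estimate on balls. -/
theorem fderiv_bd_Summ {F : V → ℂ} (hF : Differentiable ℂ F) {R r M : ℝ} (hr : 0 < r)
    (hM : ∀ z ∈ Metric.ball (0 : V) (R + r), ‖F z‖ ≤ M) {z : V}
    (hz : z ∈ Metric.ball (0 : V) R) : ‖fderiv ℂ F z‖ ≤ 2 * M / r := by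
  have hzR : ‖z‖ < R := by simpa using hz
  refine Complex.norm_fderiv_le_div_of_mapsTo_ball hF.differentiableOn (fun w hw => ?_) hr
  have hw' : ‖w - z‖ < r := by simpa [dist_eq_norm] using hw
  have h1 : ‖w‖ < R + r := by
    calc ‖w‖ = ‖z + (w - z)‖ := by congr 1; abel
      _ ≤ ‖z‖ + ‖w - z‖ := norm_add_le _ _
      _ < R + r := by linarith
  have h2 := hM w (by simpa using h1)
  have h3 := hM z (by simpa using (by linarith : ‖z‖ < R + r))
  rw [Metric.mem_closedBall, dist_eq_norm]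
  calc ‖F w - F z‖ ≤ ‖F w‖ + ‖F z‖ := norm_sub_le _ _
    _ ≤ 2 * M := by linarith

/-- Locally uniformly dominated series of entire functions. -/
theorem tsum_diff_Summ {ι : Type} {F : ι → V → ℂ} (hF : ∀ n, Differentiable ℂ (F n))
    (hb : ∀ R : ℝ, ∃ u : ι → ℝ, Summable u ∧ ∀ n, ∀ z ∈ Metric.ball (0 : V) R, ‖F n z‖ ≤ u n) :
    Differentiable ℂ (fun z => ∑' n, F n z) ∧
      (∀ z, HasSum (fun n => F n z) (∑' n, F n z)) ∧
      ∀ z, HasSum (fun n => fderiv ℂ (F n) z) (fderiv ℂ (fun z => ∑' n, F n z) z) := by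
  have h0 : ∀ z, Summable (fun n => F n z) := by
    intro z
    obtain ⟨u, hu, hu'⟩ := hb (‖z‖ + 1)
    exact Summable.of_norm_bounded hu fun n => hu' n z (by simp)
  have h1 : ∀ z, Summable (fun n => fderiv ℂ (F n) z) ∧
      HasFDerivAt (fun z => ∑' n, F n z) (∑' n, fderiv ℂ (F n) z) z := by
    intro z
    obtain ⟨u, hu, hu'⟩ := hb (‖z‖ + 1 + 1)
    have hz : z ∈ Metric.ball (0 : V) (‖z‖ + 1) := by simp
    have hbd : ∀ n, ∀ x ∈ Metric.ball (0 : V) (‖z‖ + 1), ‖fderiv ℂ (F n) x‖ ≤ 2 * u n / 1 :=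
      fun n x hx => fderiv_bd_Summ (hF n) one_pos (hu' n) hx
    have hu2 : Summable (fun n => 2 * u n / 1) := (hu.mul_left 2).div_const 1
    refine ⟨Summable.of_norm_bounded hu2 fun n => hbd n z hz, ?_⟩
    exact hasFDerivAt_tsum_of_isPreconnected hu2 Metric.isOpen_ball
      (convex_ball (0 : V) (‖z‖ + 1)).isPreconnected
      (fun n x _ => (hF n x).hasFDerivAt) hbd hz (h0 z) hz
  refine ⟨fun z => (h1 z).2.differentiableAt, fun z => (h0 z).hasSum, fun z => ?_⟩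
  rw [(h1 z).2.fderiv]
  exact (h1 z).1.hasSum

theorem bdd_Summ [FiniteDimensional ℂ V] {F : V → ℂ} (hF : Differentiable ℂ F) (R : ℝ) :
    ∃ M : ℝ, ∀ z ∈ Metric.ball (0 : V) R, ‖F z‖ ≤ M := by
  have : ProperSpace V := FiniteDimensional.proper ℂ V
  obtain ⟨C, hC⟩ := (isCompact_closedBall (0 : V) R).exists_bound_of_continuousOn
    hF.continuous.continuousOn
  exact ⟨C, fun z hz => hC z (Metric.ball_subset_closedBall hz)⟩

/-- Second order Taylor estimate along a direction. -/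
theorem taylor_Summ [FiniteDimensional ℂ V] {F : V → ℂ} (hF : Differentiable ℂ F) (v : V)
    (R : ℝ) : ∃ K : ℝ, 0 ≤ K ∧ ∀ z ∈ Metric.ball (0 : V) R, ∀ s : ℝ, 0 < s → s ≤ 1 →
      ‖F (z + (s : ℂ) • v) - F z - (s : ℂ) * fderiv ℂ F z v‖ ≤ K * s ^ 2 := by
  obtain ⟨M, hM⟩ := bdd_Summ hF (R + (2 * ‖v‖ + 1))
  set M' : ℝ := max M 0 with hM'
  have hM0 : 0 ≤ M' := le_max_right _ _
  refine ⟨(2 * M' + 2 * (2 * M' / (2 * ‖v‖ + 1) * ‖v‖)) / 4, by positivity,
    fun z hz s hs hs1 => ?_⟩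
  have hpos : 0 < 2 * ‖v‖ + 1 := by positivity
  have hfd : ‖fderiv ℂ F z‖ ≤ 2 * M' / (2 * ‖v‖ + 1) :=
    fderiv_bd_Summ hF hpos (fun w hw => (hM w hw).trans (le_max_left _ _)) hz
  set g : ℂ → ℂ := fun ζ => F (z + ζ • v) - F z - ζ * fderiv ℂ F z v with hg
  have hg0 : g 0 = 0 := by simp [hg]
  have hlin : ∀ ζ : ℂ, HasDerivAt (fun ζ : ℂ => z + ζ • v) v ζ := by
    intro ζ
    have := ((hasDerivAt_id ζ).smul_const v).const_add z
    simpa using this
  have hgd : Differentiable ℂ g := by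
    intro ζ
    have h1 : DifferentiableAt ℂ (fun ζ : ℂ => F (z + ζ • v)) ζ :=
      DifferentiableAt.comp ζ (hF _) (hlin ζ).differentiableAt
    exact (h1.sub_const _).sub (differentiableAt_id.mul_const _)
  have hder : HasDerivAt g 0 0 := by
    have h1 : HasDerivAt (fun ζ : ℂ => F (z + ζ • v)) (fderiv ℂ F z v) 0 := by
      have h2 : HasFDerivAt F (fderiv ℂ F z) (z + (0 : ℂ) • v) := by
        rw [zero_smul, add_zero]
        exact (hF z).hasFDerivAt
      exact h2.comp_hasDerivAt (0 : ℂ) (hlin 0)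
    have h3 := (h1.sub_const (F z)).sub ((hasDerivAt_id (0 : ℂ)).mul_const (fderiv ℂ F z v))
    have h4 : fderiv ℂ F z v - 1 * fderiv ℂ F z v = 0 := by ring
    rw [h4] at h3
    exact h3
  have hlo : (fun w => g w - g 0) =o[𝓝 (0 : ℂ)] (fun w => ‖w - 0‖ ^ 1) := by
    have h1 := hder.hasFDerivAt.isLittleO
    have h2 : (fun w => g w - g 0) =o[𝓝 (0 : ℂ)] (fun w : ℂ => w - 0) := by
      refine h1.congr_left fun w => ?_
      simp
    simpa using h2.norm_right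
  have hmaps : Set.MapsTo g (Metric.ball (0 : ℂ) 2)
      (Metric.closedBall (g 0) (2 * M' + 2 * (2 * M' / (2 * ‖v‖ + 1) * ‖v‖))) := by
    intro ζ hζ
    have hζ' : ‖ζ‖ < 2 := by simpa using hζ
    rw [Metric.mem_closedBall, dist_eq_norm, hg0, sub_zero]
    have hzR : ‖z‖ < R := by simpa using hz
    have h1 : ‖z + ζ • v‖ < R + (2 * ‖v‖ + 1) := by
      calc ‖z + ζ • v‖ ≤ ‖z‖ + ‖ζ • v‖ := norm_add_le _ _
        _ = ‖z‖ + ‖ζ‖ * ‖v‖ := by rw [norm_smul]
        _ ≤ ‖z‖ + 2 * ‖v‖ := by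
            have := mul_le_mul_of_nonneg_right hζ'.le (norm_nonneg v)
            linarith
        _ < R + (2 * ‖v‖ + 1) := by linarith
    have h2 : ‖F (z + ζ • v)‖ ≤ M' := (hM _ (by simpa using h1)).trans (le_max_left _ _)
    have h3 : ‖F z‖ ≤ M' :=
      (hM _ (by simpa using (by linarith : ‖z‖ < R + (2 * ‖v‖ + 1)))).trans (le_max_left _ _)
    have h4 : ‖ζ * fderiv ℂ F z v‖ ≤ 2 * (2 * M' / (2 * ‖v‖ + 1) * ‖v‖) := by
      rw [norm_mul]
      exact mul_le_mul hζ'.le (((fderiv ℂ F z).le_opNorm v).trans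
        (mul_le_mul_of_nonneg_right hfd (norm_nonneg v))) (norm_nonneg _) (by norm_num)
    calc ‖F (z + ζ • v) - F z - ζ * fderiv ℂ F z v‖
        ≤ ‖F (z + ζ • v) - F z‖ + ‖ζ * fderiv ℂ F z v‖ := norm_sub_le _ _
      _ ≤ ‖F (z + ζ • v)‖ + ‖F z‖ + ‖ζ * fderiv ℂ F z v‖ := by
          have := norm_sub_le (F (z + ζ • v)) (F z)
          linarith
      _ ≤ _ := by linarith
  have hsb : ((s : ℝ) : ℂ) ∈ Metric.ball (0 : ℂ) 2 := by
    simp only [Metric.mem_ball, dist_zero_right, Complex.norm_real, Real.norm_eq_abs]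
    rw [abs_of_pos hs]
    linarith
  have hkey := Complex.dist_le_mul_div_pow_of_mapsTo_ball_of_isLittleO (n := 1)
    hgd.differentiableOn hmaps hlo hsb
  rw [dist_eq_norm, hg0, sub_zero, dist_zero_right, Complex.norm_real, Real.norm_eq_abs,
    abs_of_pos hs] at hkey
  refine hkey.trans (le_of_eq ?_)
  ring

/-- The directional derivatives of an entire function are entire. -/
theorem diff_fderiv_Summ [FiniteDimensional ℂ V] {F : V → ℂ} (hF : Differentiable ℂ F)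
    (v : V) : Differentiable ℂ (fun z => fderiv ℂ F z v) := by
  set D : ℕ → V → ℂ := fun n z => (2 : ℂ) ^ n * (F (z + (((1 / 2 : ℝ) ^ n : ℝ) : ℂ) • v) - F z)
    with hD
  have hDd : ∀ n, Differentiable ℂ (D n) := by
    intro n
    have h1 : Differentiable ℂ (fun z : V => F (z + (((1 / 2 : ℝ) ^ n : ℝ) : ℂ) • v)) :=
      hF.comp (differentiable_id.add_const _)
    exact (h1.sub hF).const_mul _
  have hDb : ∀ R : ℝ, ∃ K : ℝ, 0 ≤ K ∧ ∀ n, ∀ z ∈ Metric.ball (0 : V) R,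
      ‖D n z - fderiv ℂ F z v‖ ≤ K * (1 / 2) ^ n := by
    intro R
    obtain ⟨K, hK0, hK⟩ := taylor_Summ hF v R
    refine ⟨K, hK0, fun n z hz => ?_⟩
    have hs : (0 : ℝ) < (1 / 2) ^ n := by positivity
    have hs1 : ((1 / 2 : ℝ)) ^ n ≤ 1 := pow_le_one₀ (by norm_num) (by norm_num)
    have h1 := hK z hz _ hs hs1
    have h2 : D n z - fderiv ℂ F z v = (2 : ℂ) ^ n *
        (F (z + (((1 / 2 : ℝ) ^ n : ℝ) : ℂ) • v) - F z -
          (((1 / 2 : ℝ) ^ n : ℝ) : ℂ) * fderiv ℂ F z v) := by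
      have h3 : (2 : ℂ) ^ n * (((1 / 2 : ℝ) ^ n : ℝ) : ℂ) = 1 := by
        push_cast
        rw [← mul_pow]
        norm_num
      rw [mul_sub, ← mul_assoc ((2 : ℂ) ^ n) _ (fderiv ℂ F z v), h3, one_mul]
    rw [h2, norm_mul, norm_pow]
    calc ‖(2 : ℂ)‖ ^ n * _ ≤ ‖(2 : ℂ)‖ ^ n * (K * ((1 / 2 : ℝ) ^ n) ^ 2) :=
          mul_le_mul_of_nonneg_left h1 (by positivity)
      _ = K * (1 / 2) ^ n * ((2 : ℝ) * (1 / 2)) ^ n := by
          rw [mul_pow]
          norm_num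
          ring
      _ = K * (1 / 2) ^ n := by norm_num
  set f : ℕ → V → ℂ := fun n z => D (n + 1) z - D n z with hf
  have hfd : ∀ n, Differentiable ℂ (f n) := fun n => (hDd (n + 1)).sub (hDd n)
  have hgeo : Summable (fun n : ℕ => ((1 : ℝ) / 2) ^ n) := summable_geometric_two
  have hfb : ∀ R : ℝ, ∃ u : ℕ → ℝ, Summable u ∧
      ∀ n, ∀ z ∈ Metric.ball (0 : V) R, ‖f n z‖ ≤ u n := by
    intro R
    obtain ⟨K, hK0, hK⟩ := hDb R
    refine ⟨fun n => (2 * K) * (1 / 2) ^ n, hgeo.mul_left _, fun n z hz => ?_⟩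
    have h1 := hK n z hz
    have h2 := hK (n + 1) z hz
    have h3 : f n z = (D (n + 1) z - fderiv ℂ F z v) - (D n z - fderiv ℂ F z v) := by
      simp only [hf]
      ring
    rw [h3]
    have h4 : (0 : ℝ) ≤ K * (1 / 2) ^ n := by positivity
    calc _ ≤ ‖D (n + 1) z - fderiv ℂ F z v‖ + ‖D n z - fderiv ℂ F z v‖ := norm_sub_le _ _
      _ ≤ K * (1 / 2) ^ (n + 1) + K * (1 / 2) ^ n := add_le_add h2 h1
      _ ≤ (2 * K) * (1 / 2) ^ n := by
          rw [pow_succ]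
          linarith
  obtain ⟨hd, hs, -⟩ := tsum_diff_Summ hfd hfb
  have hlim : ∀ z, Tendsto (fun n => D n z) atTop (𝓝 (fderiv ℂ F z v)) := by
    intro z
    obtain ⟨K, hK0, hK⟩ := hDb (‖z‖ + 1)
    rw [tendsto_iff_norm_sub_tendsto_zero]
    refine squeeze_zero (fun n => norm_nonneg _) (fun n => hK n z (by simp)) ?_
    have := (tendsto_pow_atTop_nhds_zero_of_lt_one (by norm_num : (0 : ℝ) ≤ 1 / 2)
      (by norm_num)).const_mul K
    simpa using this
  have heq : (fun z => fderiv ℂ F z v) = fun z => D 0 z + ∑' n, f n z := by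
    funext z
    have h1 := (hs z).tendsto_sum_nat
    have h2 : ∀ n, ∑ i ∈ Finset.range n, f i z = D n z - D 0 z := by
      intro n
      simp only [hf]
      exact Finset.sum_range_sub (fun n => D n z) n
    have h3 : Tendsto (fun n => ∑ i ∈ Finset.range n, f i z) atTop
        (𝓝 (fderiv ℂ F z v - D 0 z)) := by
      simp only [h2]
      exact (hlim z).sub_const _
    have h4 := tendsto_nhds_unique h1 h3
    rw [h4]
    ring
  rw [heq]
  exact (hDd 0).add hd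

/-- The coordinates of the `2`-jet of a locally uniformly dominated series. -/
theorem Dj_tsum_Summ [FiniteDimensional ℂ V] {ι : Type} {F : ι → V → ℂ}
    (hF : ∀ n, Differentiable ℂ (F n))
    (hb : ∀ R : ℝ, ∃ u : ι → ℝ, Summable u ∧ ∀ n, ∀ z ∈ Metric.ball (0 : V) R, ‖F n z‖ ≤ u n)
    (i : Idx V) : HasSum (fun n => Dj i (F n)) (Dj i (fun z => ∑' n, F n z)) := by
  obtain ⟨h1, h2, h3⟩ := tsum_diff_Summ hF hb
  have h4 : ∀ (v z : V), HasSum (fun n => fderiv ℂ (F n) z v)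
      (fderiv ℂ (fun z => ∑' n, F n z) z v) := fun v z =>
    (h3 z).mapL (ContinuousLinearMap.apply ℂ ℂ v)
  rcases i with i | i | p
  · exact h2 0
  · exact h4 (ob i) 0
  · have hb' : ∀ R : ℝ, ∃ u : ι → ℝ, Summable u ∧ ∀ n, ∀ z ∈ Metric.ball (0 : V) R,
        ‖(fun n z => fderiv ℂ (F n) z (ob p.1.1)) n z‖ ≤ u n := by
      intro R
      obtain ⟨u, hu, hu'⟩ := hb (R + 1)
      refine ⟨fun n => (2 * u n / 1) * ‖(ob p.1.1 : V)‖, ((hu.mul_left 2).div_const 1).mul_right _,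
        fun n z hz => ?_⟩
      exact ((fderiv ℂ (F n) z).le_opNorm _).trans
        (mul_le_mul_of_nonneg_right (fderiv_bd_Summ (hF n) one_pos (hu' n) hz) (norm_nonneg _))
    obtain ⟨-, -, h5⟩ := tsum_diff_Summ (fun n => diff_fderiv_Summ (hF n) (ob p.1.1)) hb'
    have h6 : (fun z => ∑' n, fderiv ℂ (F n) z (ob p.1.1)) =
        fun z => fderiv ℂ (fun z => ∑' n, F n z) z (ob p.1.1) := by
      funext z
      exact (h4 (ob p.1.1) z).tsum_eq
    have h7 := (h5 0).mapL (ContinuousLinearMap.apply ℂ ℂ (ob p.1.2 : V))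
    rw [h6] at h7
    exact h7

end GenS

section LatS

variable {V : Type} [NormedAddCommGroup V] [InnerProductSpace ℂ V] [FiniteDimensional ℂ V]
  (L : Submodule ℤ V) [DiscreteTopology L]

/-- Domination of the translates of a localised function. -/
theorem loc_bd_Summ {t : ℝ} (ht : 0 < t) {f : V → ℂ} (hf : Loc t f) (R : ℝ) :
    ∃ u : L → ℝ, Summable u ∧ ∀ l : L, ∀ z ∈ Metric.ball (0 : V) R,
      ‖Tr t (l : V) f z‖ ≤ u l := by
  obtain ⟨-, C, ε, hε, hC⟩ := hf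
  set C' : ℝ := max C 0 with hC'
  have hC0 : 0 ≤ C' := le_max_right _ _
  refine ⟨fun l => (Real.exp (Real.pi * t / 2 * R ^ 2) * (C' * Real.exp (1 / (4 * ε) + R))) *
    Real.exp (-(1 * ‖(l : V)‖)), (summable_exp_norm L one_pos).mul_left _, fun l z hz => ?_⟩
  have hzR : ‖z‖ < R := by simpa using hz
  have hR : ‖z‖ ^ 2 ≤ R ^ 2 := by
    have := norm_nonneg z
    nlinarith
  rw [norm_Tr]
  change _ ≤ Real.exp (Real.pi * t / 2 * R ^ 2) * (C' * Real.exp (1 / (4 * ε) + R)) *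
    Real.exp (-(1 * ‖(l : V)‖))
  rw [mul_assoc (Real.exp (Real.pi * t / 2 * R ^ 2))]
  refine mul_le_mul (Real.exp_le_exp.2 (mul_le_mul_of_nonneg_left hR (by positivity))) ?_
    (by positivity) (Real.exp_pos _).le
  calc Real.exp (-(Real.pi * t / 2 * ‖z + (l : V)‖ ^ 2)) * ‖f (z + l)‖
      ≤ Real.exp (-(Real.pi * t / 2 * ‖z + (l : V)‖ ^ 2)) *
        (C' * Real.exp ((Real.pi * t / 2 - ε) * ‖z + (l : V)‖ ^ 2)) :=
        mul_le_mul_of_nonneg_left ((hC _).trans (mul_le_mul_of_nonneg_right (le_max_left _ _)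
          (Real.exp_pos _).le)) (Real.exp_pos _).le
    _ = C' * Real.exp (-(ε * ‖z + (l : V)‖ ^ 2)) := by
        rw [mul_left_comm, ← Real.exp_add]
        congr 2
        ring
    _ ≤ C' * (Real.exp (1 / (4 * ε) + R) * Real.exp (-(1 * ‖(l : V)‖))) := by
        refine mul_le_mul_of_nonneg_left ?_ hC0
        rw [← Real.exp_add]
        apply Real.exp_le_exp.2
        have h1 : ‖(l : V)‖ ≤ ‖z + (l : V)‖ + ‖z‖ := by
          calc ‖(l : V)‖ = ‖(z + (l : V)) - z‖ := by congr 1; abel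
            _ ≤ _ := norm_sub_le _ _
        have h2 : ‖z + (l : V)‖ ≤ ε * ‖z + (l : V)‖ ^ 2 + 1 / (4 * ε) := by
          have h3 : 0 ≤ (2 * ε * ‖z + (l : V)‖ - 1) ^ 2 / (4 * ε) := by positivity
          have h4 : (2 * ε * ‖z + (l : V)‖ - 1) ^ 2 / (4 * ε) =
              ε * ‖z + (l : V)‖ ^ 2 - ‖z + (l : V)‖ + 1 / (4 * ε) := by
            field_simp
            ring
          linarith
        linarith
    _ = _ := by ring

end LatS

theorem hSumm : StSumm := by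
  intro V _ _ _ L _ _ t f ht hf i
  have h := Dj_tsum_Summ (F := fun l : L => Tr t (l : V) f)
    (fun l => Tr_differentiable t _ hf.1) (fun R => loc_bd_Summ L ht hf R) i
  exact h.summable.norm

end Pool.Agent.Helper7.JT
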