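import Pool.Agent.Helper7.JT.Main
import Pool.Agent.Helper7.JT.M_Char
import Pool.Agent.Helper7.JT.M_Cov
import Pool.Agent.Helper7.JT.M_Dim
import Pool.Agent.Helper7.JT.M_Disc
import Pool.Agent.Helper7.JT.M_Div
import Pool.Agent.Helper7.JT.M_Down
import Pool.Agent.Helper7.JT.M_Exist
import Pool.Agent.Helper7.JT.M_Flat
import Pool.Agent.Helper7.JT.M_G1
import Pool.Agent.Helper7.JT.M_Grad
import Pool.Agent.Helper7.JT.M_Growth
import Pool.Agent.Helper7.JT.M_Inj
import Pool.Agent.Helper7.JT.M_Jen
import Pool.Agent.Helper7.JT.M_Jet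
import Pool.Agent.Helper7.JT.M_Low
import Pool.Agent.Helper7.JT.M_MV
import Pool.Agent.Helper7.JT.M_Orth
import Pool.Agent.Helper7.JT.M_PK
import Pool.Agent.Helper7.JT.M_Phi
import Pool.Agent.Helper7.JT.M_Pois
import Pool.Agent.Helper7.JT.M_Rec
import Pool.Agent.Helper7.JT.M_RepJ
import Pool.Agent.Helper7.JT.M_Repro
import Pool.Agent.Helper7.JT.M_Semi
import Pool.Agent.Helper7.JT.M_Sep
import Pool.Agent.Helper7.JT.M_Split
import Pool.Agent.Helper7.JT.M_Stab
import Pool.Agent.Helper7.JT.M_Summ
import Pool.Agent.Helper7.JT.M_Up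

namespace Pool.Agent.Helper7.JT

theorem allRepro : StRepro := hRepro hMV

theorem allDim : StDim := hDim hGrowth allRepro hOrth hPois

theorem allExist : StExist := hExist hOrth hPois

theorem allGrad : StGrad := hGrad hG1 hDiv hRec allDim hCov

theorem allSplit : StSplit := hSplit hDisc hJen hGrowth

theorem allSep : StSep := hSep allExist hSemi hChar allGrad hFlat allSplit

theorem allInj : StInj := hInj allSep (hRepJ allRepro) hGrowth

theorem stMain : StMain :=
  main_of (hUp allExist hSemi allGrad hGrowth hOrth) (hPK hPois hSumm hJet) allInj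
    (hLow hOrth hSemi hChar) hStab hPhi (hDown allDim hCov hSemi)

end Pool.Agent.Helper7.JT
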