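import Pool.Agent.Helper7.JT.St

namespace Pool.Agent.Helper7.JT

open MeasureTheory Module Filter Topology Asymptotics

section

variable {V : Type} [NormedAddCommGroup V] [InnerProductSpace ℂ V]

theorem Hm_add_left (x y z : V) : Hm (x + y) z = Hm x z + Hm y z := inner_add_right _ _ _
theorem Hm_add_right (x y z : V) : Hm x (y + z) = Hm x y + Hm x z := inner_add_left _ _ _
theorem Hm_sub_left (x y z : V) : Hm (x - y) z = Hm x z - Hm y z := inner_sub_right _ _ _
theorem Hm_sub_right (x y z : V) : Hm x (y - z) = Hm x y - Hm x z := inner_sub_left _ _ _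
theorem Hm_neg_left (x y : V) : Hm (-x) y = -Hm x y := inner_neg_right _ _
theorem Hm_neg_right (x y : V) : Hm x (-y) = -Hm x y := inner_neg_left _ _
@[simp] theorem Hm_zero_left (x : V) : Hm 0 x = 0 := inner_zero_right _
@[simp] theorem Hm_zero_right (x : V) : Hm x 0 = 0 := inner_zero_left _
theorem Hm_smul_left (c : ℂ) (x y : V) : Hm (c • x) y = c * Hm x y := inner_smul_right _ _ _
theorem Hm_smul_right (c : ℂ) (x y : V) : Hm x (c • y) = (starRingEnd ℂ) c * Hm x y :=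
  inner_smul_left _ _ _
theorem Hm_conj (x y : V) : (starRingEnd ℂ) (Hm x y) = Hm y x := inner_conj_symm _ _
theorem Hm_self (x : V) : Hm x x = ((‖x‖ ^ 2 : ℝ) : ℂ) := by
  simp [Hm, inner_self_eq_norm_sq_to_K]
theorem norm_Hm_le (x y : V) : ‖Hm x y‖ ≤ ‖x‖ * ‖y‖ := by
  rw [Hm, mul_comm]
  exact norm_inner_le_norm _ _
theorem abs_Ef_le (x y : V) : |Ef x y| ≤ ‖x‖ * ‖y‖ :=
  (Complex.abs_im_le_norm _).trans (norm_Hm_le x y)
theorem re_Hm_le (x y : V) : |(Hm x y).re| ≤ ‖x‖ * ‖y‖ :=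
  (Complex.abs_re_le_norm _).trans (norm_Hm_le x y)
theorem norm_add_sq' (x y : V) : ‖x + y‖ ^ 2 = ‖x‖ ^ 2 + 2 * (Hm x y).re + ‖y‖ ^ 2 := by
  rw [@norm_add_sq ℂ V _ _ _ x y, Hm, ← inner_conj_symm x y, RCLike.conj_re]
  rfl
theorem norm_sub_sq' (x y : V) : ‖x - y‖ ^ 2 = ‖x‖ ^ 2 - 2 * (Hm x y).re + ‖y‖ ^ 2 := by
  rw [@norm_sub_sq ℂ V _ _ _ x y, Hm, ← inner_conj_symm x y, RCLike.conj_re]
  rfl
theorem Ef_add_left (x y z : V) : Ef (x + y) z = Ef x z + Ef y z := by
  simp [Ef, Hm_add_left]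
theorem Ef_add_right (x y z : V) : Ef x (y + z) = Ef x y + Ef x z := by
  simp [Ef, Hm_add_right]
theorem Ef_sub_left (x y z : V) : Ef (x - y) z = Ef x z - Ef y z := by
  simp [Ef, Hm_sub_left]
theorem Ef_sub_right (x y z : V) : Ef x (y - z) = Ef x y - Ef x z := by
  simp [Ef, Hm_sub_right]
theorem Ef_neg_left (x y : V) : Ef (-x) y = -Ef x y := by simp [Ef, Hm_neg_left]
theorem Ef_neg_right (x y : V) : Ef x (-y) = -Ef x y := by simp [Ef, Hm_neg_right]
@[simp] theorem Ef_zero_left (x : V) : Ef 0 x = 0 := by simp [Ef]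
@[simp] theorem Ef_zero_right (x : V) : Ef x 0 = 0 := by simp [Ef]
theorem Ef_swap' (x y : V) : Ef x y = -Ef y x := by
  rw [Ef, Ef, ← Hm_conj y x, Complex.conj_im]
theorem Ef_smul_left (c : ℝ) (x y : V) : Ef ((c : ℂ) • x) y = c * Ef x y := by
  rw [Ef, Hm_smul_left, Complex.im_ofReal_mul, Ef]
theorem Ef_smul_right (c : ℝ) (x y : V) : Ef x ((c : ℂ) • y) = c * Ef x y := by
  rw [Ef_swap', Ef_smul_left, Ef_swap' x y]
  ring
theorem Ef_swap (x y : V) : Ef x y = -Ef y x := by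
  rw [Ef, Ef, ← Hm_conj y x, Complex.conj_im]
@[simp] theorem Ef_self (x : V) : Ef x x = 0 := by
  have := Ef_swap x x
  linarith
/-- `Hm x y - Hm y x = 2 i E(x,y)`. -/
theorem Hm_sub_swap (x y : V) : Hm x y - Hm y x = ((2 * Ef x y : ℝ) : ℂ) * Complex.I := by
  rw [← Hm_conj x y, Ef]
  apply Complex.ext <;> simp; ring

theorem Tr_apply (t : ℝ) (x : V) (F : V → ℂ) (z : V) : Tr t x F z =
    Complex.exp (-(((Real.pi * t : ℝ) : ℂ) * Hm z x) - ((Real.pi * t / 2 * ‖x‖ ^ 2 : ℝ) : ℂ)) *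
      F (z + x) := rfl

/-- `T_x T_y = exp (-i pi t E(x,y)) T_(x+y)`. -/
theorem Tr_Tr (t : ℝ) (x y : V) (F : V → ℂ) (z : V) : Tr t x (Tr t y F) z =
    Complex.exp (-((Real.pi * t * Ef x y : ℝ) : ℂ) * Complex.I) * Tr t (x + y) F z := by
  simp only [Tr_apply, ← add_assoc]
  rw [← mul_assoc, ← mul_assoc, ← Complex.exp_add, ← Complex.exp_add]
  congr 2
  rw [norm_add_sq', Hm_add_right, Hm_add_left]
  have h : Hm x y = (((Hm x y).re : ℝ) : ℂ) + ((Ef x y : ℝ) : ℂ) * Complex.I := by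
    rw [Ef]
    exact (Complex.re_add_im _).symm
  rw [h]
  push_cast
  simp
  ring

theorem norm_Tr (t : ℝ) (x : V) (F : V → ℂ) (z : V) : ‖Tr t x F z‖ =
    Real.exp (Real.pi * t / 2 * ‖z‖ ^ 2) *
      (Real.exp (-(Real.pi * t / 2 * ‖z + x‖ ^ 2)) * ‖F (z + x)‖) := by
  rw [Tr_apply, norm_mul, Complex.norm_exp, ← mul_assoc, ← Real.exp_add]
  congr 2
  rw [norm_add_sq', Complex.sub_re, Complex.neg_re, Complex.re_ofReal_mul, Complex.ofReal_re]
  ring

theorem Tr_differentiable (t : ℝ) (x : V) {F : V → ℂ} (hF : Differentiable ℂ F) :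
    Differentiable ℂ (Tr t x F) := by
  have h1 : Differentiable ℂ (fun z : V => Hm z x) := by
    have : (fun z : V => Hm z x) = fun z => (innerSL ℂ x) z := by
      funext z
      simp [Hm]
    rw [this]
    exact (innerSL ℂ x).differentiable
  have h2 : Differentiable ℂ (fun z : V => F (z + x)) := hF.comp (differentiable_id.add_const x)
  exact (((h1.const_mul _).neg.sub_const _).cexp).mul h2

theorem isSec_iff_Tr (L : Submodule ℤ V) (t : ℝ) (χ f : V → ℂ) : IsSec L t χ f ↔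
    Differentiable ℂ f ∧ ∀ l ∈ L, ∀ z, Tr t l f z = χ l * f z := by
  refine and_congr_right fun _ => forall_congr' fun l => forall_congr' fun _ =>
    forall_congr' fun z => ?_
  rw [Tr_apply, fac]
  have h : Complex.exp (-(((Real.pi * t : ℝ) : ℂ) * Hm z l) -
      ((Real.pi * t / 2 * ‖l‖ ^ 2 : ℝ) : ℂ)) * Complex.exp (((Real.pi * t : ℝ) : ℂ) * Hm z l +
      ((Real.pi * t / 2 * ‖l‖ ^ 2 : ℝ) : ℂ)) = 1 := by
    rw [← Complex.exp_add, ← Complex.exp_zero]
    congr 1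
    ring
  constructor
  · intro h1
    rw [h1, mul_comm (χ l), ← mul_assoc, ← mul_assoc, h, one_mul]
  · intro h1
    have h2 := congrArg (fun u => Complex.exp (((Real.pi * t : ℝ) : ℂ) * Hm z l +
      ((Real.pi * t / 2 * ‖l‖ ^ 2 : ℝ) : ℂ)) * u) h1
    rw [← mul_assoc, mul_comm (Complex.exp (((Real.pi * t : ℝ) : ℂ) * Hm z l +
      ((Real.pi * t / 2 * ‖l‖ ^ 2 : ℝ) : ℂ))) (Complex.exp _), h, one_mul] at h2
    rw [h2]
    ring

theorem IsSemichar.ne_zero {L : Submodule ℤ V} {t : ℝ} {χ : V → ℂ} (h : IsSemichar L t χ)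
    {l : V} (hl : l ∈ L) : χ l ≠ 0 := by
  intro h0
  have := h.1 l hl
  rw [h0, norm_zero] at this
  exact zero_ne_one this

theorem IsSemichar.zero {L : Submodule ℤ V} {t : ℝ} {χ : V → ℂ} (h : IsSemichar L t χ) :
    χ 0 = 1 := by
  have h1 := h.2 0 L.zero_mem 0 L.zero_mem
  simp only [add_zero, Ef_zero_left, mul_zero, Complex.ofReal_zero, zero_mul, Complex.exp_zero,
    mul_one] at h1
  have h2 := h.ne_zero L.zero_mem
  exact (mul_left_cancel₀ h2 (by rw [mul_one]; exact h1)).symm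

theorem IsSemichar.neg {L : Submodule ℤ V} {t : ℝ} {χ : V → ℂ} (h : IsSemichar L t χ)
    {l : V} (hl : l ∈ L) : χ (-l) = (starRingEnd ℂ) (χ l) := by
  have h1 := h.2 l hl (-l) (L.neg_mem hl)
  rw [add_neg_cancel, h.zero, Ef_neg_right, Ef_self] at h1
  simp only [neg_zero, mul_zero, Complex.ofReal_zero, zero_mul, Complex.exp_zero,
    mul_one] at h1
  have h2 : χ l * (starRingEnd ℂ) (χ l) = 1 := by
    rw [Complex.mul_conj, Complex.normSq_eq_norm_sq, h.1 l hl]
    simp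
  exact (mul_left_cancel₀ (h.ne_zero hl) (h1.symm.trans h2.symm))

end

section Lattice

variable {V : Type} [NormedAddCommGroup V] [InnerProductSpace ℂ V] [FiniteDimensional ℂ V]
  (L : Submodule ℤ V) [DiscreteTopology L]

theorem summable_exp_norm {c : ℝ} (hc : 0 < c) :
    Summable (fun l : L => Real.exp (-(c * ‖(l : V)‖))) := by
  set n := finrank ℤ L + 1 with hn
  have h1 := ZLattice.summable_norm_pow_inv (L := L) n (by omega)
  have h2 := h1.mul_left ((n.factorial : ℝ) / c ^ n)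
  refine Summable.of_norm_bounded_eventually h2 ?_
  have h3 : ({0}ᶜ : Set L) ∈ (cofinite : Filter L) := by simp
  filter_upwards [h3] with l hl
  have hl0 : 0 < ‖(l : V)‖ := by
    rw [norm_pos_iff]
    intro h
    exact hl (by simpa using h)
  rw [Real.norm_of_nonneg (Real.exp_pos _).le, Real.exp_neg]
  have h4 := Real.pow_div_factorial_le_exp (c * ‖(l : V)‖) (by positivity) n
  have h5 : 0 < (c * ‖(l : V)‖) ^ n / n.factorial := by positivity
  calc (Real.exp (c * ‖(l : V)‖))⁻¹ ≤ ((c * ‖(l : V)‖) ^ n / n.factorial)⁻¹ :=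
        inv_anti₀ h5 h4
    _ = (n.factorial : ℝ) / c ^ n * ‖l‖⁻¹ ^ n := by
        rw [Submodule.coe_norm, mul_pow, inv_div, inv_pow]
        field_simp

theorem summable_exp_norm_sub {c : ℝ} (hc : 0 < c) (x : V) :
    Summable (fun l : L => Real.exp (-(c * ‖(l : V) - x‖))) := by
  refine Summable.of_nonneg_of_le (fun _ => (Real.exp_pos _).le) (fun l => ?_)
    ((summable_exp_norm L hc).mul_left (Real.exp (c * ‖x‖)))
  rw [← Real.exp_add]
  apply Real.exp_le_exp.2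
  have := norm_sub_norm_le (l : V) x
  nlinarith

theorem summable_exp_norm_add {c : ℝ} (hc : 0 < c) (x : V) :
    Summable (fun l : L => Real.exp (-(c * ‖x + (l : V)‖))) := by
  have := summable_exp_norm_sub L hc (-x)
  refine this.congr fun l => ?_
  rw [sub_neg_eq_add, add_comm]

end Lattice

end Pool.Agent.Helper7.JT
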