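import Pool.Agent.Helper7.JT.Smooth

namespace Pool.Agent.Helper7.JT

open MeasureTheory Module Filter Topology Asymptotics

/-- One integration. -/
private theorem step_Jet {V : Type} [NormedAddCommGroup V] [NormedSpace ℂ V] {W : Type}
    [NormedAddCommGroup W] [NormedSpace ℂ W] {G : V → W} (hG : Differentiable ℂ G) (h0 : G 0 = 0)
    {C r : ℝ} {k : ℕ} (hC : 0 ≤ C) (h1 : ∀ z, ‖z‖ < r → ‖fderiv ℂ G z‖ ≤ C * ‖z‖ ^ k) :
    ∀ z, ‖z‖ < r → ‖G z‖ ≤ C * ‖z‖ ^ (k + 1) := by
  intro z hz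
  have h2 := (convex_closedBall (0 : V) ‖z‖).norm_image_sub_le_of_norm_fderiv_le (𝕜 := ℂ)
    (f := G) (C := C * ‖z‖ ^ k) (x := 0) (y := z) (fun w _ => hG w) (fun w hw => ?_)
    (Metric.mem_closedBall_self (norm_nonneg z)) (by simp)
  · rw [h0, sub_zero, sub_zero] at h2
    calc ‖G z‖ ≤ C * ‖z‖ ^ k * ‖z‖ := h2
      _ = C * ‖z‖ ^ (k + 1) := by ring
  · have hw' : ‖w‖ ≤ ‖z‖ := by simpa using hw
    exact (h1 w (hw'.trans_lt hz)).trans
      (mul_le_mul_of_nonneg_left (pow_le_pow_left₀ (norm_nonneg _) hw' k) hC)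

theorem hJet : StJet := by
  intro V _ _ _ F hF hD
  have hF1 : Differentiable ℂ (fderiv ℂ F) := differentiable_fderiv hF
  have hC3 : ContDiff ℂ ((3 : ℕ) : WithTop ℕ∞) F := contDiff_of_entire 3 hF
  have hC2 : ContDiff ℂ 2 (fderiv ℂ F) := hC3.fderiv_right (m := 2) (by norm_num)
  have hC1 : ContDiff ℂ 1 (fderiv ℂ (fderiv ℂ F)) := hC2.fderiv_right (m := 1) (by norm_num)
  have h0 : F 0 = 0 := hD (Sum.inl ())
  have h1 : fderiv ℂ F 0 = 0 := by
    ext v
    have h2 : ∀ v, fderiv ℂ F 0 v = 0 := by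
      intro v
      rw [← (ob (V := V)).sum_repr v, map_sum]
      refine Finset.sum_eq_zero fun i _ => ?_
      rw [map_smul]
      have := hD (Sum.inr (Sum.inl i))
      simp only [Dj] at this
      rw [this, smul_zero]
    simpa using h2 v
  have happ : ∀ u v : V, fderiv ℂ (fun z => fderiv ℂ F z u) 0 v =
      fderiv ℂ (fderiv ℂ F) 0 v u := by
    intro u v
    have h2 := ((hF1 0).hasFDerivAt.clm_apply (hasFDerivAt_const u (0 : V))).fderiv
    rw [h2]
    simp
  have hsymm : ∀ u v : V, fderiv ℂ (fderiv ℂ F) 0 u v = fderiv ℂ (fderiv ℂ F) 0 v u := by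
    intro u v
    have h2 : IsSymmSndFDerivAt ℂ F 0 := by
      refine ContDiffAt.isSymmSndFDerivAt (n := ((3 : ℕ) : WithTop ℕ∞)) hC3.contDiffAt ?_
      simp only [minSmoothness_of_isRCLikeNormedField]
      exact_mod_cast (by norm_num : (2 : ℕ) ≤ 3)
    exact h2.eq u v
  have hbas : ∀ i j, fderiv ℂ (fderiv ℂ F) 0 (ob (V := V) j) (ob (V := V) i) = 0 := by
    intro i j
    rcases le_total i j with hij | hij
    · have := hD (Sum.inr (Sum.inr ⟨(i, j), hij⟩))
      simp only [Dj] at this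
      rw [← happ]
      exact this
    · have := hD (Sum.inr (Sum.inr ⟨(j, i), hij⟩))
      simp only [Dj] at this
      rw [hsymm, ← happ]
      exact this
  have h2 : fderiv ℂ (fderiv ℂ F) 0 = 0 := by
    ext u v
    have h3 : ∀ u v : V, fderiv ℂ (fderiv ℂ F) 0 u v = 0 := by
      intro u v
      rw [← (ob (V := V)).sum_repr v, map_sum]
      refine Finset.sum_eq_zero fun i _ => ?_
      rw [map_smul, ← (ob (V := V)).sum_repr u, map_sum]
      have : (∑ j, fderiv ℂ (fderiv ℂ F) 0 ((ob (V := V)).repr u j • (ob (V := V)) j))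
          (ob (V := V) i) = 0 := by
        rw [sum_apply]
        refine Finset.sum_eq_zero fun j _ => ?_
        rw [map_smul, smul_apply, hbas, smul_zero]
      rw [this, smul_zero]
    simpa using h3 u v
  have h3 : (fderiv ℂ (fderiv ℂ F)) =O[𝓝 0] fun z => z := by
    have h4 := ((hC1.differentiable (by norm_num)) 0).isBigO_sub
    rw [h2] at h4
    refine (h4.congr_right fun x => sub_zero x).congr_left fun x => ?_
    exact sub_zero (fderiv ℂ (fderiv ℂ F) x)
  obtain ⟨C, hC, hb⟩ := h3.exists_pos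
  rw [isBigOWith_iff, Metric.eventually_nhds_iff] at hb
  obtain ⟨r, hr, hb⟩ := hb
  have hb2 : ∀ z : V, ‖z‖ < r → ‖fderiv ℂ (fderiv ℂ F) z‖ ≤ C * ‖z‖ ^ 1 := by
    intro z hz
    rw [pow_one]
    exact hb (by simpa using hz)
  have hb1 := step_Jet hF1 h1 hC.le hb2
  have hb0 := step_Jet hF h0 hC.le hb1
  refine IsBigO.of_bound C ?_
  rw [Metric.eventually_nhds_iff]
  refine ⟨r, hr, fun z hz => ?_⟩
  rw [norm_pow, norm_norm]
  exact hb0 z (by simpa using hz)

end Pool.Agent.Helper7.JT
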