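import Pool.Agent.Helper88.JT.Prod
import Pool.Agent.Helper88.JT.Fourier

/-!
Uniqueness above weight `3`.
-/

namespace Pool.Agent.Helper7.JT

open MeasureTheory Module Filter Topology Asymptotics

section

variable {V : Type} [NormedAddCommGroup V] [InnerProductSpace ℂ V]

/-- The factor comparing the twisted translations of weights `t` and `3`. -/
private noncomputable def GsUp (s : ℝ) (l z : V) : ℂ :=
  Complex.exp (-(((Real.pi * s : ℝ) : ℂ) * Hm z l) - ((Real.pi * s / 2 * ‖l‖ ^ 2 : ℝ) : ℂ))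

private theorem GsUp_differentiable (s : ℝ) (l : V) : Differentiable ℂ (GsUp s l) := by
  have h1 : Differentiable ℂ (fun z : V => Hm z l) := by
    have : (fun z : V => Hm z l) = fun z => (innerSL ℂ l) z := by
      funext z
      simp [Hm]
    rw [this]
    exact (innerSL ℂ l).differentiable
  exact ((h1.const_mul _).neg.sub_const _).cexp

private theorem GsUp_zero (s : ℝ) (l : V) :
    GsUp s l 0 = ((Real.exp (-(Real.pi * s / 2 * ‖l‖ ^ 2)) : ℝ) : ℂ) := by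
  unfold GsUp
  rw [Hm_zero_left, mul_zero, neg_zero, zero_sub]
  push_cast
  rfl

private theorem Tr_eq_GsUp (t : ℝ) (l : V) (F : V → ℂ) (z : V) :
    Tr t l F z = Tr 3 l F z * GsUp (t - 3) l z := by
  rw [Tr_apply, Tr_apply, GsUp, mul_right_comm, ← Complex.exp_add]
  congr 2
  push_cast
  ring

end

section

variable {V : Type} [NormedAddCommGroup V] [InnerProductSpace ℂ V] [FiniteDimensional ℂ V]

private theorem T3g_quad_Up (q : Idx V → ℂ) {θ g : V → ℂ} (hθ : Differentiable ℂ θ)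
    (hg : Differentiable ℂ g) {u₁ u₂ : V}
    (h₁ : θ u₁ = 0) (h₂ : θ u₂ = 0) (u₃ : V) : ∑ i, q i * Dj i (fun z => T3 θ u₁ u₂ u₃ z * g z) =
      (((Real.exp (-(Real.pi * 1 / 2 * ‖u₁‖ ^ 2)) * Real.exp (-(Real.pi * 1 / 2 * ‖u₂‖ ^ 2)) *
        Real.exp (-(Real.pi * 1 / 2 * ‖u₃‖ ^ 2)) : ℝ) : ℂ) * θ u₃) *
        (Bq q (fderiv ℂ θ u₁) (fderiv ℂ θ u₂) * g 0) := by
  have e₁ : Tr 1 u₁ θ 0 = 0 := by rw [Tr_zero_apply, h₁, mul_zero]
  have e₂ : Tr 1 u₂ θ 0 = 0 := by rw [Tr_zero_apply, h₂, mul_zero]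
  have h := sum_Dj_quad q (Tr_differentiable 1 u₁ hθ) (Tr_differentiable 1 u₂ hθ)
    (g := fun z => Tr 1 u₃ θ z * g z) ((Tr_differentiable 1 u₃ hθ).mul hg) e₁ e₂
  have h' : (fun z => T3 θ u₁ u₂ u₃ z * g z) =
      fun z => Tr 1 u₁ θ z * Tr 1 u₂ θ z * (Tr 1 u₃ θ z * g z) := by
    funext z
    simp only [T3]
    ring
  rw [h']
  refine Eq.trans h ?_
  have h3 : Bq q (fderiv ℂ (Tr 1 u₁ θ) 0) (fderiv ℂ (Tr 1 u₂ θ) 0) =
      ((Real.exp (-(Real.pi * 1 / 2 * ‖u₁‖ ^ 2)) : ℝ) : ℂ) *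
      ((Real.exp (-(Real.pi * 1 / 2 * ‖u₂‖ ^ 2)) : ℝ) : ℂ) *
        Bq q (fderiv ℂ θ u₁) (fderiv ℂ θ u₂) := by
    unfold Bq
    rw [Finset.mul_sum]
    refine Finset.sum_congr rfl fun p _ => ?_
    rw [fderiv_Tr_zero 1 hθ h₁, fderiv_Tr_zero 1 hθ h₂, fderiv_Tr_zero 1 hθ h₁,
      fderiv_Tr_zero 1 hθ h₂]
    ring
  rw [h3, Tr_zero_apply]
  push_cast
  ring

private theorem T3g_lin_Up (q : Idx V → ℂ) (hq : ∀ p, q (Sum.inr (Sum.inr p)) = 0) {θ g : V → ℂ}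
    (hθ : Differentiable ℂ θ) (hg : Differentiable ℂ g) {u₁ : V} (h₁ : θ u₁ = 0) (u₂ u₃ : V) :
    ∑ i, q i * Dj i (fun z => T3 θ u₁ u₂ u₃ z * g z) =
      (((Real.exp (-(Real.pi * 1 / 2 * ‖u₁‖ ^ 2)) * Real.exp (-(Real.pi * 1 / 2 * ‖u₂‖ ^ 2)) *
        Real.exp (-(Real.pi * 1 / 2 * ‖u₃‖ ^ 2)) : ℝ) : ℂ) * (θ u₂ * θ u₃)) *
        (fderiv ℂ θ u₁ (∑ i, q (Sum.inr (Sum.inl i)) • ob i) * g 0) := by
  have e₁ : Tr 1 u₁ θ 0 = 0 := by rw [Tr_zero_apply, h₁, mul_zero]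
  have h := sum_Dj_lin q hq (Tr_differentiable 1 u₁ hθ)
    (g := fun z => Tr 1 u₂ θ z * Tr 1 u₃ θ z * g z)
    (((Tr_differentiable 1 u₂ hθ).mul (Tr_differentiable 1 u₃ hθ)).mul hg) e₁
  have h' : (fun z => T3 θ u₁ u₂ u₃ z * g z) =
      fun z => Tr 1 u₁ θ z * (Tr 1 u₂ θ z * Tr 1 u₃ θ z * g z) := by
    funext z
    simp only [T3]
    ring
  rw [h']
  refine Eq.trans h ?_
  rw [fderiv_Tr_zero 1 hθ h₁, Tr_zero_apply, Tr_zero_apply]
  push_cast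
  ring

private theorem T3g_const_Up (q : Idx V → ℂ) (hq : ∀ p, q (Sum.inr (Sum.inr p)) = 0)
    (hq' : ∀ i, q (Sum.inr (Sum.inl i)) = 0) (θ g : V → ℂ) (u₁ u₂ u₃ : V) :
    ∑ i, q i * Dj i (fun z => T3 θ u₁ u₂ u₃ z * g z) =
      (((Real.exp (-(Real.pi * 1 / 2 * ‖u₁‖ ^ 2)) * Real.exp (-(Real.pi * 1 / 2 * ‖u₂‖ ^ 2)) *
        Real.exp (-(Real.pi * 1 / 2 * ‖u₃‖ ^ 2)) : ℝ) : ℂ) * (θ u₁ * θ u₂ * θ u₃)) *
        (q (Sum.inl ()) * g 0) := by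
  rw [sum_Dj_const q hq hq']
  simp only [T3]
  rw [Tr_zero_apply, Tr_zero_apply, Tr_zero_apply]
  push_cast
  ring

private theorem summable_gauss_Up (L : Submodule ℤ V) [DiscreteTopology L] {c : ℝ} (hc : 0 < c) :
    Summable (fun l : L => Real.exp (-(c * ‖(l : V)‖ ^ 2))) := by
  refine Summable.of_nonneg_of_le (fun _ => (Real.exp_pos _).le) (fun l => ?_)
    ((summable_exp_norm L hc).mul_left (Real.exp c))
  rw [← Real.exp_add]
  apply Real.exp_le_exp.2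
  nlinarith [mul_nonneg hc.le (sq_nonneg (‖(l : V)‖ - 1)), mul_nonneg hc.le (norm_nonneg (l : V))]

private theorem coef_zero_Up (hO : StOrth) (L : Submodule ℤ V) [DiscreteTopology L]
    [IsZLattice ℝ L] (hI : IntT L 1) {χ θ : V → ℂ} (hχ : ∀ l ∈ L, ‖χ l‖ = 1)
    (hθ : Differentiable ℂ θ) (hθ0 : ∃ z, θ z ≠ 0) {s : ℝ} (hs : 0 < s) (x : V) (a : L → ℂ)
    {M : ℝ} (ha : ∀ l, ‖a l‖ ≤ M)
    (h : ∀ u, θ u ≠ 0 → ∑' l : L, a l * (χ l ^ 3 *
      Complex.exp (((2 * Real.pi * Ef (x + u) l : ℝ) : ℂ) * Complex.I) *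
      ((Real.exp (-(Real.pi * s / 2 * ‖(l : V)‖ ^ 2)) : ℝ) : ℂ)) = 0) (m : L) : a m = 0 := by
  set c : L → ℂ := fun l => a l * (χ l ^ 3 *
      Complex.exp (((2 * Real.pi * Ef x l : ℝ) : ℂ) * Complex.I) *
      ((Real.exp (-(Real.pi * s / 2 * ‖(l : V)‖ ^ 2)) : ℝ) : ℂ)) with hcdef
  have hcn : ∀ l, ‖c l‖ ≤ M * Real.exp (-(Real.pi * s / 2 * ‖(l : V)‖ ^ 2)) := by
    intro l
    rw [hcdef]
    simp only
    rw [norm_mul, norm_mul, norm_mul, norm_pow, hχ l l.2, Complex.norm_exp_ofReal_mul_I,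
      Complex.norm_real, Real.norm_of_nonneg (Real.exp_pos _).le, one_pow, one_mul, one_mul]
    exact mul_le_mul_of_nonneg_right (ha l) (Real.exp_pos _).le
  have hgs : Summable fun l : L => M * Real.exp (-(Real.pi * s / 2 * ‖(l : V)‖ ^ 2)) :=
    (summable_gauss_Up L (by positivity)).mul_left M
  have hsum : Summable fun l => ‖c l‖ := Summable.of_nonneg_of_le (fun _ => norm_nonneg _) hcn hgs
  have hcont : Continuous fun u : V => ∑' l : L, c l *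
      Complex.exp (((2 * Real.pi * Ef u (l : V) : ℝ) : ℂ) * Complex.I) := by
    refine continuous_tsum (fun l => continuous_const.mul ?_) hsum fun l u => ?_
    · have := continuous_char 1 (l : V)
      simpa using this
    · rw [norm_mul, Complex.norm_exp_ofReal_mul_I, mul_one]
  have hclosed : IsClosed {u : V | ∑' l : L, c l *
      Complex.exp (((2 * Real.pi * Ef u (l : V) : ℝ) : ℂ) * Complex.I) = 0} :=
    isClosed_eq hcont continuous_const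
  have hdense := Pool.Agent.Helper88.JT.dense_ne_zero hθ hθ0
  have hsub : {z | θ z ≠ 0} ⊆ {u : V | ∑' l : L, c l *
      Complex.exp (((2 * Real.pi * Ef u (l : V) : ℝ) : ℂ) * Complex.I) = 0} := by
    intro u hu
    have h1 := h u hu
    show ∑' l : L, c l * Complex.exp (((2 * Real.pi * Ef u (l : V) : ℝ) : ℂ) * Complex.I) = 0
    rw [← h1]
    refine tsum_congr fun l => ?_
    rw [hcdef]
    simp only
    rw [Ef_add_left, show ((2 * Real.pi * (Ef x (l : V) + Ef u (l : V)) : ℝ) : ℂ) * Complex.I =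
      ((2 * Real.pi * Ef x (l : V) : ℝ) : ℂ) * Complex.I +
      ((2 * Real.pi * Ef u (l : V) : ℝ) : ℂ) * Complex.I by push_cast; ring, Complex.exp_add]
    ring
  have hall : ∀ u : V, ∑' l : L, c l *
      Complex.exp (((2 * Real.pi * Ef u (l : V) : ℝ) : ℂ) * Complex.I) = 0 := by
    intro u
    exact hclosed.closure_subset_iff.2 hsub (hdense u)
  have h0 := fourier_unique hO L hI c hsum hall m
  rw [hcdef] at h0
  simp only at h0
  refine (mul_eq_zero.1 h0).resolve_right ?_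
  refine mul_ne_zero (mul_ne_zero (pow_ne_zero _ ?_) (Complex.exp_ne_zero _)) ?_
  · intro hz
    have := hχ m m.2
    rw [hz, norm_zero] at this
    exact zero_ne_one this
  · exact Complex.ofReal_ne_zero.2 (Real.exp_pos _).ne'

end

theorem hUp (hE : StExist) (hS : StSemi) (hGr : StGrad) (hG : StGrowth) (hO : StOrth) : StUp := by
  intro V _ _ _ L _ _ hP t ht P ⟨M, hM⟩ hk
  obtain ⟨χ₀, hχ₀⟩ := hS V L 1 hP.1
  obtain ⟨θ, hθ, hθ0⟩ := hE V L 1 χ₀ one_pos hP.1 hχ₀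
  have hgrad := hGr V L χ₀ θ hP hχ₀ hθ hθ0
  obtain ⟨C, hC⟩ := hG V L 1 χ₀ θ one_pos hχ₀ hθ
  have hC0 : 0 ≤ C := by
    have := (norm_nonneg _).trans (hC 0)
    simpa using this
  have hTn : ∀ u z, ‖Tr 1 u θ z‖ ≤ C * Real.exp (Real.pi * 1 / 2 * ‖z‖ ^ 2) := by
    intro u z
    rw [norm_Tr, mul_comm C]
    refine mul_le_mul_of_nonneg_left ?_ (Real.exp_pos _).le
    calc Real.exp (-(Real.pi * 1 / 2 * ‖z + u‖ ^ 2)) * ‖θ (z + u)‖
        ≤ Real.exp (-(Real.pi * 1 / 2 * ‖z + u‖ ^ 2)) *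
          (C * Real.exp (Real.pi * 1 / 2 * ‖z + u‖ ^ 2)) :=
          mul_le_mul_of_nonneg_left (hC _) (Real.exp_pos _).le
      _ = C := by
        rw [mul_comm, mul_assoc, ← Real.exp_add]
        simp
  have hLoc : ∀ u₁ u₂ u₃, Loc t (T3 θ u₁ u₂ u₃) := by
    intro u₁ u₂ u₃
    refine ⟨T3_differentiable hθ.1 _ _ _, C * C * C, Real.pi * (t - 3) / 2,
      by have := Real.pi_pos; nlinarith, fun z => ?_⟩
    have e : Real.exp ((Real.pi * t / 2 - Real.pi * (t - 3) / 2) * ‖z‖ ^ 2) =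
        Real.exp (Real.pi * 1 / 2 * ‖z‖ ^ 2) * Real.exp (Real.pi * 1 / 2 * ‖z‖ ^ 2) *
        Real.exp (Real.pi * 1 / 2 * ‖z‖ ^ 2) := by
      rw [← Real.exp_add, ← Real.exp_add]
      congr 1
      ring
    rw [e]
    simp only [T3]
    rw [norm_mul, norm_mul]
    calc ‖Tr 1 u₁ θ z‖ * ‖Tr 1 u₂ θ z‖ * ‖Tr 1 u₃ θ z‖
        ≤ (C * Real.exp (Real.pi * 1 / 2 * ‖z‖ ^ 2)) * (C * Real.exp (Real.pi * 1 / 2 * ‖z‖ ^ 2)) *
          (C * Real.exp (Real.pi * 1 / 2 * ‖z‖ ^ 2)) := by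
          have := hTn u₁ z
          have := hTn u₂ z
          have := hTn u₃ z
          gcongr
      _ = _ := by ring
  have hTr : ∀ (l : L) (u₁ u₂ u₃ : V), Tr t (l : V) (T3 θ u₁ u₂ u₃) = fun z =>
      T3 θ u₁ u₂ u₃ z * (χ₀ l ^ 3 *
        Complex.exp (((2 * Real.pi * Ef (u₁ + u₂ + u₃) l : ℝ) : ℂ) * Complex.I) *
        GsUp (t - 3) (l : V) z) := by
    intro l u₁ u₂ u₃
    funext z
    rw [Tr_eq_GsUp, Tr3_T3 hθ l.2]
    ring
  have hgd : ∀ (l : L) (u : V), Differentiable ℂ (fun z => χ₀ l ^ 3 *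
        Complex.exp (((2 * Real.pi * Ef u l : ℝ) : ℂ) * Complex.I) *
        GsUp (t - 3) (l : V) z) := fun l u => (GsUp_differentiable _ _).const_mul _
  have hkill : ∀ u₁ u₂ u₃, ∑' l : L, ∑ i, P l i * Dj i (fun z =>
      T3 θ u₁ u₂ u₃ z * (χ₀ l ^ 3 *
        Complex.exp (((2 * Real.pi * Ef (u₁ + u₂ + u₃) l : ℝ) : ℂ) * Complex.I) *
        GsUp (t - 3) (l : V) z)) = 0 := by
    intro u₁ u₂ u₃
    rw [← hk _ (hLoc u₁ u₂ u₃)]
    refine tsum_congr fun l => ?_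
    rw [hTr]
  have hpos : ∀ u₁ u₂ u₃ : V, ((Real.exp (-(Real.pi * 1 / 2 * ‖u₁‖ ^ 2)) *
      Real.exp (-(Real.pi * 1 / 2 * ‖u₂‖ ^ 2)) *
        Real.exp (-(Real.pi * 1 / 2 * ‖u₃‖ ^ 2)) : ℝ) : ℂ) ≠ 0 := by
    intro u₁ u₂ u₃
    rw [Complex.ofReal_ne_zero]
    positivity
  have hs : 0 < t - 3 := by linarith
  have h3 : ∀ (l : L) (u : V) , (χ₀ l ^ 3 *
        Complex.exp (((2 * Real.pi * Ef u l : ℝ) : ℂ) * Complex.I) *
        GsUp (t - 3) (l : V) 0) = (χ₀ l ^ 3 *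
        Complex.exp (((2 * Real.pi * Ef u l : ℝ) : ℂ) * Complex.I) *
        ((Real.exp (-(Real.pi * (t - 3) / 2 * ‖(l : V)‖ ^ 2)) : ℝ) : ℂ)) := by
    intro l u
    rw [GsUp_zero]
  -- quadratic part
  have s1 : ∀ u₁ u₂, θ u₁ = 0 → θ u₂ = 0 → ∀ l, Bq (P l) (fderiv ℂ θ u₁) (fderiv ℂ θ u₂) = 0 := by
    intro u₁ u₂ h₁ h₂
    refine coef_zero_Up hO L hP.1 hχ₀.1 hθ.1 hθ0 hs (u₁ + u₂) _
      (M := ∑ p : {p : Fin (finrank ℂ V) × Fin (finrank ℂ V) // p.1 ≤ p.2},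
        M * ‖fderiv ℂ θ u₁ (ob p.1.1) * fderiv ℂ θ u₂ (ob p.1.2) +
          fderiv ℂ θ u₁ (ob p.1.2) * fderiv ℂ θ u₂ (ob p.1.1)‖) ?_ ?_
    · intro l
      unfold Bq
      refine (norm_sum_le _ _).trans (Finset.sum_le_sum fun p _ => ?_)
      rw [norm_mul]
      exact mul_le_mul_of_nonneg_right (hM _ _) (norm_nonneg _)
    · intro u hu
      have h := hkill u₁ u₂ u
      simp only [T3g_quad_Up _ hθ.1 (hgd _ _) h₁ h₂ u] at h
      rw [tsum_mul_left] at h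
      have h4 := (mul_eq_zero.1 h).resolve_left (mul_ne_zero (hpos _ _ _) hu)
      simpa only [h3] using h4
  have q1 : ∀ (l : L) p, P l (Sum.inr (Sum.inr p)) = 0 := by
    intro l p
    refine Bq_zero (q := P l) (G := {k | ∃ u, θ u = 0 ∧ k = fderiv ℂ θ u}) ?_ ?_ p
    · intro v hv
      obtain ⟨y, hy, hy'⟩ := hgrad v hv
      exact ⟨_, ⟨y, hy, rfl⟩, hy'⟩
    · rintro _ ⟨u₁, h₁, rfl⟩ _ ⟨u₂, h₂, rfl⟩
      exact s1 u₁ u₂ h₁ h₂ l
  obtain ⟨z₀, hz₀⟩ := hθ0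
  -- linear part
  have s2 : ∀ u₁, θ u₁ = 0 → ∀ l, fderiv ℂ θ u₁ (∑ i, P l (Sum.inr (Sum.inl i)) • ob i) = 0 := by
    intro u₁ h₁
    refine coef_zero_Up hO L hP.1 hχ₀.1 hθ.1 ⟨z₀, hz₀⟩ hs (u₁ + z₀) _
      (M := ∑ i, M * ‖fderiv ℂ θ u₁ (ob i)‖) ?_ ?_
    · intro l
      rw [map_sum]
      refine (norm_sum_le _ _).trans (Finset.sum_le_sum fun i _ => ?_)
      rw [map_smul, norm_smul]
      exact mul_le_mul_of_nonneg_right (hM _ _) (norm_nonneg _)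
    · intro u hu
      have h := hkill u₁ z₀ u
      simp only [T3g_lin_Up _ (q1 _) hθ.1 (hgd _ _) h₁ z₀ u] at h
      rw [tsum_mul_left] at h
      have h4 := (mul_eq_zero.1 h).resolve_left (mul_ne_zero (hpos _ _ _) (mul_ne_zero hz₀ hu))
      simpa only [h3] using h4
  have q2 : ∀ (l : L) i, P l (Sum.inr (Sum.inl i)) = 0 := by
    intro l i
    by_contra hi
    obtain ⟨y, hy, hy'⟩ := hgrad _ (lin_ne_zero hi)
    exact hy' (s2 y hy l)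
  -- constant part
  have q3 : ∀ (l : L), P l (Sum.inl ()) = 0 := by
    refine coef_zero_Up hO L hP.1 hχ₀.1 hθ.1 ⟨z₀, hz₀⟩ hs (z₀ + z₀) _ (M := M)
      (fun l => hM l _) ?_
    intro u hu
    have h := hkill z₀ z₀ u
    simp only [T3g_const_Up _ (q1 _) (q2 _)] at h
    rw [tsum_mul_left] at h
    have h4 := (mul_eq_zero.1 h).resolve_left
      (mul_ne_zero (hpos _ _ _) (mul_ne_zero (mul_ne_zero hz₀ hz₀) hu))
    simpa only [h3] using h4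
  funext l i
  rcases i with i | i | i
  · exact q3 l
  · exact q2 l i
  · exact q1 l i

end Pool.Agent.Helper7.JT
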