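import Pool.Agent.Helper7.JT.St

namespace Pool.Agent.Helper7.JT

open MeasureTheory Module Filter Topology Asymptotics

theorem main_of (hUp : StUp) (hPK : StPK) (hInj : StInj) (hLow : StLow) (hStab : StStab)
    (hPhi : StPhi) (hDown : StDown) : StMain := by
  intro V _ _ _ L _ _ hdim hP
  have hbig : ∀ a b : ℕ, 0 < b → (3 : ℝ) < (a : ℝ) / b → IT0 L 2 a b := by
    intro a b hb hab
    have ha : 0 < a := by
      rcases Nat.eq_zero_or_pos a with h | h
      · subst h
        norm_num at hab
      · exact h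
    exact hPK V L a b ha hb hP.1 (hUp V L hP _ hab)
  set S : Set ℝ := {t : ℝ | ∃ a b : ℕ, 0 < b ∧ t = (a : ℝ) / b ∧ IT0 L 2 a b} with hS
  have hbdd : BddBelow S := by
    refine ⟨0, ?_⟩
    rintro t ⟨a, b, hb, rfl, h⟩
    positivity
  have hne : S.Nonempty := ⟨(4 : ℝ), 4, 1, one_pos, by norm_num, hbig 4 1 one_pos (by norm_num)⟩
  have hle : sInf S ≤ 3 := by
    refine le_of_forall_pos_le_add ?_
    intro ε hε
    obtain ⟨n, hn⟩ := exists_nat_gt (1 / ε)
    have hn0 : (0 : ℝ) < n := lt_trans (by positivity) hn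
    have hn1 : 0 < n := by exact_mod_cast hn0
    have h3 : ((3 * n + 1 : ℕ) : ℝ) / n = 3 + 1 / n := by
      push_cast
      field_simp
    have hmem : (3 : ℝ) + 1 / n ∈ S := by
      refine ⟨3 * n + 1, n, hn1, h3.symm, hbig _ _ hn1 ?_⟩
      rw [h3]
      have : (0 : ℝ) < 1 / n := by positivity
      linarith
    refine (csInf_le hbdd hmem).trans ?_
    have : 1 / (n : ℝ) ≤ ε := by
      rw [div_le_iff₀ hn0]
      rw [div_lt_iff₀ hε] at hn
      linarith
    linarith
  constructor
  · intro hprod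
    refine le_antisymm hle ?_
    refine le_csInf hne ?_
    rintro t ⟨a, b, hb, rfl, h⟩
    by_contra hcon
    push Not at hcon
    exact hDown V L hP hprod a b hb hcon h
  · intro hbeta
    by_contra hprod
    obtain ⟨η, hη, hst⟩ := hStab V L (hLow V L hP.1 (hInj V L hP hprod))
    obtain ⟨n, hn⟩ := exists_nat_gt (1 / η)
    have hn0 : (0 : ℝ) < n := lt_trans (by positivity) hn
    have hn1 : 0 < n := by exact_mod_cast hn0
    have h3 : ((3 * n - 1 : ℕ) : ℝ) / n = 3 - 1 / n := by
      rw [Nat.cast_sub (by omega)]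
      push_cast
      field_simp
    have hpos : (0 : ℝ) < 1 / n := by positivity
    have hu : Uniq L (((3 * n - 1 : ℕ) : ℝ) / n) := by
      intro P hbd hk
      refine hst (((3 * n - 1 : ℕ) : ℝ) / n) ?_ P hbd ?_
      · rw [h3]
        have : 1 / (n : ℝ) < η := by
          rw [div_lt_iff₀ hn0]
          rw [div_lt_iff₀ hη] at hn
          linarith
        rw [abs_lt]
        constructor <;> linarith
      · refine hPhi V L _ P ?_ hk
        have : 0 < 3 * n - 1 := by omega
        have : (0 : ℝ) < ((3 * n - 1 : ℕ) : ℝ) := by exact_mod_cast this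
        positivity
    have hit : IT0 L 2 (3 * n - 1) n := hPK V L _ _ (by omega) hn1 hP.1 hu
    have hmem : (3 : ℝ) - 1 / n ∈ S := ⟨3 * n - 1, n, hn1, h3.symm, hit⟩
    have h1 := csInf_le hbdd hmem
    have h2 : sInf S = 3 := hbeta
    linarith

end Pool.Agent.Helper7.JT
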