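import Mathlib

/-!
Jets separation thresholds of principally polarised complex tori: definitions and the
statements of the modules.

A polarised complex abelian variety is a finite dimensional complex inner product space V
(the inner product is the Hermitian form H of the polarisation) with a lattice L on which
the imaginary part of H is integral.
-/

namespace Pool.Agent.Helper7.JT

open MeasureTheory Module Filter Topology Asymptotics

section Defs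

variable {V : Type} [NormedAddCommGroup V] [InnerProductSpace ℂ V]

/-- The Hermitian form, linear in the first variable. -/
noncomputable def Hm (x y : V) : ℂ := inner ℂ y x

/-- Its imaginary part. -/
noncomputable def Ef (x y : V) : ℝ := (Hm x y).im

/-- The factor of automorphy `exp (pi t H(z,l) + pi t H(l,l) / 2)`. -/
noncomputable def fac (t : ℝ) (z l : V) : ℂ :=
  Complex.exp (((Real.pi * t : ℝ) : ℂ) * Hm z l + ((Real.pi * t / 2 * ‖l‖ ^ 2 : ℝ) : ℂ))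

/-- `t * E` is integral on the lattice. -/
def IntT (L : Submodule ℤ V) (t : ℝ) : Prop :=
  ∀ l ∈ L, ∀ m ∈ L, ∃ n : ℤ, t * Ef l m = n

/-- `t * E` is integral and unimodular on the lattice. -/
def PrincipalT (L : Submodule ℤ V) (t : ℝ) : Prop :=
  IntT L t ∧ ∀ φ : L →+ ℤ, ∃ m ∈ L, ∀ l : L, ((φ l : ℤ) : ℝ) = t * Ef (l : V) m

/-- Semicharacters for `t * H`. -/
def IsSemichar (L : Submodule ℤ V) (t : ℝ) (χ : V → ℂ) : Prop :=
  (∀ l ∈ L, ‖χ l‖ = 1) ∧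
    ∀ l ∈ L, ∀ m ∈ L,
      χ (l + m) = χ l * χ m * Complex.exp (((Real.pi * t * Ef l m : ℝ) : ℂ) * Complex.I)

/-- Theta functions for `(t H, χ)`: the sections of the line bundle `L(t H, χ)`. -/
def IsSec (L : Submodule ℤ V) (t : ℝ) (χ : V → ℂ) (f : V → ℂ) : Prop :=
  Differentiable ℂ f ∧ ∀ l ∈ L, ∀ z, f (z + l) = χ l * fac t z l * f z

/-- `f` and `g` have the same `p`-jet at `e`. -/
def SameJet (p : ℕ) (f g : V → ℂ) (e : V) : Prop :=
  (fun z => f z - g z) =O[𝓝 e] fun z => ‖z - e‖ ^ (p + 1)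

/-- The condition IT(0) for `I_0^(p+1) <(a/b) H>`: for every line bundle with Chern class
`a b H` the sections generate all `p`-jets simultaneously at the `b`-torsion points. -/
def IT0 (L : Submodule ℤ V) (p a b : ℕ) : Prop :=
  ∀ χ : V → ℂ, IsSemichar L ((a * b : ℕ) : ℝ) χ → ∀ e₀ : V, b • e₀ ∈ L →
    ∀ g : V → ℂ, Differentiable ℂ g →
      ∃ f : V → ℂ, IsSec L ((a * b : ℕ) : ℝ) χ f ∧ SameJet p f g e₀ ∧
        ∀ e : V, b • e ∈ L → e - e₀ ∉ L → SameJet p f 0 e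

/-- The `p`-jets separation threshold. -/
noncomputable def beta (L : Submodule ℤ V) (p : ℕ) : ℝ :=
  sInf {t : ℝ | ∃ a b : ℕ, 0 < b ∧ t = (a : ℝ) / b ∧ IT0 L p a b}

/-- Product type: an orthogonal splitting off of a principally polarised elliptic curve. -/
def ProductType (L : Submodule ℤ V) : Prop :=
  ∃ V₁ V₂ : Submodule ℂ V, finrank ℂ V₁ = 1 ∧ IsCompl V₁ V₂ ∧
    (∀ x ∈ V₁, ∀ y ∈ V₂, Hm x y = 0) ∧
    (∀ l ∈ L, ∃ l₁ ∈ L, ∃ l₂ ∈ L, l₁ ∈ V₁ ∧ l₂ ∈ V₂ ∧ l = l₁ + l₂) ∧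
    PrincipalT (L ⊓ V₁.restrictScalars ℤ) 1

/-- Twisted translation of weight `t`. -/
noncomputable def Tr (t : ℝ) (x : V) (F : V → ℂ) : V → ℂ := fun z =>
  Complex.exp (-(((Real.pi * t : ℝ) : ℂ) * Hm z x) - ((Real.pi * t / 2 * ‖x‖ ^ 2 : ℝ) : ℂ)) *
    F (z + x)

variable [FiniteDimensional ℂ V]

/-- A fixed orthonormal basis. -/
noncomputable def ob : OrthonormalBasis (Fin (finrank ℂ V)) ℂ V := stdOrthonormalBasis ℂ V

/-- Index set of the coordinates of a `2`-jet. -/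
abbrev Idx (V : Type) [NormedAddCommGroup V] [InnerProductSpace ℂ V] : Type :=
  Unit ⊕ Fin (finrank ℂ V) ⊕ {p : Fin (finrank ℂ V) × Fin (finrank ℂ V) // p.1 ≤ p.2}

/-- Coordinates of the `2`-jet at `0`. -/
noncomputable def Dj (i : Idx V) (F : V → ℂ) : ℂ :=
  match i with
  | Sum.inl _ => F 0
  | Sum.inr (Sum.inl i) => fderiv ℂ F 0 (ob i)
  | Sum.inr (Sum.inr p) => fderiv ℂ (fun z => fderiv ℂ F z (ob p.1.1)) 0 (ob p.1.2)

/-- Coordinates of the `2`-jet at `0` of `z ↦ exp (pi t H(z,ζ) - pi t |ζ|^2 / 2)`. -/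
noncomputable def Gk (t : ℝ) (ζ : V) (i : Idx V) : ℂ :=
  (match i with
  | Sum.inl _ => (1 : ℂ)
  | Sum.inr (Sum.inl i) => ((Real.pi * t : ℝ) : ℂ) * Hm (ob i) ζ
  | Sum.inr (Sum.inr p) =>
      ((Real.pi * t : ℝ) : ℂ) ^ 2 * Hm (ob p.1.1) ζ * Hm (ob p.1.2) ζ) *
    ((Real.exp (-(Real.pi * t / 2 * ‖ζ‖ ^ 2)) : ℝ) : ℂ)

/-- The transform of a family of functionals on `2`-jets. -/
noncomputable def Phi (L : Submodule ℤ V) (t : ℝ) (P : L → Idx V → ℂ) (w : V) : ℂ :=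
  ∑' l : L, ∑ i, Complex.exp (((Real.pi * t * Ef (l : V) w : ℝ) : ℂ) * Complex.I) * P l i *
    Gk t (w - l) i

/-- Gaussian localised entire functions of weight `t`. -/
def Loc (t : ℝ) (f : V → ℂ) : Prop :=
  Differentiable ℂ f ∧ ∃ C ε : ℝ, 0 < ε ∧ ∀ z, ‖f z‖ ≤ C * Real.exp ((Real.pi * t / 2 - ε) * ‖z‖ ^ 2)

/-- The family `P` annihilates all localised functions. -/
def Kills (L : Submodule ℤ V) (t : ℝ) (P : L → Idx V → ℂ) : Prop :=
  ∀ f : V → ℂ, Loc t f → ∑' l : L, ∑ i, P l i * Dj i (Tr t (l : V) f) = 0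

/-- Uniqueness of weight `t`. -/
def Uniq (L : Submodule ℤ V) (t : ℝ) : Prop :=
  ∀ P : L → Idx V → ℂ, (∃ M : ℝ, ∀ l i, ‖P l i‖ ≤ M) → Kills L t P → P = 0

/-- The Lebesgue measure of the real inner product `Re H`. -/
noncomputable def vol (V : Type) [NormedAddCommGroup V] [InnerProductSpace ℂ V]
    [FiniteDimensional ℂ V] [MeasurableSpace V] [BorelSpace V] : Measure V :=
  @volume V (@measureSpaceOfInnerProductSpace V _ InnerProductSpace.complexToReal _ _ _)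

end Defs

/-! ### Statements, one per module -/

/-- Growth of theta functions. -/
def StGrowth : Prop :=
  ∀ (V : Type) [NormedAddCommGroup V] [InnerProductSpace ℂ V] [FiniteDimensional ℂ V]
    (L : Submodule ℤ V) [DiscreteTopology L] [IsZLattice ℝ L] (t : ℝ) (χ f : V → ℂ), 0 < t →
    IsSemichar L t χ → IsSec L t χ f →
    ∃ C : ℝ, ∀ z, ‖f z‖ ≤ C * Real.exp (Real.pi * t / 2 * ‖z‖ ^ 2)

/-- Gaussian mean value property. -/
def StMV : Prop :=
  ∀ (V : Type) [NormedAddCommGroup V] [InnerProductSpace ℂ V] [FiniteDimensional ℂ V]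
    [MeasurableSpace V] [BorelSpace V] (t : ℝ) (F : V → ℂ), 0 < t → Differentiable ℂ F →
    (∃ C ε : ℝ, 0 < ε ∧ ∀ z, ‖F z‖ ≤ C * Real.exp ((Real.pi * t - ε) * ‖z‖ ^ 2)) →
    (t : ℂ) ^ (finrank ℂ V) *
      ∫ w : V, F w * ((Real.exp (-(Real.pi * t * ‖w‖ ^ 2)) : ℝ) : ℂ) ∂(vol V) = F 0

/-- Reproducing formula. -/
def StRepro : Prop :=
  ∀ (V : Type) [NormedAddCommGroup V] [InnerProductSpace ℂ V] [FiniteDimensional ℂ V]
    [MeasurableSpace V] [BorelSpace V] (t : ℝ) (f : V → ℂ), 0 < t → Differentiable ℂ f →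
    (∃ C : ℝ, ∀ z, ‖f z‖ ≤ C * Real.exp (Real.pi * t / 2 * ‖z‖ ^ 2)) →
    ∀ z : V, f z = (t : ℂ) ^ (finrank ℂ V) *
      ∫ w : V, f w * Complex.exp (((Real.pi * t : ℝ) : ℂ) * Hm z w) *
        ((Real.exp (-(Real.pi * t * ‖w‖ ^ 2)) : ℝ) : ℂ) ∂(vol V)

/-- Reproducing formula for the coordinates of the `2`-jet at `0`. -/
def StRepJ : Prop :=
  ∀ (V : Type) [NormedAddCommGroup V] [InnerProductSpace ℂ V] [FiniteDimensional ℂ V]
    [MeasurableSpace V] [BorelSpace V] (t : ℝ) (f : V → ℂ), 0 < t → Differentiable ℂ f →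
    (∃ C : ℝ, ∀ z, ‖f z‖ ≤ C * Real.exp (Real.pi * t / 2 * ‖z‖ ^ 2)) →
    ∀ i : Idx V, Dj i f = (t : ℂ) ^ (finrank ℂ V) *
      ∫ w : V, f w * Gk t w i * ((Real.exp (-(Real.pi * t / 2 * ‖w‖ ^ 2)) : ℝ) : ℂ) ∂(vol V)

/-- Orthogonality of the characters of the torus. -/
def StOrth : Prop :=
  ∀ (V : Type) [NormedAddCommGroup V] [InnerProductSpace ℂ V] [FiniteDimensional ℂ V]
    [MeasurableSpace V] [BorelSpace V]
    (L : Submodule ℤ V) [DiscreteTopology L] [IsZLattice ℝ L] (t : ℝ) (D : Set V), 0 < t →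
    IntT L t → IsAddFundamentalDomain L D (vol V) → Bornology.IsBounded D →
    ∀ l ∈ L, l ≠ 0 →
      ∫ z in D, Complex.exp (((2 * Real.pi * t * Ef z l : ℝ) : ℂ) * Complex.I) ∂(vol V) = 0

/-- Poincare series. -/
def StPois : Prop :=
  ∀ (V : Type) [NormedAddCommGroup V] [InnerProductSpace ℂ V] [FiniteDimensional ℂ V]
    (L : Submodule ℤ V) [DiscreteTopology L] [IsZLattice ℝ L] (t : ℝ) (χ f : V → ℂ), 0 < t →
    IntT L t → IsSemichar L t χ → Loc t f →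
    ∃ S : V → ℂ, IsSec L t χ S ∧
      (∀ z, HasSum (fun l : L => (starRingEnd ℂ) (χ l) * Tr t (l : V) f z) (S z)) ∧
      ∀ (x : V) (i : Idx V),
        HasSum (fun l : L => (starRingEnd ℂ) (χ l) * Dj i (Tr t x (Tr t (l : V) f)))
          (Dj i (Tr t x S))

/-- Summability of the `2`-jets of the translates of a localised function. -/
def StSumm : Prop :=
  ∀ (V : Type) [NormedAddCommGroup V] [InnerProductSpace ℂ V] [FiniteDimensional ℂ V]
    (L : Submodule ℤ V) [DiscreteTopology L] [IsZLattice ℝ L] (t : ℝ) (f : V → ℂ), 0 < t →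
    Loc t f → ∀ i : Idx V, Summable (fun l : L => ‖Dj i (Tr t (l : V) f)‖)

/-- Dimension bound. -/
def StDim : Prop :=
  ∀ (V : Type) [NormedAddCommGroup V] [InnerProductSpace ℂ V] [FiniteDimensional ℂ V]
    [MeasurableSpace V] [BorelSpace V]
    (L : Submodule ℤ V) [DiscreteTopology L] [IsZLattice ℝ L] (t : ℝ) (χ : V → ℂ), 0 < t →
    IntT L t → IsSemichar L t χ → ∀ (m : ℕ) (f : Fin m → V → ℂ), (∀ i, IsSec L t χ (f i)) →
    LinearIndependent ℂ f → (m : ℝ) ≤ t ^ (finrank ℂ V) * ZLattice.covolume L (vol V)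

/-- Covolume of a unimodular lattice. -/
def StCov : Prop :=
  ∀ (V : Type) [NormedAddCommGroup V] [InnerProductSpace ℂ V] [FiniteDimensional ℂ V]
    [MeasurableSpace V] [BorelSpace V]
    (L : Submodule ℤ V) [DiscreteTopology L] [IsZLattice ℝ L] (t : ℝ), 0 < t →
    PrincipalT L t → t ^ (finrank ℂ V) * ZLattice.covolume L (vol V) = 1

/-- Existence of theta functions. -/
def StExist : Prop :=
  ∀ (V : Type) [NormedAddCommGroup V] [InnerProductSpace ℂ V] [FiniteDimensional ℂ V]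
    (L : Submodule ℤ V) [DiscreteTopology L] [IsZLattice ℝ L] (t : ℝ) (χ : V → ℂ), 0 < t →
    IntT L t → IsSemichar L t χ → ∃ f : V → ℂ, IsSec L t χ f ∧ ∃ z, f z ≠ 0

/-- Existence of semicharacters. -/
def StSemi : Prop :=
  ∀ (V : Type) [NormedAddCommGroup V] [InnerProductSpace ℂ V] [FiniteDimensional ℂ V]
    (L : Submodule ℤ V) [DiscreteTopology L] [IsZLattice ℝ L] (t : ℝ),
    IntT L t → ∃ χ : V → ℂ, IsSemichar L t χ

/-- Characters of the lattice come from `V`. -/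
def StChar : Prop :=
  ∀ (V : Type) [NormedAddCommGroup V] [InnerProductSpace ℂ V] [FiniteDimensional ℂ V]
    (L : Submodule ℤ V) [DiscreteTopology L] [IsZLattice ℝ L] (ψ : V → ℂ),
    (∀ l ∈ L, ‖ψ l‖ = 1) → (∀ l ∈ L, ∀ m ∈ L, ψ (l + m) = ψ l * ψ m) →
    ∃ x : V, ∀ l ∈ L, ψ l = Complex.exp (((2 * Real.pi * Ef x l : ℝ) : ℂ) * Complex.I)

/-- A bound for holomorphic functions all of whose zeros are multiple. -/
def StG1 : Prop :=
  ∀ (h : ℂ → ℂ) (M : ℝ), Differentiable ℂ h → (∀ s, ‖s‖ ≤ 1 → ‖h s‖ ≤ M) →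
    (∀ s, h s = 0 → deriv h s = 0) → ‖deriv h 0‖ ^ 2 ≤ 64 * M * ‖h 0‖

/-- Division of entire functions with locally bounded quotient. -/
def StDiv : Prop :=
  ∀ (V : Type) [NormedAddCommGroup V] [InnerProductSpace ℂ V] [FiniteDimensional ℂ V]
    (θ K : V → ℂ), Differentiable ℂ θ → Differentiable ℂ K → (∃ z, θ z ≠ 0) →
    (∀ y, ∃ C : ℝ, ∀ᶠ z in 𝓝 y, ‖K z‖ ≤ C * ‖θ z‖) →
    ∃ ψ : V → ℂ, Differentiable ℂ ψ ∧ ∀ z, K z = ψ z * θ z

/-- Recurrence in the torus. -/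
def StRec : Prop :=
  ∀ (V : Type) [NormedAddCommGroup V] [InnerProductSpace ℂ V] [FiniteDimensional ℂ V]
    (L : Submodule ℤ V) [DiscreteTopology L] [IsZLattice ℝ L] (x : V) (ε : ℝ) (N : ℕ), 0 < ε →
    ∃ n : ℕ, N ≤ n ∧ ∃ l ∈ L, ‖n • x - l‖ < ε

/-- The gradient of a principal theta function is nondegenerate on the theta divisor. -/
def StGrad : Prop :=
  ∀ (V : Type) [NormedAddCommGroup V] [InnerProductSpace ℂ V] [FiniteDimensional ℂ V]
    (L : Submodule ℤ V) [DiscreteTopology L] [IsZLattice ℝ L] (χ θ : V → ℂ),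
    PrincipalT L 1 → IsSemichar L 1 χ → IsSec L 1 χ θ → (∃ z, θ z ≠ 0) →
    ∀ v : V, v ≠ 0 → ∃ y, θ y = 0 ∧ fderiv ℂ θ y v ≠ 0

/-- Flatness. -/
def StFlat : Prop :=
  ∀ (V : Type) [NormedAddCommGroup V] [InnerProductSpace ℂ V] [FiniteDimensional ℂ V]
    (θ : V → ℂ) (x y₁ y₂ : V), Differentiable ℂ θ → (∃ z, θ z ≠ 0) →
    θ y₁ = 0 → θ y₂ = 0 → fderiv ℂ θ y₁ ≠ 0 → fderiv ℂ θ y₂ ≠ 0 →
    (∀ᶠ p : V × V in 𝓝 (y₁, y₂), θ p.1 = 0 → θ p.2 = 0 → θ (x - p.1 - p.2) = 0) →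
    ∀ w, fderiv ℂ θ y₁ w = 0 → θ (y₁ + w) = 0

/-- A flat hyperplane in the theta divisor has a discrete image of the lattice. -/
def StDisc : Prop :=
  ∀ (V : Type) [NormedAddCommGroup V] [InnerProductSpace ℂ V] [FiniteDimensional ℂ V]
    (L : Submodule ℤ V) (χ θ : V → ℂ), IsSemichar L 1 χ → IsSec L 1 χ θ → (∃ z, θ z ≠ 0) →
    ∀ (f : V →L[ℂ] ℂ) (y : V), f ≠ 0 → (∀ w, f w = 0 → θ (y + w) = 0) →
    ∃ r : ℝ, 0 < r ∧ ∀ l ∈ L, f l ≠ 0 → r ≤ ‖f l‖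

/-- Zero count: an entire function of Gaussian growth vanishing on a lattice. -/
def StJen : Prop :=
  ∀ (w₁ w₂ : ℂ) (h : ℂ → ℂ) (C D β : ℝ), (w₁ * (starRingEnd ℂ) w₂).im ≠ 0 →
    Differentiable ℂ h → (∃ s, h s ≠ 0) → (∀ m n : ℤ, h (m * w₁ + n * w₂) = 0) →
    (∀ s, ‖h s‖ ≤ C * Real.exp (Real.pi / 2 * β * ‖s‖ ^ 2 + D * ‖s‖)) →
    1 ≤ β * |(w₁ * (starRingEnd ℂ) w₂).im|

/-- A flat hyperplane in the theta divisor splits off an elliptic curve. -/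
def StSplit : Prop :=
  ∀ (V : Type) [NormedAddCommGroup V] [InnerProductSpace ℂ V] [FiniteDimensional ℂ V]
    (L : Submodule ℤ V) [DiscreteTopology L] [IsZLattice ℝ L] (χ θ : V → ℂ),
    PrincipalT L 1 → IsSemichar L 1 χ → IsSec L 1 χ θ → (∃ z, θ z ≠ 0) →
    ∀ (f : V →L[ℂ] ℂ) (y : V), f ≠ 0 → (∀ w, f w = 0 → θ (y + w) = 0) → ProductType L

/-- Separation of `2`-jets at weight `3`. -/
def StSep : Prop :=
  ∀ (V : Type) [NormedAddCommGroup V] [InnerProductSpace ℂ V] [FiniteDimensional ℂ V]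
    (L : Submodule ℤ V) [DiscreteTopology L] [IsZLattice ℝ L],
    PrincipalT L 1 → ¬ ProductType L →
    ∀ χ : V → ℂ, IsSemichar L 3 χ → ∀ q : Idx V → ℂ, q ≠ 0 →
      ∃ f : V → ℂ, IsSec L 3 χ f ∧ ∑ i, q i * Dj i f ≠ 0

/-- Injectivity of the transform on quasi-periodic families. -/
def StInj : Prop :=
  ∀ (V : Type) [NormedAddCommGroup V] [InnerProductSpace ℂ V] [FiniteDimensional ℂ V]
    (L : Submodule ℤ V) [DiscreteTopology L] [IsZLattice ℝ L],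
    PrincipalT L 1 → ¬ ProductType L →
    ∀ χ : V → ℂ, IsSemichar L 3 χ → ∀ q : Idx V → ℂ, q ≠ 0 →
      ∃ w : V, Phi L 3 (fun l i => χ l * q i) w ≠ 0

/-- Lower bound for the transform. -/
def StLow : Prop :=
  ∀ (V : Type) [NormedAddCommGroup V] [InnerProductSpace ℂ V] [FiniteDimensional ℂ V]
    (L : Submodule ℤ V) [DiscreteTopology L] [IsZLattice ℝ L], IntT L 1 →
    (∀ χ : V → ℂ, IsSemichar L 3 χ → ∀ q : Idx V → ℂ, q ≠ 0 →
      ∃ w : V, Phi L 3 (fun l i => χ l * q i) w ≠ 0) →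
    ∃ (W : Finset V) (c : ℝ), 0 < c ∧ ∀ v : L → Idx V → ℂ, (∀ i, Summable fun l => ‖v l i‖) →
      (∀ w : V, Summable fun m : L => ‖Phi L 3 v (w + m)‖ ^ 2) ∧
      c * ∑' l : L, ∑ i, ‖v l i‖ ^ 2 ≤ ∑ w ∈ W, ∑' m : L, ‖Phi L 3 v (w + m)‖ ^ 2

/-- Stability of the lower bound in the weight. -/
def StStab : Prop :=
  ∀ (V : Type) [NormedAddCommGroup V] [InnerProductSpace ℂ V] [FiniteDimensional ℂ V]
    (L : Submodule ℤ V) [DiscreteTopology L] [IsZLattice ℝ L],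
    (∃ (W : Finset V) (c : ℝ), 0 < c ∧ ∀ v : L → Idx V → ℂ, (∀ i, Summable fun l => ‖v l i‖) →
      (∀ w : V, Summable fun m : L => ‖Phi L 3 v (w + m)‖ ^ 2) ∧
      c * ∑' l : L, ∑ i, ‖v l i‖ ^ 2 ≤ ∑ w ∈ W, ∑' m : L, ‖Phi L 3 v (w + m)‖ ^ 2) →
    ∃ η : ℝ, 0 < η ∧ ∀ t : ℝ, |t - 3| < η → ∀ P : L → Idx V → ℂ,
      (∃ M : ℝ, ∀ l i, ‖P l i‖ ≤ M) → (∀ w, Phi L t P w = 0) → P = 0

/-- Annihilating families have vanishing transform. -/
def StPhi : Prop :=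
  ∀ (V : Type) [NormedAddCommGroup V] [InnerProductSpace ℂ V] [FiniteDimensional ℂ V]
    (L : Submodule ℤ V) (t : ℝ) (P : L → Idx V → ℂ), 0 < t → Kills L t P →
    ∀ w, Phi L t P w = 0

/-- Taylor: an entire function whose `2`-jet at `0` vanishes is `O(|z|^3)`. -/
def StJet : Prop :=
  ∀ (V : Type) [NormedAddCommGroup V] [InnerProductSpace ℂ V] [FiniteDimensional ℂ V]
    (F : V → ℂ), Differentiable ℂ F → (∀ i : Idx V, Dj i F = 0) →
    F =O[𝓝 0] fun z => ‖z‖ ^ 3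

/-- From uniqueness to IT(0). -/
def StPK : Prop :=
  ∀ (V : Type) [NormedAddCommGroup V] [InnerProductSpace ℂ V] [FiniteDimensional ℂ V]
    (L : Submodule ℤ V) [DiscreteTopology L] [IsZLattice ℝ L] (a b : ℕ), 0 < a → 0 < b →
    IntT L 1 → Uniq L ((a : ℝ) / b) → IT0 L 2 a b

/-- Uniqueness above weight `3`. -/
def StUp : Prop :=
  ∀ (V : Type) [NormedAddCommGroup V] [InnerProductSpace ℂ V] [FiniteDimensional ℂ V]
    (L : Submodule ℤ V) [DiscreteTopology L] [IsZLattice ℝ L], PrincipalT L 1 →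
    ∀ t : ℝ, 3 < t → Uniq L t

/-- Failure of IT(0) below weight `3` for product type. -/
def StDown : Prop :=
  ∀ (V : Type) [NormedAddCommGroup V] [InnerProductSpace ℂ V] [FiniteDimensional ℂ V]
    (L : Submodule ℤ V) [DiscreteTopology L] [IsZLattice ℝ L], PrincipalT L 1 →
    ProductType L → ∀ a b : ℕ, 0 < b → (a : ℝ) / b < 3 → ¬ IT0 L 2 a b

/-- The main statement. -/
def StMain : Prop :=
  ∀ (V : Type) [NormedAddCommGroup V] [InnerProductSpace ℂ V] [FiniteDimensional ℂ V]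
    (L : Submodule ℤ V) [DiscreteTopology L] [IsZLattice ℝ L], 0 < finrank ℂ V →
    PrincipalT L 1 → (ProductType L ↔ beta L 2 = 3)

end Pool.Agent.Helper7.JT
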